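import Pool.Agent.Lib.MP_c9b009_ag.LS.Spec

/-!
# MP_c9b009_ag, row LS, module GTA: the tangent space along a minimal stable prime
-/

set_option autoImplicit false

namespace Pool.Agent.Lib.MPc9b009.LS

open MvPolynomial Pool.Agent.Lib.MPc9b009.B5 Pool.Agent.Lib.MPc9b009.OD
  Pool.Agent.Lib.MPc9b009.PS

namespace GTAM

theorem th_x {N k : ℕ} (g : Biv N) (h : Fin k → Fin N → PR N) (i : Fin N) :
    th g h i (Fin.natAdd (N + k) (0 : Fin 1)) = X i := by
  rw [th, Fin.append_right]

theorem th_g {N k : ℕ} (g : Biv N) (h : Fin k → Fin N → PR N) (i j : Fin N) :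
    th g h i (Fin.castAdd 1 (Fin.castAdd k j)) = g.f i j := by
  rw [th, Fin.append_left, Fin.append_left]

theorem th_h {N k : ℕ} (g : Biv N) (h : Fin k → Fin N → PR N) (i : Fin N) (a : Fin k) :
    th g h i (Fin.castAdd 1 (Fin.natAdd N a)) = h a i := by
  rw [th, Fin.append_left, Fin.append_right]

theorem casesk {N k : ℕ} (j : Fin (N + k + 1)) :
    j = Fin.natAdd (N + k) (0 : Fin 1) ∨ (∃ a : Fin k, j = Fin.castAdd 1 (Fin.natAdd N a)) ∨
      ∃ j' : Fin N, j = Fin.castAdd 1 (Fin.castAdd k j') := by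
  refine Fin.addCases (fun i => ?_) (fun i => ?_) j
  · right
    refine Fin.addCases (fun i' => ?_) (fun i' => ?_) i
    · right
      exact ⟨i', rfl⟩
    · left
      exact ⟨i', rfl⟩
  · left
    rw [Subsingleton.elim i 0]

/-- a nonzero minor bounds the rank from below -/
theorem rank_ge {F : Type} [Field F] {a b n : ℕ} (A : Matrix (Fin a) (Fin b) F)
    (I : Fin (n + 1) → Fin a) (J : Fin (n + 1) → Fin b)
    (h : (Matrix.of fun s t => A (I s) (J t)).det ≠ 0) : n + 1 ≤ A.rank := by
  by_contra hlt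
  exact h ((B5.specRKM F inferInstance a b n A).2 (by omega) I J)

/-- the matrix with one more column -/
def exm {R : Type} {N r : ℕ} (M : Fin N → Fin r → R) (u : Fin N → R) : Fin N → Fin (r + 1) → R :=
  fun i => Fin.cons (u i) (M i)

theorem exm_map {R R' : Type} {N r : ℕ} (M : Fin N → Fin r → R) (u : Fin N → R) (φ : R → R')
    (i : Fin N) (j : Fin (r + 1)) :
    φ (exm M u i j) = exm (fun i j => φ (M i j)) (fun i => φ (u i)) i j := by
  refine Fin.cases ?_ (fun j' => ?_) j
  · rfl
  · rfl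

theorem range_exm {F : Type} {N r : ℕ} (M : Fin N → Fin r → F) (u : Fin N → F) :
    Set.range (Matrix.of (exm M u)).col =
      insert u (Set.range fun j : Fin r => fun i => M i j) := by
  ext v
  constructor
  · rintro ⟨j, rfl⟩
    refine Fin.cases ?_ (fun j' => ?_) j
    · left
      rfl
    · right
      exact ⟨j', rfl⟩
  · rintro (rfl | ⟨j, rfl⟩)
    · exact ⟨0, rfl⟩
    · exact ⟨j.succ, rfl⟩

theorem range_of {F : Type} {N r : ℕ} (M : Fin N → Fin r → F) :
    Set.range (Matrix.of M).col = Set.range fun j : Fin r => fun i => M i j := rfl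

theorem rank_exm_lt {F : Type} [Field F] {N r : ℕ} (M : Fin N → Fin r → F) (u : Fin N → F)
    (h : u ∉ Submodule.span F (Set.range fun j : Fin r => fun i => M i j)) :
    (Matrix.of M).rank < (Matrix.of (exm M u)).rank := by
  rw [Matrix.rank_eq_finrank_span_cols, Matrix.rank_eq_finrank_span_cols, range_exm, range_of]
  apply Submodule.finrank_lt_finrank_of_lt
  refine lt_of_le_of_ne (Submodule.span_mono (Set.subset_insert _ _)) (fun he => h ?_)
  rw [he]
  exact Submodule.subset_span (Set.mem_insert _ _)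

theorem rank_exm_eq {F : Type} [Field F] {N r : ℕ} (M : Fin N → Fin r → F) (u : Fin N → F)
    (h : u ∈ Submodule.span F (Set.range fun j : Fin r => fun i => M i j)) :
    (Matrix.of (exm M u)).rank = (Matrix.of M).rank := by
  rw [Matrix.rank_eq_finrank_span_cols, Matrix.rank_eq_finrank_span_cols, range_exm, range_of,
    Submodule.span_insert_eq_span h]

theorem map_mnr {R : Type} [CommRing R] {N r n : ℕ} (φ : PR N →+* R)
    (π : Fin N → Fin r → PR N) (A : Fin n → Fin N) (J : Fin n → Fin r) :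
    φ (mnr π A J) = (Matrix.of fun a b => φ (π (A a) (J b))).det := by
  rw [mnr, RingHom.map_det]
  rfl

/-- values in the column space at general points give the same at the generic point -/
theorem col_space {N r : ℕ} (P : Ideal (PR N)) (hP : P.IsPrime) (π : Fin N → Fin r → PR N)
    (u : Fin N → PR N) (μ : PR N) (hμ : μ ∉ P)
    (L : Type) [Field L] (φ : PR N →+* L) (hφ : ∀ q, φ q = 0 ↔ q ∈ P)
    (h : ∀ x ∈ Zer P, eval x μ ≠ 0 → (fun i => eval x (u i)) ∈
      Submodule.span ℂ (Set.range fun j : Fin r => fun i => eval x (π i j))) :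
    (fun i => φ (u i)) ∈ Submodule.span L (Set.range fun j : Fin r => fun i => φ (π i j)) := by
  by_contra hn
  have h1 := rank_exm_lt (fun i j => φ (π i j)) (fun i => φ (u i)) hn
  obtain ⟨ρ, hρ⟩ : ∃ ρ, ρ = (Matrix.of (fun i j => φ (π i j))).rank := ⟨_, rfl⟩
  rw [← hρ] at h1
  have h2 : ¬ ∀ (I : Fin (ρ + 1) → Fin N) (J : Fin (ρ + 1) → Fin (r + 1)),
      (Matrix.of fun s t => (Matrix.of (exm (fun i j => φ (π i j)) (fun i => φ (u i))))
        (I s) (J t)).det = 0 := by
    rw [B5.specRKM L inferInstance N (r + 1) ρ _]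
    omega
  push Not at h2
  obtain ⟨A, J, hAJ⟩ := h2
  have hν : mnr (exm π u) A J ∉ P := by
    rw [← hφ, map_mnr]
    simp only [exm_map]
    exact hAJ
  obtain ⟨x, hx, hxν⟩ := HLSM.exists_point hP (h := mnr (exm π u) A J * μ)
    (fun hm => (hP.mem_or_mem hm).elim hν hμ)
  rw [map_mul] at hxν
  have hx1 := left_ne_zero_of_mul hxν
  have hx2 := right_ne_zero_of_mul hxν
  have h3 := h x hx hx2
  have h4 : (Matrix.of fun i j => eval x (π i j)).rank ≤ ρ := by
    rw [← B5.specRKM ℂ inferInstance N r ρ]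
    intro I J'
    have h5 : mnr π I J' ∈ P := by
      rw [← hφ, map_mnr]
      exact (B5.specRKM L inferInstance N r ρ (Matrix.of (fun i j => φ (π i j)))).2
        (le_of_eq hρ.symm) I J'
    have h6 := hx _ h5
    rw [map_mnr] at h6
    exact h6
  have h6 : ρ + 1 ≤ (Matrix.of (exm (fun i j => eval x (π i j)) (fun i => eval x (u i)))).rank := by
    refine rank_ge _ A J ?_
    rw [map_mnr] at hx1
    simp only [exm_map] at hx1
    exact hx1
  have h7 := rank_exm_eq _ _ h3
  omega

theorem vf_mul {N : ℕ} (v : Fin N → PR N) (a b : PR N) :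
    vf v (a * b) = a * vf v b + b * vf v a := by
  rw [vf, vf, vf, Finset.mul_sum, Finset.mul_sum, ← Finset.sum_add_distrib]
  refine Finset.sum_congr rfl fun l _ => ?_
  rw [Derivation.leibniz, smul_eq_mul, smul_eq_mul]
  ring

theorem vf_add {N : ℕ} (v : Fin N → PR N) (a b : PR N) :
    vf v (a + b) = vf v a + vf v b := by
  rw [vf, vf, vf, ← Finset.sum_add_distrib]
  refine Finset.sum_congr rfl fun l _ => ?_
  rw [map_add]
  ring

theorem vf_span {N : ℕ} (v : Fin N → PR N) (S : Set (PR N))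
    (h : ∀ q ∈ S, vf v q ∈ Ideal.span S) : ∀ q ∈ Ideal.span S, vf v q ∈ Ideal.span S := by
  intro q hq
  induction hq using Submodule.span_induction with
  | mem x hx => exact h x hx
  | zero =>
    have h0 : vf v 0 = 0 := by simp [vf]
    rw [h0]
    exact Ideal.zero_mem _
  | add x y hx hy h1 h2 =>
    rw [vf_add]
    exact Ideal.add_mem _ h1 h2
  | smul a x hx h1 =>
    rw [smul_eq_mul, vf_mul]
    exact Ideal.add_mem _ (Ideal.mul_mem_left _ _ h1) (Ideal.mul_mem_right _ _ hx)

/-- the function field -/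
theorem gen_frac {N : ℕ} (P : Ideal (PR N)) [hP : P.IsPrime] :
    Gen P (FractionRing (PR N ⧸ P))
      ((IsScalarTower.toAlgHom ℂ (PR N ⧸ P) (FractionRing (PR N ⧸ P))).comp
        (Ideal.Quotient.mkₐ ℂ P)) := by
  constructor
  · intro q
    rw [← Ideal.Quotient.eq_zero_iff_mem]
    exact (IsFractionRing.injective (PR N ⧸ P) (FractionRing (PR N ⧸ P))).eq_iff' (map_zero _)
  · intro y
    obtain ⟨a, b, hb, hab⟩ := IsFractionRing.div_surjective (A := PR N ⧸ P) y
    obtain ⟨a', rfl⟩ := Ideal.Quotient.mk_surjective a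
    obtain ⟨b', rfl⟩ := Ideal.Quotient.mk_surjective b
    have hb0 : algebraMap (PR N ⧸ P) (FractionRing (PR N ⧸ P)) (Ideal.Quotient.mk P b') ≠ 0 :=
      IsFractionRing.to_map_ne_zero_of_mem_nonZeroDivisors hb
    refine ⟨a', b', hb0, ?_⟩
    rw [← hab]
    exact div_mul_cancel₀ _ hb0

end GTAM

open GTAM

theorem specGTA (hEQT : SpecEQT) (hRNK : SpecRNK) (hEUH : SpecEUH) : SpecGTA := by
  classical
  intro N k s d I z P g h hs hI hstI hjac hCF hz hIz hstz hhz hT hP hzP hst hd hsd hmin hbig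
  have hstg : ∀ Q : Ideal (PR N), Stab (th g h) Q → Stab g.f Q := by
    intro Q hQ q hq j
    have h1 := hQ q hq (Fin.castAdd 1 (Fin.castAdd k j))
    simpa only [th_g] using h1
  have hHom : Hom P := by
    refine (hEUH N P).1 (fun q hq => ?_)
    have h1 := hst q hq (Fin.natAdd (N + k) (0 : Fin 1))
    simpa only [th_x, vf] using h1
  have hIP : I ≤ P := hIz.trans hzP
  have hgen := gen_frac P
  obtain ⟨L, iF, iA, φ, hgen⟩ : ∃ (L : Type) (_ : Field L) (_ : Algebra ℂ L)
      (φ : PR N →ₐ[ℂ] L), Gen P L φ := ⟨_, _, _, _, hgen⟩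
  -- (1)
  have hex3 : ∃ A J : Fin (s + 3) → Fin N, mnr g.f A J ∉ P := by
    by_contra hcon
    push Not at hcon
    apply hbig
    refine PS.specCRI PS.specRKU PS.specBGI N s g I P hs hIP hP hHom (hstg P hst) hcon ?_
    rw [hd]
    exact_mod_cast hsd
  have iC : CharZero L := charZero_of_injective_algebraMap (algebraMap ℂ L).injective
  have hex4 : ∃ A J : Fin (s + 4) → Fin N, mnr g.f A J ∉ P := by
    obtain ⟨A, J, hAJ⟩ := hex3
    have hr : s + 2 + 1 ≤ (Matrix.of fun i j => φ (g.f i j)).rank := by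
      refine rank_ge _ A J ?_
      have h1 : (φ : PR N →+* L) (mnr g.f A J) ≠ 0 := fun h0 => hAJ ((hgen.ker _).1 h0)
      rw [map_mnr] at h1
      exact h1
    obtain ⟨t, ht⟩ := hs
    have hsk : (Matrix.of fun i j => φ (g.f i j)).transpose =
        - (Matrix.of fun i j => φ (g.f i j)) := by
      ext i j
      rw [Matrix.transpose_apply, Matrix.of_apply, Matrix.neg_apply, Matrix.of_apply,
        g.skew i j, map_neg]
    have hr2 : ¬ (Matrix.of fun i j => φ (g.f i j)).rank ≤ s + 3 := by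
      intro hle
      have h2 := B5.specSKE L inferInstance iC N (t + 1) _ hsk (by omega)
      omega
    rw [← B5.specRKM L inferInstance N N (s + 3)] at hr2
    push Not at hr2
    obtain ⟨A', J', h3⟩ := hr2
    refine ⟨A', J', fun hm => h3 ?_⟩
    have h4 : (φ : PR N →+* L) (mnr g.f A' J') = 0 := (hgen.ker _).2 hm
    rw [map_mnr] at h4
    exact h4
  obtain ⟨A, J, hAJ⟩ := hex4
  have hd4 : s + 4 ≤ d := by
    have h1 := B5.specDIM N N (s + 4) g.f P hP (hstg P hst) ⟨A, J, hAJ⟩
    rw [hd] at h1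
    exact_mod_cast h1
  refine ⟨hd4, ⟨A, J, hAJ⟩, ?_⟩
  -- (2)
  obtain ⟨p₀, hp₀, hμ⟩ := HLSM.exists_point hP hAJ
  have hQ : ∀ Q : Ideal (PR N), Q.IsPrime → P ≤ Q → Stab (th g h) Q → p₀ ∈ Zer Q → Q = P := by
    intro Q hQ hPQ hstQ hpQ
    by_contra hne
    have h1 := hmin Q hQ hPQ hstQ hne
    have h2 := B5.specDIM N N (s + 4) g.f Q hQ (hstg Q hstQ)
      ⟨A, J, fun hm => hμ (hpQ _ hm)⟩
    have h3 := h2.trans h1
    have h4 : s + 4 ≤ s + 1 := by exact_mod_cast h3
    omega
  -- (3)
  obtain ⟨n, fI, hfI⟩ := Submodule.fg_iff_exists_fin_generating_family.1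
    (IsNoetherian.noetherian I)
  obtain ⟨m, fz, hfz⟩ := Submodule.fg_iff_exists_fin_generating_family.1
    (IsNoetherian.noetherian z)
  let f : Fin n ⊕ Fin m → PR N := Sum.elim fI fz
  let blk : Fin n ⊕ Fin m → Bool := Sum.isLeft
  have hbl : ∀ a, bi f blk (Sum.inl a) = I := by
    intro a
    rw [bi, ← hfI]
    congr 1
    ext v
    constructor
    · rintro ⟨j, hj, rfl⟩
      rcases j with j | j
      · exact ⟨j, rfl⟩
      · exact absurd hj (by simp [blk])
    · rintro ⟨j, rfl⟩
      exact ⟨Sum.inl j, by simp [blk], rfl⟩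
  have hbr : ∀ a, bi f blk (Sum.inr a) = z := by
    intro a
    rw [bi, ← hfz]
    congr 1
    ext v
    constructor
    · rintro ⟨j, hj, rfl⟩
      rcases j with j | j
      · exact absurd hj (by simp [blk])
      · exact ⟨j, rfl⟩
    · rintro ⟨j, rfl⟩
      exact ⟨Sum.inr j, by simp [blk], rfl⟩
  have hadm : ∀ v : Fin N → PR N, v ∈ adm f blk ↔
      (∀ q ∈ I, vf v q ∈ I) ∧ (∀ q ∈ z, vf v q ∈ z) := by
    intro v
    constructor
    · intro hv
      constructor
      · have h1 : I = Ideal.span (Set.range fI) := hfI.symm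
        rw [h1]
        refine vf_span v _ ?_
        rintro _ ⟨j, rfl⟩
        have h2 := hv (Sum.inl j)
        rw [hbl, h1] at h2
        exact h2
      · have h1 : z = Ideal.span (Set.range fz) := hfz.symm
        rw [h1]
        refine vf_span v _ ?_
        rintro _ ⟨j, rfl⟩
        have h2 := hv (Sum.inr j)
        rw [hbr, h1] at h2
        exact h2
    · rintro ⟨h1, h2⟩ i
      rcases i with i | i
      · rw [hbl]
        refine h1 _ ?_
        rw [← hfI]
        exact Submodule.subset_span ⟨i, rfl⟩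
      · rw [hbr]
        refine h2 _ ?_
        rw [← hfz]
        exact Submodule.subset_span ⟨i, rfl⟩
  have hcol : ∀ j, (fun i => th g h i j) ∈ adm f blk := by
    intro j
    rw [hadm]
    rcases casesk j with rfl | ⟨a, rfl⟩ | ⟨j', rfl⟩
    · simp only [th_x]
      exact ⟨(hEUH N I).2 hI, (hEUH N z).2 hz⟩
    · simp only [th_h]
      exact ⟨hCF.sta a, hhz a⟩
    · simp only [th_g]
      exact ⟨fun q hq => hstI q hq j', fun q hq => hstz q hq j'⟩
  -- (4)
  have hkey : ∀ u ∈ adm f blk, (fun i => φ (u i)) ∈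
      Submodule.span L (Set.range fun j : Fin (N + k + 1) => fun i => φ (th g h i j)) := by
    intro u hu
    rw [hadm] at hu
    refine col_space P hP (th g h) u (mnr g.f A J) hAJ L (φ : PR N →+* L)
      (fun q => hgen.ker q) ?_
    intro x hx hxμ
    refine hT u hu.1 hu.2 x (fun q hq => hx q (hzP hq)) ?_
    by_contra hle
    push Not at hle
    have hx0 : x ≠ 0 := by
      rintro rfl
      apply hxμ
      rw [map_mnr]
      have h1 : (Matrix.of fun a b => eval (0 : Cn N) (g.f (A a) (J b))) =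
          (0 : Matrix (Fin (s + 4)) (Fin (s + 4)) ℂ) := by
        ext a b
        rw [Matrix.of_apply, Matrix.zero_apply]
        have h2 := (g.quad (A a) (J b)).coeff_eq_zero (d := 0) (by simp)
        rw [MvPolynomial.eval_zero]
        exact h2
      rw [h1]
      exact Matrix.det_zero
    have h1 := (PS.specRKC N s g x hs hx0 hle).1
    have h2 : (mat g.f x).rank ≤ s + 2 := by
      rw [← B5.specRKM ℂ inferInstance N N (s + 2)]
      intro I' J'
      rw [← HLSM.eval_mnr]
      exact h1 I' J'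
    have h3 : s + 3 + 1 ≤ (mat g.f x).rank := by
      refine rank_ge _ A J ?_
      rw [← HLSM.eval_mnr]
      exact hxμ
    omega
  -- (5)
  refine hRNK N (N + k + 1) d P (th g h) hP hHom hd L iF iA φ hgen ?_
  intro D
  have h1 := hEQT N (N + k + 1) (Fin n ⊕ Fin m) Bool inferInstance inferInstance P f blk p₀
    (th g h) hP hst hcol hp₀ hQ L iF iA φ hgen D
  refine Submodule.span_le.2 ?_ h1
  rintro w ⟨u, hu, rfl⟩
  exact hkey u hu

end Pool.Agent.Lib.MPc9b009.LS
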