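import Pool.Agent.Lib.MP_c9b009_ag.LS.Spec

/-!
# MP_c9b009_ag, row LS, module EUH: stable under the Euler field = homogeneous
-/

set_option autoImplicit false

namespace Pool.Agent.Lib.MPc9b009.LS

open MvPolynomial Pool.Agent.Lib.MPc9b009.B5 Pool.Agent.Lib.MPc9b009.OD
  Pool.Agent.Lib.MPc9b009.PS

namespace EUHM

/-- the Euler field on a homogeneous polynomial -/
lemma vfX_hom {N e : ℕ} {q : PR N} (hq : q.IsHomogeneous e) :
    vf (fun l => X l) q = C (e : ℂ) * q := by
  unfold vf
  rw [hq.sum_X_mul_pderiv, nsmul_eq_mul, map_natCast]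

/-- the Euler field on a finite sum of homogeneous polynomials -/
lemma vfX_sum {N : ℕ} (S : Finset ℕ) (c : ℕ → PR N) (hc : ∀ e, (c e).IsHomogeneous e) :
    vf (fun l => X l) (∑ e ∈ S, c e) = ∑ e ∈ S, C (e : ℂ) * c e := by
  have h1 : vf (fun l => X l) (∑ e ∈ S, c e) = ∑ e ∈ S, vf (fun l => X l) (c e) := by
    unfold vf
    rw [Finset.sum_comm]
    refine Finset.sum_congr rfl fun l _ => ?_
    rw [map_sum, Finset.mul_sum]
  rw [h1]
  exact Finset.sum_congr rfl fun e _ => vfX_hom (hc e)

/-- the components are in a stable ideal -/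
lemma comp_mem {N : ℕ} (I : Ideal (PR N)) (hI : ∀ q ∈ I, vf (fun l => X l) q ∈ I) :
    ∀ (S : Finset ℕ) (c : ℕ → PR N), (∀ e, (c e).IsHomogeneous e) →
      ∑ e ∈ S, c e ∈ I → ∀ e ∈ S, c e ∈ I := by
  intro S
  induction S using Finset.induction_on with
  | empty =>
    intro c _ _ e he
    simp at he
  | insert a S ha ih =>
    intro c hc hs
    have h1 : ∑ e ∈ S, C ((e : ℂ) - (a : ℂ)) * c e ∈ I := by
      have h2 := I.sub_mem (hI _ hs) (I.mul_mem_left (C (a : ℂ)) hs)
      rw [vfX_sum _ _ hc, Finset.mul_sum, ← Finset.sum_sub_distrib, Finset.sum_insert ha,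
        sub_self, zero_add] at h2
      have h3 : ∑ e ∈ S, C ((e : ℂ) - (a : ℂ)) * c e =
          ∑ e ∈ S, (C (e : ℂ) * c e - C (a : ℂ) * c e) := by
        refine Finset.sum_congr rfl fun e _ => ?_
        rw [C_sub, sub_mul]
      rw [h3]
      exact h2
    have hc' : ∀ e : ℕ, (C ((e : ℂ) - (a : ℂ)) * c e).IsHomogeneous e := by
      intro e
      have := (isHomogeneous_C (Fin N) ((e : ℂ) - (a : ℂ))).mul (hc e)
      rwa [zero_add] at this
    have h4 : ∀ e ∈ S, c e ∈ I := by
      intro e he
      have h5 := ih (fun e => C ((e : ℂ) - (a : ℂ)) * c e) hc' h1 e he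
      have hne : (e : ℂ) - (a : ℂ) ≠ 0 := by
        intro h0
        have h6 : (e : ℂ) = (a : ℂ) := sub_eq_zero.mp h0
        have h7 : e = a := by exact_mod_cast h6
        exact ha (h7 ▸ he)
      have h8 := I.mul_mem_left (C ((e : ℂ) - (a : ℂ))⁻¹) h5
      rwa [← mul_assoc, ← C_mul, inv_mul_cancel₀ hne, C_1, one_mul] at h8
    intro e he
    rcases Finset.mem_insert.mp he with rfl | he
    · rw [Finset.sum_insert ha] at hs
      have h9 : ∑ e ∈ S, c e ∈ I := I.sum_mem fun e he => h4 e he
      exact (I.add_mem_iff_left h9).mp hs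
    · exact h4 e he

end EUHM

theorem specEUH : SpecEUH := by
  intro N I
  constructor
  · intro hI q hq d
    by_cases hd : d ∈ Finset.range (q.totalDegree + 1)
    · refine EUHM.comp_mem I hI (Finset.range (q.totalDegree + 1))
        (fun e => homogeneousComponent e q) (fun e => homogeneousComponent_isHomogeneous e q)
        ?_ d hd
      rw [sum_homogeneousComponent]
      exact hq
    · rw [homogeneousComponent_eq_zero d q (by
        rw [Finset.mem_range] at hd
        omega)]
      exact I.zero_mem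
  · intro hI q hq
    have h1 := EUHM.vfX_sum (Finset.range (q.totalDegree + 1))
      (fun e => homogeneousComponent e q) (fun e => homogeneousComponent_isHomogeneous e q)
    rw [sum_homogeneousComponent] at h1
    rw [h1]
    exact I.sum_mem fun e _ => I.mul_mem_left _ (hI q hq e)

end Pool.Agent.Lib.MPc9b009.LS
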