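import Pool.Agent.Lib.MP_c9b009_ag.LS.Spec

/-!
# MP_c9b009_ag, row LS: DUA, a vector field which preserves `P` and the block ideals moves the points
-/

set_option autoImplicit false

namespace Pool.Agent.Lib.MPc9b009.LS

open MvPolynomial Pool.Agent.Lib.MPc9b009.B5 Pool.Agent.Lib.MPc9b009.OD
  Pool.Agent.Lib.MPc9b009.PS

namespace DUAM

theorem vf_C {N : ℕ} (v : Fin N → PR N) (a : ℂ) : vf v (C a) = 0 := by
  unfold vf
  simp

theorem vf_add {N : ℕ} (v : Fin N → PR N) (p q : PR N) : vf v (p + q) = vf v p + vf v q := by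
  unfold vf
  rw [← Finset.sum_add_distrib]
  refine Finset.sum_congr rfl fun l _ => ?_
  rw [map_add, mul_add]

theorem vf_mul {N : ℕ} (v : Fin N → PR N) (p q : PR N) :
    vf v (p * q) = vf v p * q + p * vf v q := by
  unfold vf
  rw [Finset.sum_mul, Finset.mul_sum, ← Finset.sum_add_distrib]
  refine Finset.sum_congr rfl fun l _ => ?_
  rw [Derivation.leibniz, smul_eq_mul, smul_eq_mul]
  ring

theorem vf_X {N : ℕ} (v : Fin N → PR N) (i : Fin N) : vf v (X i) = v i := by
  unfold vf
  rw [Finset.sum_eq_single i]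
  · rw [pderiv_X_self, mul_one]
  · intro b _ hb
    rw [pderiv_X_of_ne hb.symm, mul_zero]
  · intro h
    exact absurd (Finset.mem_univ i) h

/-- Taylor -/
theorem taylor {N : ℕ} {S S' : Type} [CommRing S] [CommRing S'] [Algebra ℂ S] [Algebra ℂ S']
    (I : S →ₐ[ℂ] S') (e : S') (he : e * e = 0) (g : Fin N → S) (v : Fin N → PR N) (q : PR N) :
    aeval (fun l => I (g l) + e * I (aeval g (v l))) q =
      I (aeval g q) + e * I (aeval g (vf v q)) := by
  induction q using MvPolynomial.induction_on with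
  | C a =>
    rw [vf_C, map_zero, map_zero, mul_zero, add_zero, algHom_C, algHom_C, AlgHom.commutes]
  | add p q hp hq =>
    rw [map_add, hp, hq, vf_add, map_add, map_add, map_add, map_add]
    ring
  | mul_X p i hp =>
    rw [map_mul, hp, aeval_X, vf_mul, vf_X, map_mul, map_add, map_mul, map_mul, aeval_X, map_add,
      map_mul, map_mul, map_mul]
    linear_combination (I (aeval g (vf v p)) * I (aeval g (v i))) * he

theorem span_image {R : Type} [CommRing R] {κ : Type} [Fintype κ] (f : κ → R) (s : Set κ) (x : R)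
    (hx : x ∈ Ideal.span (f '' s)) : ∃ c : κ → R, (∀ j, j ∉ s → c j = 0) ∧ x = ∑ j, c j * f j := by
  have h := (Finsupp.mem_span_image_iff_linearCombination R (v := f) (s := s) (x := x)).1 hx
  obtain ⟨l, hl, rfl⟩ := h
  refine ⟨l, fun j hj => ?_, ?_⟩
  · rw [Finsupp.mem_supported] at hl
    by_contra hne
    exact hj (hl (Finsupp.mem_support_iff.2 hne))
  · rw [Finsupp.linearCombination_apply, Finsupp.sum_fintype]
    · rfl
    · intro i
      exact zero_smul R (f i)

theorem map_YI {N k : ℕ} {B B' : Type} [CommRing B] [CommRing B'] [Algebra ℂ B] [Algebra ℂ B']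
    (ι : B →ₐ[ℂ] B') (x : MvPolynomial (Fin N) B) (hx : x ∈ YI N k B) :
    mapAlgHom ι x ∈ YI N k B' := by
  have h1 : (MvPolynomial.idealOfVars (Fin N) B).map (mapAlgHom ι : _ →ₐ[ℂ] _).toRingHom ≤
      MvPolynomial.idealOfVars (Fin N) B' := by
    unfold MvPolynomial.idealOfVars
    rw [Ideal.map_span, Ideal.span_le]
    rintro _ ⟨_, ⟨i, rfl⟩, rfl⟩
    apply Ideal.subset_span
    refine ⟨i, ?_⟩
    simp
  have h2 : (mapAlgHom ι : _ →ₐ[ℂ] _).toRingHom x ∈
      (YI N k B).map (mapAlgHom ι : _ →ₐ[ℂ] _).toRingHom := Ideal.mem_map_of_mem _ hx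
  unfold YI at h2
  rw [Ideal.map_pow] at h2
  exact Ideal.pow_right_mono h1 (k + 1) h2

theorem map_tr {N : ℕ} {B B' : Type} [CommRing B] [CommRing B'] [Algebra ℂ B] [Algebra ℂ B']
    (ι : B →ₐ[ℂ] B') (p₀ : Cn N) (q : PR N) : mapAlgHom ι (tr B p₀ q) = tr B' p₀ q := by
  unfold tr
  induction q using MvPolynomial.induction_on with
  | C a => rw [algHom_C, algHom_C, AlgHom.commutes]
  | add p q hp hq => rw [map_add, map_add, hp, hq, map_add]
  | mul_X p i hp =>
    rw [map_mul, map_mul, hp, aeval_X, map_mul, aeval_X, map_add]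
    congr 2
    · simp
    · simp

theorem cc {N : ℕ} {B : Type} [CommRing B] [Algebra ℂ B] (g : Fin N → MvPolynomial (Fin N) B)
    (q : PR N) : constantCoeff (aeval g q) = aeval (fun l => constantCoeff (g l)) q := by
  induction q using MvPolynomial.induction_on with
  | C a =>
    rw [algHom_C, algHom_C, MvPolynomial.algebraMap_apply, constantCoeff_C]
  | add p q hp hq => rw [map_add, map_add, map_add, hp, hq]
  | mul_X p i hp => rw [map_mul, map_mul, map_mul, hp, aeval_X, aeval_X]

theorem cc_map {N : ℕ} {B B' : Type} [CommRing B] [CommRing B'] [Algebra ℂ B] [Algebra ℂ B']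
    (ι : B →ₐ[ℂ] B') (x : MvPolynomial (Fin N) B) :
    constantCoeff (mapAlgHom ι x) = ι (constantCoeff x) := by
  change constantCoeff (MvPolynomial.map ι.toRingHom x) = _
  rw [constantCoeff_map]
  rfl

theorem co_map {N : ℕ} {B B' : Type} [CommRing B] [CommRing B'] [Algebra ℂ B] [Algebra ℂ B']
    (ι : B →ₐ[ℂ] B') (x : MvPolynomial (Fin N) B) (s : Fin N →₀ ℕ) :
    coeff s (mapAlgHom ι x) = ι (coeff s x) := by
  change coeff s (MvPolynomial.map ι.toRingHom x) = _
  rw [coeff_map]
  rfl

theorem main {N k : ℕ} {κ τ : Type} [Fintype κ] [DecidableEq τ]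
    (P : Ideal (PR N)) (f : κ → PR N) (blk : κ → τ) (p₀ : Cn N) (v : Fin N → PR N)
    (hP : ∀ q ∈ P, vf v q ∈ P) (c : κ → κ → PR N) (hc0 : ∀ i j, blk j ≠ blk i → c i j = 0)
    (hc : ∀ i, vf v (f i) = ∑ j, c i j * f j)
    {B B' : Type} [CommRing B] [CommRing B'] [Algebra ℂ B] [Algebra ℂ B']
    (ι : B →ₐ[ℂ] B') (ε : B') (hε : ε * ε = 0) (π : B' →+* B) (hπ : ∀ x, π (ι x) = x)
    (hπε : π ε = 0) (hu : ∀ x : B', IsUnit (π x) → IsUnit x) (b : Pt N k P f blk p₀ B) :
    ∃ b' : Pt N k P f blk p₀ B', ∀ i, constantCoeff (b'.γ i) = ι (constantCoeff (b.γ i)) +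
      ε * ι (aeval (fun l => constantCoeff (b.γ l)) (v i)) := by
  set I : MvPolynomial (Fin N) B →ₐ[ℂ] MvPolynomial (Fin N) B' := mapAlgHom ι with hI
  set e : MvPolynomial (Fin N) B' := C ε with he
  have hee : e * e = 0 := by rw [he, ← C_mul, hε, C_0]
  -- the new point
  set γ' : Fin N → MvPolynomial (Fin N) B' := fun l => I (b.γ l) + e * I (aeval b.γ (v l)) with hγ'
  have hT : ∀ q : PR N, aeval γ' q = I (aeval b.γ q) + e * I (aeval b.γ (vf v q)) :=
    fun q => taylor I e hee b.γ v q
  have hγ0 : ∀ l, constantCoeff (γ' l) = ι (constantCoeff (b.γ l)) +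
      ε * ι (aeval (fun l => constantCoeff (b.γ l)) (v l)) := by
    intro l
    rw [hγ', he]
    simp only [map_add, map_mul, constantCoeff_C]
    rw [hI, cc_map, cc_map, cc]
  -- coefficients
  set M : κ → κ → MvPolynomial (Fin N) B := fun i j => if blk j = blk i then b.m i j else 0 with hM
  set M' : κ → κ → MvPolynomial (Fin N) B := fun i j => if blk j = blk i then b.m' i j else 0
    with hM'
  set G : κ → κ → MvPolynomial (Fin N) B := fun i j => aeval b.γ (c i j) with hG
  have hM0 : ∀ i j, blk j ≠ blk i → M i j = 0 := fun i j h => if_neg h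
  have hM0' : ∀ i j, blk j ≠ blk i → M' i j = 0 := fun i j h => if_neg h
  have hG0 : ∀ i j, blk j ≠ blk i → G i j = 0 := fun i j h => by rw [hG]; simp only; rw [hc0 i j h, map_zero]
  have e1 : ∀ i, aeval b.γ (f i) - ∑ j, M i j * tr B p₀ (f j) ∈ YI N k B := by
    intro i
    have h := b.e1 i
    have h2 : ∑ j, (if blk j = blk i then b.m i j * tr B p₀ (f j) else 0) =
        ∑ j, M i j * tr B p₀ (f j) := by
      refine Finset.sum_congr rfl fun j _ => ?_
      rw [hM]
      simp only
      split_ifs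
      · rfl
      · rw [zero_mul]
    rwa [h2] at h
  have e2 : ∀ i, tr B p₀ (f i) - ∑ j, M' i j * aeval b.γ (f j) ∈ YI N k B := by
    intro i
    have h := b.e2 i
    have h2 : ∑ j, (if blk j = blk i then b.m' i j * aeval b.γ (f j) else 0) =
        ∑ j, M' i j * aeval b.γ (f j) := by
      refine Finset.sum_congr rfl fun j _ => ?_
      rw [hM']
      simp only
      split_ifs
      · rfl
      · rw [zero_mul]
    rwa [h2] at h
  have hF : ∀ i, aeval γ' (f i) = I (aeval b.γ (f i)) + e * ∑ l, I (G i l) * I (aeval b.γ (f l)) := by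
    intro i
    rw [hT, hc i, map_sum, map_sum]
    congr 2
    refine Finset.sum_congr rfl fun l _ => ?_
    rw [map_mul, map_mul]
  -- the new matrices
  set R : κ → κ → MvPolynomial (Fin N) B' := fun i j => I (M i j) + e * ∑ l, I (G i l) * I (M l j)
    with hR
  set R' : κ → κ → MvPolynomial (Fin N) B' := fun i j => I (M' i j) - e * ∑ l, I (M' i l) * I (G l j)
    with hR'
  have hR0 : ∀ i j, blk j ≠ blk i → R i j = 0 := by
    intro i j hij
    rw [hR]
    simp only
    rw [hM0 i j hij, map_zero, zero_add, Finset.sum_eq_zero, mul_zero]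
    intro l _
    by_cases h : blk l = blk i
    · rw [hM0 l j (by rw [h]; exact hij), map_zero, mul_zero]
    · rw [hG0 i l h, map_zero, zero_mul]
  have hR0' : ∀ i j, blk j ≠ blk i → R' i j = 0 := by
    intro i j hij
    rw [hR']
    simp only
    rw [hM0' i j hij, map_zero, zero_sub, Finset.sum_eq_zero, mul_zero, neg_zero]
    intro l _
    by_cases h : blk l = blk i
    · rw [hG0 l j (by rw [h]; exact hij), map_zero, mul_zero]
    · rw [hM0' i l h, map_zero, zero_mul]
  refine ⟨⟨γ', R, R', ?_, ?_, ?_, ?_⟩, hγ0⟩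
  · intro i
    have h2 : ∑ j, (if blk j = blk i then R i j * tr B' p₀ (f j) else 0) =
        ∑ j, R i j * tr B' p₀ (f j) := by
      refine Finset.sum_congr rfl fun j _ => ?_
      split_ifs with h
      · rfl
      · rw [hR0 i j h, zero_mul]
    rw [h2]
    have h3 : ∑ j, R i j * tr B' p₀ (f j) = I (∑ j, M i j * tr B p₀ (f j)) +
        e * ∑ l, I (G i l) * I (∑ j, M l j * tr B p₀ (f j)) := by
      have h4 : ∀ j, R i j * tr B' p₀ (f j) = I (M i j * tr B p₀ (f j)) +
          e * ∑ l, I (G i l) * I (M l j * tr B p₀ (f j)) := by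
        intro j
        rw [← map_tr ι p₀ (f j), hR]
        simp only
        rw [add_mul, mul_assoc, Finset.sum_mul, map_mul]
        congr 2
        refine Finset.sum_congr rfl fun l _ => ?_
        rw [map_mul, mul_assoc]
      rw [Finset.sum_congr rfl fun j _ => h4 j, Finset.sum_add_distrib, map_sum, ← Finset.mul_sum,
        Finset.sum_comm]
      congr 2
      refine Finset.sum_congr rfl fun l _ => ?_
      rw [map_sum, Finset.mul_sum]
    have h5 : aeval γ' (f i) - ∑ j, R i j * tr B' p₀ (f j) =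
        I (aeval b.γ (f i) - ∑ j, M i j * tr B p₀ (f j)) +
          e * ∑ l, I (G i l) * I (aeval b.γ (f l) - ∑ j, M l j * tr B p₀ (f j)) := by
      rw [hF, h3, map_sub]
      have h6 : ∀ l, I (G i l) * I (aeval b.γ (f l) - ∑ j, M l j * tr B p₀ (f j)) =
          I (G i l) * I (aeval b.γ (f l)) - I (G i l) * I (∑ j, M l j * tr B p₀ (f j)) := by
        intro l
        rw [map_sub, mul_sub]
      rw [Finset.sum_congr rfl fun l _ => h6 l, Finset.sum_sub_distrib]
      ring
    rw [h5]
    refine Ideal.add_mem _ (map_YI ι _ (e1 i)) (Ideal.mul_mem_left _ _ (Ideal.sum_mem _ fun l _ =>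
      Ideal.mul_mem_left _ _ (map_YI ι _ (e1 l))))
  · intro i
    have h2 : ∑ j, (if blk j = blk i then R' i j * aeval γ' (f j) else 0) =
        ∑ j, R' i j * aeval γ' (f j) := by
      refine Finset.sum_congr rfl fun j _ => ?_
      split_ifs with h
      · rfl
      · rw [hR0' i j h, zero_mul]
    rw [h2]
    have h3 : ∑ j, R' i j * aeval γ' (f j) = I (∑ j, M' i j * aeval b.γ (f j)) := by
      have h4 : ∀ j, R' i j * aeval γ' (f j) = I (M' i j * aeval b.γ (f j)) +
          e * (I (M' i j) * ∑ l, I (G j l) * I (aeval b.γ (f l))) -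
          e * ((∑ l, I (M' i l) * I (G l j)) * I (aeval b.γ (f j))) := by
        intro j
        rw [hF, hR', map_mul]
        simp only
        linear_combination (-(∑ l, I (M' i l) * I (G l j)) *
          ∑ l, I (G j l) * I (aeval b.γ (f l))) * hee
      rw [Finset.sum_congr rfl fun j _ => h4 j, Finset.sum_sub_distrib, Finset.sum_add_distrib,
        ← Finset.mul_sum, ← Finset.mul_sum, map_sum]
      have h5 : ∑ j, I (M' i j) * ∑ l, I (G j l) * I (aeval b.γ (f l)) =
          ∑ j, (∑ l, I (M' i l) * I (G l j)) * I (aeval b.γ (f j)) := by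
        rw [Finset.sum_congr rfl fun j _ => Finset.mul_sum _ _ _, Finset.sum_comm]
        refine Finset.sum_congr rfl fun l _ => ?_
        rw [Finset.sum_mul]
        refine Finset.sum_congr rfl fun j _ => ?_
        rw [mul_assoc]
      rw [h5, add_sub_cancel_right]
    rw [h3, ← map_tr ι p₀ (f i), ← map_sub]
    exact map_YI ι _ (e2 i)
  · intro q hq
    have h1 : (fun i => constantCoeff (γ' i)) = fun l => ι (constantCoeff (b.γ l)) +
        ε * ι (aeval (fun l => constantCoeff (b.γ l)) (v l)) := funext hγ0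
    rw [h1, taylor ι ε hε (fun l => constantCoeff (b.γ l)) v q, b.base q hq,
      b.base _ (hP q hq), map_zero, mul_zero, add_zero]
  · apply hu
    rw [RingHom.map_det]
    have h1 : π.mapMatrix (Matrix.of fun i j => coeff (Finsupp.single j 1) (γ' i)) =
        Matrix.of fun i j => coeff (Finsupp.single j 1) (b.γ i) := by
      ext i j
      rw [RingHom.mapMatrix_apply, Matrix.map_apply, Matrix.of_apply, Matrix.of_apply, hγ', he]
      simp only
      rw [coeff_add, coeff_C_mul, hI, co_map, co_map, map_add, map_mul, hπε, zero_mul, add_zero, hπ]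
    rw [h1]
    exact b.inv

end DUAM

open DUAM

theorem specDUA : SpecDUA := by
  intro N k κ τ _ _ P f blk p₀ v hP hv B _ _ b
  have hc : ∀ i, ∃ c : κ → PR N, (∀ j, j ∉ {j | blk j = blk i} → c j = 0) ∧
      vf v (f i) = ∑ j, c j * f j :=
    fun i => span_image f {j | blk j = blk i} (vf v (f i)) (hv i)
  choose c hc0 hc using hc
  obtain ⟨b', hb'⟩ := main P f blk p₀ v hP c (fun i j h => hc0 i j h) hc
    (TrivSqZeroExt.inlAlgHom ℂ B B) (DualNumber.eps : DualNumber B) DualNumber.eps_mul_eps
    (TrivSqZeroExt.fstHom B B B : DualNumber B →ₐ[B] B).toRingHom (fun x => rfl) rfl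
    (fun x hx => TrivSqZeroExt.isUnit_iff_isUnit_fst.2 hx) b
  refine ⟨DualNumber B, inferInstance, inferInstance, _, _, b', DualNumber.eps_mul_eps, ?_, hb'⟩
  intro s t h
  have h1 := congrArg TrivSqZeroExt.fst h
  have h2 := congrArg TrivSqZeroExt.snd h
  constructor
  · simpa using h1
  · simpa using h2

end Pool.Agent.Lib.MPc9b009.LS
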