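import Pool.Agent.Lib.MP_c9b009_ag.LS.SpecB

/-!
# MP_c9b009_ag, row LS: module ALE
-/

set_option autoImplicit false

namespace Pool.Agent.Lib.MPc9b009.LS

open MvPolynomial Pool.Agent.Lib.MPc9b009.B5 Pool.Agent.Lib.MPc9b009.OD
  Pool.Agent.Lib.MPc9b009.PS

namespace ALEM

theorem contract {R : Type*} [CommRing R] {N : ℕ} (Q : Fin N → Fin N → R)
    (hsk : ∀ a b, Q b a = - Q a b) (h v : Fin N → R) (a c : Fin N) :
    ∑ b, ∑ d, h b * v d * (Q a b * Q c d - Q a c * Q b d + Q a d * Q b c) =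
      (∑ b, Q a b * h b) * (∑ d, Q c d * v d) - Q a c * (∑ b, h b * ∑ d, Q b d * v d)
        - (∑ d, Q a d * v d) * (∑ b, Q c b * h b) := by
  have e1 : (∑ b, Q a b * h b) * (∑ d, Q c d * v d) =
      ∑ b, ∑ d, (Q a b * h b) * (Q c d * v d) := Finset.sum_mul_sum _ _ _ _
  have e2 : Q a c * (∑ b, h b * ∑ d, Q b d * v d) =
      ∑ b, ∑ d, Q a c * (h b * (Q b d * v d)) := by
    simp only [Finset.mul_sum]
  have e3 : (∑ d, Q a d * v d) * (∑ b, Q c b * h b) =
      ∑ b, ∑ d, (Q a d * v d) * (Q c b * h b) := by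
    rw [Finset.sum_mul_sum, Finset.sum_comm]
  rw [e1, e2, e3, ← Finset.sum_sub_distrib, ← Finset.sum_sub_distrib]
  refine Finset.sum_congr rfl fun b _ => ?_
  rw [← Finset.sum_sub_distrib, ← Finset.sum_sub_distrib]
  refine Finset.sum_congr rfl fun d _ => ?_
  rw [hsk c b]
  ring

theorem core {R : Type*} [CommRing R] [IsDomain R] {N : ℕ} (g Q : Fin N → Fin N → R)
    (κ P ϖ G : R) (D v h : Fin N → R) (hg : ∀ i j, g j i = - g i j)
    (hQ : ∀ a b, Q b a = - Q a b)
    (hgQ : ∀ a b, ∑ l, g a l * Q l b = if a = b then κ * P else 0) (hP : P = ϖ * G)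
    (hϖ : Prime ϖ) (hκ : IsUnit κ) (hG : ¬ ϖ ∣ G)
    (hPl : ∀ a b c d, ϖ ∣ Q a b * Q c d - Q a c * Q b d + Q a d * Q b c)
    (hh : ∀ l, ϖ * h l = ∑ m, g l m * D m) (hv : ϖ ∣ ∑ l, v l * D l) (p q : Fin N) :
    ϖ ∣ (∑ l, Q p l * v l) * D q - (∑ l, Q q l * v l) * D p := by
  -- `Q h = κ G D`
  have hQh : ∀ a, ∑ l, Q a l * h l = κ * G * D a := by
    intro a
    refine mul_left_cancel₀ hϖ.ne_zero ?_
    calc ϖ * ∑ l, Q a l * h l = ∑ l, Q a l * ∑ m, g l m * D m := by
          rw [Finset.mul_sum]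
          refine Finset.sum_congr rfl fun l _ => ?_
          rw [← hh l]
          ring
      _ = ∑ m, (∑ l, g m l * Q l a) * D m := by
          simp only [Finset.mul_sum, Finset.sum_mul]
          rw [Finset.sum_comm]
          refine Finset.sum_congr rfl fun m _ => Finset.sum_congr rfl fun l _ => ?_
          rw [hg m l, hQ l a]
          ring
      _ = κ * P * D a := by
          simp only [hgQ, ite_mul, zero_mul]
          rw [Finset.sum_ite_eq' Finset.univ a]
          simp
      _ = ϖ * (κ * G * D a) := by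
          rw [hP]
          ring
  have hhv : ϖ ∣ ∑ b, h b * ∑ d, Q b d * v d := by
    have e : ∑ b, h b * ∑ d, Q b d * v d = - (κ * G * ∑ d, v d * D d) := by
      calc ∑ b, h b * ∑ d, Q b d * v d = - ∑ d, v d * ∑ b, Q d b * h b := by
            simp only [Finset.mul_sum]
            rw [Finset.sum_comm, ← Finset.sum_neg_distrib]
            refine Finset.sum_congr rfl fun d _ => ?_
            rw [← Finset.sum_neg_distrib]
            refine Finset.sum_congr rfl fun b _ => ?_
            rw [hQ d b]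
            ring
        _ = _ := by
            rw [Finset.mul_sum]
            congr 1
            refine Finset.sum_congr rfl fun d _ => ?_
            rw [hQh d]
            ring
    rw [e]
    exact (hv.mul_left _).neg_right
  have hS : ϖ ∣ ∑ b, ∑ d, h b * v d * (Q p b * Q q d - Q p q * Q b d + Q p d * Q b q) :=
    Finset.dvd_sum fun b _ => Finset.dvd_sum fun d _ => (hPl p b q d).mul_left _
  rw [contract Q hQ, hQh, hQh] at hS
  have h1 : ϖ ∣ κ * G * ((∑ l, Q p l * v l) * D q - (∑ l, Q q l * v l) * D p) := by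
    have h2 : κ * G * ((∑ l, Q p l * v l) * D q - (∑ l, Q q l * v l) * D p) =
        - (κ * G * D p * (∑ d, Q q d * v d) - Q p q * (∑ b, h b * ∑ d, Q b d * v d)
          - (∑ d, Q p d * v d) * (κ * G * D q)) -
          Q p q * (∑ b, h b * ∑ d, Q b d * v d) := by
      ring
    rw [h2]
    exact dvd_sub hS.neg_right (hhv.mul_left _)
  rcases hϖ.dvd_or_dvd h1 with h3 | h3
  · rcases hϖ.dvd_or_dvd h3 with h4 | h4
    · exact absurd (isUnit_of_dvd_unit h4 hκ) hϖ.not_isUnit
    · exact absurd h4 hG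
  · exact h3

end ALEM

theorem specALE (hSQF : SpecSQF) (hSTE : SpecSTE) (hQAD : SpecQAD) : SpecALE := by
  intro N n g F hL v hv
  obtain ⟨s1, s2, -, -⟩ := hSQF N n F hL.toNCF
  obtain ⟨κ, Q, hκ, hsk, hgQ, hPl⟩ := hQAD N n g F hL
  refine ⟨κ, fun p => ∑ l, Q p l * v l, hκ, ?_, ?_⟩
  · intro a
    calc ∑ b, g.f a b * ∑ l, Q b l * v l = ∑ l, (∑ b, g.f a b * Q b l) * v l := by
          simp only [Finset.mul_sum, Finset.sum_mul]
          rw [Finset.sum_comm]
          refine Finset.sum_congr rfl fun _ _ => Finset.sum_congr rfl fun _ _ => ?_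
          ring
      _ = C κ * (∏ j, F j) * v a := by
          simp only [hgQ, ite_mul, zero_mul]
          rw [Finset.sum_ite_eq Finset.univ a]
          simp
  · intro i p q
    obtain ⟨h, hh⟩ : ∃ h : Fin N → PR N, ∀ l, F i * h l = ∑ m, g.f l m * pderiv m (F i) := by
      choose h hh using hSTE N n g F hL i
      exact ⟨h, fun l => (hh l).symm⟩
    have hFi : Prime (F i) := (hL.irr i).prime
    have hprod : ∏ j, F j = F i * ∏ j ∈ Finset.univ.erase i, F j :=
      (Finset.mul_prod_erase Finset.univ F (Finset.mem_univ i)).symm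
    have hvi : F i ∣ ∑ l, v l * pderiv l (F i) := by
      have h1 : F i ∣ vf v (∏ j, F j) :=
        (Dvd.intro _ hprod.symm).trans (Ideal.mem_span_singleton.1 hv)
      have h2 : F i ∣ ∑ l, v l * (pderiv l (∏ j, F j) -
          (∏ j ∈ Finset.univ.erase i, F j) * pderiv l (F i)) :=
        Finset.dvd_sum fun l _ => (s1 i l).mul_left _
      have h3 : (∏ j ∈ Finset.univ.erase i, F j) * ∑ l, v l * pderiv l (F i) =
          vf v (∏ j, F j) - ∑ l, v l * (pderiv l (∏ j, F j) -
            (∏ j ∈ Finset.univ.erase i, F j) * pderiv l (F i)) := by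
        unfold vf
        rw [Finset.mul_sum, ← Finset.sum_sub_distrib]
        refine Finset.sum_congr rfl fun l _ => ?_
        ring
      have h4 : F i ∣ (∏ j ∈ Finset.univ.erase i, F j) * ∑ l, v l * pderiv l (F i) := by
        rw [h3]
        exact dvd_sub h1 h2
      exact (hFi.dvd_or_dvd h4).resolve_left (s2 i)
    exact ALEM.core g.f Q (C κ) (∏ j, F j) (F i) _ (fun l => pderiv l (F i)) v h g.skew hsk hgQ
      hprod hFi (hκ.isUnit.map C) (s2 i) (hPl i) hh hvi p q

end Pool.Agent.Lib.MPc9b009.LS
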