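import Pool.Agent.Lib.MP_c9b009_ag.LS.Spec

set_option autoImplicit false

namespace Pool.Agent.Lib.MPc9b009.LS

open MvPolynomial Pool.Agent.Lib.MPc9b009.B5 Pool.Agent.Lib.MPc9b009.OD
  Pool.Agent.Lib.MPc9b009.PS

namespace ALFM

/-- a vector with `z_i = 0` which is mapped into the ideal `I` by `g` -/
theorem lin {R : Type*} [CommRing R] {m : ℕ} (g : Matrix (Fin (m + 1)) (Fin (m + 1)) R)
    (I : Ideal R) (i : Fin (m + 1)) (z : Fin (m + 1) → R) (hz : z i = 0)
    (h : ∀ a, ∑ b, g a b * z b ∈ I) (q : Fin (m + 1)) :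
    (g.submatrix i.succAbove i.succAbove).det * z q ∈ I := by
  rcases Fin.eq_self_or_eq_succAbove i q with rfl | ⟨k, rfl⟩
  · rw [hz, mul_zero]
    exact I.zero_mem
  · set A := g.submatrix i.succAbove i.succAbove with hA
    have h1 : A.adjugate.mulVec (A.mulVec fun k => z (i.succAbove k)) =
        A.det • fun k => z (i.succAbove k) := by
      rw [Matrix.mulVec_mulVec, Matrix.adjugate_mul, Matrix.smul_mulVec, Matrix.one_mulVec]
    have h2 : A.det * z (i.succAbove k) =
        ∑ a, A.adjugate k a * ∑ b, g (i.succAbove a) b * z b := by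
      have h3 := congrFun h1 k
      simp only [Pi.smul_apply, smul_eq_mul] at h3
      rw [← h3]
      simp only [Matrix.mulVec, dotProduct]
      refine Finset.sum_congr rfl fun a _ => ?_
      congr 1
      rw [Fin.sum_univ_succAbove _ i, hz, mul_zero, zero_add]
      rfl
    rw [h2]
    exact Ideal.sum_mem _ fun a _ => I.mul_mem_left _ (h _)

/-- Cramer's rule for the submatrix -/
theorem cram {R : Type*} [CommRing R] [IsDomain R] {m : ℕ}
    (g : Matrix (Fin (m + 1)) (Fin (m + 1)) R) (u v : Fin (m + 1) → R)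
    (hu : ∀ b, ∑ a, u a * g a b = 0) (huv : ∑ a, u a * v a = 0) (i : Fin (m + 1))
    (hi : u i ≠ 0) :
    ∃ β : Fin (m + 1) → R, ∀ a, ∑ b, g a b * β b =
      (g.submatrix i.succAbove i.succAbove).det * v a := by
  set A := g.submatrix i.succAbove i.succAbove with hA
  set w : Fin m → R := A.adjugate.mulVec fun k => v (i.succAbove k) with hw
  have h1 : ∀ a : Fin m, ∑ b, g (i.succAbove a) b * (Fin.insertNth i 0 w : Fin (m + 1) → R) b =
      A.det * v (i.succAbove a) := by
    intro a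
    have h2 : A.mulVec w = A.det • fun k => v (i.succAbove k) := by
      rw [hw, Matrix.mulVec_mulVec, Matrix.mul_adjugate, Matrix.smul_mulVec, Matrix.one_mulVec]
    have h3 := congrFun h2 a
    simp only [Pi.smul_apply, smul_eq_mul] at h3
    rw [← h3, Fin.sum_univ_succAbove _ i]
    simp only [Fin.insertNth_apply_same, mul_zero, zero_add, Fin.insertNth_apply_succAbove]
    rfl
  refine ⟨Fin.insertNth i 0 w, fun a => ?_⟩
  rcases Fin.eq_self_or_eq_succAbove i a with rfl | ⟨k, rfl⟩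
  · have h4 : ∑ c, u c * ∑ b, g c b * (Fin.insertNth a 0 w : Fin (m + 1) → R) b = 0 := by
      have : ∑ c, u c * ∑ b, g c b * (Fin.insertNth a 0 w : Fin (m + 1) → R) b =
          ∑ b, (∑ c, u c * g c b) * (Fin.insertNth a 0 w : Fin (m + 1) → R) b := by
        simp only [Finset.mul_sum, Finset.sum_mul]
        rw [Finset.sum_comm]
        refine Finset.sum_congr rfl fun b _ => Finset.sum_congr rfl fun c _ => ?_
        ring
      rw [this]
      exact Finset.sum_eq_zero fun b _ => by rw [hu b, zero_mul]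
    rw [Fin.sum_univ_succAbove _ a] at h4 huv
    simp only [h1] at h4
    have h5 : ∑ x : Fin m, u (a.succAbove x) * (A.det * v (a.succAbove x)) =
        A.det * ∑ x : Fin m, u (a.succAbove x) * v (a.succAbove x) := by
      rw [Finset.mul_sum]
      exact Finset.sum_congr rfl fun x _ => by ring
    rw [h5] at h4
    apply mul_left_cancel₀ hi
    linear_combination h4 - A.det * huv
  · exact h1 k

/-- `d ∣ c d_j` for all `j`, and no prime divides all the `d_j`: `d ∣ c` -/
theorem dvd_ufd {R : Type*} [CommRing R] [IsDomain R] [UniqueFactorizationMonoid R] {ι : Type*}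
    (dj : ι → R) (hp : ∀ p : R, Prime p → ∃ j, ¬ p ∣ dj j) (d : R) (hd : d ≠ 0) :
    ∀ c : R, (∀ j, d ∣ c * dj j) → d ∣ c := by
  revert hd
  refine UniqueFactorizationMonoid.induction_on_prime d ?_ ?_ ?_
  · intro h
    exact absurd rfl h
  · intro x hx _ c _
    exact hx.dvd
  · intro a p ha hpp IH _ c hc
    obtain ⟨j, hj⟩ := hp p hpp
    have h1 : p ∣ c := by
      rcases hpp.dvd_or_dvd ((dvd_mul_right p a).trans (hc j)) with h | h
      · exact h
      · exact absurd h hj
    obtain ⟨c', rfl⟩ := h1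
    refine mul_dvd_mul_left p (IH ha c' fun j => ?_)
    have := hc j
    rw [mul_assoc] at this
    exact (mul_dvd_mul_iff_left hpp.ne_zero).mp this

end ALFM

open ALFM in
/-- ALF -/
theorem specALF (hSQF : SpecSQF) (hADJ : SpecADJ) : SpecALF := by
  intro N n g F hL v hv
  obtain ⟨hodd, κ, hκ, hadj⟩ := hADJ N n g F hL
  obtain ⟨s1, s2, s3, s4⟩ := hSQF N n F hL.toNCF
  obtain ⟨m, rfl⟩ : ∃ m, N = m + 1 := ⟨N - 1, by have := hodd.pos; omega⟩
  set P : PR (m + 1) := ∏ j, F j with hP
  set u : Fin (m + 1) → PR (m + 1) := fun p => pderiv p P with hu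
  set A : Matrix (Fin (m + 1)) (Fin (m + 1)) (PR (m + 1)) := Matrix.of g.f with hA
  have hP0 : P ≠ 0 := by
    rw [hP]
    exact Finset.prod_ne_zero_iff.mpr fun j _ => (hL.irr j).ne_zero
  have hdet : ∀ i, (A.submatrix i.succAbove i.succAbove).det = C κ * (u i * u i) := by
    intro i
    have h1 := Matrix.adjugate_fin_succ_eq_det_submatrix A i i
    have h2 : A.adjugate i i = C κ * pderiv i P * pderiv i P := hadj i i
    rw [h2] at h1
    have h3 : ((-1 : PR (m + 1)) ^ ((i : ℕ) + (i : ℕ))) = 1 := by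
      rw [← two_mul]
      exact Even.neg_one_pow (even_two_mul _)
    rw [h3, one_mul] at h1
    rw [← h1]
    ring
  have hgu : ∀ a, ∑ b, A a b * u b = 0 := fun a => hL.cas a
  have hug : ∀ b, ∑ a, u a * A a b = 0 := by
    intro b
    have h1 := hgu b
    rw [← neg_eq_zero, ← Finset.sum_neg_distrib] at h1
    rw [← h1]
    refine Finset.sum_congr rfl fun a _ => ?_
    have h2 : A a b = - A b a := g.skew b a
    rw [h2]
    ring
  have huv : ∑ a, u a * v a = 0 := by
    have h1 : ∑ l, v l * pderiv l P = 0 := hv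
    rw [← h1]
    exact Finset.sum_congr rfl fun a _ => mul_comm _ _
  have heul : ∑ b, X b * u b = C ((m + 1 : ℕ) : ℂ) * P := by
    have h1 := hL.deg.sum_X_mul_pderiv
    rw [map_natCast C (m + 1), ← nsmul_eq_mul]
    exact h1
  have hm0 : ((m + 1 : ℕ) : ℂ) ≠ 0 := by
    exact_mod_cast Nat.succ_ne_zero m
  have hCm : (C ((m + 1 : ℕ) : ℂ) : PR (m + 1)) ≠ 0 := by
    rw [Ne, C_eq_zero]
    exact hm0
  have hCκ : (C κ : PR (m + 1)) ≠ 0 := by
    rw [Ne, C_eq_zero]
    exact hκ
  -- some partial derivative is not zero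
  obtain ⟨i₀, hi₀⟩ : ∃ i, u i ≠ 0 := by
    by_contra hcon
    push Not at hcon
    have h1 : ∑ b, X b * u b = 0 := Finset.sum_eq_zero fun b _ => by rw [hcon b, mul_zero]
    rw [heul] at h1
    exact (mul_ne_zero hCm hP0) h1
  -- uniqueness
  have huq : ∀ δ : Fin (m + 1) → PR (m + 1), (∀ a, ∑ b, A a b * δ b = 0) →
      ∑ b, X b * δ b = 0 → ∀ q, δ q = 0 := by
    intro δ h1 h2
    have h3 : ∀ q, u i₀ * δ q - δ i₀ * u q = 0 := by
      intro q
      have h4 := lin A ⊥ i₀ (fun q => u i₀ * δ q - δ i₀ * u q) (by ring) (fun a => by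
        rw [Ideal.mem_bot]
        have h5 : ∑ b, A a b * (u i₀ * δ b - δ i₀ * u b) =
            u i₀ * ∑ b, A a b * δ b - δ i₀ * ∑ b, A a b * u b := by
          rw [Finset.mul_sum, Finset.mul_sum, ← Finset.sum_sub_distrib]
          exact Finset.sum_congr rfl fun b _ => by ring
        rw [h5, h1, hgu, mul_zero, mul_zero, sub_zero]) q
      rw [Ideal.mem_bot, hdet] at h4
      rcases mul_eq_zero.mp h4 with h5 | h5
      · exact absurd h5 (mul_ne_zero hCκ (mul_ne_zero hi₀ hi₀))
      · exact h5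
    have h6 : δ i₀ * (C ((m + 1 : ℕ) : ℂ) * P) = 0 := by
      have h7 : ∑ q, X q * (u i₀ * δ q - δ i₀ * u q) = 0 :=
        Finset.sum_eq_zero fun q _ => by rw [h3 q, mul_zero]
      have h8 : ∑ q, X q * (u i₀ * δ q - δ i₀ * u q) =
          u i₀ * ∑ q, X q * δ q - δ i₀ * ∑ q, X q * u q := by
        rw [Finset.mul_sum, Finset.mul_sum, ← Finset.sum_sub_distrib]
        exact Finset.sum_congr rfl fun b _ => by ring
      rw [h8, h2, heul] at h7
      linear_combination -h7
    have h9 : δ i₀ = 0 := by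
      rcases mul_eq_zero.mp h6 with h | h
      · exact h
      · exact absurd h (mul_ne_zero hCm hP0)
    intro q
    have h10 := h3 q
    rw [h9, zero_mul, sub_zero] at h10
    rcases mul_eq_zero.mp h10 with h | h
    · exact absurd h hi₀
    · exact h
  -- existence up to a factor
  have hex : ∀ i, u i ≠ 0 → ∃ γ : Fin (m + 1) → PR (m + 1),
      (∀ a, ∑ b, A a b * γ b = C ((m + 1 : ℕ) : ℂ) * C κ * (u i * u i) * P * v a) ∧
      ∑ b, X b * γ b = 0 := by
    intro i hi
    obtain ⟨β, hβ⟩ := cram A u v hug huv i hi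
    set x : PR (m + 1) := ∑ b, X b * β b with hx
    refine ⟨fun b => C ((m + 1 : ℕ) : ℂ) * P * β b - x * u b, fun a => ?_, ?_⟩
    · have h5 : ∑ b, A a b * (C ((m + 1 : ℕ) : ℂ) * P * β b - x * u b) =
          C ((m + 1 : ℕ) : ℂ) * P * ∑ b, A a b * β b - x * ∑ b, A a b * u b := by
        rw [Finset.mul_sum, Finset.mul_sum, ← Finset.sum_sub_distrib]
        exact Finset.sum_congr rfl fun b _ => by ring
      rw [h5, hβ, hgu, hdet]
      ring
    · have h5 : ∑ b, X b * (C ((m + 1 : ℕ) : ℂ) * P * β b - x * u b) =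
          C ((m + 1 : ℕ) : ℂ) * P * ∑ b, X b * β b - x * ∑ b, X b * u b := by
        rw [Finset.mul_sum, Finset.mul_sum, ← Finset.sum_sub_distrib]
        exact Finset.sum_congr rfl fun b _ => by ring
      rw [h5, heul, ← hx]
      ring
  obtain ⟨γ, hγ1, hγ2⟩ := hex i₀ hi₀
  have hdvd : ∀ p, u i₀ * u i₀ ∣ γ p := by
    intro p
    refine dvd_ufd (fun j => u j * u j) (fun q hq => ?_) _ (mul_ne_zero hi₀ hi₀) _ (fun j => ?_)
    · obtain ⟨j, hj⟩ := s4 q hq
      exact ⟨j, fun h => hj ((hq.dvd_or_dvd h).elim id id)⟩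
    · by_cases hj : u j = 0
      · simp only [hj, mul_zero]
        exact dvd_zero _
      · obtain ⟨γ', hγ'1, hγ'2⟩ := hex j hj
        have h1 := huq (fun p => u j * u j * γ p - u i₀ * u i₀ * γ' p) (fun a => by
          have h5 : ∑ b, A a b * (u j * u j * γ b - u i₀ * u i₀ * γ' b) =
              u j * u j * ∑ b, A a b * γ b - u i₀ * u i₀ * ∑ b, A a b * γ' b := by
            rw [Finset.mul_sum, Finset.mul_sum, ← Finset.sum_sub_distrib]
            exact Finset.sum_congr rfl fun b _ => by ring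
          rw [h5, hγ1, hγ'1]
          ring) (by
          have h5 : ∑ b, X b * (u j * u j * γ b - u i₀ * u i₀ * γ' b) =
              u j * u j * ∑ b, X b * γ b - u i₀ * u i₀ * ∑ b, X b * γ' b := by
            rw [Finset.mul_sum, Finset.mul_sum, ← Finset.sum_sub_distrib]
            exact Finset.sum_congr rfl fun b _ => by ring
          rw [h5, hγ2, hγ'2]
          ring) p
        exact ⟨γ' p, by linear_combination h1⟩
  choose α' hα' using hdvd
  have hCC : (C ((m + 1 : ℕ) : ℂ) * C κ : PR (m + 1)) * C (((m + 1 : ℕ) : ℂ) * κ)⁻¹ = 1 := by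
    rw [← C_mul, ← C_mul, mul_inv_cancel₀ (mul_ne_zero hm0 hκ), C_1]
  have hg : ∀ a, ∑ b, A a b * (C (((m + 1 : ℕ) : ℂ) * κ)⁻¹ * α' b) = P * v a := by
    intro a
    have h1 := hγ1 a
    have h2 : ∑ b, A a b * γ b = u i₀ * u i₀ * ∑ b, A a b * α' b := by
      rw [Finset.mul_sum]
      exact Finset.sum_congr rfl fun b _ => by rw [hα' b]; ring
    have h3 : ∑ b, A a b * α' b = C ((m + 1 : ℕ) : ℂ) * C κ * (P * v a) := by
      apply mul_left_cancel₀ (mul_ne_zero hi₀ hi₀)
      rw [← h2, h1]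
      ring
    have h4 : ∑ b, A a b * (C (((m + 1 : ℕ) : ℂ) * κ)⁻¹ * α' b) =
        C (((m + 1 : ℕ) : ℂ) * κ)⁻¹ * ∑ b, A a b * α' b := by
      rw [Finset.mul_sum]
      exact Finset.sum_congr rfl fun b _ => by ring
    rw [h4, h3]
    linear_combination (P * v a) * hCC
  set α : Fin (m + 1) → PR (m + 1) := fun b => C (((m + 1 : ℕ) : ℂ) * κ)⁻¹ * α' b with hα
  refine ⟨α, hg, ?_⟩
  -- second part
  intro i p q
  have hpr : Prime (F i) := (hL.irr i).prime
  set G : PR (m + 1) := ∏ j ∈ Finset.univ.erase i, F j with hG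
  have hFP : F i ∣ P := Finset.dvd_prod_of_mem _ (Finset.mem_univ i)
  obtain ⟨p₀, hp₀⟩ : ∃ p, ¬ F i ∣ u p := by
    obtain ⟨p, hp⟩ := s3 i
    refine ⟨p, fun h => ?_⟩
    have h1 := (dvd_sub h (s1 i p))
    rw [hu] at h1
    simp only [sub_sub_cancel] at h1
    rcases hpr.dvd_or_dvd h1 with h2 | h2
    · exact s2 i h2
    · exact hp h2
  have h1 : ∀ r, F i ∣ u p₀ * α r - α p₀ * u r := by
    intro r
    have h2 := lin A (Ideal.span {F i}) p₀ (fun r => u p₀ * α r - α p₀ * u r) (by ring)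
      (fun a => by
        rw [Ideal.mem_span_singleton]
        have h5 : ∑ b, A a b * (u p₀ * α b - α p₀ * u b) =
            u p₀ * ∑ b, A a b * α b - α p₀ * ∑ b, A a b * u b := by
          rw [Finset.mul_sum, Finset.mul_sum, ← Finset.sum_sub_distrib]
          exact Finset.sum_congr rfl fun b _ => by ring
        rw [h5, hg, hgu, mul_zero, sub_zero]
        exact Dvd.dvd.mul_left (Dvd.dvd.mul_right hFP _) _) r
    rw [Ideal.mem_span_singleton, hdet] at h2
    rcases hpr.dvd_or_dvd h2 with h3 | h3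
    · exfalso
      rcases hpr.dvd_or_dvd h3 with h4 | h4
      · have hunit : IsUnit (C κ : PR (m + 1)) := (isUnit_iff_ne_zero.mpr hκ).map C
        exact hpr.not_isUnit (isUnit_of_dvd_unit h4 hunit)
      · exact hp₀ ((hpr.dvd_or_dvd h4).elim id id)
    · exact h3
  have h2 : F i ∣ u p₀ * (α p * u q - α q * u p) := by
    have h3 := dvd_sub (Dvd.dvd.mul_right (h1 p) (u q)) (Dvd.dvd.mul_right (h1 q) (u p))
    refine h3.trans (dvd_of_eq ?_)
    ring
  have h3 : F i ∣ α p * u q - α q * u p := (hpr.dvd_or_dvd h2).resolve_left hp₀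
  have h4 : F i ∣ G * (α p * pderiv q (F i) - α q * pderiv p (F i)) := by
    have h5 : F i ∣ α p * (u q - G * pderiv q (F i)) - α q * (u p - G * pderiv p (F i)) :=
      dvd_sub (Dvd.dvd.mul_left (s1 i q) _) (Dvd.dvd.mul_left (s1 i p) _)
    have h6 := dvd_sub h3 h5
    refine h6.trans (dvd_of_eq ?_)
    ring
  exact (hpr.dvd_or_dvd h4).resolve_left (s2 i)

end Pool.Agent.Lib.MPc9b009.LS
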