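import Pool.Agent.Lib.MP_c9b009_ag.LS.Spec

/-!
# MP_c9b009_ag, row LS, module ARE: approximate solutions have the values of exact ones (Artin-Rees)
-/

set_option autoImplicit false

namespace Pool.Agent.Lib.MPc9b009.LS

open MvPolynomial Pool.Agent.Lib.MPc9b009.B5 Pool.Agent.Lib.MPc9b009.OD
  Pool.Agent.Lib.MPc9b009.PS

namespace AREM

/-! ### coefficientwise linear functionals -/

section hat

variable {σ : Type} {E : Type} [Field E] [Algebra ℂ E]

/-- the functional `lam` applied to the coefficients -/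
noncomputable def hat (lam : E →ₗ[ℂ] ℂ) (Q : MvPolynomial σ E) : MvPolynomial σ ℂ :=
  ∑ m ∈ Q.support, monomial m (lam (coeff m Q))

lemma coeff_hat (lam : E →ₗ[ℂ] ℂ) (Q : MvPolynomial σ E) (m : σ →₀ ℕ) :
    coeff m (hat lam Q) = lam (coeff m Q) := by
  classical
  unfold hat
  rw [coeff_sum]
  simp only [coeff_monomial]
  rw [Finset.sum_ite_eq' Q.support m (fun n => lam (coeff n Q))]
  split_ifs with h
  · rfl
  · rw [notMem_support_iff.1 h, map_zero]

lemma hat_add (lam : E →ₗ[ℂ] ℂ) (Q Q' : MvPolynomial σ E) :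
    hat lam (Q + Q') = hat lam Q + hat lam Q' := by
  ext m
  rw [coeff_add, coeff_hat, coeff_hat, coeff_hat, coeff_add, map_add]

lemma hat_zero (lam : E →ₗ[ℂ] ℂ) : hat lam (0 : MvPolynomial σ E) = 0 := by
  ext m
  rw [coeff_hat, coeff_zero, coeff_zero, map_zero]

lemma hat_sum (lam : E →ₗ[ℂ] ℂ) {ι : Type} (s : Finset ι) (Q : ι → MvPolynomial σ E) :
    hat lam (∑ i ∈ s, Q i) = ∑ i ∈ s, hat lam (Q i) := by
  classical
  induction s using Finset.induction_on with
  | empty => simp [hat_zero]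
  | insert a s ha ih => rw [Finset.sum_insert ha, Finset.sum_insert ha, hat_add, ih]

lemma hat_mul (lam : E →ₗ[ℂ] ℂ) (Q : MvPolynomial σ E) (q : MvPolynomial σ ℂ) :
    hat lam (Q * map (algebraMap ℂ E) q) = hat lam Q * q := by
  classical
  ext m
  rw [coeff_hat, coeff_mul, coeff_mul, map_sum]
  refine Finset.sum_congr rfl fun x _ => ?_
  rw [coeff_map, coeff_hat, mul_comm (coeff x.1 Q), ← Algebra.smul_def, map_smul, smul_eq_mul,
    mul_comm]

end hat

variable {N : ℕ} {κ τ : Type}

/-- the functional maps the extended block ideal into the block ideal -/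
lemma hat_mem {E : Type} [Field E] [Algebra ℂ E] (lam : E →ₗ[ℂ] ℂ) (f : κ → PR N) (blk : κ → τ)
    (i : κ) (Q : MvPolynomial (Fin N) E)
    (hQ : Q ∈ Ideal.span ((fun j => map (algebraMap ℂ E) (f j)) '' {j | blk j = blk i})) :
    hat lam Q ∈ bi f blk i := by
  have key : ∀ a : MvPolynomial (Fin N) E, hat lam (a * Q) ∈ bi f blk i := by
    refine Submodule.span_induction (p := fun Q _ => ∀ a : MvPolynomial (Fin N) E,
      hat lam (a * Q) ∈ bi f blk i) ?_ ?_ ?_ ?_ hQ
    · rintro _ ⟨j, hj, rfl⟩ a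
      simp only
      rw [hat_mul]
      exact Ideal.mul_mem_left _ _ (Ideal.subset_span ⟨j, hj, rfl⟩)
    · intro a
      rw [mul_zero, hat_zero]
      exact Ideal.zero_mem _
    · intro x y _ _ hx hy a
      rw [mul_add, hat_add]
      exact Ideal.add_mem _ (hx a) (hy a)
    · intro r x _ hx a
      rw [smul_eq_mul, ← mul_assoc]
      exact hx _
  have h := key 1
  rwa [one_mul] at h

/-- exact solutions: the values are combinations of values of solutions over `ℂ` -/
lemma exact_mem {E : Type} [Field E] [Algebra ℂ E] (f : κ → PR N) (blk : κ → τ) (c : Fin N → E)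
    (u : Fin N → MvPolynomial (Fin N) E)
    (hu : ∀ i, ∑ l, u l * map (algebraMap ℂ E) (pderiv l (f i)) ∈
      Ideal.span ((fun j => map (algebraMap ℂ E) (f j)) '' {j | blk j = blk i})) :
    (fun l => eval c (u l)) ∈
      Submodule.span E {w : Fin N → E | ∃ v ∈ adm f blk, w = fun l => aeval c (v l)} := by
  classical
  let bs := Module.Basis.ofVectorSpace ℂ E
  let A : Finset (Module.Basis.ofVectorSpaceIndex ℂ E) :=
    Finset.univ.biUnion fun l : Fin N => (u l).support.biUnion fun m => (bs.repr (coeff m (u l))).support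
  have hdec : ∀ l, u l = ∑ α ∈ A, C (bs α) * map (algebraMap ℂ E) (hat (bs.coord α) (u l)) := by
    intro l
    ext m
    rw [coeff_sum]
    simp only [coeff_C_mul, coeff_map, coeff_hat, Module.Basis.coord_apply]
    have h1 : ∀ α, bs α * algebraMap ℂ E (bs.repr (coeff m (u l)) α)
        = bs.repr (coeff m (u l)) α • bs α := fun α => by
      rw [Algebra.smul_def, mul_comm]
    simp only [h1]
    by_cases hm : m ∈ (u l).support
    · have hsub : (bs.repr (coeff m (u l))).support ⊆ A := by
        intro α hα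
        exact Finset.mem_biUnion.2 ⟨l, Finset.mem_univ _, Finset.mem_biUnion.2 ⟨m, hm, hα⟩⟩
      rw [← Finset.sum_subset hsub]
      · have h2 := bs.linearCombination_repr (coeff m (u l))
        rw [Finsupp.linearCombination_apply, Finsupp.sum] at h2
        exact h2.symm
      · intro α _ hα
        rw [Finsupp.notMem_support_iff.1 hα, zero_smul]
    · rw [notMem_support_iff.1 hm]
      simp
  have hval : (fun l => eval c (u l)) =
      ∑ α ∈ A, bs α • (fun l => aeval c (hat (bs.coord α) (u l))) := by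
    funext l
    rw [Finset.sum_apply]
    conv_lhs => rw [hdec l]
    rw [map_sum]
    refine Finset.sum_congr rfl fun α _ => ?_
    rw [map_mul, eval_C, Pi.smul_apply, smul_eq_mul, eval_map, aeval_def]
  rw [hval]
  refine Submodule.sum_mem _ fun α _ => Submodule.smul_mem _ _ (Submodule.subset_span ?_)
  refine ⟨fun l => hat (bs.coord α) (u l), ?_, rfl⟩
  intro i
  have h1 : vf (fun l => hat (bs.coord α) (u l)) (f i)
      = hat (bs.coord α) (∑ l, u l * map (algebraMap ℂ E) (pderiv l (f i))) := by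
    unfold vf
    rw [hat_sum]
    exact Finset.sum_congr rfl fun l _ => (hat_mul _ _ _).symm
  rw [h1]
  exact hat_mem _ _ _ _ _ (hu i)

/-! ### Artin-Rees -/

section ar

variable {R : Type} [CommRing R] {n : ℕ} [Fintype κ]

/-- elements of `𝔫^k • ⊤` in a finite product -/
lemma pi_mem_smul_top (K : Ideal R) (b : κ → R) (hb : ∀ i, b i ∈ K) :
    b ∈ K • (⊤ : Submodule R (κ → R)) := by
  classical
  have h1 : b = ∑ i, b i • (Pi.single i (1 : R) : κ → R) := by
    funext j
    rw [Finset.sum_apply]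
    simp only [Pi.smul_apply, smul_eq_mul, Pi.single_apply, mul_ite, mul_one, mul_zero]
    rw [Finset.sum_ite_eq Finset.univ j b, if_pos (Finset.mem_univ _)]
  rw [h1]
  exact Submodule.sum_mem _ fun i _ => Submodule.smul_mem_smul (hb i) Submodule.mem_top

omit [Fintype κ] in
/-- the entries of an element of `K • ⊤` -/
lemma entry_mem (K : Ideal R) (v : Fin n → R) (hv : v ∈ K • (⊤ : Submodule R (Fin n → R)))
    (l : Fin n) : v l ∈ K := by
  have h1 : K • (⊤ : Submodule R (Fin n → R)) ≤ Submodule.comap (LinearMap.proj l) K := by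
    rw [Submodule.smul_le]
    intro r hr x _
    rw [Submodule.mem_comap, LinearMap.proj_apply, Pi.smul_apply, smul_eq_mul]
    exact Ideal.mul_mem_right _ _ hr
  exact h1 hv

/-- Artin-Rees for a system of equations modulo ideals -/
lemma artin [IsNoetherianRing R] (K : Ideal R) (a : κ → Ideal R) (M : κ → Fin n → R) :
    ∃ k : ℕ, ∀ v : Fin n → R, (∀ i, ∑ l, v l * M i l ∈ a i ⊔ K ^ (k + 1)) →
      ∃ w : Fin n → R, (∀ l, w l ∈ K) ∧ ∀ i, ∑ l, (v l - w l) * M i l ∈ a i := by
  classical
  let Φ : (Fin n → R) →ₗ[R] (κ → R) :=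
    LinearMap.pi fun i => ∑ l, M i l • LinearMap.proj (R := R) (φ := fun _ : Fin n => R) l
  have hΦ : ∀ v i, Φ v i = ∑ l, v l * M i l := by
    intro v i
    simp only [Φ, LinearMap.pi_apply, LinearMap.sum_apply, LinearMap.smul_apply,
      LinearMap.proj_apply, smul_eq_mul]
    exact Finset.sum_congr rfl fun l _ => mul_comm _ _
  let U : Submodule R (κ → R) := Submodule.pi Set.univ a
  have hU : ∀ w : κ → R, w ∈ U ↔ ∀ i, w i ∈ a i := by
    intro w
    simp only [U, Submodule.mem_pi, Set.mem_univ, true_implies]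
  let Ψ : (Fin n → R) →ₗ[R] ((κ → R) ⧸ U) := U.mkQ.comp Φ
  obtain ⟨k, hk⟩ := Ideal.exists_pow_inf_eq_pow_smul K (LinearMap.range Ψ)
  refine ⟨k, fun v hv => ?_⟩
  -- `Φ v = x + b`
  have hv' : ∀ i, ∃ x ∈ a i, ∃ b ∈ K ^ (k + 1), x + b = ∑ l, v l * M i l := fun i =>
    Submodule.mem_sup.1 (hv i)
  choose x hx b hb hxb using hv'
  have h1 : Ψ v = U.mkQ b := by
    have h2 : Φ v = x + b := by
      funext i
      rw [hΦ, Pi.add_apply, hxb]
    change U.mkQ (Φ v) = U.mkQ b
    have h8 : U.mkQ x = 0 := by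
      rw [Submodule.mkQ_apply, Submodule.Quotient.mk_eq_zero]
      exact (hU x).2 hx
    rw [h2, map_add, h8, zero_add]
  have h3 : Ψ v ∈ K ^ (k + 1) • (⊤ : Submodule R ((κ → R) ⧸ U)) ⊓ LinearMap.range Ψ := by
    refine ⟨?_, LinearMap.mem_range_self _ _⟩
    rw [h1]
    have h4 : U.mkQ b ∈ Submodule.map U.mkQ (K ^ (k + 1) • (⊤ : Submodule R (κ → R))) :=
      Submodule.mem_map_of_mem (pi_mem_smul_top _ b hb)
    rw [Submodule.map_smul''] at h4
    exact Submodule.smul_mono le_rfl le_top h4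
  rw [hk (k + 1) (Nat.le_succ k), Nat.add_sub_cancel_left, pow_one] at h3
  have h5 : Ψ v ∈ K • LinearMap.range Ψ := Submodule.smul_mono le_rfl inf_le_right h3
  rw [LinearMap.range_eq_map, ← Submodule.map_smul''] at h5
  obtain ⟨w, hw, hwv⟩ := h5
  refine ⟨w, entry_mem K w hw, fun i => ?_⟩
  have h6 : Φ (v - w) ∈ U := by
    rw [← Submodule.Quotient.mk_eq_zero U]
    change Ψ (v - w) = 0
    rw [map_sub, hwv, sub_self]
  have h7 := (hU _).1 h6 i
  rw [hΦ] at h7
  exact h7

end ar

end AREM

open AREM in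
theorem specARE : SpecARE := by
  intro N κ τ _ f blk E _ _ c
  obtain ⟨k, hk⟩ := artin (Ideal.span (Set.range fun l : Fin N => X l - C (c l)))
    (fun i : κ => Ideal.span ((fun j => map (algebraMap ℂ E) (f j)) '' {j | blk j = blk i}))
    (fun i l => map (algebraMap ℂ E) (pderiv l (f i)))
  refine ⟨k, fun v hv => ?_⟩
  obtain ⟨w, hw, hu⟩ := hk v hv
  have h1 := exact_mem f blk c (fun l => v l - w l) hu
  have h2 : (fun l => eval c (v l)) = fun l => eval c (v l - w l) := by
    funext l
    have h3 : eval c (w l) = 0 := by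
      have h4 : Ideal.span (Set.range fun l : Fin N => X l - C (c l)) ≤ RingHom.ker (eval c) := by
        rw [Ideal.span_le]
        rintro _ ⟨l, rfl⟩
        simp [RingHom.mem_ker]
      exact RingHom.mem_ker.1 (h4 (hw l))
    rw [map_sub, h3, sub_zero]
  rw [h2]
  exact h1

end Pool.Agent.Lib.MPc9b009.LS
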