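import Pool.Agent.Lib.MP_c9b009_ag.LS.Spec

/-!
# MP_c9b009_ag, row LS, module CMX: the components of `X_{≤ s}` are stable under the `h_a`
-/

set_option autoImplicit false

namespace Pool.Agent.Lib.MPc9b009.LS

open MvPolynomial Pool.Agent.Lib.MPc9b009.B5 Pool.Agent.Lib.MPc9b009.OD
  Pool.Agent.Lib.MPc9b009.PS

namespace CMXM

lemma th_g {N k : ℕ} (g : Biv N) (h : Fin k → Fin N → PR N) (i j : Fin N) :
    th g h i (Fin.castAdd 1 (Fin.castAdd k j)) = g.f i j := by
  unfold th
  rw [Fin.append_left, Fin.append_left]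

lemma th_h {N k : ℕ} (g : Biv N) (h : Fin k → Fin N → PR N) (i : Fin N) (a : Fin k) :
    th g h i (Fin.castAdd 1 (Fin.natAdd N a)) = h a i := by
  unfold th
  rw [Fin.append_left, Fin.append_right]

lemma th_x {N k : ℕ} (g : Biv N) (h : Fin k → Fin N → PR N) (i : Fin N) :
    th g h i (Fin.natAdd (N + k) (0 : Fin 1)) = X i := by
  unfold th
  rw [Fin.append_right]

/-- an ideal is stable under the columns of `[g | h | x]` -/
lemma stab_th {N k : ℕ} (g : Biv N) (h : Fin k → Fin N → PR N) (I : Ideal (PR N))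
    (h1 : Stab g.f I) (h2 : ∀ a, ∀ q ∈ I, vf (h a) q ∈ I)
    (h3 : ∀ q ∈ I, vf (fun l => X l) q ∈ I) : Stab (th g h) I := by
  intro q hq j
  induction j using Fin.addCases with
  | left j =>
    induction j using Fin.addCases with
    | left l =>
      have h4 := h1 q hq l
      have h5 : ∑ i, th g h i (Fin.castAdd 1 (Fin.castAdd k l)) * pderiv i q =
          ∑ i, g.f i l * pderiv i q :=
        Finset.sum_congr rfl fun i _ => by rw [th_g]
      rw [h5]
      exact h4
    | right a =>
      have h4 := h2 a q hq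
      have h5 : ∑ i, th g h i (Fin.castAdd 1 (Fin.natAdd N a)) * pderiv i q =
          ∑ i, h a i * pderiv i q :=
        Finset.sum_congr rfl fun i _ => by rw [th_h]
      rw [h5]
      exact h4
  | right a =>
    have h4 := h3 q hq
    have h5 : ∑ i, th g h i (Fin.natAdd (N + k) a) * pderiv i q =
        ∑ i, X i * pderiv i q :=
      Finset.sum_congr rfl fun i _ => by rw [Subsingleton.elim a 0, th_x]
    rw [h5]
    exact h4

lemma cases0 {N : ℕ} (j : Fin (N + 0 + 1)) :
    (∃ l : Fin N, j = Fin.castAdd 1 (Fin.castAdd 0 l)) ∨ j = Fin.natAdd (N + 0) (0 : Fin 1) := by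
  induction j using Fin.addCases with
  | left j =>
    induction j using Fin.addCases with
    | left l => exact Or.inl ⟨l, rfl⟩
    | right a => exact a.elim0
  | right a => exact Or.inr (by rw [Subsingleton.elim a 0])

lemma mnr_g {N k n : ℕ} (g : Biv N) (h : Fin k → Fin N → PR N) (A J : Fin n → Fin N) :
    mnr g.f A J = mnr (th g h) A (fun b => Fin.castAdd 1 (Fin.castAdd k (J b))) := by
  unfold mnr
  congr 1
  refine Matrix.ext fun a b => ?_
  rw [Matrix.of_apply, Matrix.of_apply, th_g]

lemma mnr_x {N k n : ℕ} (g : Biv N) (h : Fin k → Fin N → PR N) (A : Fin (n + 1) → Fin N)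
    (J : Fin n → Fin N) :
    xmnr g.f A J = mnr (th g h) A (Fin.cons (Fin.natAdd (N + k) (0 : Fin 1))
      (fun b => Fin.castAdd 1 (Fin.castAdd k (J b)))) := by
  unfold mnr xmnr
  congr 1
  refine Matrix.ext fun a b => ?_
  rw [Matrix.of_apply, Matrix.of_apply]
  refine Fin.cases ?_ (fun b' => ?_) b
  · rw [Fin.cons_zero, Fin.cons_zero, th_x]
  · rw [Fin.cons_succ, Fin.cons_succ, th_g]

/-- the minors of `[g | x]` -/
lemma mnr_mem {N n : ℕ} (g : Biv N) (h : Fin 0 → Fin N → PR N) (Q : Ideal (PR N))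
    (h1 : ∀ (A J : Fin (n + 1) → Fin N), mnr g.f A J ∈ Q)
    (h2 : ∀ (A : Fin (n + 1) → Fin N) (J : Fin n → Fin N), xmnr g.f A J ∈ Q)
    (A : Fin (n + 1) → Fin N) (J : Fin (n + 1) → Fin (N + 0 + 1)) :
    mnr (th g h) A J ∈ Q := by
  by_cases hx : ∃ b, J b = Fin.natAdd (N + 0) (0 : Fin 1)
  · obtain ⟨b0, hb0⟩ := hx
    by_cases hy : ∃ b, b ≠ b0 ∧ J b = Fin.natAdd (N + 0) (0 : Fin 1)
    · obtain ⟨b1, hb1, hb2⟩ := hy
      have h3 : mnr (th g h) A J = 0 := by
        unfold mnr
        refine Matrix.det_zero_of_column_eq hb1 fun a => ?_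
        rw [Matrix.of_apply, Matrix.of_apply, hb0, hb2]
      rw [h3]
      exact Q.zero_mem
    · have hJ : ∀ b : Fin n, ∃ l : Fin N,
          J (Equiv.swap 0 b0 b.succ) = Fin.castAdd 1 (Fin.castAdd 0 l) := by
        intro b
        rcases cases0 (J (Equiv.swap 0 b0 b.succ)) with h3 | h3
        · exact h3
        · exfalso
          refine hy ⟨_, ?_, h3⟩
          intro h4
          have h5 : Equiv.swap 0 b0 b.succ = Equiv.swap 0 b0 0 := by
            rw [h4, Equiv.swap_apply_left]
          exact (Fin.succ_ne_zero b) ((Equiv.swap 0 b0).injective h5)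
      choose l hl using hJ
      have h5 : xmnr g.f A l =
          ((Equiv.Perm.sign (Equiv.swap 0 b0) : ℤ) : PR N) * mnr (th g h) A J := by
        rw [mnr_x g h]
        have h6 := Matrix.det_permute' (Equiv.swap 0 b0)
          (Matrix.of fun a b => th g h (A a) (J b))
        unfold mnr
        rw [← h6]
        congr 1
        refine Matrix.ext fun a b => ?_
        rw [Matrix.submatrix_apply, Matrix.of_apply, Matrix.of_apply]
        refine Fin.cases ?_ (fun b' => ?_) b
        · rw [Fin.cons_zero, id, Equiv.swap_apply_left, hb0]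
        · rw [Fin.cons_succ, ← hl]
          rfl
      have h8 := h2 A l
      rcases Int.units_eq_one_or (Equiv.Perm.sign (Equiv.swap 0 b0)) with h7 | h7
      · rw [h5, h7, Units.val_one, Int.cast_one, one_mul] at h8
        exact h8
      · rw [h5, h7, Units.val_neg, Units.val_one, Int.cast_neg, Int.cast_one, neg_one_mul] at h8
        exact (Q.neg_mem_iff).mp h8
  · have hJ : ∀ b, ∃ l : Fin N, J b = Fin.castAdd 1 (Fin.castAdd 0 l) := fun b =>
      (cases0 (J b)).resolve_right fun h3 => hx ⟨b, h3⟩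
    choose l hl using hJ
    have h3 : mnr (th g h) A J = mnr g.f A l := by
      rw [mnr_g g h]
      congr 1
      exact funext hl
    rw [h3]
    exact h1 A l

end CMXM

theorem specCMX (hTHS : SpecTHS) (hEUH : SpecEUH) : SpecCMX := by
  intro N k s I g h hs hI hst hjac hCF P hP
  have hTI : Stab (th g h) I := CMXM.stab_th g h I hst hCF.sta ((hEUH N I).mpr hI)
  have hKst := hTHS N k 0 (s + 3) I I g h (fun a => a.elim0) hjac hCF le_rfl hTI
  set h0 : Fin 0 → Fin N → PR N := fun a => h (a.elim0) with hh0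
  set K : Ideal (PR N) := I ⊔ mnI (s + 3) (th g h0) with hK
  have hPp : P.IsPrime := hP.1.1
  have hIK : I ≤ K := le_sup_left
  have hM1 : ∀ A J : Fin (s + 3) → Fin N, mnr g.f A J ∈ K := fun A J =>
    Ideal.mem_sup_right (Ideal.subset_span ⟨A, _, CMXM.mnr_g g h0 A J⟩)
  have hM2 : ∀ (A : Fin (s + 3) → Fin N) (J : Fin (s + 2) → Fin N), xmnr g.f A J ∈ K :=
    fun A J => Ideal.mem_sup_right (Ideal.subset_span ⟨A, _, CMXM.mnr_x g h0 A J⟩)
  have hKv : K ≤ vanI I g.f s := by
    rw [hK]
    refine sup_le ?_ ?_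
    · intro q hq x _ hxI _
      exact hxI q hq
    · rw [mnI, Ideal.span_le]
      rintro _ ⟨A, J, rfl⟩
      refine CMXM.mnr_mem g h0 (vanI I g.f s) ?_ ?_ A J
      · intro A J x hx _ hr
        exact (PS.specRKC N s g x hs hx hr).1 A J
      · intro A J x hx _ hr
        exact (PS.specRKC N s g x hs hx hr).2 A J
  have hKP : K ≤ P := hKv.trans hP.1.2
  obtain ⟨q, hq, hqP⟩ := Ideal.exists_minimalPrimes_le hKP
  have hqp : q.IsPrime := hq.1.1
  have hKq : K ≤ q := hq.1.2
  have key : ∀ z ∈ vanI I g.f s, ∀ i, X i * z ∈ q := by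
    intro z hz i
    have h1 : X i * z ∈ vanishingIdeal ℂ (zeroLocus ℂ q) := by
      rw [mem_vanishingIdeal_iff]
      intro x hx
      rw [mem_zeroLocus_iff] at hx
      have hx' : ∀ y ∈ q, eval x y = 0 := fun y hy => by
        have := hx y hy
        simpa [aeval_eq_eval] using this
      suffices hs' : eval x (X i * z) = 0 by simpa [aeval_eq_eval] using hs'
      rw [map_mul, eval_X]
      by_cases hx0 : x = 0
      · rw [hx0]
        simp
      · have hxI : x ∈ Zer I := fun y hy => hx' y (hKq (hIK hy))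
        have hr : rk g.f x ≤ s := by
          apply PS.specRKU N s g x hs hx0
          · intro A B
            exact hx' _ (hKq (hM1 A B))
          · intro A B
            exact hx' _ (hKq (hM2 A B))
        rw [hz x hx0 hxI hr, mul_zero]
    rwa [IsPrime.vanishingIdeal_zeroLocus] at h1
  have hPq : P = q := by
    by_cases hX : ∀ i, (X i : MvPolynomial (Fin N) ℂ) ∈ q
    · exact le_antisymm (PS.CMPM.mem_of_X hPp hqP hX) hqP
    · push Not at hX
      obtain ⟨i, hi⟩ := hX
      have hvq : vanI I g.f s ≤ q := by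
        intro z hz
        exact (hqp.mem_or_mem (key z hz i)).resolve_left hi
      exact le_antisymm (hP.2 ⟨hqp, hvq⟩ hqP) hqP
  rw [hPq]
  exact B5.specDMIN N (N + k + 1) (th g h) K hKst q hq

end Pool.Agent.Lib.MPc9b009.LS
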