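import Pool.Agent.Lib.MP_c9b009_ag.LS.Spec

/-!
# MP_c9b009_ag, row LS, module COP: ideals of codimension `≥ 2` contract to ideals without common divisor
-/

set_option autoImplicit false

namespace Pool.Agent.Lib.MPc9b009.LS

open MvPolynomial Pool.Agent.Lib.MPc9b009.B5 Pool.Agent.Lib.MPc9b009.OD
  Pool.Agent.Lib.MPc9b009.PS

namespace COPM

/-- A prime polynomial involves a variable. -/
theorem exists_var {d : ℕ} (ϖ : PR d) (hϖ : Prime ϖ) : ∃ i, degreeOf i ϖ ≠ 0 := by
  by_contra hno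
  push Not at hno
  have h1 : ϖ.totalDegree = 0 := by
    rw [totalDegree_eq_zero_iff]
    intro m hm x
    exact Nat.le_zero.1 (degreeOf_le_iff.1 (le_of_eq (hno x)) m hm)
  rw [totalDegree_eq_zero_iff_eq_C] at h1
  apply hϖ.not_isUnit
  rw [h1]
  apply IsUnit.map
  rw [isUnit_iff_ne_zero]
  intro h2
  rw [h2, C_0] at h1
  exact hϖ.ne_zero h1

/-- lying over, abstract version -/
theorem lying {d : ℕ} {A : Type} [CommRing A] [Algebra ℂ A] (y : Fin d → A)
    (hai : AlgebraicIndependent ℂ y)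
    (hint : ∀ a : A, IsIntegral (Algebra.adjoin ℂ (Set.range y)) a) (I : Ideal A) (ϖ : PR d)
    (hϖ : Prime ϖ) (hI : ∀ s : PR d, aeval y s ∈ I → ϖ ∣ s) :
    ∃ Q : Ideal A, Q.IsPrime ∧ I ≤ Q ∧ ∀ s : PR d, aeval y s ∈ Q ↔ ϖ ∣ s := by
  let φ : PR d →ₐ[ℂ] A := aeval y
  let iRA : Algebra (PR d) A := φ.toRingHom.toAlgebra
  have hRA : ∀ s : PR d, algebraMap (PR d) A s = aeval y s := fun _ => rfl
  have hInt : Algebra.IsIntegral (PR d) A := by
    constructor
    intro a
    obtain ⟨p, hp, hp'⟩ := hint a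
    refine ⟨p.map (hai.aevalEquiv.symm : _ →+* _), hp.map _, ?_⟩
    rw [Polynomial.eval₂_map]
    have h1 : (algebraMap (PR d) A).comp (hai.aevalEquiv.symm : _ →+* _) =
        algebraMap (Algebra.adjoin ℂ (Set.range y)) A := by
      ext a
      obtain ⟨a', rfl⟩ := hai.aevalEquiv.surjective a
      rw [RingHom.comp_apply, hRA]
      have h2 : (hai.aevalEquiv.symm : _ →+* _) (hai.aevalEquiv a') = a' :=
        hai.aevalEquiv.symm_apply_apply a'
      rw [h2]
      exact (hai.aevalEquiv_apply_coe a').symm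
    rw [h1, hp']
  have hpr : (Ideal.span {ϖ} : Ideal (PR d)).IsPrime :=
    (Ideal.span_singleton_prime hϖ.ne_zero).2 hϖ
  obtain ⟨Q, hQ1, hQ2, hQ3⟩ := Ideal.exists_ideal_over_prime_of_isIntegral (Ideal.span {ϖ}) I (by
    intro s hs
    rw [Ideal.mem_comap, hRA] at hs
    exact Ideal.mem_span_singleton.2 (hI s hs))
  refine ⟨Q, hQ2, hQ1, fun s => ?_⟩
  rw [← Ideal.mem_span_singleton, ← hQ3, Ideal.mem_comap, hRA]

end COPM

open COPM in
theorem specCOP : SpecCOP := by
  classical
  intro N d P J z hP hai hint hPJ hd hJ ϖ hϖ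
  by_contra hno
  push Not at hno
  have h0 : ∀ s : PR d, ϖ ∣ s ∨ aeval z s ∉ J := by
    intro s
    by_cases h : ϖ ∣ s
    · exact Or.inl h
    · exact Or.inr (hno s h)
  have hcomp : ∀ s : PR d, aeval (fun b => Ideal.Quotient.mk P (z b)) s =
      Ideal.Quotient.mk P (aeval z s) := by
    intro s
    exact (comp_aeval_apply z (Ideal.Quotient.mkₐ ℂ P) s).symm
  obtain ⟨Q, hQp, hIQ, hQ⟩ := lying (fun b => Ideal.Quotient.mk P (z b)) hai hint
    (J.map (Ideal.Quotient.mk P)) ϖ hϖ (by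
      intro s hs
      rw [hcomp, ← Ideal.mem_comap, Ideal.comap_map_of_surjective _ Ideal.Quotient.mk_surjective,
        ← RingHom.ker_eq_comap_bot, Ideal.mk_ker, sup_eq_left.2 hPJ] at hs
      exact (h0 s).resolve_right (fun h => h hs))
  let q : Ideal (PR N) := Q.comap (Ideal.Quotient.mk P)
  have hq : q.IsPrime := Ideal.comap_isPrime _ _
  have hJq : J ≤ q := by
    intro a ha
    exact hIQ (Ideal.mem_map_of_mem _ ha)
  have htr := hJ q hq hJq
  obtain ⟨i, hi⟩ := exists_var ϖ hϖ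
  have hind : AlgebraicIndependent ℂ
      (fun b : {b : Fin d // b ≠ i} => Ideal.Quotient.mk q (z b.1)) := by
    rw [algebraicIndependent_iff]
    intro s hs
    have h1 : aeval (fun b : {b : Fin d // b ≠ i} => Ideal.Quotient.mk q (z b.1)) s =
        Ideal.Quotient.mk q (aeval z (rename Subtype.val s)) := by
      rw [aeval_rename]
      exact (comp_aeval_apply (fun b : {b : Fin d // b ≠ i} => z b.1) (Ideal.Quotient.mkₐ ℂ q) s).symm
    rw [h1, Ideal.Quotient.eq_zero_iff_mem] at hs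
    have h2 : ϖ ∣ rename Subtype.val s := by
      rw [← hQ, hcomp]
      exact hs
    by_contra hs0
    have h3 : rename (Subtype.val : {b : Fin d // b ≠ i} → Fin d) s ≠ 0 := by
      intro h4
      exact hs0 (rename_injective _ Subtype.val_injective (by rw [h4, map_zero]))
    obtain ⟨t, ht⟩ := h2
    have ht0 : t ≠ 0 := by
      rintro rfl
      rw [mul_zero] at ht
      exact h3 ht
    have h4 : degreeOf i (rename (Subtype.val : {b : Fin d // b ≠ i} → Fin d) s) =
        degreeOf i ϖ + degreeOf i t := by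
      rw [ht, degreeOf_mul_eq hϖ.ne_zero ht0]
    have h5 : degreeOf i (rename (Subtype.val : {b : Fin d // b ≠ i} → Fin d) s) = 0 := by
      rw [← Nat.le_zero, degreeOf_le_iff]
      intro m hm
      by_contra hmi
      have h6 : i ∈ (rename (Subtype.val : {b : Fin d // b ≠ i} → Fin d) s).vars := by
        rw [mem_vars_iff_mem_support]
        exact ⟨m, hm, Finsupp.mem_support_iff.2 (by omega)⟩
      obtain ⟨b, -, hb⟩ := mem_vars_rename _ _ h6
      exact b.2 hb
    omega
  have hcard := hind.cardinalMk_le_trdeg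
  have h1 : Cardinal.mk {b : Fin d // b ≠ i} = ((d - 1 : ℕ) : Cardinal) := by
    rw [Cardinal.mk_fintype, Fintype.card_subtype_compl]
    simp
  rw [h1] at hcard
  have h2 : d - 1 ≤ d - 2 := by exact_mod_cast hcard.trans htr
  omega

end Pool.Agent.Lib.MPc9b009.LS
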