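import Pool.Agent.Lib.MP_c9b009_ag.LS.Spec

/-!
# MP_c9b009_ag, LS: DIF, differentiate the isomorphism
-/

set_option autoImplicit false

namespace Pool.Agent.Lib.MPc9b009.LS

open MvPolynomial Pool.Agent.Lib.MPc9b009.B5 Pool.Agent.Lib.MPc9b009.OD
  Pool.Agent.Lib.MPc9b009.PS

namespace DIFM

variable {N : ℕ} {E : Type} [Field E] [Algebra ℂ E]

/-- `D` on the coefficients, as a function -/
noncomputable def dh0 (D : Derivation ℂ E E) (Q : MvPolynomial (Fin N) E) : MvPolynomial (Fin N) E :=
  ∑ m ∈ Q.support, monomial m (D (coeff m Q))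

lemma coeff_dh0 (D : Derivation ℂ E E) (Q : MvPolynomial (Fin N) E) (m : Fin N →₀ ℕ) :
    coeff m (dh0 D Q) = D (coeff m Q) := by
  classical
  rw [dh0, coeff_sum]
  simp only [coeff_monomial]
  rw [Finset.sum_ite_eq' Q.support m (fun s => D (coeff s Q))]
  split_ifs with h
  · rfl
  · rw [notMem_support_iff.1 h, map_zero]

/-- `D` on the coefficients, linear -/
noncomputable def dh1 (D : Derivation ℂ E E) :
    MvPolynomial (Fin N) E →ₗ[ℂ] MvPolynomial (Fin N) E where
  toFun := dh0 D
  map_add' := by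
    intro P Q
    ext m
    rw [coeff_dh0, coeff_add, coeff_add, coeff_dh0, coeff_dh0, map_add]
  map_smul' := by
    intro c P
    ext m
    rw [RingHom.id_apply, coeff_dh0, coeff_smul, coeff_smul, coeff_dh0, Derivation.map_smul]

/-- `D` on the coefficients, as a derivation -/
noncomputable def dh (D : Derivation ℂ E E) :
    Derivation ℂ (MvPolynomial (Fin N) E) (MvPolynomial (Fin N) E) :=
  Derivation.mk' (dh1 D) (by
    intro P Q
    classical
    change dh0 D (P * Q) = P • dh0 D Q + Q • dh0 D P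
    rw [smul_eq_mul, smul_eq_mul, mul_comm Q]
    ext m
    rw [coeff_dh0, coeff_add, coeff_mul, coeff_mul, coeff_mul, map_sum, ← Finset.sum_add_distrib]
    refine Finset.sum_congr rfl (fun x _ => ?_)
    rw [coeff_dh0, coeff_dh0, Derivation.leibniz, smul_eq_mul, smul_eq_mul]
    ring)

lemma coeff_dh (D : Derivation ℂ E E) (Q : MvPolynomial (Fin N) E) (m : Fin N →₀ ℕ) :
    coeff m (dh D Q) = D (coeff m Q) := coeff_dh0 D Q m

lemma dh_mem (D : Derivation ℂ E E) (k : ℕ) {Q : MvPolynomial (Fin N) E} (h : Q ∈ YI N k E) :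
    dh D Q ∈ YI N k E := by
  rw [YI, MvPolynomial.mem_pow_idealOfVars_iff'] at h ⊢
  intro m hm
  rw [coeff_dh, h m hm, map_zero]

omit [Algebra ℂ E] in
lemma const_mem (k : ℕ) {Q : MvPolynomial (Fin N) E} (h : Q ∈ YI N k E) : constantCoeff Q = 0 := by
  rw [YI, MvPolynomial.mem_pow_idealOfVars_iff'] at h
  exact h 0 (by simp)

lemma dh_aeval (D : Derivation ℂ E E) (γ : Fin N → MvPolynomial (Fin N) E) (q : PR N) :
    dh D (aeval γ q) = ∑ l, aeval γ (pderiv l q) * dh D (γ l) := by
  have h := BSTM.der_poly (aeval γ : PR N →ₐ[ℂ] MvPolynomial (Fin N) E) (dh D) q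
  simpa using h

lemma dh_tr (D : Derivation ℂ E E) (p₀ : Cn N) (q : PR N) : dh D (tr E p₀ q) = 0 := by
  rw [tr, dh_aeval]
  refine Finset.sum_eq_zero (fun l _ => ?_)
  have h : dh D (X l + C (algebraMap ℂ E (p₀ l)) : MvPolynomial (Fin N) E) = 0 := by
    classical
    ext m
    rw [coeff_dh, coeff_zero, coeff_add, coeff_X, coeff_C, map_add]
    split_ifs <;> simp
  rw [h, mul_zero]

omit [Algebra ℂ E] in
lemma const_aeval (γ : Fin N → MvPolynomial (Fin N) E) (Q : MvPolynomial (Fin N) E) :
    constantCoeff (aeval γ Q) = eval (fun l => constantCoeff (γ l)) Q := by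
  have h : (constantCoeff.comp (aeval γ : MvPolynomial (Fin N) E →ₐ[E] MvPolynomial (Fin N) E).toRingHom)
      = eval (fun l => constantCoeff (γ l)) := by
    refine MvPolynomial.ringHom_ext (fun r => ?_) (fun l => ?_)
    · simp
    · simp
  exact RingHom.congr_fun h Q

lemma key {k : ℕ} {κ τ : Type} [Fintype κ] [DecidableEq τ] {P : Ideal (PR N)} {f : κ → PR N}
    {blk : κ → τ} {p₀ : Cn N} (b : Pt N k P f blk p₀ E) (D : Derivation ℂ E E) (i : κ) :
    ∃ c0 : κ → MvPolynomial (Fin N) E,
      ∑ l, aeval b.γ (pderiv l (f i)) * dh D (b.γ l) -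
        ∑ n, (if blk n = blk i then c0 n * aeval b.γ (f n) else 0) ∈ YI N k E := by
  refine ⟨fun n => ∑ j, if blk j = blk i then
    (if blk n = blk j then dh D (b.m i j) * b.m' j n else 0) else 0, ?_⟩
  have h1 := dh_mem D k (b.e1 i)
  rw [map_sub, dh_aeval, map_sum] at h1
  have h2 : ∑ j, dh D (if blk j = blk i then b.m i j * tr E p₀ (f j) else 0) =
      ∑ j, (if blk j = blk i then dh D (b.m i j) * tr E p₀ (f j) else 0) := by
    refine Finset.sum_congr rfl (fun j _ => ?_)
    split_ifs with hj
    · rw [Derivation.leibniz, dh_tr, smul_zero, zero_add, smul_eq_mul, mul_comm]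
    · exact map_zero _
  rw [h2] at h1
  have h3 : ∑ j, (if blk j = blk i then dh D (b.m i j) * (tr E p₀ (f j) -
      ∑ n, (if blk n = blk j then b.m' j n * aeval b.γ (f n) else 0)) else 0) ∈ YI N k E := by
    refine Ideal.sum_mem _ (fun j _ => ?_)
    split_ifs with hj
    · exact Ideal.mul_mem_left _ _ (b.e2 j)
    · exact Ideal.zero_mem _
  have h5 : ∀ n, (if blk n = blk i then (∑ j, if blk j = blk i then
      (if blk n = blk j then dh D (b.m i j) * b.m' j n else 0) else 0) * aeval b.γ (f n) else 0) =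
        ∑ j, if blk j = blk i then (if blk n = blk j then dh D (b.m i j) * (b.m' j n *
          aeval b.γ (f n)) else 0) else 0 := by
    intro n
    split_ifs with hn
    · rw [Finset.sum_mul]
      refine Finset.sum_congr rfl (fun j _ => ?_)
      split_ifs
      · rw [mul_assoc]
      · rw [zero_mul]
      · rw [zero_mul]
    · symm
      refine Finset.sum_eq_zero (fun j _ => ?_)
      split_ifs with h6 h7
      · exact absurd (h7.trans h6) hn
      · rfl
      · rfl
  have h4 : (∑ n, (if blk n = blk i then (∑ j, if blk j = blk i then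
      (if blk n = blk j then dh D (b.m i j) * b.m' j n else 0) else 0) * aeval b.γ (f n) else 0)) +
      ∑ j, (if blk j = blk i then dh D (b.m i j) * (tr E p₀ (f j) -
      ∑ n, (if blk n = blk j then b.m' j n * aeval b.γ (f n) else 0)) else 0) =
      ∑ j, (if blk j = blk i then dh D (b.m i j) * tr E p₀ (f j) else 0) := by
    rw [Finset.sum_congr rfl (fun n _ => h5 n), Finset.sum_comm, ← Finset.sum_add_distrib]
    refine Finset.sum_congr rfl (fun j _ => ?_)
    split_ifs with hj
    · rw [mul_sub, Finset.mul_sum]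
      rw [show ∑ n, (if blk n = blk j then dh D (b.m i j) * (b.m' j n * aeval b.γ (f n)) else 0) =
        ∑ n, dh D (b.m i j) * (if blk n = blk j then b.m' j n * aeval b.γ (f n) else 0) from
        Finset.sum_congr rfl (fun n _ => by split_ifs; exacts [rfl, (mul_zero _).symm])]
      rw [add_sub_cancel]
    · rw [Finset.sum_const_zero, zero_add]
  have h6 := Ideal.add_mem _ h1 h3
  rw [← h4, sub_add_eq_sub_sub, sub_add_cancel] at h6
  exact h6

end DIFM

open DIFM in
theorem specDIF (hJET : SpecJET) : SpecDIF := by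
  intro N k κ τ _ _ P f blk p₀ E iF iA b D
  obtain ⟨hs, hi⟩ := hJET N k E iF b.γ b.inv
  choose U hU using hs
  refine ⟨fun l => U (dh D (b.γ l)), fun i => ?_, fun l => ?_⟩
  · obtain ⟨c0, hc0⟩ := key b D i
    have h1 : aeval b.γ (∑ l, U (dh D (b.γ l)) * MvPolynomial.map (algebraMap ℂ E) (pderiv l (f i)) -
        ∑ n, (if blk n = blk i then U (c0 n) * MvPolynomial.map (algebraMap ℂ E) (f n) else 0)) ∈
          YI N k E := by
      have h3 : ∀ l, aeval b.γ (U (dh D (b.γ l)) * MvPolynomial.map (algebraMap ℂ E) (pderiv l (f i))) =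
          aeval b.γ (pderiv l (f i)) * dh D (b.γ l) +
          aeval b.γ (pderiv l (f i)) * (aeval b.γ (U (dh D (b.γ l))) - dh D (b.γ l)) := by
        intro l
        rw [map_mul, MvPolynomial.aeval_map_algebraMap, ← mul_add, add_sub_cancel, mul_comm]
      have h4 : ∀ n, aeval b.γ (if blk n = blk i then
          U (c0 n) * MvPolynomial.map (algebraMap ℂ E) (f n) else 0) =
          (if blk n = blk i then c0 n * aeval b.γ (f n) else 0) +
          (if blk n = blk i then (aeval b.γ (U (c0 n)) - c0 n) * aeval b.γ (f n) else 0) := by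
        intro n
        split_ifs
        · rw [map_mul, MvPolynomial.aeval_map_algebraMap, ← add_mul, add_sub_cancel]
        · rw [map_zero, add_zero]
      rw [map_sub, map_sum, map_sum, Finset.sum_congr rfl (fun l _ => h3 l),
        Finset.sum_congr rfl (fun n _ => h4 n), Finset.sum_add_distrib, Finset.sum_add_distrib,
        add_sub_add_comm]
      refine Ideal.add_mem _ hc0 (Ideal.sub_mem _ (Ideal.sum_mem _ (fun l _ => ?_))
        (Ideal.sum_mem _ (fun n _ => ?_)))
      · exact Ideal.mul_mem_left _ _ (hU _)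
      · split_ifs
        · exact Ideal.mul_mem_right _ _ (hU _)
        · exact Ideal.zero_mem _
    have h2 := hi _ h1
    have h3 : ∑ l, U (dh D (b.γ l)) * MvPolynomial.map (algebraMap ℂ E) (pderiv l (f i)) =
        ∑ n, (if blk n = blk i then U (c0 n) * MvPolynomial.map (algebraMap ℂ E) (f n) else 0) +
        (∑ l, U (dh D (b.γ l)) * MvPolynomial.map (algebraMap ℂ E) (pderiv l (f i)) -
        ∑ n, (if blk n = blk i then U (c0 n) * MvPolynomial.map (algebraMap ℂ E) (f n) else 0)) :=
      (add_sub_cancel _ _).symm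
    rw [h3]
    refine Submodule.add_mem_sup (Ideal.sum_mem _ (fun n _ => ?_)) h2
    split_ifs with hn
    · exact Ideal.mul_mem_left _ _ (Ideal.subset_span ⟨n, hn, rfl⟩)
    · exact Ideal.zero_mem _
  · have h1 := const_mem k (hU (dh D (b.γ l)))
    rw [map_sub, const_aeval, sub_eq_zero] at h1
    rw [h1]
    exact coeff_dh D (b.γ l) 0

end Pool.Agent.Lib.MPc9b009.LS
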