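import Pool.Agent.Lib.MP_c9b009_ag.LS.Spec

/-!
# MP_c9b009_ag, row LS, module DSC: descent of approximate solutions (helper52)
-/

set_option autoImplicit false

namespace Pool.Agent.Lib.MPc9b009.LS

open MvPolynomial Pool.Agent.Lib.MPc9b009.B5 Pool.Agent.Lib.MPc9b009.OD
  Pool.Agent.Lib.MPc9b009.PS

namespace DSCM

variable {N : ℕ} {E E' : Type} [Field E] [Field E'] [Algebra E E']

/-- the coefficientwise application of a linear functional -/
noncomputable def Lam (lam : E' →ₗ[E] E) (Q : MvPolynomial (Fin N) E') : MvPolynomial (Fin N) E :=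
  AddMonoidAlgebra.map lam.toAddMonoidHom Q

theorem coeff_Lam (lam : E' →ₗ[E] E) (Q : MvPolynomial (Fin N) E') (m : Fin N →₀ ℕ) :
    coeff m (Lam lam Q) = lam (coeff m Q) :=
  MvPolynomial.coeff_addMonoidAlgebraMap lam.toAddMonoidHom Q m

theorem Lam_zero (lam : E' →ₗ[E] E) : Lam (N := N) lam 0 = 0 := by
  ext m
  rw [coeff_Lam, coeff_zero, coeff_zero, map_zero]

theorem Lam_add (lam : E' →ₗ[E] E) (P Q : MvPolynomial (Fin N) E') :
    Lam lam (P + Q) = Lam lam P + Lam lam Q := by
  ext m
  rw [coeff_Lam, coeff_add, coeff_add, map_add, coeff_Lam, coeff_Lam]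

theorem Lam_sum (lam : E' →ₗ[E] E) {ι : Type} (s : Finset ι) (P : ι → MvPolynomial (Fin N) E') :
    Lam lam (∑ i ∈ s, P i) = ∑ i ∈ s, Lam lam (P i) := by
  classical
  induction s using Finset.induction_on with
  | empty => simp [Lam_zero]
  | insert a s ha ih => rw [Finset.sum_insert ha, Finset.sum_insert ha, Lam_add, ih]

theorem Lam_mul (lam : E' →ₗ[E] E) (P : MvPolynomial (Fin N) E') (a : MvPolynomial (Fin N) E) :
    Lam lam (P * MvPolynomial.map (algebraMap E E') a) = Lam lam P * a := by
  classical
  ext m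
  rw [coeff_Lam, coeff_mul, coeff_mul, map_sum]
  refine Finset.sum_congr rfl fun x _ => ?_
  rw [coeff_map, coeff_Lam, mul_comm (coeff x.1 P), ← Algebra.smul_def, map_smul, smul_eq_mul,
    mul_comm]

theorem Lam_mem (lam : E' →ₗ[E] E) (I : Ideal (MvPolynomial (Fin N) E))
    {Q : MvPolynomial (Fin N) E'}
    (hQ : Q ∈ Ideal.map (MvPolynomial.map (algebraMap E E')) I) : Lam lam Q ∈ I := by
  have key : ∀ Q ∈ Ideal.map (MvPolynomial.map (σ := Fin N) (algebraMap E E')) I,
      ∀ r, Lam lam (r * Q) ∈ I := by
    intro Q hQ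
    unfold Ideal.map at hQ
    refine Submodule.span_induction (p := fun Q _ => ∀ r, Lam lam (r * Q) ∈ I) ?_ ?_ ?_ ?_ hQ
    · rintro _ ⟨a, ha, rfl⟩ r
      rw [Lam_mul]
      exact I.mul_mem_left _ ha
    · intro r
      rw [mul_zero, Lam_zero]
      exact I.zero_mem
    · intro x y _ _ hx hy r
      rw [mul_add, Lam_add]
      exact I.add_mem (hx r) (hy r)
    · intro s x _ hx r
      rw [smul_eq_mul, ← mul_assoc]
      exact hx (r * s)
  have := key Q hQ 1
  rwa [one_mul] at this

theorem Lam_monomial (lam : E' →ₗ[E] E) (u : Fin N →₀ ℕ) (a : E') :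
    Lam lam (monomial u a) = monomial u (lam a) := by
  classical
  ext m
  rw [coeff_Lam, coeff_monomial, coeff_monomial]
  split_ifs with h
  · rfl
  · exact map_zero lam

theorem eval_Lam (lam : E' →ₗ[E] E) (c : Fin N → E) (Q : MvPolynomial (Fin N) E') :
    eval c (Lam lam Q) = lam (eval (fun l => algebraMap E E' (c l)) Q) := by
  induction Q using MvPolynomial.induction_on' with
  | monomial u a =>
    rw [Lam_monomial, eval_monomial, eval_monomial]
    have h : (u.prod fun n e => (algebraMap E E' (c n)) ^ e) =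
        algebraMap E E' (u.prod fun n e => c n ^ e) := by
      simp only [Finsupp.prod, map_prod, map_pow]
    rw [h, mul_comm a, ← Algebra.smul_def, map_smul, smul_eq_mul, mul_comm]
  | add p q hp hq => rw [Lam_add, map_add, map_add, map_add, hp, hq]

end DSCM

open DSCM in
theorem specDSC : SpecDSC := by
  intro N k κ τ _ f blk E E' _ _ _ _ _ hST c d v' hv hd
  have hinj : LinearMap.ker (Algebra.linearMap E E') = ⊥ :=
    LinearMap.ker_eq_bot.mpr (algebraMap E E').injective
  obtain ⟨lam, hlam⟩ := (Algebra.linearMap E E').exists_leftInverse_of_injective hinj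
  have hlam' : ∀ e : E, lam (algebraMap E E' e) = e := fun e => by
    have := LinearMap.congr_fun hlam e
    simpa using this
  refine ⟨fun l => Lam lam (v' l), ?_, ?_⟩
  · intro i
    have h1 := hv i
    have hm : ∀ q : PR N, MvPolynomial.map (algebraMap ℂ E') q =
        MvPolynomial.map (algebraMap E E') (MvPolynomial.map (algebraMap ℂ E) q) := by
      intro q
      rw [MvPolynomial.map_map, ← IsScalarTower.algebraMap_eq]
    have hI : (Ideal.span ((fun j => MvPolynomial.map (algebraMap ℂ E') (f j)) ''
          {j | blk j = blk i}) ⊔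
        Ideal.span (Set.range fun l => X l - C (algebraMap E E' (c l))) ^ (k + 1) :
          Ideal (MvPolynomial (Fin N) E')) =
        Ideal.map (MvPolynomial.map (algebraMap E E'))
          (Ideal.span ((fun j => MvPolynomial.map (algebraMap ℂ E) (f j)) ''
            {j | blk j = blk i}) ⊔
          Ideal.span (Set.range fun l => X l - C (c l)) ^ (k + 1)) := by
      rw [Ideal.map_sup, Ideal.map_pow, Ideal.map_span, Ideal.map_span, ← Set.image_comp,
        ← Set.range_comp]
      congr 3
      · funext j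
        exact hm (f j)
      · congr 1
        funext l
        simp
    rw [hI] at h1
    have h2 := Lam_mem lam _ h1
    rw [Lam_sum] at h2
    have h3 : (∑ l, Lam lam (v' l * MvPolynomial.map (algebraMap ℂ E') (pderiv l (f i)))) =
        ∑ l, Lam lam (v' l) * MvPolynomial.map (algebraMap ℂ E) (pderiv l (f i)) := by
      refine Finset.sum_congr rfl fun l _ => ?_
      rw [hm, Lam_mul]
    rw [h3] at h2
    exact h2
  · intro l
    rw [eval_Lam, hd l, hlam']

end Pool.Agent.Lib.MPc9b009.LS
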