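import Pool.Agent.Lib.MP_c9b009_ag.LS.Spec

/-!
# MP_c9b009_ag, row LS, module EQT: the homogeneity principle (helper52)
-/

set_option autoImplicit false

namespace Pool.Agent.Lib.MPc9b009.LS

open MvPolynomial Pool.Agent.Lib.MPc9b009.B5 Pool.Agent.Lib.MPc9b009.OD
  Pool.Agent.Lib.MPc9b009.PS

theorem specEQT (hKER : SpecKER) (hPTK : SpecPTK) (hEXD : SpecEXD) (hDIF : SpecDIF)
    (hARE : SpecARE) (hDSC : SpecDSC) : SpecEQT := by
  intro N r κ τ iκ iτ P f blk p₀ π hP hS hadm hp₀ hmin L iL aL φ hG D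
  obtain ⟨k, hk⟩ := hARE N κ τ iκ f blk L iL aL (fun l => φ (X l))
  obtain ⟨A, iA, aA, a, hA, haP⟩ := hKER N k r κ τ iκ iτ P f blk p₀ π hP hS hadm hp₀ hmin
  obtain ⟨L', iL', aL', aLL', b, hST, hfd, hb⟩ :=
    hPTK N k κ τ iκ iτ P f blk p₀ hP L iL aL φ hG A iA aA a hA haP
  obtain ⟨D', hD'⟩ := hEXD L L' iL iL' aL aL' aLL' hST hfd D
  obtain ⟨v', hv', hv''⟩ := hDIF N k κ τ iκ iτ P f blk p₀ L' iL' aL' b D'
  have hfun : (fun l => constantCoeff (b.γ l)) = fun l => algebraMap L L' (φ (X l)) := funext hb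
  rw [hfun] at hv' hv''
  obtain ⟨v, hv, hvd⟩ := hDSC N k κ τ iκ f blk L L' iL iL' aL aL' aLL' hST (fun l => φ (X l))
    (fun l => D (φ (X l))) v' hv' (fun l => by rw [hv'' l, hb l, hD'])
  have h1 := hk v hv
  have h2 : (fun l => eval (fun l => φ (X l)) (v l)) = fun l => D (φ (X l)) := funext hvd
  have h3 : ∀ q : PR N, aeval (fun l => φ (X l)) q = φ q := by
    intro q
    have h4 : (aeval (fun l => φ (X l)) : PR N →ₐ[ℂ] L) = φ := by
      apply MvPolynomial.algHom_ext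
      intro i
      rw [aeval_X]
    rw [h4]
  rw [h2] at h1
  have h5 : {w : Fin N → L | ∃ u ∈ adm f blk, w = fun l => aeval (fun l => φ (X l)) (u l)} =
      {w : Fin N → L | ∃ u ∈ adm f blk, w = fun l => φ (u l)} := by
    ext w
    simp only [Set.mem_ofPred_eq, h3]
  rw [h5] at h1
  exact h1

end Pool.Agent.Lib.MPc9b009.LS
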