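import Pool.Agent.Lib.MP_c9b009_ag.LS.Spec

/-!
# EXD: derivations extend to finite extensions in characteristic 0 (MP_c9b009_ag, folder LS)
-/

namespace Pool.Agent.Lib.MPc9b009.LS

/-- **EXD**. -/
theorem specEXD : SpecEXD := by
  intro L L' _ _ _ _ _ hst hfin D
  have : CharZero L := charZero_of_injective_algebraMap (algebraMap ℂ L).injective
  let dL : Differential L := ⟨D.restrictScalars ℤ⟩
  let dL' : Differential L' := Differential.differentialFiniteDimensional L L'
  have hda : DifferentialAlgebra L L' := Differential.differentialAlgebraFiniteDimensional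
  have hE : ∀ y : L, dL'.deriv (algebraMap L L' y) = algebraMap L L' (D y) :=
    fun y => hda.deriv_algebraMap y
  have hC : ∀ c : ℂ, dL'.deriv (algebraMap ℂ L' c) = 0 := by
    intro c
    rw [IsScalarTower.algebraMap_apply ℂ L L', hE, Derivation.map_algebraMap, map_zero]
  refine ⟨Derivation.mk'
    { toFun := fun x => dL'.deriv x
      map_add' := fun x y => map_add _ x y
      map_smul' := fun c x => ?_ } ?_, hE⟩
  · rw [Algebra.smul_def, Derivation.leibniz, hC, smul_zero, add_zero, RingHom.id_apply,
      smul_eq_mul, Algebra.smul_def c]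
  · intro a b
    exact Derivation.leibniz _ a b

end Pool.Agent.Lib.MPc9b009.LS
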