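import Pool.Agent.Lib.MP_c9b009_ag.LS.SpecB

/-! # row LS, module GNE (helper75) -/

set_option autoImplicit false

namespace Pool.Agent.Lib.MPc9b009.LS

open MvPolynomial Pool.Agent.Lib.MPc9b009.B5 Pool.Agent.Lib.MPc9b009.OD
  Pool.Agent.Lib.MPc9b009.PS

theorem specGNE (hA : SpecALE) (hR : SpecRES) : SpecGNE := by
  classical
  intro N n g F hL h hh v hv
  obtain ⟨κ, α, hκ, h1, h2⟩ := hA N n g F hL v hv
  obtain ⟨a, ha⟩ := hR N n F hL.toNCF α h2
  choose ζ hζ using ha
  have hα : ∀ p, α p = ∑ i, a i * (∏ j ∈ Finset.univ.erase i, F j) * pderiv p (F i) +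
      (∏ j, F j) * ζ p := by
    intro p
    rw [← hζ p]
    ring
  have hPF : (∏ j, F j) ≠ 0 := Finset.prod_ne_zero_iff.2 fun i _ => (hL.irr i).ne_zero
  have hG : ∀ i, (∏ j ∈ Finset.univ.erase i, F j) * F i = ∏ j, F j := fun i =>
    Finset.prod_erase_mul _ _ (Finset.mem_univ i)
  have key : ∀ l, C κ * v l = ∑ p, g.f l p * ζ p + ∑ i, h i l * a i := by
    intro l
    apply mul_left_cancel₀ hPF
    have e1 : (∏ j, F j) * (C κ * v l) = ∑ b, g.f l b * α b := by
      rw [h1 l]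
      ring
    rw [e1]
    have e2 : ∑ b, g.f l b * α b = ∑ b, (∑ i, g.f l b * (a i *
        (∏ j ∈ Finset.univ.erase i, F j) * pderiv b (F i)) + (∏ j, F j) * (g.f l b * ζ b)) := by
      refine Finset.sum_congr rfl fun b _ => ?_
      rw [hα b, mul_add, Finset.mul_sum]
      ring
    rw [e2, Finset.sum_add_distrib, Finset.sum_comm, ← Finset.mul_sum, mul_add, add_comm]
    congr 1
    rw [Finset.mul_sum]
    refine Finset.sum_congr rfl fun i _ => ?_
    have e3 : ∑ b, g.f l b * (a i * (∏ j ∈ Finset.univ.erase i, F j) * pderiv b (F i)) =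
        (a i * (∏ j ∈ Finset.univ.erase i, F j)) * ∑ b, g.f l b * pderiv b (F i) := by
      rw [Finset.mul_sum]
      refine Finset.sum_congr rfl fun b _ => ?_
      ring
    rw [e3, ← hh i l, ← hG i]
    ring
  refine ⟨Fin.append (Fin.append (fun p => C κ⁻¹ * ζ p) (fun i => C κ⁻¹ * a i)) (fun _ => 0), ?_⟩
  intro l
  have hκ' : (C κ⁻¹ : PR N) * C κ = 1 := by
    rw [← C_mul, inv_mul_cancel₀ hκ, C_1]
  unfold th
  rw [Fin.sum_univ_add, Fin.sum_univ_add]
  simp only [Fin.append_left, Fin.append_right, mul_zero, Finset.sum_const_zero, add_zero]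
  have e4 : v l = C κ⁻¹ * (C κ * v l) := by
    rw [← mul_assoc, hκ', one_mul]
  rw [e4, key l, mul_add, Finset.mul_sum, Finset.mul_sum]
  congr 1
  · refine Finset.sum_congr rfl fun p _ => ?_
    ring
  · refine Finset.sum_congr rfl fun p _ => ?_
    ring

end Pool.Agent.Lib.MPc9b009.LS
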