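import Pool.Agent.Lib.MP_c9b009_ag.LS.Spec

/-!
# MP_c9b009_ag, row LS, module GNN: the vector fields which preserve the divisor
-/

set_option autoImplicit false

namespace Pool.Agent.Lib.MPc9b009.LS

open MvPolynomial Pool.Agent.Lib.MPc9b009.B5 Pool.Agent.Lib.MPc9b009.OD
  Pool.Agent.Lib.MPc9b009.PS

namespace GNNM

/-- a row of `[g | h | x]` times a vector -/
theorem th_mul {N n : ℕ} (g : Biv N) (h : Fin n → Fin N → PR N) (ζ : Fin N → PR N)
    (a : Fin n → PR N) (e : PR N) (l : Fin N) :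
    ∑ j, th g h l j * (Fin.append (Fin.append ζ a) (fun _ : Fin 1 => e)) j =
      ∑ p, g.f l p * ζ p + ∑ i, h i l * a i + X l * e := by
  unfold th
  rw [Fin.sum_univ_add, Fin.sum_univ_add]
  simp only [Fin.append_left, Fin.append_right, Finset.univ_unique, Finset.sum_const,
    Finset.card_singleton, one_smul]

end GNNM

/-- GNN -/
theorem specGNN (hALF : SpecALF) (hRES : SpecRES) : SpecGNN := by
  intro N n g F hL h hh v hv
  obtain ⟨c, hc⟩ := Ideal.mem_span_singleton'.1 hv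
  have hN : (N : ℂ) ≠ 0 := by
    have := hL.pos
    exact Nat.cast_ne_zero.2 (by omega)
  have hF0 : (∏ j, F j) ≠ 0 := Finset.prod_ne_zero_iff.2 fun i _ => (hL.irr i).ne_zero
  have heul : ∑ l, X l * pderiv l (∏ j, F j) = (N : PR N) * ∏ j, F j := by
    rw [hL.deg.sum_X_mul_pderiv, nsmul_eq_mul]
  have hNC : (C ((N : ℂ)⁻¹) : PR N) * (N : PR N) = 1 := by
    rw [← map_natCast (C : ℂ →+* PR N) N, ← C_mul, inv_mul_cancel₀ hN, C_1]
  have hv' : vf (fun l => v l - C ((N : ℂ)⁻¹) * c * X l) (∏ j, F j) = 0 := by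
    have h1 : vf (fun l => v l - C ((N : ℂ)⁻¹) * c * X l) (∏ j, F j) =
        vf v (∏ j, F j) - C ((N : ℂ)⁻¹) * c * ∑ l, X l * pderiv l (∏ j, F j) := by
      unfold vf
      rw [Finset.mul_sum, ← Finset.sum_sub_distrib]
      exact Finset.sum_congr rfl fun l _ => by ring
    rw [h1, heul, ← hc]
    linear_combination (-(c * ∏ j, F j)) * hNC
  obtain ⟨α, h1, h2⟩ := hALF N n g F hL _ hv'
  obtain ⟨a, ha⟩ := hRES N n F hL.toNCF α h2
  choose ζ hζ using ha
  refine ⟨Fin.append (Fin.append ζ a) (fun _ : Fin 1 => C ((N : ℂ)⁻¹) * c), fun l => ?_⟩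
  rw [GNNM.th_mul]
  have h3 : (∏ j, F j) * (v l - C ((N : ℂ)⁻¹) * c * X l) =
      (∏ j, F j) * (∑ p, g.f l p * ζ p + ∑ i, h i l * a i) := by
    rw [← h1 l]
    have h4 : ∀ p, α p = ∑ i, a i * (∏ j ∈ Finset.univ.erase i, F j) * pderiv p (F i) +
        (∏ j, F j) * ζ p := fun p => by rw [← hζ p]; ring
    have h5 : ∑ p, g.f l p * α p =
        ∑ p, ∑ i, a i * (∏ j ∈ Finset.univ.erase i, F j) * (g.f l p * pderiv p (F i)) +
        (∏ j, F j) * ∑ p, g.f l p * ζ p := by
      rw [Finset.mul_sum, ← Finset.sum_add_distrib]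
      refine Finset.sum_congr rfl fun p _ => ?_
      rw [h4 p, mul_add, Finset.mul_sum]
      congr 1
      · exact Finset.sum_congr rfl fun i _ => by ring
      · ring
    have h6 : ∑ p, ∑ i, a i * (∏ j ∈ Finset.univ.erase i, F j) * (g.f l p * pderiv p (F i)) =
        (∏ j, F j) * ∑ i, h i l * a i := by
      rw [Finset.sum_comm, Finset.mul_sum]
      refine Finset.sum_congr rfl fun i _ => ?_
      rw [← Finset.mul_sum, ← hh i l, ← Finset.mul_prod_erase Finset.univ F (Finset.mem_univ i)]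
      ring
    rw [h5, h6]
    ring
  have h7 := mul_left_cancel₀ hF0 h3
  linear_combination h7

end Pool.Agent.Lib.MPc9b009.LS
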