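import Pool.Agent.Lib.MP_c9b009_ag.LS.Spec

/-!
# MP_c9b009_ag, row LS, module GTB: the fields `h_a` can be omitted

The proof uses a smaller induction than the docstring: `m` is minimal such that for some `σ : Fin m → Fin k`
the matrix `th g (h ∘ σ)` has a `d`-minor outside of `P`. If `m ≥ 1` the column `h_(σ 0)` is not in the span
of the other columns, which gives the linear map `θ` of the trace lemma.
-/

set_option autoImplicit false

namespace Pool.Agent.Lib.MPc9b009.LS

open MvPolynomial Pool.Agent.Lib.MPc9b009.B5 Pool.Agent.Lib.MPc9b009.OD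
  Pool.Agent.Lib.MPc9b009.PS

namespace GTBM

theorem th_x {N k : ℕ} (g : Biv N) (h : Fin k → Fin N → PR N) (i : Fin N) :
    th g h i (Fin.natAdd (N + k) (0 : Fin 1)) = X i := by
  rw [th, Fin.append_right]

theorem th_g {N k : ℕ} (g : Biv N) (h : Fin k → Fin N → PR N) (i j : Fin N) :
    th g h i (Fin.castAdd 1 (Fin.castAdd k j)) = g.f i j := by
  rw [th, Fin.append_left, Fin.append_left]

theorem th_h {N k : ℕ} (g : Biv N) (h : Fin k → Fin N → PR N) (i : Fin N) (a : Fin k) :
    th g h i (Fin.castAdd 1 (Fin.natAdd N a)) = h a i := by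
  rw [th, Fin.append_left, Fin.append_right]

theorem cases3 {N k : ℕ} (j : Fin (N + k + 1)) :
    j = Fin.natAdd (N + k) (0 : Fin 1) ∨ (∃ j' : Fin N, j = Fin.castAdd 1 (Fin.castAdd k j')) ∨
      ∃ a : Fin k, j = Fin.castAdd 1 (Fin.natAdd N a) := by
  refine Fin.addCases (fun i => ?_) (fun i => ?_) j
  · refine Fin.addCases (fun i' => ?_) (fun i' => ?_) i
    · exact Or.inr (Or.inl ⟨i', rfl⟩)
    · exact Or.inr (Or.inr ⟨i', rfl⟩)
  · left
    rw [Subsingleton.elim i 0]

/-- every column of `th g (h ∘ σ)` is a column of `th g h` -/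
theorem col_of {N k m : ℕ} (g : Biv N) (h : Fin k → Fin N → PR N) (σ : Fin m → Fin k)
    (j : Fin (N + m + 1)) :
    ∃ j' : Fin (N + k + 1), ∀ i, th g (fun a => h (σ a)) i j = th g h i j' := by
  rcases cases3 j with rfl | ⟨j', rfl⟩ | ⟨a, rfl⟩
  · exact ⟨Fin.natAdd (N + k) (0 : Fin 1), fun i => by rw [th_x, th_x]⟩
  · exact ⟨Fin.castAdd 1 (Fin.castAdd k j'), fun i => by rw [th_g, th_g]⟩
  · exact ⟨Fin.castAdd 1 (Fin.natAdd N (σ a)), fun i => by rw [th_h, th_h]⟩

theorem stab_of {N k m : ℕ} (g : Biv N) (h : Fin k → Fin N → PR N) (σ : Fin m → Fin k)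
    (P : Ideal (PR N)) (hst : Stab (th g h) P) : Stab (th g (fun a => h (σ a))) P := by
  intro q hq j
  obtain ⟨j', hj'⟩ := col_of g h σ j
  have h1 := hst q hq j'
  simpa only [hj'] using h1

/-- degrees of the columns -/
def deg (N m : ℕ) : Fin (N + m + 1) → ℕ :=
  Fin.append (Fin.append (fun _ : Fin N => 2) (fun _ : Fin m => 1)) (fun _ : Fin 1 => 1)

/-- the constants -/
def cst (N m : ℕ) : Fin (N + (m + 1) + 1) → ℂ :=
  Fin.append (Fin.append (fun _ : Fin N => 0) (Fin.cons 1 (fun _ : Fin m => 0)))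
    (fun _ : Fin 1 => 0)

theorem hom_th {N m : ℕ} (g : Biv N) (h : Fin m → Fin N → PR N)
    (hh : ∀ a i, (h a i).IsHomogeneous 1) (i : Fin N) (j : Fin (N + m + 1)) :
    (th g h i j).IsHomogeneous (deg N m j) := by
  rcases cases3 j with rfl | ⟨j', rfl⟩ | ⟨a, rfl⟩
  · rw [th_x, deg, Fin.append_right]
    exact isHomogeneous_X ℂ i
  · rw [th_g, deg, Fin.append_left, Fin.append_left]
    exact g.quad i j'
  · rw [th_h, deg, Fin.append_left, Fin.append_right]
    exact hh a i

end GTBM

open GTBM

theorem specGTB (hTRL : SpecTRL) (hTHS : SpecTHS) (hEUH : SpecEUH) : SpecGTB := by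
  classical
  intro N k s d I P g h hjac hCF hIP hP hst hd hsd hmin hex
  have hHom : Hom P := by
    refine (hEUH N P).1 (fun q hq => ?_)
    have h1 := hst q hq (Fin.natAdd (N + k) (0 : Fin 1))
    simpa only [th_x, vf] using h1
  -- the function field
  let L := FractionRing (PR N ⧸ P)
  have hdom : IsDomain (PR N ⧸ P) := Ideal.Quotient.isDomain P
  let φ : PR N →ₐ[ℂ] L := (IsScalarTower.toAlgHom ℂ (PR N ⧸ P) L).comp (Ideal.Quotient.mkₐ ℂ P)
  have hφv : ∀ z, φ z = algebraMap (PR N ⧸ P) L (Ideal.Quotient.mk P z) := fun _ => rfl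
  have hφ : ∀ z, φ z = 0 ↔ z ∈ P := by
    intro z
    rw [← Ideal.Quotient.eq_zero_iff_mem, hφv]
    exact (IsFractionRing.injective (PR N ⧸ P) L).eq_iff' (map_zero _)
  have hGen : Gen P L φ := by
    refine ⟨hφ, fun y => ?_⟩
    obtain ⟨a, b, hb, rfl⟩ := IsFractionRing.div_surjective (A := PR N ⧸ P) y
    obtain ⟨a', rfl⟩ := Ideal.Quotient.mk_surjective a
    obtain ⟨b', rfl⟩ := Ideal.Quotient.mk_surjective b
    have hb' : φ b' ≠ 0 := by
      rw [hφv]
      exact IsFractionRing.to_map_ne_zero_of_mem_nonZeroDivisors hb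
    refine ⟨a', b', hb', ?_⟩
    rw [← hφv, ← hφv, div_mul_cancel₀ _ hb']
  have hφm : ∀ (r m : ℕ) (π : Fin N → Fin r → PR N) (A : Fin m → Fin N) (J : Fin m → Fin r),
      φ (mnr π A J) = (Matrix.of fun a b => (Matrix.of fun i j => φ (π i j)) (A a) (J b)).det := by
    intro r m π A J
    rw [mnr, AlgHom.map_det]
    rfl
  have hrk : ∀ (r m : ℕ) (π : Fin N → Fin r → PR N),
      (∀ (A : Fin (m + 1) → Fin N) (J : Fin (m + 1) → Fin r), mnr π A J ∈ P) ↔
        (Matrix.of fun i j => φ (π i j)).rank ≤ m := by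
    intro r m π
    rw [← specRKM L inferInstance N r m (Matrix.of fun i j => φ (π i j))]
    refine forall_congr' (fun A => forall_congr' (fun J => ?_))
    rw [← hφ, hφm]
  have hrk' : ∀ (r : ℕ) (π : Fin N → Fin r → PR N),
      (∃ (A : Fin d → Fin N) (J : Fin d → Fin r), mnr π A J ∉ P) ↔
        d ≤ (Matrix.of fun i j => φ (π i j)).rank := by
    intro r π
    obtain ⟨m, rfl⟩ : ∃ m, d = m + 1 := ⟨d - 1, by omega⟩
    have h1 := hrk r m π
    constructor
    · rintro ⟨A, J, hAJ⟩
      by_contra hcon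
      exact hAJ (h1.2 (by omega) A J)
    · intro h2
      by_contra hcon
      push Not at hcon
      have := h1.1 hcon
      omega
  -- the minimal number of fields
  have hexm : ∃ m : ℕ, ∃ σ : Fin m → Fin k, ∃ (A : Fin d → Fin N) (J : Fin d → Fin (N + m + 1)),
      mnr (th g (fun a => h (σ a))) A J ∉ P := ⟨k, fun a => a, hex⟩
  obtain ⟨σ, A, J, hAJ⟩ := Nat.find_spec hexm
  have hmn := fun m hm => Nat.find_min hexm (m := m) hm
  revert σ A J hAJ hmn
  generalize Nat.find hexm = m
  intro σ A J hAJ hmn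
  rcases m with _ | m
  · refine ⟨A, J, ?_⟩
    have h1 : (fun a => h (σ a)) = (fun a : Fin 0 => (a.elim0 : Fin N → PR N)) := by
      funext a
      exact a.elim0
    rwa [h1] at hAJ
  · exfalso
    -- the span of the other columns
    have hlt : ¬ d ≤ (Matrix.of fun i j => φ (th g (fun a => h (σ (Fin.succ a))) i j)).rank := by
      intro hcon
      obtain ⟨A', J', hAJ'⟩ := (hrk' _ _).2 hcon
      exact hmn m (Nat.lt_succ_self m) ⟨fun a => σ a.succ, A', J', hAJ'⟩
    have hle : d ≤ (Matrix.of fun i j => φ (th g (fun a => h (σ a)) i j)).rank :=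
      (hrk' _ _).1 ⟨A, J, hAJ⟩
    rw [Matrix.rank_eq_finrank_span_cols] at hlt hle
    set W := Submodule.span L (Set.range
      (Matrix.of fun i j => φ (th g (fun a => h (σ (Fin.succ a))) i j)).col) with hW
    have hWx : (fun i => φ (X i)) ∈ W := by
      refine Submodule.subset_span ⟨Fin.natAdd (N + m) (0 : Fin 1), ?_⟩
      funext i
      rw [Matrix.col_apply, Matrix.of_apply, th_x]
    have hWg : ∀ j, (fun i => φ (g.f i j)) ∈ W := by
      intro j
      refine Submodule.subset_span ⟨Fin.castAdd 1 (Fin.castAdd m j), ?_⟩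
      funext i
      rw [Matrix.col_apply, Matrix.of_apply, th_g]
    have hWh : ∀ a : Fin m, (fun i => φ (h (σ a.succ) i)) ∈ W := by
      intro a
      refine Submodule.subset_span ⟨Fin.castAdd 1 (Fin.natAdd N a), ?_⟩
      funext i
      rw [Matrix.col_apply, Matrix.of_apply, th_h]
    have hnW : (fun i => φ (h (σ 0) i)) ∉ W := by
      intro hcon
      apply hlt
      refine hle.trans (Submodule.finrank_mono ?_)
      rw [Submodule.span_le]
      rintro _ ⟨j, rfl⟩
      rcases cases3 j with rfl | ⟨j', rfl⟩ | ⟨a, rfl⟩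
      · have : (Matrix.of fun i j => φ (th g (fun a => h (σ a)) i j)).col
            (Fin.natAdd (N + (m + 1)) (0 : Fin 1)) = fun i => φ (X i) := by
          funext i
          rw [Matrix.col_apply, Matrix.of_apply, th_x]
        rw [this]
        exact hWx
      · have : (Matrix.of fun i j => φ (th g (fun a => h (σ a)) i j)).col
            (Fin.castAdd 1 (Fin.castAdd (m + 1) j')) = fun i => φ (g.f i j') := by
          funext i
          rw [Matrix.col_apply, Matrix.of_apply, th_g]
        rw [this]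
        exact hWg j'
      · have : (Matrix.of fun i j => φ (th g (fun a => h (σ a)) i j)).col
            (Fin.castAdd 1 (Fin.natAdd N a)) = fun i => φ (h (σ a) i) := by
          funext i
          rw [Matrix.col_apply, Matrix.of_apply, th_h]
        rw [this]
        refine Fin.cases ?_ (fun a' => ?_) a
        · exact hcon
        · exact hWh a'
    obtain ⟨f, hf, hfW⟩ := Submodule.exists_le_ker_of_notMem hnW
    set v : Fin N → L := fun i => φ (h (σ 0) i) with hv
    let θ : (Fin N → L) →ₗ[L] L := (f v)⁻¹ • f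
    have hθv : θ v = 1 := by
      rw [LinearMap.smul_apply, smul_eq_mul, inv_mul_cancel₀ hf]
    have hθW : ∀ w ∈ W, θ w = 0 := by
      intro w hw
      have h1 : f w = 0 := hfW hw
      rw [LinearMap.smul_apply, h1, smul_zero]
    have hθ : ∀ j, θ (fun i => φ (th g (fun a => h (σ a)) i j)) =
        algebraMap ℂ L (cst N m j) := by
      intro j
      rcases cases3 j with rfl | ⟨j', rfl⟩ | ⟨a, rfl⟩
      · simp only [th_x]
        rw [cst, Fin.append_right, map_zero]
        exact hθW _ hWx
      · simp only [th_g]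
        rw [cst, Fin.append_left, Fin.append_left, map_zero]
        exact hθW _ (hWg j')
      · simp only [th_h]
        rw [cst, Fin.append_left, Fin.append_right]
        revert a
        refine Fin.cases ?_ (fun a' => ?_)
        · rw [Fin.cons_zero, map_one]
          exact hθv
        · rw [Fin.cons_succ, map_zero]
          exact hθW _ (hWh a')
    have hDle : Dle (P ⊔ mnI d (th g (fun a => h (σ a)))) (d - 2) := by
      intro q hq hle
      have := hq
      obtain ⟨q₀, hq₀, hq₀q⟩ := Ideal.exists_minimalPrimes_le hle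
      have hst₀ : Stab (th g h) q₀ :=
        specDMIN N _ (th g h) _ (hTHS N k (m + 1) d I P g h σ hjac hCF hIP hst) q₀ hq₀
      have hPq₀ : P ≤ q₀ := le_sup_left.trans hq₀.1.2
      have hne : q₀ ≠ P := by
        intro hqP
        apply hAJ
        rw [← hqP]
        exact hq₀.1.2 (Ideal.mem_sup_right (Ideal.subset_span ⟨A, J, rfl⟩))
      have h1 := hmin q₀ hq₀.1.1 hPq₀ hst₀ hne
      have h2 : Algebra.trdeg ℂ (PR N ⧸ q) ≤ Algebra.trdeg ℂ (PR N ⧸ q₀) :=
        trdeg_le_of_surjective (Ideal.Quotient.factorₐ ℂ hq₀q)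
          (Ideal.Quotient.factor_surjective hq₀q)
      refine (h2.trans h1).trans ?_
      have h3 : s + 1 ≤ d - 2 := by omega
      exact_mod_cast h3
    have hc := hTRL N (N + (m + 1) + 1) d P (th g (fun a => h (σ a))) (deg N (m + 1)) hP hHom hd
      (by omega) (hom_th g _ (fun a i => hCF.lin _ _)) (stab_of g h σ P hst) hDle L inferInstance
      inferInstance φ hGen θ (cst N m) hθ (hθW _ hWx) (by
        intro j hj
        rcases cases3 j with rfl | ⟨j', rfl⟩ | ⟨a, rfl⟩
        · rw [deg, Fin.append_right]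
        · exfalso
          apply hj
          rw [cst, Fin.append_left, Fin.append_left]
        · rw [deg, Fin.append_left, Fin.append_right])
      (Fin.castAdd 1 (Fin.natAdd N (0 : Fin (m + 1))))
    rw [cst, Fin.append_left, Fin.append_right, Fin.cons_zero] at hc
    exact one_ne_zero hc

end Pool.Agent.Lib.MPc9b009.LS
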