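import Pool.Agent.Lib.MP_c9b009_ag.LS.Spec

/-!
# MP_c9b009_ag, row LS, module GTC: the contradiction with theorem PS
-/

set_option autoImplicit false

namespace Pool.Agent.Lib.MPc9b009.LS

open MvPolynomial Pool.Agent.Lib.MPc9b009.B5 Pool.Agent.Lib.MPc9b009.OD
  Pool.Agent.Lib.MPc9b009.PS

namespace GTCM

theorem th_x {N k : ℕ} (g : Biv N) (h : Fin k → Fin N → PR N) (i : Fin N) :
    th g h i (Fin.natAdd (N + k) (0 : Fin 1)) = X i := by
  rw [th, Fin.append_right]

theorem th_g {N k : ℕ} (g : Biv N) (h : Fin k → Fin N → PR N) (i j : Fin N) :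
    th g h i (Fin.castAdd 1 (Fin.castAdd k j)) = g.f i j := by
  rw [th, Fin.append_left, Fin.append_left]

theorem th_h {N k : ℕ} (g : Biv N) (h : Fin k → Fin N → PR N) (i : Fin N) (a : Fin k) :
    th g h i (Fin.castAdd 1 (Fin.natAdd N a)) = h a i := by
  rw [th, Fin.append_left, Fin.append_right]

theorem cases0 {N : ℕ} (j : Fin (N + 0 + 1)) :
    j = Fin.natAdd (N + 0) (0 : Fin 1) ∨ ∃ j' : Fin N, j = Fin.castAdd 1 (Fin.castAdd 0 j') := by
  refine Fin.addCases (fun i => ?_) (fun i => ?_) j
  · right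
    exact ⟨i, rfl⟩
  · left
    rw [Subsingleton.elim i 0]

/-- the minors of `[g | x]` -/
theorem mth {N n : ℕ} (g : Biv N) (P : Ideal (PR N))
    (h1 : ∀ A J : Fin (n + 1) → Fin N, mnr g.f A J ∈ P)
    (h2 : ∀ (A : Fin (n + 1) → Fin N) (J : Fin n → Fin N), xmnr g.f A J ∈ P)
    (A : Fin (n + 1) → Fin N) (J : Fin (n + 1) → Fin (N + 0 + 1)) :
    mnr (th g (fun a : Fin 0 => a.elim0)) A J ∈ P := by
  classical
  by_cases hJ : ∃ b₀, J b₀ = Fin.natAdd (N + 0) (0 : Fin 1)
  · obtain ⟨b₀, hb₀⟩ := hJ
    by_cases hJ' : ∃ b₁, b₁ ≠ b₀ ∧ J b₁ = Fin.natAdd (N + 0) (0 : Fin 1)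
    · obtain ⟨b₁, hne, hb₁⟩ := hJ'
      have hz : mnr (th g (fun a : Fin 0 => a.elim0)) A J = 0 := by
        rw [mnr]
        refine Matrix.det_zero_of_column_eq hne (fun a => ?_)
        rw [Matrix.of_apply, Matrix.of_apply, hb₀, hb₁]
      rw [hz]
      exact P.zero_mem
    · push Not at hJ'
      have hj : ∀ b' : Fin n, ∃ j' : Fin N,
          J (b₀.succAbove b') = Fin.castAdd 1 (Fin.castAdd 0 j') := by
        intro b'
        exact (cases0 _).resolve_left (hJ' _ (Fin.succAbove_ne _ _))
      choose j hj using hj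
      have hx := h2 A j
      have heq : xmnr g.f A j = ((Equiv.Perm.sign (Fin.cycleRange b₀).symm : ℤ) : PR N) *
          mnr (th g (fun a : Fin 0 => a.elim0)) A J := by
        rw [mnr, ← Matrix.det_permute', xmnr]
        congr 1
        ext a b
        refine Fin.cases ?_ (fun b' => ?_) b
        · rw [Matrix.of_apply, Fin.cons_zero, Matrix.submatrix_apply, Matrix.of_apply, id,
            Fin.cycleRange_symm_zero, hb₀, th_x]
        · rw [Matrix.of_apply, Fin.cons_succ, Matrix.submatrix_apply, Matrix.of_apply, id,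
            Fin.cycleRange_symm_succ, hj, th_g]
      rw [heq] at hx
      rcases Int.units_eq_one_or (Equiv.Perm.sign (Fin.cycleRange b₀).symm) with hs | hs
      · rw [hs] at hx
        simpa using hx
      · rw [hs] at hx
        simpa using hx
  · push Not at hJ
    have hj : ∀ b, ∃ j' : Fin N, J b = Fin.castAdd 1 (Fin.castAdd 0 j') := fun b =>
      (cases0 _).resolve_left (hJ b)
    choose j hj using hj
    have heq : mnr (th g (fun a : Fin 0 => a.elim0)) A J = mnr g.f A j := by
      rw [mnr, mnr]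
      congr 1
      ext a b
      rw [Matrix.of_apply, Matrix.of_apply, hj, th_g]
    rw [heq]
    exact h1 A j

/-- the rank goes up by at most one -/
theorem rank_le {N : ℕ} (F : Type) [Field F] (G : Matrix (Fin N) (Fin N) F)
    (B : Matrix (Fin N) (Fin (N + 0 + 1)) F)
    (hB : ∀ i j, B i (Fin.castAdd 1 (Fin.castAdd 0 j)) = G i j) : B.rank ≤ G.rank + 1 := by
  rw [Matrix.rank_eq_finrank_span_cols, Matrix.rank_eq_finrank_span_cols]
  set v : Fin N → F := fun i => B i (Fin.natAdd (N + 0) (0 : Fin 1)) with hv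
  have h1 : Submodule.span F (Set.range B.col) ≤
      Submodule.span F (Set.range G.col) ⊔ Submodule.span F {v} := by
    rw [Submodule.span_le]
    rintro _ ⟨j, rfl⟩
    rcases cases0 j with hj | ⟨j', hj⟩
    · refine Submodule.mem_sup_right ?_
      have : B.col j = v := by
        rw [hj]
        rfl
      rw [this]
      exact Submodule.mem_span_singleton_self v
    · refine Submodule.mem_sup_left (Submodule.subset_span ⟨j', ?_⟩)
      rw [hj]
      funext i
      exact (hB i j').symm
  calc Module.finrank F (Submodule.span F (Set.range B.col)) ≤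
      Module.finrank F ↥(Submodule.span F (Set.range G.col) ⊔ Submodule.span F {v}) :=
        Submodule.finrank_mono h1
    _ ≤ Module.finrank F (Submodule.span F (Set.range G.col)) +
        Module.finrank F (Submodule.span F {v}) :=
        Submodule.finrank_add_le_finrank_add_finrank _ _
    _ ≤ _ := by
        gcongr
        exact finrank_span_le_card ({v} : Set (Fin N → F)) |>.trans (by simp)

end GTCM

open GTCM

theorem specGTC (hCMX : SpecCMX) (hEUH : SpecEUH) : SpecGTC := by
  classical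
  intro N k s d I P g h hs hjac hCF hIP hP hst hd hsd hmin hex4 hexd
  have hstg : Stab g.f P := by
    intro q hq j
    have h1 := hst q hq (Fin.castAdd 1 (Fin.castAdd k j))
    simpa only [th_g] using h1
  have hHom : Hom P := by
    refine (hEUH N P).1 (fun q hq => ?_)
    have h1 := hst q hq (Fin.natAdd (N + k) (0 : Fin 1))
    simpa only [th_x, vf] using h1
  have hCFP : CF P g h :=
    { lin := hCF.lin
      sta := by
        intro a q hq
        have h1 := hst q hq (Fin.castAdd 1 (Fin.natAdd N a))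
        simpa only [th_h, vf] using h1
      poi := fun a i j => hIP (hCF.poi a i j)
      com := fun a b i => hIP (hCF.com a b i) }
  have hjacP : ∀ i j l, jac g.f i j l ∈ P := fun i j l => hIP (hjac i j l)
  -- the generic rank
  let K := FractionRing (PR N ⧸ P)
  let φ : PR N →+* K := (algebraMap (PR N ⧸ P) K).comp (Ideal.Quotient.mk P)
  have hφ : ∀ z, φ z = 0 ↔ z ∈ P := by
    intro z
    rw [← Ideal.Quotient.eq_zero_iff_mem]
    exact (IsFractionRing.injective (PR N ⧸ P) K).eq_iff' (map_zero _)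
  have hφm : ∀ (r m : ℕ) (π : Fin N → Fin r → PR N) (A : Fin m → Fin N) (J : Fin m → Fin r),
      φ (mnr π A J) = (Matrix.of fun a b => (Matrix.of fun i j => φ (π i j)) (A a) (J b)).det := by
    intro r m π A J
    rw [mnr, RingHom.map_det]
    rfl
  have hrk : ∀ (r m : ℕ) (π : Fin N → Fin r → PR N),
      (∀ (A : Fin (m + 1) → Fin N) (J : Fin (m + 1) → Fin r), mnr π A J ∈ P) ↔
        (Matrix.of fun i j => φ (π i j)).rank ≤ m := by
    intro r m π
    rw [← specRKM K inferInstance N r m (Matrix.of fun i j => φ (π i j))]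
    refine forall_congr' (fun A => forall_congr' (fun J => ?_))
    rw [← hφ, hφm]
  have hchar : CharZero K := charZero_of_injective_algebraMap (algebraMap ℂ K).injective
  set G : Matrix (Fin N) (Fin N) K := Matrix.of fun i j => φ (g.f i j) with hG
  have hr1 : s + 4 ≤ G.rank := by
    by_contra hcon
    obtain ⟨A, J, hAJ⟩ := hex4
    exact hAJ ((hrk N (s + 3) g.f).2 (by rw [← hG]; omega) A J)
  have hr2 : Even G.rank := by
    by_contra hcon
    rw [Nat.not_even_iff_odd] at hcon
    obtain ⟨m, hm⟩ := hcon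
    have h5 := specSKE K inferInstance hchar N m G (by
      ext i j
      rw [hG, Matrix.transpose_apply, Matrix.of_apply, Matrix.neg_apply, Matrix.of_apply, g.skew,
        map_neg]) hm.le
    omega
  have hr3 : G.rank ≤ d := by
    have h1 : ∃ A J : Fin G.rank → Fin N, mnr g.f A J ∉ P := by
      obtain ⟨m, hm⟩ : ∃ m, G.rank = m + 1 := ⟨G.rank - 1, by omega⟩
      rw [hm]
      by_contra hcon
      push Not at hcon
      have := (hrk N m g.f).1 hcon
      rw [← hG] at this
      omega
    have h2 := specDIM N N G.rank g.f P hP hstg h1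
    rw [hd] at h2
    exact_mod_cast h2
  have hr4 : d ≤ G.rank + 1 := by
    have h1 : d ≤ (Matrix.of fun i j => φ (th g (fun a : Fin 0 => a.elim0) i j)).rank := by
      by_contra hcon
      obtain ⟨m, rfl⟩ : ∃ m, d = m + 1 := ⟨d - 1, by omega⟩
      obtain ⟨A, J, hAJ⟩ := hexd
      exact hAJ ((hrk _ m _).2 (by omega) A J)
    refine h1.trans (rank_le K G _ (fun i j => ?_))
    rw [Matrix.of_apply, th_g, hG, Matrix.of_apply]
  -- the choice of `s'`
  obtain ⟨s', hs', hss', hs2, hs4, hcase⟩ : ∃ s' : ℕ, Even s' ∧ s ≤ s' ∧ s' + 2 ≤ d ∧ d ≤ s' + 4 ∧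
      (s' + 4 ≤ G.rank ∨ d = s' + 3) := by
    obtain ⟨m, hm⟩ := hr2
    obtain ⟨n, hn⟩ := hs
    rcases (by omega : G.rank = d ∨ G.rank + 1 = d) with hc | hc
    · exact ⟨d - 4, ⟨m - 2, by omega⟩, by omega, by omega, by omega, Or.inl (by omega)⟩
    · exact ⟨d - 3, ⟨m - 1, by omega⟩, by omega, by omega, by omega, Or.inr (by omega)⟩
  obtain ⟨q, hq, hqd⟩ : BigI P g.f s' := by
    refine PS.hTHI N s' P g hs' hHom hstg hjacP (Or.inr ⟨P, hP, hHom, le_rfl, hstg, ?_, ?_⟩)
    · rw [hd]
      exact_mod_cast hs2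
    · rw [hd]
      exact_mod_cast hs4
  have hPv : P ≤ vanI P g.f s' := fun z hz x _ hxP _ => hxP z hz
  have hPq : P ≤ q := hPv.trans hq.1.2
  have hstq : Stab (th g h) q := hCMX N k s' P g h hs' hHom hstg hjacP hCFP q hq
  have hne : q ≠ P := by
    rintro rfl
    have hm1 : ∀ A J : Fin (s' + 3) → Fin N, mnr g.f A J ∈ q := by
      intro A J
      refine hq.1.2 (fun x hx _ hr => ?_)
      exact (PS.specRKC N s' g x hs' hx hr).1 A J
    have hm2 : ∀ (A : Fin (s' + 3) → Fin N) (J : Fin (s' + 2) → Fin N), xmnr g.f A J ∈ q := by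
      intro A J
      refine hq.1.2 (fun x hx _ hr => ?_)
      exact (PS.specRKC N s' g x hs' hx hr).2 A J
    rcases hcase with hc | hc
    · have := (hrk N (s' + 2) g.f).1 hm1
      rw [← hG] at this
      omega
    · subst hc
      obtain ⟨A, J, hAJ⟩ := hexd
      exact hAJ (mth g q hm1 hm2 A J)
  have h1 := hqd.trans (hmin q hq.1.1 hPq hstq hne)
  have h2 : s' + 2 ≤ s + 1 := by exact_mod_cast h1
  omega

end Pool.Agent.Lib.MPc9b009.LS
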