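import Pool.Agent.Lib.MP_c9b009_ag.LS.Spec

/-!
# MP_c9b009_ag, row LS, module GTH: theorem GT
-/

set_option autoImplicit false

namespace Pool.Agent.Lib.MPc9b009.LS

open MvPolynomial Pool.Agent.Lib.MPc9b009.B5 Pool.Agent.Lib.MPc9b009.OD
  Pool.Agent.Lib.MPc9b009.PS

namespace GTHM

theorem stab_th {N k : ℕ} (g : Biv N) (h : Fin k → Fin N → PR N) (p : Ideal (PR N))
    (h1 : Stab g.f p) (h2 : ∀ a, ∀ q ∈ p, vf (h a) q ∈ p)
    (h3 : ∀ q ∈ p, vf (fun l => X l) q ∈ p) : Stab (th g h) p := by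
  intro q hq j
  refine Fin.addCases (fun j => ?_) (fun j => ?_) j
  · refine Fin.addCases (fun j => ?_) (fun j => ?_) j
    · have := h1 q hq j
      simpa only [th, Fin.append_left] using this
    · have := h2 j q hq
      unfold vf at this
      simpa only [th, Fin.append_left, Fin.append_right] using this
  · have := h3 q hq
    unfold vf at this
    simpa only [th, Fin.append_right] using this

end GTHM

theorem specGTH (hLMN : SpecLMN) (hGTA : SpecGTA) (hGTB : SpecGTB) (hGTC : SpecGTC)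
    (hEUH : SpecEUH) : SpecGTH := by
  intro N k s I z g h hs hI hgI hjac hCF hz hIz hgz hhz hT hex
  obtain ⟨p, hp, hpH, hzp, hgp, hhp, hdim⟩ := hex
  have hst : Stab (th g h) p := GTHM.stab_th g h p hgp hhp ((hEUH N p).2 hpH)
  obtain ⟨P, hP, hzP, hPs, hPd, hmin⟩ := hLMN N k s z g h p hp hzp hst hdim
  obtain ⟨d, hd⟩ := BSTM.nat_trdeg P
  have hsd : s + 2 ≤ d := by
    rw [hd] at hPd
    exact_mod_cast hPd
  by_contra hbig
  obtain ⟨h4, hAJ, hAJ'⟩ := hGTA N k s d I z P g h hs hI hgI hjac hCF hz hIz hgz hhz hT hP hzP hPs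
    hd hsd hmin hbig
  have hB := hGTB N k s d I P g h hjac hCF (hIz.trans hzP) hP hPs hd h4 hmin hAJ'
  exact hGTC N k s d I P g h hs hjac hCF (hIz.trans hzP) hP hPs hd h4 hmin hAJ hB

end Pool.Agent.Lib.MPc9b009.LS
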