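import Pool.Agent.Lib.MP_c9b009_ag.LS.SpecB

/-!
# MP_c9b009_ag, row LS, part B, module HME: the fields `h_i = {., F_i} / F_i`

The common part of HMI and HME is the theorem `HMEM.main`.
-/

set_option autoImplicit false

namespace Pool.Agent.Lib.MPc9b009.LS

open MvPolynomial Pool.Agent.Lib.MPc9b009.B5 Pool.Agent.Lib.MPc9b009.OD
  Pool.Agent.Lib.MPc9b009.PS

namespace HMEM

variable {N : ℕ}

theorem vf_mul (v : Fin N → PR N) (a b : PR N) : vf v (a * b) = vf v a * b + a * vf v b := by
  simp only [vf]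
  rw [Finset.sum_mul, Finset.mul_sum, ← Finset.sum_add_distrib]
  refine Finset.sum_congr rfl fun l _ => ?_
  rw [Derivation.leibniz, smul_eq_mul, smul_eq_mul]
  ring

theorem vf_zero (v : Fin N → PR N) : vf v 0 = 0 := by
  simp [vf]

theorem vf_one (v : Fin N → PR N) : vf v 1 = 0 := by
  simp [vf]

theorem vf_C (v : Fin N → PR N) (c : ℂ) : vf v (C c) = 0 := by
  simp [vf]

theorem vf_prod {n : ℕ} (v : Fin N → PR N) (F : Fin n → PR N) (s : Finset (Fin n))
    (h : ∀ j, F j ∣ vf v (F j)) : (∏ j ∈ s, F j) ∣ vf v (∏ j ∈ s, F j) := by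
  classical
  induction s using Finset.induction_on with
  | empty => simp
  | insert a s ha ih =>
    rw [Finset.prod_insert ha, vf_mul]
    exact dvd_add (mul_dvd_mul (h a) dvd_rfl) (mul_dvd_mul dvd_rfl ih)

theorem vf_span (v : Fin N → PR N) (F : PR N) (h : F ∣ vf v F) (q : PR N)
    (hq : q ∈ Ideal.span {F}) : vf v q ∈ Ideal.span {F} := by
  rw [Ideal.mem_span_singleton] at hq ⊢
  obtain ⟨c, rfl⟩ := hq
  rw [vf_mul]
  exact dvd_add (Dvd.dvd.mul_right h _) (Dvd.intro _ rfl)

theorem stab_of (g : Biv N) (F : PR N) (h : ∀ l, F ∣ vf (g.f l) F) : Stab g.f (Ideal.span {F}) := by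
  intro q hq j
  have h1 := vf_span (g.f j) F (h j) q hq
  have h2 : ∑ i, g.f i j * pderiv i q = - vf (g.f j) q := by
    simp only [vf]
    rw [← Finset.sum_neg_distrib]
    refine Finset.sum_congr rfl fun l _ => ?_
    rw [g.skew j l]
    ring
  rw [h2]
  exact neg_mem h1

theorem pdc (i j : Fin N) (q : PR N) : pderiv i (pderiv j q) = pderiv j (pderiv i q) := by
  have h : (⁅(pderiv i : Derivation ℂ (PR N) (PR N)), (pderiv j : Derivation ℂ (PR N) (PR N))⁆ :
      Derivation ℂ (PR N) (PR N)) = 0 := by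
    apply derivation_ext
    intro k
    rw [Derivation.commutator_apply]
    simp only [pderiv_X, Pi.single_apply]
    split_ifs <;> simp
  have h2 := congrArg (fun D => D q) h
  simp only [Derivation.commutator_apply, Derivation.coe_zero, Pi.zero_apply] at h2
  exact sub_eq_zero.1 h2

theorem dH (g : Biv N) (F : PR N) (i l : Fin N) : pderiv l (vf (g.f i) F) =
    ∑ m, (pderiv l (g.f i m) * pderiv m F + g.f i m * pderiv l (pderiv m F)) := by
  simp only [vf, map_sum]
  refine Finset.sum_congr rfl fun m _ => ?_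
  rw [Derivation.leibniz, smul_eq_mul, smul_eq_mul]
  ring

/-- the Jacobi identity for `x_i, x_j, F` -/
theorem jacF (g : Biv N) (h0 : ∀ i j l, jac g.f i j l = 0) (F : PR N) (i j : Fin N) :
    ∑ l, vf (g.f l) F * pderiv l (g.f i j) - ∑ l, pderiv l (vf (g.f i) F) * g.f l j
      - ∑ l, pderiv l (vf (g.f j) F) * g.f i l = 0 := by
  have e1 : ∑ l, vf (g.f l) F * pderiv l (g.f i j) =
      ∑ l, ∑ m, g.f l m * pderiv m F * pderiv l (g.f i j) := by
    refine Finset.sum_congr rfl fun l _ => ?_
    simp only [vf]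
    rw [Finset.sum_mul]
  have e2 : ∑ l, pderiv l (vf (g.f i) F) * g.f l j =
      ∑ l, ∑ m, (pderiv l (g.f i m) * pderiv m F * g.f l j) +
        ∑ l, ∑ m, (g.f i m * pderiv l (pderiv m F) * g.f l j) := by
    rw [← Finset.sum_add_distrib]
    refine Finset.sum_congr rfl fun l _ => ?_
    rw [dH, Finset.sum_mul, ← Finset.sum_add_distrib]
    refine Finset.sum_congr rfl fun m _ => ?_
    ring
  have e3 : ∑ l, pderiv l (vf (g.f j) F) * g.f i l =
      ∑ l, ∑ m, (pderiv l (g.f j m) * pderiv m F * g.f i l) +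
        ∑ l, ∑ m, (g.f j m * pderiv l (pderiv m F) * g.f i l) := by
    rw [← Finset.sum_add_distrib]
    refine Finset.sum_congr rfl fun l _ => ?_
    rw [dH, Finset.sum_mul, ← Finset.sum_add_distrib]
    refine Finset.sum_congr rfl fun m _ => ?_
    ring
  have e4 : ∑ l, ∑ m, (g.f i m * pderiv l (pderiv m F) * g.f l j) +
      ∑ l, ∑ m, (g.f j m * pderiv l (pderiv m F) * g.f i l) = 0 := by
    rw [Finset.sum_comm (f := fun l m => g.f j m * pderiv l (pderiv m F) * g.f i l),
      ← Finset.sum_add_distrib]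
    refine Finset.sum_eq_zero fun l _ => ?_
    rw [← Finset.sum_add_distrib]
    refine Finset.sum_eq_zero fun m _ => ?_
    rw [g.skew j l, pdc m l]
    ring
  have e5 : ∑ l, ∑ m, g.f l m * pderiv m F * pderiv l (g.f i j) -
      ∑ l, ∑ m, (pderiv l (g.f i m) * pderiv m F * g.f l j) -
      ∑ l, ∑ m, (pderiv l (g.f j m) * pderiv m F * g.f i l) = 0 := by
    have e6 : ∀ m, ∑ l, (g.f l m * pderiv m F * pderiv l (g.f i j) -
        pderiv l (g.f i m) * pderiv m F * g.f l j -
        pderiv l (g.f j m) * pderiv m F * g.f i l) = 0 := by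
      intro m
      have := h0 i j m
      rw [jac] at this
      have h7 : ∑ l, (g.f l m * pderiv m F * pderiv l (g.f i j) -
        pderiv l (g.f i m) * pderiv m F * g.f l j -
        pderiv l (g.f j m) * pderiv m F * g.f i l) = - pderiv m F *
        ∑ l, (g.f i l * pderiv l (g.f j m) + g.f j l * pderiv l (g.f m i) +
          g.f m l * pderiv l (g.f i j)) := by
        rw [Finset.mul_sum]
        refine Finset.sum_congr rfl fun l _ => ?_
        rw [g.skew m l, g.skew j l, g.skew i m, map_neg]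
        ring
      rw [h7, this, mul_zero]
    rw [← Finset.sum_sub_distrib, ← Finset.sum_sub_distrib]
    simp only [← Finset.sum_sub_distrib]
    rw [Finset.sum_comm]
    exact Finset.sum_eq_zero fun m _ => e6 m
  rw [e1, e2, e3]
  linear_combination e5 - e4

/-- the Jacobi identity for `x_i, F, G` -/
theorem jacFG (g : Biv N) (h0 : ∀ i j l, jac g.f i j l = 0) (F G : PR N) (i : Fin N) :
    ∑ l, pderiv l (vf (g.f i) G) * vf (g.f l) F - ∑ l, pderiv l (vf (g.f i) F) * vf (g.f l) G
      = vf (g.f i) (∑ l, pderiv l G * vf (g.f l) F) := by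
  have e1 : ∑ l, pderiv l (vf (g.f i) G) * vf (g.f l) F =
      ∑ l, ∑ m, (pderiv l (g.f i m) * pderiv m G * vf (g.f l) F) +
        ∑ l, ∑ m, (g.f i m * pderiv l (pderiv m G) * vf (g.f l) F) := by
    rw [← Finset.sum_add_distrib]
    refine Finset.sum_congr rfl fun l _ => ?_
    rw [dH, Finset.sum_mul, ← Finset.sum_add_distrib]
    refine Finset.sum_congr rfl fun m _ => ?_
    ring
  have e2 : ∑ l, pderiv l (vf (g.f i) F) * vf (g.f l) G =
      ∑ l, ∑ m, pderiv l (vf (g.f i) F) * g.f l m * pderiv m G := by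
    refine Finset.sum_congr rfl fun l _ => ?_
    generalize pderiv l (vf (g.f i) F) = c
    rw [vf, Finset.mul_sum]
    refine Finset.sum_congr rfl fun m _ => ?_
    ring
  have e3 : vf (g.f i) (∑ l, pderiv l G * vf (g.f l) F) =
      ∑ l, ∑ m, (g.f i m * pderiv l (pderiv m G) * vf (g.f l) F) +
        ∑ l, ∑ m, g.f i l * pderiv l (vf (g.f m) F) * pderiv m G := by
    have e4 : vf (g.f i) (∑ l, pderiv l G * vf (g.f l) F) =
        ∑ m, ∑ l, (g.f i m * pderiv m (pderiv l G) * vf (g.f l) F) +
        ∑ m, ∑ l, g.f i m * pderiv m (vf (g.f l) F) * pderiv l G := by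
      rw [← Finset.sum_add_distrib]
      conv_lhs => rw [vf]
      refine Finset.sum_congr rfl fun m _ => ?_
      rw [map_sum, Finset.mul_sum, ← Finset.sum_add_distrib]
      refine Finset.sum_congr rfl fun l _ => ?_
      rw [Derivation.leibniz, smul_eq_mul, smul_eq_mul]
      ring
    have e6 : ∑ m, ∑ l, (g.f i m * pderiv m (pderiv l G) * vf (g.f l) F) =
        ∑ l, ∑ m, (g.f i m * pderiv l (pderiv m G) * vf (g.f l) F) := by
      rw [Finset.sum_comm]
      refine Finset.sum_congr rfl fun l _ => Finset.sum_congr rfl fun m _ => ?_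
      rw [pdc m l]
    rw [e4, e6]
  have e5 : ∑ l, ∑ m, (pderiv l (g.f i m) * pderiv m G * vf (g.f l) F) -
      ∑ l, ∑ m, pderiv l (vf (g.f i) F) * g.f l m * pderiv m G -
      ∑ l, ∑ m, g.f i l * pderiv l (vf (g.f m) F) * pderiv m G = 0 := by
    rw [← Finset.sum_sub_distrib, ← Finset.sum_sub_distrib]
    simp only [← Finset.sum_sub_distrib]
    rw [Finset.sum_comm]
    refine Finset.sum_eq_zero fun m _ => ?_
    have h7 : ∑ l, (pderiv l (g.f i m) * pderiv m G * vf (g.f l) F -
        pderiv l (vf (g.f i) F) * g.f l m * pderiv m G -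
        g.f i l * pderiv l (vf (g.f m) F) * pderiv m G) = pderiv m G *
        (∑ l, vf (g.f l) F * pderiv l (g.f i m) - ∑ l, pderiv l (vf (g.f i) F) * g.f l m
      - ∑ l, pderiv l (vf (g.f m) F) * g.f i l) := by
      rw [← Finset.sum_sub_distrib, ← Finset.sum_sub_distrib, Finset.mul_sum]
      refine Finset.sum_congr rfl fun l _ => ?_
      ring
    rw [h7, jacF g h0, mul_zero]
  rw [e1, e2, e3]
  linear_combination e5

/-- `{G, F} = - {F, G}` -/
theorem br_skew (g : Biv N) (F G : PR N) :
    ∑ l, pderiv l G * vf (g.f l) F = - ∑ l, pderiv l F * vf (g.f l) G := by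
  have e : ∀ F G : PR N, ∑ l, pderiv l G * vf (g.f l) F =
      ∑ l, ∑ m, g.f l m * pderiv m F * pderiv l G := by
    intro F G
    refine Finset.sum_congr rfl fun l _ => ?_
    rw [vf, Finset.mul_sum]
    exact Finset.sum_congr rfl fun m _ => by ring
  rw [e, e, Finset.sum_comm, ← Finset.sum_neg_distrib]
  refine Finset.sum_congr rfl fun l _ => ?_
  rw [← Finset.sum_neg_distrib]
  refine Finset.sum_congr rfl fun m _ => ?_
  rw [g.skew l m]
  ring

/-- quotients of forms are forms -/
theorem hom_quot {e d : ℕ} {F h : PR N} (hF : F.IsHomogeneous e) (h0 : F ≠ 0)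
    (hh : (F * h).IsHomogeneous (e + d)) : h.IsHomogeneous d := by
  have h1 := hh
  have h2 : F * h = F * homogeneousComponent d h := by
    rw [← EXAM.homComp_mul F h hF]
    exact (homogeneousComponent_of_mem h1).trans (by simp) |>.symm
  have h3 := mul_left_cancel₀ h0 h2
  rw [h3]
  exact homogeneousComponent_isHomogeneous d h

theorem vf_hom {k e : ℕ} (v : Fin N → PR N) (q : PR N) (hv : ∀ l, (v l).IsHomogeneous k)
    (hq : q.IsHomogeneous (e + 1)) : (vf v q).IsHomogeneous (k + e) := by
  refine IsHomogeneous.sum _ _ _ fun l _ => (hv l).mul ?_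
  have := hq.pderiv (i := l)
  simpa using this

theorem deg_pos {F : PR N} (hF : Irreducible F) {e : ℕ} (he : F.IsHomogeneous e) :
    ∃ d, F.IsHomogeneous (d + 1) := by
  rcases Nat.eq_zero_or_pos e with rfl | hpos
  · exfalso
    have h1 := he.totalDegree hF.ne_zero
    rw [totalDegree_eq_zero_iff_eq_C] at h1
    refine hF.not_isUnit ?_
    rw [h1]
    refine (isUnit_iff_ne_zero.2 fun h => ?_).map C
    rw [h, C_0] at h1
    exact hF.ne_zero h1
  · exact ⟨e - 1, by rwa [Nat.sub_add_cancel hpos]⟩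

/-- the common part of HMI and HME -/
theorem main {N n : ℕ} (g : Biv N) (F : Fin n → PR N) (hirr : ∀ i, Irreducible (F i))
    (hhom : ∀ i, ∃ e, (F i).IsHomogeneous e) (hndv : ∀ i j, i ≠ j → ¬ F i ∣ F j)
    (h0 : ∀ i j l, jac g.f i j l = 0)
    (hdv : ∀ i l, F i ∣ ∑ m, g.f l m * pderiv m (F i)) :
    ∃ h : Fin n → Fin N → PR N, (∀ i l, F i * h i l = ∑ m, g.f l m * pderiv m (F i)) ∧
      CF ⊥ g h ∧ (∀ i, ∀ q ∈ Ideal.span {∏ j, F j}, vf (h i) q ∈ Ideal.span {∏ j, F j}) ∧
      (∀ i j, ∀ q ∈ Ideal.span {F j}, vf (h i) q ∈ Ideal.span {F j}) ∧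
      Stab g.f (Ideal.span {∏ j, F j}) ∧ ∀ j, Stab g.f (Ideal.span {F j}) := by
  classical
  choose h hh using hdv
  have hne : ∀ i, F i ≠ 0 := fun i => (hirr i).ne_zero
  have hpr : ∀ i, Prime (F i) := fun i => (hirr i).prime
  have hH : ∀ i l, vf (g.f l) (F i) = F i * h i l := hh
  have hb : ∀ i q, F i * vf (h i) q = ∑ l, pderiv l q * vf (g.f l) (F i) := by
    intro i q
    rw [vf, Finset.mul_sum]
    refine Finset.sum_congr rfl fun l _ => ?_
    rw [hH]
    ring
  have hdeg : ∀ i, ∃ e, (F i).IsHomogeneous (e + 1) := fun i => by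
    obtain ⟨e, he⟩ := hhom i
    exact deg_pos (hirr i) he
  choose e he using hdeg
  have hlin : ∀ a i, (h a i).IsHomogeneous 1 := by
    intro a i
    refine hom_quot (he a) (hne a) ?_
    rw [← hH]
    have := vf_hom (g.f i) (F a) (fun l => g.quad i l) (he a)
    rwa [show 2 + e a = e a + 1 + 1 by ring] at this
  have hself : ∀ i, vf (h i) (F i) = 0 := by
    intro i
    have h1 := br_skew g (F i) (F i)
    have h2 := self_eq_neg.1 h1
    rw [← hb] at h2
    exact (mul_eq_zero.1 h2).resolve_left (hne i)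
  have hvF : ∀ i j, F j ∣ vf (h i) (F j) := by
    intro i j
    by_cases hij : i = j
    · rw [hij, hself]
      exact dvd_zero _
    · have h1 : F j ∣ F i * vf (h i) (F j) := by
        rw [hb, br_skew]
        refine dvd_neg.2 (Finset.dvd_sum fun l _ => ?_)
        rw [hH]
        exact Dvd.intro (pderiv l (F i) * h j l) (by ring)
      exact ((hpr j).dvd_or_dvd h1).resolve_left (hndv j i (Ne.symm hij))
  have hgF : ∀ j l, F j ∣ vf (g.f l) (F j) := fun j l => by
    rw [hH]
    exact Dvd.intro _ rfl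
  refine ⟨h, fun i l => (hh i l).symm, ⟨hlin, ?_, ?_, ?_⟩, ?_, ?_, ?_, ?_⟩
  · intro a q hq
    rw [Ideal.mem_bot] at hq ⊢
    rw [hq, vf_zero]
  · intro a i j
    rw [Ideal.mem_bot]
    have h1 := jacF g h0 (F a) i j
    simp only [hH, Derivation.leibniz, smul_eq_mul] at h1
    have h2 : ∑ l, pderiv l (F a) * g.f l j = - (F a * h a j) := by
      rw [← hH, vf, ← Finset.sum_neg_distrib]
      refine Finset.sum_congr rfl fun l _ => ?_
      rw [g.skew j l]
      ring
    have h3 : ∑ l, pderiv l (F a) * g.f i l = F a * h a i := by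
      rw [← hH, vf]
      exact Finset.sum_congr rfl fun l _ => mul_comm _ _
    have h4 : ∑ l, F a * h a l * pderiv l (g.f i j) = F a * vf (h a) (g.f i j) := by
      rw [vf, Finset.mul_sum]
      exact Finset.sum_congr rfl fun l _ => by ring
    have h5 : ∑ l, (F a * pderiv l (h a i) + h a i * pderiv l (F a)) * g.f l j =
        F a * ∑ l, pderiv l (h a i) * g.f l j + h a i * ∑ l, pderiv l (F a) * g.f l j := by
      rw [Finset.mul_sum, Finset.mul_sum, ← Finset.sum_add_distrib]
      exact Finset.sum_congr rfl fun l _ => by ring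
    have h6 : ∑ l, (F a * pderiv l (h a j) + h a j * pderiv l (F a)) * g.f i l =
        F a * ∑ l, pderiv l (h a j) * g.f i l + h a j * ∑ l, pderiv l (F a) * g.f i l := by
      rw [Finset.mul_sum, Finset.mul_sum, ← Finset.sum_add_distrib]
      exact Finset.sum_congr rfl fun l _ => by ring
    rw [h4, h5, h6, h2, h3] at h1
    refine (mul_eq_zero.1 (?_ : F a * _ = 0)).resolve_left (hne a)
    rw [Finset.sum_add_distrib]
    linear_combination h1
  · intro a b i
    rw [Ideal.mem_bot]
    by_cases hab : a = b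
    · rw [hab, sub_self]
    obtain ⟨q, hq⟩ := hvF a b
    have hq0 : q.IsHomogeneous 0 := by
      refine hom_quot (he b) (hne b) ?_
      rw [← hq]
      have := vf_hom (h a) (F b) (hlin a) (he b)
      rwa [show 1 + e b = e b + 1 + 0 by ring] at this
    obtain ⟨c, rfl⟩ : ∃ c : ℂ, q = C c := by
      refine ⟨coeff 0 q, ?_⟩
      by_cases h00 : q = 0
      · rw [h00]
        simp
      · exact totalDegree_eq_zero_iff_eq_C.1 (hq0.totalDegree h00)
    have h1 := jacFG g h0 (F a) (F b) i
    rw [← hb a (F b), hq] at h1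
    simp only [hH, Derivation.leibniz, smul_eq_mul] at h1
    have h2 : ∑ l, (F b * pderiv l (h b i) + h b i * pderiv l (F b)) * (F a * h a l) =
        F a * F b * vf (h a) (h b i) + F a * h b i * vf (h a) (F b) := by
      rw [vf, vf, Finset.mul_sum, Finset.mul_sum, ← Finset.sum_add_distrib]
      exact Finset.sum_congr rfl fun l _ => by ring
    have h3 : ∑ l, (F a * pderiv l (h a i) + h a i * pderiv l (F a)) * (F b * h b l) =
        F a * F b * vf (h b) (h a i) + h a i * (F b * vf (h b) (F a)) := by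
      rw [vf, vf, Finset.mul_sum, Finset.mul_sum, Finset.mul_sum, ← Finset.sum_add_distrib]
      exact Finset.sum_congr rfl fun l _ => by ring
    have h4 : F b * vf (h b) (F a) = - (F a * (F b * C c)) := by
      rw [hb, br_skew, ← hb, hq]
    have h5 : vf (g.f i) (F a * (F b * C c)) = F a * h a i * F b * C c + F a * (F b * h b i) * C c := by
      rw [vf_mul, vf_mul, vf_C, hH, hH]
      ring
    rw [h2, h3, h4, h5, hq] at h1
    refine (mul_eq_zero.1 (?_ : (F a * F b) * _ = 0)).resolve_left (mul_ne_zero (hne a) (hne b))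
    linear_combination h1
  · intro i q hq
    exact vf_span _ _ (vf_prod (h i) F Finset.univ (hvF i)) q hq
  · intro i j q hq
    exact vf_span _ _ (hvF i j) q hq
  · exact stab_of g _ fun l => vf_prod (g.f l) F Finset.univ fun j => hgF j l
  · intro j
    exact stab_of g _ (hgF j)

end HMEM

/-- HME -/
theorem specHME (hSQF : SpecSQF) (hSTE : SpecSTE) : SpecHME := by
  have _ := hSQF
  intro N n g F hg
  exact HMEM.main g F hg.irr hg.hom hg.ndv hg.jac0 (hSTE N n g F hg)

end Pool.Agent.Lib.MPc9b009.LS
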