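import Pool.Agent.Lib.MP_c9b009_ag.LS.Spec

/-!
# MP_c9b009_ag, row LS, module HMI: the fields `h_i = {., F_i} / F_i`
-/

set_option autoImplicit false

namespace Pool.Agent.Lib.MPc9b009.LS

open MvPolynomial Pool.Agent.Lib.MPc9b009.B5 Pool.Agent.Lib.MPc9b009.OD
  Pool.Agent.Lib.MPc9b009.PS

namespace HMIM

variable {N : ℕ}

/-! ### homogeneous factors -/

theorem comp_mul {s : ℕ} {P : PR N} (hP : P.IsHomogeneous s) (q : PR N) (n : ℕ) :
    homogeneousComponent (s + n) (P * q) = P * homogeneousComponent n q := by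
  have h : P * q = ∑ i ∈ Finset.range (q.totalDegree + 1), P * homogeneousComponent i q := by
    rw [← Finset.mul_sum, sum_homogeneousComponent]
  conv_lhs => rw [h]
  rw [map_sum]
  have h2 : ∀ i, homogeneousComponent (s + n) (P * homogeneousComponent i q) =
      if i = n then P * homogeneousComponent n q else 0 := by
    intro i
    have h3 : (P * homogeneousComponent i q).IsHomogeneous (s + i) :=
      hP.mul (homogeneousComponent_isHomogeneous i q)
    rw [homogeneousComponent_of_mem h3]
    by_cases hi : i = n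
    · subst hi
      rw [if_pos rfl, if_pos rfl]
    · rw [if_neg hi, if_neg (by omega)]
  simp only [h2]
  rw [Finset.sum_ite_eq' (Finset.range (q.totalDegree + 1)) n]
  split_ifs with h4
  · rfl
  · rw [homogeneousComponent_eq_zero n q (by rw [Finset.mem_range] at h4; omega), mul_zero]

theorem hom_of_comp {q : PR N} {e : ℕ}
    (h1 : ∀ n, n ≠ e → homogeneousComponent n q = 0) : q.IsHomogeneous e := by
  have h2 : q = homogeneousComponent e q := by
    conv_lhs => rw [← sum_homogeneousComponent q]
    by_cases h : e ∈ Finset.range (q.totalDegree + 1)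
    · exact Finset.sum_eq_single_of_mem e h (fun n _ hn => h1 n hn)
    · rw [homogeneousComponent_eq_zero e q (by rw [Finset.mem_range] at h; omega)]
      refine Finset.sum_eq_zero fun n hn => h1 n ?_
      rintro rfl
      exact h hn
  rw [h2]
  exact homogeneousComponent_isHomogeneous e q

theorem homog_of_mul {s e : ℕ} {P q : PR N} (hP : P.IsHomogeneous s)
    (hP0 : P ≠ 0) (h : (P * q).IsHomogeneous (s + e)) : q.IsHomogeneous e := by
  refine hom_of_comp fun n hn => ?_
  have h2 := comp_mul hP q n
  rw [homogeneousComponent_of_mem h, if_neg (by omega)] at h2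
  rcases mul_eq_zero.1 h2.symm with h3 | h3
  · exact absurd h3 hP0
  · exact h3

/-! ### brackets -/

/-- the vector field as a derivation -/
noncomputable def VD (v : Fin N → PR N) : Derivation ℂ (PR N) (PR N) := ∑ l, v l • pderiv l

theorem VD_apply (v : Fin N → PR N) (q : PR N) : VD v q = vf v q := by
  have h : ∀ s : Finset (Fin N), (∑ l ∈ s, v l • pderiv l : Derivation ℂ (PR N) (PR N)) q =
      ∑ l ∈ s, v l * pderiv l q := by
    intro s
    induction s using Finset.induction_on with
    | empty => rfl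
    | insert a s ha ih =>
      rw [Finset.sum_insert ha, Finset.sum_insert ha, Derivation.add_apply, ih]
      rfl
  exact h Finset.univ

/-- `{., F}` -/
noncomputable def DD (g : Biv N) (F : PR N) : Derivation ℂ (PR N) (PR N) :=
  VD fun l => ham g l F

theorem DD_apply (g : Biv N) (F y : PR N) :
    DD g F y = ∑ l, (∑ m, g.f l m * pderiv m F) * pderiv l y := by
  unfold DD
  rw [VD_apply]
  rfl

theorem DD_X (g : Biv N) (F : PR N) (i : Fin N) : DD g F (X i) = ham g i F := by
  rw [DD_apply, Finset.sum_eq_single i]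
  · rw [pderiv_X_self, mul_one]
    rfl
  · intro l _ hl
    rw [pderiv_X_of_ne hl.symm, mul_zero]
  · intro h
    exact absurd (Finset.mem_univ i) h

theorem DD_skew (g : Biv N) (F y : PR N) : DD g F y = - DD g y F := by
  rw [DD_apply, DD_apply, ← Finset.sum_neg_distrib]
  simp only [Finset.sum_mul, ← Finset.sum_neg_distrib]
  rw [Finset.sum_comm]
  refine Finset.sum_congr rfl fun l _ => Finset.sum_congr rfl fun m _ => ?_
  rw [g.skew l m]
  ring

theorem ham_DD (g : Biv N) (F : PR N) (i : Fin N) : ham g i F = - DD g (X i) F := by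
  rw [← DD_X, DD_skew]

theorem DD_zero_left (g : Biv N) (y : PR N) : DD g 0 y = 0 := by
  rw [DD_skew, map_zero, neg_zero]

theorem DD_neg_left (g : Biv N) (F y : PR N) : DD g (-F) y = - DD g F y := by
  rw [DD_skew, map_neg, neg_neg, DD_skew g F y, neg_neg]

theorem DD_mul_left (g : Biv N) (F G y : PR N) :
    DD g (F * G) y = F * DD g G y + G * DD g F y := by
  rw [DD_skew, Derivation.leibniz, smul_eq_mul, smul_eq_mul, DD_skew g G y, DD_skew g F y]
  ring

theorem DD_C_left (g : Biv N) (c : ℂ) (y : PR N) : DD g (C c) y = 0 := by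
  rw [DD_skew]
  have : DD g y (C c) = 0 := by
    have h := (DD g y).map_algebraMap c
    exact h
  rw [this, neg_zero]

/-- the Jacobiator as a derivation -/
noncomputable def JJ (g : Biv N) (F G : PR N) : Derivation ℂ (PR N) (PR N) :=
  ⁅DD g F, DD g G⁆ - DD g (DD g F G)

theorem JJ_apply (g : Biv N) (F G y : PR N) :
    JJ g F G y = DD g F (DD g G y) - DD g G (DD g F y) - DD g (DD g F G) y := by
  unfold JJ
  rw [Derivation.sub_apply, Derivation.commutator_apply]

theorem JJ_cyc (g : Biv N) (F G y : PR N) : JJ g F G y = JJ g G y F := by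
  rw [JJ_apply, JJ_apply, DD_skew g y F, DD_skew g y (DD g G F), DD_skew g G F,
    DD_skew g (DD g G y) F, DD_neg_left, map_neg]
  ring

theorem JJ_gen (g : Biv N) (hj : ∀ i j l, jac g.f i j l = 0) (i j k : Fin N) :
    JJ g (X i) (X j) (X k) = 0 := by
  have h1 : ∀ a b : Fin N, DD g (X a) (X b) = g.f b a := by
    intro a b
    rw [DD_X]
    unfold ham
    rw [Finset.sum_eq_single a]
    · rw [pderiv_X_self, mul_one]
    · intro l _ hl
      rw [pderiv_X_of_ne hl.symm, mul_zero]
    · intro h
      exact absurd (Finset.mem_univ a) h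
  have h2 : ∀ (a : Fin N) (z : PR N), DD g (X a) z = - ham g a z := by
    intro a z
    rw [ham_DD, neg_neg]
  rw [JJ_apply, h1, h1, h1, h2, h2, DD_X, g.skew j k, g.skew i j]
  have h := hj i j k
  unfold jac at h
  rw [Finset.sum_add_distrib, Finset.sum_add_distrib] at h
  have h3 : ham g k (-g.f i j) = - ∑ l, g.f k l * pderiv l (g.f i j) := by
    unfold ham
    rw [← Finset.sum_neg_distrib]
    refine Finset.sum_congr rfl fun l _ => ?_
    rw [map_neg, mul_neg]
  have h4 : ham g i (-g.f j k) = - ∑ l, g.f i l * pderiv l (g.f j k) := by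
    unfold ham
    rw [← Finset.sum_neg_distrib]
    refine Finset.sum_congr rfl fun l _ => ?_
    rw [map_neg, mul_neg]
  have h5 : ham g j (g.f k i) = ∑ l, g.f j l * pderiv l (g.f k i) := rfl
  rw [h3, h4, h5]
  linear_combination h

theorem JJ_zero (g : Biv N) (hj : ∀ i j l, jac g.f i j l = 0) (F G y : PR N) :
    JJ g F G y = 0 := by
  have h1 : ∀ (i j : Fin N) (z : PR N), JJ g (X i) (X j) z = 0 := by
    intro i j z
    have : JJ g (X i) (X j) = 0 := by
      apply MvPolynomial.derivation_ext
      intro k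
      rw [JJ_gen g hj]
      rfl
    rw [this]
    rfl
  have h2 : ∀ (z : PR N) (i : Fin N) (w : PR N), JJ g z (X i) w = 0 := by
    intro z i w
    have : JJ g z (X i) = 0 := by
      apply MvPolynomial.derivation_ext
      intro k
      rw [JJ_cyc, h1]
      rfl
    rw [this]
    rfl
  have h3 : JJ g F G = 0 := by
    apply MvPolynomial.derivation_ext
    intro k
    rw [JJ_cyc, h2]
    rfl
  rw [h3]
  rfl

/-- the Jacobi identity -/
theorem jacobi (g : Biv N) (hj : ∀ i j l, jac g.f i j l = 0) (F G y : PR N) :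
    DD g F (DD g G y) - DD g G (DD g F y) = DD g (DD g F G) y := by
  have := JJ_zero g hj F G y
  rw [JJ_apply] at this
  linear_combination this

/-! ### the fields `h_i` -/

theorem hom_zero {P : PR N} (h : P.IsHomogeneous 0) : P = C (coeff 0 P) :=
  totalDegree_eq_zero_iff_eq_C.1 ((totalDegree_zero_iff_isHomogeneous _).2 h)

theorem DD_XL (g : Biv N) (j : Fin N) (q : PR N) :
    DD g (X j) q = ∑ l, g.f l j * pderiv l q := by
  rw [DD_apply]
  refine Finset.sum_congr rfl fun l _ => ?_
  congr 1
  rw [Finset.sum_eq_single j]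
  · rw [pderiv_X_self, mul_one]
  · intro m _ hm
    rw [pderiv_X_of_ne hm.symm, mul_zero]
  · intro h
    exact absurd (Finset.mem_univ j) h

theorem vf_X (v : Fin N → PR N) (i : Fin N) : vf v (X i) = v i := by
  unfold vf
  rw [Finset.sum_eq_single i]
  · rw [pderiv_X_self, mul_one]
  · intro m _ hm
    rw [pderiv_X_of_ne hm.symm, mul_zero]
  · intro h
    exact absurd (Finset.mem_univ i) h

theorem stab_vf (v : Fin N → PR N) (G : PR N) (h : G ∣ vf v G) (q : PR N)
    (hq : q ∈ Ideal.span {G}) : vf v q ∈ Ideal.span {G} := by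
  rw [Ideal.mem_span_singleton] at hq ⊢
  obtain ⟨a, rfl⟩ := hq
  rw [← VD_apply, Derivation.leibniz, smul_eq_mul, smul_eq_mul, VD_apply, VD_apply]
  exact dvd_add (dvd_mul_right _ _) (h.mul_left _)

theorem stab_g (g : Biv N) (G : PR N) (h : ∀ j, G ∣ ham g j G) : Stab g.f (Ideal.span {G}) := by
  intro q hq j
  rw [← DD_XL]
  rw [Ideal.mem_span_singleton] at hq ⊢
  obtain ⟨a, rfl⟩ := hq
  rw [Derivation.leibniz, smul_eq_mul, smul_eq_mul]
  refine dvd_add (dvd_mul_right _ _) (Dvd.dvd.mul_left ?_ _)
  have := h j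
  rw [ham_DD, dvd_neg] at this
  exact this

theorem hmi_dvd {g : Biv N} {G : PR N} (h : ∀ l, G ∣ ham g l G) (b : PR N) : G ∣ DD g G b := by
  rw [DD_apply]
  refine Finset.dvd_sum fun l _ => ?_
  exact (h l).mul_right _

theorem main (hSQF : SpecSQF) : SpecHMI := by
  intro N n g F hF
  classical
  obtain ⟨-, hnd, -, -⟩ := hSQF N n F hF.toNCF
  have hj := hF.jac0
  have hpr : ∀ i, Prime (F i) := fun i => (hF.irr i).prime
  have h0 : ∀ i, F i ≠ 0 := fun i => (hpr i).ne_zero
  have hcas : ∀ y, DD g (∏ j, F j) y = 0 := by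
    intro y
    rw [DD_apply]
    refine Finset.sum_eq_zero fun l _ => ?_
    rw [show (∑ m, g.f l m * pderiv m (∏ j, F j)) = 0 from hF.cas l, zero_mul]
  have hdv : ∀ i l, F i ∣ ham g l (F i) := by
    intro i l
    have h1 : (∏ j, F j) = F i * ∏ j ∈ Finset.univ.erase i, F j :=
      (Finset.mul_prod_erase Finset.univ F (Finset.mem_univ i)).symm
    have h2 := hF.cas l
    rw [h1, ham_DD, Derivation.leibniz, smul_eq_mul, smul_eq_mul, neg_eq_zero] at h2
    have h3 : F i ∣ (∏ j ∈ Finset.univ.erase i, F j) * ham g l (F i) := by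
      rw [ham_DD, mul_neg]
      refine (dvd_neg).2 ⟨- DD g (X l) (∏ j ∈ Finset.univ.erase i, F j), ?_⟩
      linear_combination h2
    exact ((hpr i).dvd_or_dvd h3).resolve_left (hnd i)
  choose h hh using hdv
  have hmul : ∀ i y, F i * vf (h i) y = DD g (F i) y := by
    intro i y
    rw [DD_apply]
    unfold vf
    rw [Finset.mul_sum]
    refine Finset.sum_congr rfl fun l _ => ?_
    rw [← mul_assoc, ← hh i l]
    rfl
  have hself : ∀ i, vf (h i) (F i) = 0 := by
    intro i
    have h1 := hmul i (F i)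
    have h2 : DD g (F i) (F i) = 0 := by
      have := DD_skew g (F i) (F i)
      exact self_eq_neg.1 this
    rw [h2] at h1
    exact (mul_eq_zero.1 h1).resolve_left (h0 i)
  have hdF : ∀ i j, F j ∣ vf (h i) (F j) := by
    intro i j
    by_cases hij : j = i
    · subst hij
      rw [hself]
      exact dvd_zero _
    · have h1 : F j ∣ F i * vf (h i) (F j) := by
        rw [hmul, DD_skew]
        exact (dvd_neg).2 (hmi_dvd (fun l => ⟨h j l, hh j l⟩) _)
      exact ((hpr j).dvd_or_dvd h1).resolve_left (hF.ndv j i hij)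
  have hprod : ∀ i, vf (h i) (∏ j, F j) = 0 := by
    intro i
    have h1 := hmul i (∏ j, F j)
    rw [DD_skew, hcas, neg_zero] at h1
    exact (mul_eq_zero.1 h1).resolve_left (h0 i)
  have hlin : ∀ i l, (h i l).IsHomogeneous 1 := by
    intro i l
    obtain ⟨e, he⟩ := hF.hom i
    refine homog_of_mul he (h0 i) ?_
    rw [← hh i l]
    unfold ham
    refine IsHomogeneous.sum _ _ _ fun m _ => ?_
    rcases Nat.eq_zero_or_pos e with h3 | h3
    · subst h3
      have h4 : pderiv m (F i) = 0 := by
        rw [hom_zero he, pderiv_C]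
      rw [h4, mul_zero]
      exact isHomogeneous_zero _ _ _
    · have h5 : (pderiv m (F i)).IsHomogeneous (e - 1) := he.pderiv
      have h6 := (g.quad l m).mul h5
      rwa [show 2 + (e - 1) = e + 1 by omega] at h6
  have hX : ∀ i l, DD g (F i) (X l) = F i * h i l := by
    intro i l
    rw [DD_X]
    exact hh i l
  refine ⟨h, fun i l => (hh i l).symm, ⟨hlin, ?_, ?_, ?_⟩, ?_, ?_, ?_, ?_⟩
  · intro a q hq
    rw [Ideal.mem_bot] at hq ⊢
    rw [hq, ← VD_apply, map_zero]
  · intro a i j
    rw [Ideal.mem_bot, sub_eq_zero]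
    apply mul_left_cancel₀ (h0 a)
    have e1 : ∑ l, (pderiv l (h a i) * g.f l j + pderiv l (h a j) * g.f i l) =
        DD g (X j) (h a i) + DD g (h a j) (X i) := by
      rw [DD_XL, DD_X, Finset.sum_add_distrib]
      unfold ham
      congr 1
      · exact Finset.sum_congr rfl fun l _ => mul_comm _ _
      · exact Finset.sum_congr rfl fun l _ => mul_comm _ _
    have e2 : g.f i j = DD g (X j) (X i) := by
      rw [DD_XL, Finset.sum_eq_single i]
      · rw [pderiv_X_self, mul_one]
      · intro m _ hm
        rw [pderiv_X_of_ne hm.symm, mul_zero]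
      · intro h
        exact absurd (Finset.mem_univ i) h
    rw [e1, hmul, e2]
    have h1 := jacobi g hj (F a) (X j) (X i)
    rw [hX, hX, DD_mul_left, Derivation.leibniz, smul_eq_mul, smul_eq_mul, DD_skew g (X j) (F a),
      hX, hX] at h1
    linear_combination h1
  · intro a b i
    rw [Ideal.mem_bot, sub_eq_zero]
    apply mul_left_cancel₀ (mul_ne_zero (h0 a) (h0 b))
    obtain ⟨c, hc⟩ := hdF a b
    have hc0 : ∃ c0 : ℂ, c = C c0 := by
      refine ⟨coeff 0 c, hom_zero ?_⟩
      obtain ⟨e, he⟩ := hF.hom b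
      refine homog_of_mul (e := 0) he (h0 b) ?_
      rw [← hc, add_zero]
      unfold vf
      refine IsHomogeneous.sum _ _ _ fun m _ => ?_
      rcases Nat.eq_zero_or_pos e with h3 | h3
      · subst h3
        have h4 : pderiv m (F b) = 0 := by
          rw [hom_zero he, pderiv_C]
        rw [h4, mul_zero]
        exact isHomogeneous_zero _ _ _
      · have h5 : (pderiv m (F b)).IsHomogeneous (e - 1) := he.pderiv
        have h6 := (hlin a m).mul h5
        rwa [show 1 + (e - 1) = e by omega] at h6
    obtain ⟨c0, rfl⟩ := hc0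
    have h1 := jacobi g hj (F a) (F b) (X i)
    have h2 : DD g (F a) (F b) = F a * (F b * C c0) := by
      rw [← hmul, hc]
    have h3 : DD g (F b) (F a) = - (F a * (F b * C c0)) := by
      rw [DD_skew, h2]
    rw [hX, hX, Derivation.leibniz, Derivation.leibniz, smul_eq_mul, smul_eq_mul, smul_eq_mul,
      smul_eq_mul, h2, h3, ← hmul a (h b i), ← hmul b (h a i), DD_mul_left, DD_mul_left, DD_C_left,
      hX, hX] at h1
    linear_combination h1
  · intro i q hq
    exact stab_vf _ _ (by rw [hprod]; exact dvd_zero _) q hq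
  · intro i j q hq
    exact stab_vf _ _ (hdF i j) q hq
  · exact stab_g g _ fun j => by rw [hF.cas j]; exact dvd_zero _
  · intro j
    exact stab_g g _ fun l => ⟨h j l, hh j l⟩

end HMIM

theorem specHMI (hSQF : SpecSQF) : SpecHMI := HMIM.main hSQF

end Pool.Agent.Lib.MPc9b009.LS
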