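import Pool.Agent.Lib.MP_c9b009_ag.LS.Spec

/-! # folder LS, module JET: a formal change of coordinates is bijective on jets -/

set_option autoImplicit false

namespace Pool.Agent.Lib.MPc9b009.LS

open MvPolynomial Pool.Agent.Lib.MPc9b009.B5 Pool.Agent.Lib.MPc9b009.OD
  Pool.Agent.Lib.MPc9b009.PS

namespace JETM

variable {N : ℕ} {E : Type} [Field E]

/-- substitution maps powers to powers -/
theorem mapPow {σ : Fin N → MvPolynomial (Fin N) E} {K : Ideal (MvPolynomial (Fin N) E)}
    (hσ : ∀ l, σ l ∈ K) (n : ℕ) {W : MvPolynomial (Fin N) E}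
    (hW : W ∈ MvPolynomial.idealOfVars (Fin N) E ^ n) : aeval σ W ∈ K ^ n := by
  have h1 : Ideal.map (aeval σ).toRingHom (MvPolynomial.idealOfVars (Fin N) E) ≤ K := by
    rw [Ideal.map_le_iff_le_comap, Ideal.span_le]
    rintro _ ⟨l, rfl⟩
    show aeval σ (X l) ∈ K
    rw [aeval_X]
    exact hσ l
  have h2 : (aeval σ).toRingHom W ∈
      Ideal.map (aeval σ).toRingHom (MvPolynomial.idealOfVars (Fin N) E ^ n) :=
    Ideal.mem_map_of_mem _ hW
  rw [Ideal.map_pow] at h2
  exact Ideal.pow_right_mono h1 n h2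

theorem diff0 {σ ρ : Fin N → MvPolynomial (Fin N) E}
    (hσ : ∀ l, σ l ∈ MvPolynomial.idealOfVars (Fin N) E)
    (hρ : ∀ l, ρ l ∈ MvPolynomial.idealOfVars (Fin N) E) (W : MvPolynomial (Fin N) E) :
    aeval σ W - aeval ρ W ∈ MvPolynomial.idealOfVars (Fin N) E := by
  induction W using MvPolynomial.induction_on with
  | C a =>
    have : aeval σ (C a : MvPolynomial (Fin N) E) - aeval ρ (C a : MvPolynomial (Fin N) E) =
        (0 : MvPolynomial (Fin N) E) := by
      rw [← MvPolynomial.algebraMap_eq, AlgHom.commutes, AlgHom.commutes, sub_self]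
    rw [this]
    exact Ideal.zero_mem _
  | add p q hp hq =>
    rw [map_add, map_add]
    have : aeval σ p + aeval σ q - (aeval ρ p + aeval ρ q) =
      (aeval σ p - aeval ρ p) + (aeval σ q - aeval ρ q) := by ring
    rw [this]
    exact Ideal.add_mem _ hp hq
  | mul_X p l _ =>
    rw [map_mul, map_mul, aeval_X, aeval_X]
    exact Ideal.sub_mem _ (Ideal.mul_mem_left _ _ (hσ l)) (Ideal.mul_mem_left _ _ (hρ l))

theorem diff1 {σ ρ : Fin N → MvPolynomial (Fin N) E}
    (hσ : ∀ l, σ l ∈ MvPolynomial.idealOfVars (Fin N) E)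
    (hρ : ∀ l, ρ l ∈ MvPolynomial.idealOfVars (Fin N) E)
    (hd : ∀ l, σ l - ρ l ∈ MvPolynomial.idealOfVars (Fin N) E ^ 2)
    {v : MvPolynomial (Fin N) E} (hv : v ∈ MvPolynomial.idealOfVars (Fin N) E) :
    aeval σ v - aeval ρ v ∈ MvPolynomial.idealOfVars (Fin N) E ^ 2 := by
  have hv' : v ∈ Submodule.span (MvPolynomial (Fin N) E)
      (Set.range (X : Fin N → MvPolynomial (Fin N) E)) := hv
  induction hv' using Submodule.span_induction with
  | mem x hx =>
    obtain ⟨l, rfl⟩ := hx
    rw [aeval_X, aeval_X]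
    exact hd l
  | zero =>
    rw [map_zero, map_zero, sub_zero]
    exact Ideal.zero_mem _
  | add p q hp' hq' hp hq =>
    rw [map_add, map_add]
    have : aeval σ p + aeval σ q - (aeval ρ p + aeval ρ q) =
      (aeval σ p - aeval ρ p) + (aeval σ q - aeval ρ q) := by ring
    rw [this]
    exact Ideal.add_mem _ (hp hp') (hq hq')
  | smul c p hp' hp =>
    rw [smul_eq_mul, map_mul, map_mul]
    have : aeval σ c * aeval σ p - aeval ρ c * aeval ρ p =
      (aeval σ c - aeval ρ c) * aeval σ p + aeval ρ c * (aeval σ p - aeval ρ p) := by ring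
    rw [this]
    refine Ideal.add_mem _ ?_ (Ideal.mul_mem_left _ _ (hp hp'))
    rw [pow_two]
    refine Ideal.mul_mem_mul (diff0 hσ hρ c) ?_
    have h3 := mapPow hσ 1 (W := p) (by rw [pow_one]; exact hp')
    rw [pow_one] at h3
    exact h3

theorem diffn {σ ρ : Fin N → MvPolynomial (Fin N) E}
    (hσ : ∀ l, σ l ∈ MvPolynomial.idealOfVars (Fin N) E)
    (hρ : ∀ l, ρ l ∈ MvPolynomial.idealOfVars (Fin N) E)
    (hd : ∀ l, σ l - ρ l ∈ MvPolynomial.idealOfVars (Fin N) E ^ 2) (n : ℕ) :
    ∀ W ∈ MvPolynomial.idealOfVars (Fin N) E ^ n,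
      aeval σ W - aeval ρ W ∈ MvPolynomial.idealOfVars (Fin N) E ^ (n + 1) := by
  induction n with
  | zero =>
    intro W _
    rw [zero_add, pow_one]
    exact diff0 hσ hρ W
  | succ n ih =>
    intro W hW
    rw [pow_succ] at hW
    refine Submodule.mul_induction_on hW ?_ ?_
    · intro w hw v hv
      rw [map_mul, map_mul]
      have : aeval σ w * aeval σ v - aeval ρ w * aeval ρ v =
        (aeval σ w - aeval ρ w) * aeval σ v + aeval ρ w * (aeval σ v - aeval ρ v) := by ring
      rw [this]
      refine Ideal.add_mem _ ?_ ?_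
      · rw [pow_succ]
        refine Ideal.mul_mem_mul (ih w hw) ?_
        have h3 := mapPow hσ 1 (W := v) (by rw [pow_one]; exact hv)
        rw [pow_one] at h3
        exact h3
      · rw [show n + 1 + 1 = n + 2 by ring, pow_add]
        exact Ideal.mul_mem_mul (mapPow hρ n hw) (diff1 hσ hρ hd hv)
    · intro p q hp hq
      rw [map_add, map_add]
      have : aeval σ p + aeval σ q - (aeval ρ p + aeval ρ q) =
        (aeval σ p - aeval ρ p) + (aeval σ q - aeval ρ q) := by ring
      rw [this]
      exact Ideal.add_mem _ hp hq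

/-- the linear substitution -/
noncomputable def L (A : Matrix (Fin N) (Fin N) E) (l : Fin N) : MvPolynomial (Fin N) E :=
  ∑ j, C (A l j) * X j

theorem L_mem (A : Matrix (Fin N) (Fin N) E) (l : Fin N) :
    L A l ∈ MvPolynomial.idealOfVars (Fin N) E :=
  Ideal.sum_mem _ fun j _ => Ideal.mul_mem_left _ _ (Ideal.subset_span ⟨j, rfl⟩)

theorem L_comp (A B : Matrix (Fin N) (Fin N) E) (l : Fin N) :
    aeval (L B) (L A l) = L (A * B) l := by
  unfold L
  rw [map_sum]
  simp only [map_mul, aeval_X]
  simp only [Matrix.mul_apply, map_sum, Finset.sum_mul, Finset.mul_sum, map_mul]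
  rw [Finset.sum_comm]
  refine Finset.sum_congr rfl fun m _ => Finset.sum_congr rfl fun j _ => ?_
  rw [← MvPolynomial.algebraMap_eq, AlgHom.commutes]
  ring

theorem L_one (l : Fin N) : L (1 : Matrix (Fin N) (Fin N) E) l = X l := by
  unfold L
  rw [Finset.sum_eq_single l]
  · rw [Matrix.one_apply_eq, C_1, one_mul]
  · intro j _ hj
    rw [Matrix.one_apply_ne (Ne.symm hj), C_0, zero_mul]
  · intro h
    exact absurd (Finset.mem_univ l) h

theorem L_inv {A B : Matrix (Fin N) (Fin N) E} (h : A * B = 1) (W : MvPolynomial (Fin N) E) :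
    aeval (L B) (aeval (L A) W) = W := by
  have h1 : (aeval (L B)).comp (aeval (L A)) =
      AlgHom.id E (MvPolynomial (Fin N) E) := by
    refine MvPolynomial.algHom_ext fun l => ?_
    rw [AlgHom.comp_apply, aeval_X, L_comp, h, L_one, AlgHom.id_apply]
  exact DFunLike.congr_fun h1 W

theorem coeff_L (A : Matrix (Fin N) (Fin N) E) (l : Fin N) (j : Fin N) :
    coeff (Finsupp.single j 1) (L A l) = A l j := by
  unfold L
  rw [coeff_sum, Finset.sum_eq_single j]
  · rw [coeff_C_mul, coeff_X_same, mul_one]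
  · intro m _ hm
    rw [coeff_C_mul, coeff_X, if_neg, mul_zero]
    intro h
    exact hm ((Finsupp.single_left_inj one_ne_zero).1 h)
  · intro h
    exact absurd (Finset.mem_univ j) h

theorem coeff_L0 (A : Matrix (Fin N) (Fin N) E) (l : Fin N) :
    coeff 0 (L A l) = 0 := by
  unfold L
  rw [coeff_sum]
  refine Finset.sum_eq_zero fun j _ => ?_
  rw [coeff_C_mul, coeff_zero_X, mul_zero]

theorem lin {γ : MvPolynomial (Fin N) E} (h0 : coeff 0 γ = 0)
    (A : Matrix (Fin N) (Fin N) E) (l : Fin N) (hA : ∀ j, A l j = coeff (Finsupp.single j 1) γ) :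
    γ - L A l ∈ MvPolynomial.idealOfVars (Fin N) E ^ 2 := by
  rw [mem_pow_idealOfVars_iff']
  intro x hx
  rw [coeff_sub]
  rcases Nat.lt_or_ge (Finsupp.degree x) 1 with h | h
  · have hx0 : x = 0 := by
      rw [← Finsupp.degree_eq_zero_iff]
      omega
    rw [hx0, h0, coeff_L0, sub_zero]
  · have h1 : Finsupp.degree x = 1 := by omega
    have h2 : x ∈ Set.range (fun j : Fin N => Finsupp.single j 1) := by
      rw [Finsupp.range_single_one]
      exact h1
    obtain ⟨j, rfl⟩ := h2
    rw [coeff_L, hA, sub_self]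

/-- the case `γ(0) = 0` -/
theorem cen {γ : Fin N → MvPolynomial (Fin N) E} (h0 : ∀ l, coeff 0 (γ l) = 0)
    (hdet : IsUnit (Matrix.of fun i j => coeff (Finsupp.single j 1) (γ i)).det) (k : ℕ) :
    (∀ Q : MvPolynomial (Fin N) E, ∃ U : MvPolynomial (Fin N) E,
      aeval γ U - Q ∈ MvPolynomial.idealOfVars (Fin N) E ^ k) ∧
    (∀ U : MvPolynomial (Fin N) E, aeval γ U ∈ MvPolynomial.idealOfVars (Fin N) E ^ k →
      U ∈ MvPolynomial.idealOfVars (Fin N) E ^ k) := by
  set A : Matrix (Fin N) (Fin N) E := Matrix.of fun i j => coeff (Finsupp.single j 1) (γ i)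
    with hA
  have hAB : A * A⁻¹ = 1 := Matrix.mul_nonsing_inv A hdet
  have hBA : A⁻¹ * A = 1 := Matrix.nonsing_inv_mul A hdet
  have hd : ∀ l, γ l - L A l ∈ MvPolynomial.idealOfVars (Fin N) E ^ 2 := fun l =>
    lin (h0 l) A l fun j => rfl
  have hγ : ∀ l, γ l ∈ MvPolynomial.idealOfVars (Fin N) E := by
    intro l
    have h1 : γ l = (γ l - L A l) + L A l := by ring
    rw [h1]
    exact Ideal.add_mem _ (Ideal.pow_le_self two_ne_zero (hd l)) (L_mem A l)
  constructor
  · induction k with
    | zero =>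
      intro Q
      refine ⟨0, ?_⟩
      rw [pow_zero, Ideal.one_eq_top]
      exact Submodule.mem_top
    | succ k ih =>
      intro Q
      obtain ⟨U, hU⟩ := ih Q
      -- correct
      have h1 : Q - aeval γ U ∈ MvPolynomial.idealOfVars (Fin N) E ^ k := by
        rw [← neg_sub]
        exact Ideal.neg_mem_iff _ |>.2 hU
      have h2 := mapPow (L_mem (A⁻¹ : Matrix (Fin N) (Fin N) E)) k h1
      have h3 := diffn hγ (L_mem A) hd k _ h2
      rw [L_inv hBA] at h3
      refine ⟨U + aeval (L A⁻¹) (Q - aeval γ U), ?_⟩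
      rw [map_add (aeval γ)]
      have h4 : aeval γ U + aeval γ (aeval (L A⁻¹) (Q - aeval γ U)) - Q =
        aeval γ (aeval (L A⁻¹) (Q - aeval γ U)) - (Q - aeval γ U) := by ring
      rw [h4]
      exact h3
  · induction k with
    | zero =>
      intro U _
      rw [pow_zero, Ideal.one_eq_top]
      exact Submodule.mem_top
    | succ k ih =>
      intro U hU
      have h1 := ih U (Ideal.pow_le_pow_right (Nat.le_succ k) hU)
      have h3 := diffn hγ (L_mem A) hd k U h1
      have h4 : aeval (L A) U ∈ MvPolynomial.idealOfVars (Fin N) E ^ (k + 1) := by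
        have h5 : aeval (L A) U = aeval γ U - (aeval γ U - aeval (L A) U) := by ring
        rw [h5]
        exact Ideal.sub_mem _ hU h3
      have h6 := mapPow (L_mem (A⁻¹ : Matrix (Fin N) (Fin N) E)) (k + 1) h4
      rw [L_inv hAB] at h6
      exact h6

theorem coeffC (c : E) (j : Fin N) :
    coeff (Finsupp.single j 1) (C c : MvPolynomial (Fin N) E) = 0 := by
  rw [coeff_C, if_neg]
  intro h
  have := congrArg (fun f => f j) h
  simp at this

end JETM

open JETM in
theorem specJET : SpecJET := by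
  intro N k E _ γ hdet
  have h0 : ∀ l, coeff 0 (γ l - C (constantCoeff (γ l))) = 0 := by
    intro l
    rw [coeff_sub, coeff_zero_C, ← constantCoeff_eq, sub_self]
  have hdet' : IsUnit (Matrix.of fun i j =>
      coeff (Finsupp.single j 1) (γ i - C (constantCoeff (γ i)))).det := by
    have h1 : (Matrix.of fun i j =>
      coeff (Finsupp.single j 1) (γ i - C (constantCoeff (γ i)))) =
      (Matrix.of fun i j => coeff (Finsupp.single j 1) (γ i)) := by
      ext i j
      rw [Matrix.of_apply, Matrix.of_apply, coeff_sub, coeffC, sub_zero]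
    rw [h1]
    exact hdet
  obtain ⟨p1, p2⟩ := cen h0 hdet' (k + 1)
  -- translations
  have hT : ∀ U : MvPolynomial (Fin N) E,
      aeval γ (aeval (fun l => X l - C (constantCoeff (γ l))) U) =
      aeval (fun l => γ l - C (constantCoeff (γ l))) U := by
    intro U
    have h1 : (aeval γ).comp (aeval (fun l => X l - C (constantCoeff (γ l)))) =
        aeval (fun l => γ l - C (constantCoeff (γ l))) := by
      refine MvPolynomial.algHom_ext fun l => ?_
      rw [AlgHom.comp_apply, aeval_X, aeval_X, map_sub, aeval_X, ← MvPolynomial.algebraMap_eq,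
        AlgHom.commutes]
    exact DFunLike.congr_fun h1 U
  have hS : ∀ U : MvPolynomial (Fin N) E,
      aeval (fun l => X l - C (constantCoeff (γ l)))
        (aeval (fun l => X l + C (constantCoeff (γ l))) U) = U := by
    intro U
    have h1 : (aeval (fun l => (X l - C (constantCoeff (γ l)) : MvPolynomial (Fin N) E))).comp
        (aeval (fun l => X l + C (constantCoeff (γ l)))) =
        AlgHom.id E (MvPolynomial (Fin N) E) := by
      refine MvPolynomial.algHom_ext fun l => ?_
      rw [AlgHom.comp_apply, aeval_X, map_add, aeval_X, ← MvPolynomial.algebraMap_eq,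
        AlgHom.commutes, AlgHom.id_apply, sub_add_cancel]
    exact DFunLike.congr_fun h1 U
  constructor
  · intro Q
    obtain ⟨U, hU⟩ := p1 Q
    refine ⟨aeval (fun l => X l - C (constantCoeff (γ l))) U, ?_⟩
    rw [hT]
    exact hU
  · intro U hU
    have h1 : aeval (fun l => γ l - C (constantCoeff (γ l)))
        (aeval (fun l => X l + C (constantCoeff (γ l))) U) ∈ YI N k E := by
      rw [← hT, hS]
      exact hU
    have h2 := p2 _ h1
    have h3 := mapPow (K := Ideal.span (Set.range fun l => X l - C (constantCoeff (γ l))))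
      (σ := fun l => X l - C (constantCoeff (γ l)))
      (fun l => Ideal.subset_span ⟨l, rfl⟩) (k + 1) h2
    rw [hS] at h3
    exact h3

end Pool.Agent.Lib.MPc9b009.LS
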