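import Pool.Agent.Lib.MP_c9b009_ag.LS.Spec

/-!
# MP_c9b009_ag, row LS, module LMA (helper21): a large component meets linear subspaces
-/

set_option autoImplicit false

namespace Pool.Agent.Lib.MPc9b009.LS

open MvPolynomial Pool.Agent.Lib.MPc9b009.B5 Pool.Agent.Lib.MPc9b009.OD
  Pool.Agent.Lib.MPc9b009.PS

namespace LMAM

theorem hom_bot (N : ℕ) : Hom (⊥ : Ideal (MvPolynomial (Fin N) ℂ)) := by
  intro g hg d
  rw [Ideal.mem_bot] at hg
  rw [hg, map_zero]
  exact Ideal.zero_mem _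

theorem stab_bot {N r : ℕ} (π : Fin N → Fin r → MvPolynomial (Fin N) ℂ) :
    Stab π (⊥ : Ideal (MvPolynomial (Fin N) ℂ)) := by
  intro g hg j
  rw [Ideal.mem_bot] at hg
  subst hg
  simp

theorem lin_hom {N : ℕ} (c : Cn N) : (lin c).IsHomogeneous 1 := by
  unfold lin
  refine IsHomogeneous.sum _ _ _ fun j _ => ?_
  have := (isHomogeneous_C (Fin N) (c j)).mul (isHomogeneous_X ℂ j)
  simpa using this

theorem eval_lin {N : ℕ} (c x : Cn N) : eval x (lin c) = ∑ j, c j * x j := by
  unfold lin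
  rw [map_sum]
  refine Finset.sum_congr rfl fun j _ => ?_
  rw [map_mul, eval_C, eval_X]

/-- a prime ideal whose only possible zero is the origin contains all variables -/
theorem X_mem {N : ℕ} (q : Ideal (MvPolynomial (Fin N) ℂ)) (hq : q.IsPrime)
    (h : ∀ x : Cn N, x ∈ Zer q → x = 0) (i : Fin N) : (X i : MvPolynomial (Fin N) ℂ) ∈ q := by
  have := hq
  have h1 : (X i : MvPolynomial (Fin N) ℂ) ∈ vanishingIdeal ℂ (zeroLocus ℂ q) := by
    rw [mem_vanishingIdeal_iff]
    intro x hxz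
    rw [mem_zeroLocus_iff] at hxz
    have hxz' : x ∈ Zer q := by
      intro g hg
      have := hxz g hg
      simpa [aeval_eq_eval] using this
    rw [h x hxz']
    simp
  rwa [IsPrime.vanishingIdeal_zeroLocus] at h1

end LMAM

open LMAM in
theorem specLMA : SpecLMA := by
  intro N s g hs hjac hbig W hW
  obtain ⟨P, hP, hd⟩ := hbig
  have hCMP : SpecCMP := specCMP specXST specRKU specRKC
  obtain ⟨hPp, hPh, -, -⟩ := hCMP N s g ⊥ hs (hom_bot N) (stab_bot _)
    (fun i j l => by rw [hjac i j l]; exact Ideal.zero_mem _) P hP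
  have hvP : vanI ⊥ g.f s ≤ P := hP.1.2
  by_contra hcon
  push Not at hcon
  -- the linear forms
  have hm : Module.finrank ℂ (Cn N ⧸ W) ≤ s + 1 := by
    have h1 := W.finrank_quotient_add_finrank
    have h2 : Module.finrank ℂ (Cn N) = N := by
      rw [Module.finrank_fin_fun]
    omega
  generalize hmm : Module.finrank ℂ (Cn N ⧸ W) = m at hm
  let e : (Cn N ⧸ W) ≃ₗ[ℂ] (Fin m → ℂ) :=
    (Module.finBasisOfFinrankEq ℂ (Cn N ⧸ W) hmm).equivFun
  let φ : Cn N →ₗ[ℂ] (Fin m → ℂ) := e.toLinearMap ∘ₗ W.mkQ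
  have hφ : ∀ x, φ x = 0 → x ∈ W := by
    intro x hx
    have h1 : e (W.mkQ x) = 0 := hx
    have h2 : W.mkQ x = 0 := by
      rwa [LinearEquiv.map_eq_zero_iff] at h1
    rwa [Submodule.mkQ_apply, Submodule.Quotient.mk_eq_zero] at h2
  let c : Fin m → Cn N := fun b j => φ (Pi.single j 1) b
  have hc : ∀ (x : Cn N) (b : Fin m), eval x (lin (c b)) = φ x b := by
    intro x b
    rw [eval_lin]
    have h1 : φ x = ∑ j, x j • φ (Pi.single j 1) := by
      conv_lhs => rw [pi_eq_sum_univ' x]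
      rw [map_sum]
      exact Finset.sum_congr rfl fun j _ => map_smul _ _ _
    rw [h1, Finset.sum_apply]
    refine Finset.sum_congr rfl fun j _ => ?_
    show φ (Pi.single j 1) b * x j = x j * φ (Pi.single j 1) b
    exact mul_comm _ _
  -- the zeros
  have hz : ∀ q : Ideal (MvPolynomial (Fin N) ℂ), P ≤ q → (∀ b, lin (c b) ∈ q) →
      ∀ x : Cn N, x ∈ Zer q → x = 0 := by
    intro q hPq hcq x hx
    by_contra hx0
    have hxW : x ∈ W := by
      apply hφ
      funext b
      rw [← hc]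
      exact hx _ (hcq b)
    have hlt := hcon x hxW hx0
    refine absurd (specRKU N s g x hs hx0 (fun I J => ?_) (fun I J => ?_)) (not_le.2 hlt)
    · refine hx _ (hPq (hvP ?_))
      intro z hz0 _ hr
      exact (specRKC N s g z hs hz0 hr).1 I J
    · refine hx _ (hPq (hvP ?_))
      intro z hz0 _ hr
      exact (specRKC N s g z hs hz0 hr).2 I J
  have hFIN := specFINI N P hPp hPh (Fin m) inferInstance (fun b => lin (c b)) (fun _ => 1)
    (fun _ => le_rfl) (fun b => lin_hom _) (fun q hq _ hPq hcq =>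
      CUTM.trdeg_top q (X_mem q hq (hz q hPq hcq)))
  have : IsDomain (MvPolynomial (Fin N) ℂ ⧸ P) := Ideal.Quotient.isDomain P
  have halg : Algebra.IsAlgebraic (Algebra.adjoin ℂ
      (Set.range fun b => Ideal.Quotient.mk P (lin (c b)))) (MvPolynomial (Fin N) ℂ ⧸ P) :=
    ⟨fun z => (hFIN z).isAlgebraic⟩
  have h1 := Algebra.IsAlgebraic.trdeg_le_cardinalMk ℂ (Set.range fun b => Ideal.Quotient.mk P (lin (c b)))
  have h2 : Cardinal.mk (Set.range fun b => Ideal.Quotient.mk P (lin (c b))) ≤ (m : Cardinal) := by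
    refine Cardinal.mk_range_le.trans ?_
    simp
  have h3 := (hd.trans h1).trans h2
  have h4 : s + 2 ≤ m := by exact_mod_cast h3
  omega

end Pool.Agent.Lib.MPc9b009.LS
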