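import Pool.Agent.Lib.MP_c9b009_ag.LS.Spec

/-!
# MP_c9b009_ag, row LS, module LMB
-/

set_option autoImplicit false

namespace Pool.Agent.Lib.MPc9b009.LS

open MvPolynomial Pool.Agent.Lib.MPc9b009.B5 Pool.Agent.Lib.MPc9b009.OD
  Pool.Agent.Lib.MPc9b009.PS

namespace LMBM

theorem eval_psi {N : ℕ} (x : Cn N) (t : ℂ) (q : MvPolynomial (Fin N) ℂ) :
    (CUTM.psi x q).eval t = eval (t • x) q := by
  have h : (Polynomial.evalRingHom t).comp (CUTM.psi x : MvPolynomial (Fin N) ℂ →+* Polynomial ℂ) =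
      eval (t • x) := by
    refine MvPolynomial.ringHom_ext ?_ ?_
    · intro c
      simp [CUTM.psi]
    · intro i
      rw [RingHom.comp_apply]
      show Polynomial.eval t (CUTM.psi x (X i)) = eval (t • x) (X i)
      rw [CUTM.psi_X, eval_X, Polynomial.eval_mul, Polynomial.eval_C, Polynomial.eval_X]
      exact mul_comm _ _
  exact congrArg (fun f => f q) h

theorem mat_smul {N : ℕ} (g : Biv N) (x : Cn N) (t : ℂ) :
    mat g.f (t • x) = t ^ 2 • mat g.f x := by
  ext i j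
  show eval (t • x) (g.f i j) = t ^ 2 * eval x (g.f i j)
  rw [← eval_psi, CUTM.psi_hom x (g.quad i j), Polynomial.eval_mul, Polynomial.eval_C,
    Polynomial.eval_pow, Polynomial.eval_X]
  exact mul_comm _ _

theorem span_smul {N : ℕ} (x : Cn N) {t : ℂ} (ht : t ≠ 0) :
    Submodule.span ℂ {t • x} = Submodule.span ℂ {x} :=
  Submodule.span_singleton_smul_eq (IsUnit.mk0 t ht) x

theorem dot_smul {N : ℕ} (x : Cn N) (t : ℂ) : dot (t • x) = t • dot x := by
  ext i
  simp [dot, Finset.mul_sum, mul_assoc]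

theorem rk_smul {N : ℕ} (g : Biv N) (x : Cn N) {t : ℂ} (ht : t ≠ 0) :
    rk g.f (t • x) = rk g.f x := by
  unfold rk
  have h1 : LinearMap.ker (dot (t • x)) = LinearMap.ker (dot x) := by
    rw [dot_smul, LinearMap.ker_smul _ _ ht]
  rw [h1]
  have h2 : ∀ (S : Submodule ℂ (Cn N)), S = Submodule.span ℂ {x} →
      Module.finrank ℂ (Submodule.map (S.mkQ ∘ₗ (mat g.f (t • x)).mulVecLin)
        (LinearMap.ker (dot x))) =
      Module.finrank ℂ (Submodule.map ((Submodule.span ℂ {x}).mkQ ∘ₗ (mat g.f x).mulVecLin)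
        (LinearMap.ker (dot x))) := by
    intro S hS
    subst hS
    have h3 : (Submodule.span ℂ {x}).mkQ ∘ₗ (mat g.f (t • x)).mulVecLin =
        t ^ 2 • ((Submodule.span ℂ {x}).mkQ ∘ₗ (mat g.f x).mulVecLin) := by
      refine LinearMap.ext fun v => ?_
      rw [mat_smul, LinearMap.comp_apply, Matrix.mulVecLin_apply, Matrix.smul_mulVec, map_smul]
      rfl
    rw [h3, Submodule.map_smul _ _ _ (pow_ne_zero 2 ht)]
  exact h2 _ (span_smul x ht)

theorem zer_bot {N : ℕ} (x : Cn N) : x ∈ Zer (⊥ : Ideal (MvPolynomial (Fin N) ℂ)) := by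
  intro h hh
  rw [(Submodule.mem_bot _).1 hh, map_zero]

theorem hom_vanI {N : ℕ} (g : Biv N) (s : ℕ) : Hom (vanI ⊥ g.f s) := by
  intro q hq d x hx hxI hr
  rw [← CUTM.psi_comp]
  have h0 : CUTM.psi x q = 0 := by
    refine Polynomial.eq_zero_of_infinite_isRoot _ ?_
    refine Set.Infinite.mono (s := {t : ℂ | t ≠ 0}) ?_ ?_
    · intro t ht
      show Polynomial.eval t (CUTM.psi x q) = 0
      rw [eval_psi]
      refine hq (t • x) (smul_ne_zero ht hx) (zer_bot _) ?_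
      rw [rk_smul g x ht]
      exact hr
    · have h1 : {t : ℂ | t ≠ 0} = ({0} : Set ℂ)ᶜ := by
        ext t
        simp
      rw [h1]
      exact (Set.finite_singleton (0 : ℂ)).infinite_compl
  rw [h0, Polynomial.coeff_zero]

theorem exists_notMem {N : ℕ} {ι : Type} [Finite ι] (U : ι → Submodule ℂ (Cn N))
    (hU : ∀ i, U i ≠ ⊤) : ∃ c : Cn N, ∀ i, c ∉ U i := by
  by_contra h
  push Not at h
  obtain ⟨i, hi⟩ := Subspace.exists_eq_top_of_iUnion_eq_univ (k := ℂ) (E := Cn N) (p := U) (by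
    ext c
    simp only [Set.mem_iUnion, Set.mem_univ, iff_true]
    exact h c)
  exact hU i hi

theorem finrank_hyp {N : ℕ} (c : Cn N) : N ≤ Module.finrank ℂ (hyp c) + 1 := by
  have h1 := LinearMap.finrank_range_add_finrank_ker (dot c)
  rw [Module.finrank_fin_fun] at h1
  have h2 : Module.finrank ℂ (LinearMap.range (dot c)) ≤ 1 := by
    have := Submodule.finrank_le (LinearMap.range (dot c))
    rwa [Module.finrank_self] at this
  show N ≤ Module.finrank ℂ (LinearMap.ker (dot c)) + 1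
  omega

theorem finrank_inf {N : ℕ} (c : Cn N) (W : Submodule ℂ (Cn N)) :
    Module.finrank ℂ W ≤ Module.finrank ℂ (hyp c ⊓ W : Submodule ℂ (Cn N)) + 1 := by
  have h1 := Submodule.finrank_sup_add_finrank_inf_eq (hyp c) W
  have h2 := finrank_hyp c
  have h3 := Submodule.finrank_le (hyp c ⊔ W)
  rw [Module.finrank_fin_fun] at h3
  omega

theorem cut {N : ℕ} : ∀ (t : ℕ) (J : Ideal (MvPolynomial (Fin N) ℂ)), Hom J → Dle J t →
    ∃ (W : Submodule ℂ (Cn N)) (J' : Ideal (MvPolynomial (Fin N) ℂ)),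
      N ≤ Module.finrank ℂ W + t ∧ Hom J' ∧ Dle J' 0 ∧ ∀ x ∈ W, x ∈ Zer J → x ∈ Zer J' := by
  intro t
  induction t with
  | zero =>
    intro J hJ hD
    refine ⟨⊤, J, ?_, hJ, hD, fun x _ h => h⟩
    rw [finrank_top, Module.finrank_fin_fun]
    omega
  | succ t ih =>
    intro J hJ hD
    obtain ⟨ι, hι, U, hU, h⟩ := PS.specDRP N t J hJ hD
    obtain ⟨c, hc⟩ := exists_notMem U hU
    obtain ⟨h1, h2⟩ := h c hc
    obtain ⟨W, J', h3, h4, h5, h6⟩ := ih _ h1 h2
    refine ⟨hyp c ⊓ W, J', ?_, h4, h5, ?_⟩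
    · have := finrank_inf c W
      omega
    · intro x hx hxJ
      refine h6 x hx.2 ?_
      intro q hq
      obtain ⟨a, ha, b, hb, rfl⟩ := Submodule.mem_sup.1 hq
      obtain ⟨e, rfl⟩ := Ideal.mem_span_singleton'.1 hb
      have h0 : dot c x = 0 := hx.1
      rw [map_add, map_mul, hxJ a ha, ITRM.eval_lin, h0, mul_zero, add_zero]

end LMBM

theorem specLMB : SpecLMB := by
  intro N s g hW
  by_contra hB
  have hD : Dle (vanI ⊥ g.f s) (s + 1) := by
    intro q hq hJq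
    have := hq
    obtain ⟨P, hP, hPq⟩ := Ideal.exists_minimalPrimes_le hJq
    refine (THIM.tr_mono hP.1.1 hq hPq).trans ?_
    by_contra h
    exact hB ⟨P, hP, THIM.nat_le_of_not_le h⟩
  obtain ⟨W, J', h1, h2, h3, h4⟩ := LMBM.cut (s + 1) _ (LMBM.hom_vanI g s) hD
  obtain ⟨x, hxW, hx0, hxr⟩ := hW W h1
  refine hx0 (ITRM.line h2 h3 (h4 x hxW ?_))
  intro q hq
  exact hq x hx0 (LMBM.zer_bot x) hxr

end Pool.Agent.Lib.MPc9b009.LS
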