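import Pool.Agent.Lib.MP_c9b009_ag.LS.Spec

/-!
# MP_c9b009_ag, row LS, module LMC: limits
-/

set_option autoImplicit false

namespace Pool.Agent.Lib.MPc9b009.LS

open MvPolynomial Pool.Agent.Lib.MPc9b009.B5 Pool.Agent.Lib.MPc9b009.OD
  Pool.Agent.Lib.MPc9b009.PS

namespace LMCM

open Filter Topology

theorem eval_smul2 {N : ℕ} (p : MvPolynomial (Fin N) ℂ) (hp : p.IsHomogeneous 2) (t : ℂ)
    (x : Cn N) : eval (t • x) p = t ^ 2 * eval x p := by
  rw [MvPolynomial.eval_eq', MvPolynomial.eval_eq', Finset.mul_sum]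
  refine Finset.sum_congr rfl fun d hd => ?_
  have h1 : ∑ i, d i = 2 := by
    have h2 := hp (mem_support_iff.1 hd)
    rw [← h2, Finsupp.weight_apply, Finsupp.sum_fintype]
    · exact Finset.sum_congr rfl fun i _ => by simp
    · intro i
      simp
  have h3 : ∏ i, (t • x) i ^ d i = t ^ 2 * ∏ i, x i ^ d i := by
    rw [← h1, ← Finset.prod_pow_eq_pow_sum, ← Finset.prod_mul_distrib]
    refine Finset.prod_congr rfl fun i _ => ?_
    rw [Pi.smul_apply, smul_eq_mul, mul_pow]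
  rw [h3]
  ring

theorem fr_aux {N : ℕ} (S S' K K' : Submodule ℂ (Fin N → ℂ))
    (A A' : (Fin N → ℂ) →ₗ[ℂ] (Fin N → ℂ)) (c : ℂ) (hc : c ≠ 0) (hS : S' = S) (hK : K' = K)
    (hA : A' = c • A) :
    Module.finrank ℂ (Submodule.map (S'.mkQ ∘ₗ A') K') =
      Module.finrank ℂ (Submodule.map (S.mkQ ∘ₗ A) K) := by
  subst hS hK hA
  rw [LinearMap.comp_smul, Submodule.map_smul _ _ _ hc]

theorem dot_smul' {N : ℕ} (t : ℂ) (x : Cn N) : dot (t • x) = t • dot x := by
  unfold dot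
  rw [Finset.smul_sum]
  refine Finset.sum_congr rfl fun i _ => ?_
  rw [Pi.smul_apply, smul_eq_mul, mul_smul]

theorem rk_smul' {N : ℕ} (g : Biv N) (t : ℂ) (ht : t ≠ 0) (x : Cn N) :
    rk g.f (t • x) = rk g.f x := by
  unfold rk
  refine fr_aux _ _ _ _ _ _ (t ^ 2) (pow_ne_zero 2 ht) ?_ ?_ ?_
  · exact Submodule.span_singleton_smul_eq (IsUnit.mk0 t ht) x
  · rw [dot_smul']
    exact LinearMap.ker_smul _ _ ht
  · have hm : mat g.f (t • x) = t ^ 2 • mat g.f x := by
      ext i j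
      simp only [mat, Matrix.of_apply, Matrix.smul_apply, smul_eq_mul]
      exact eval_smul2 _ (g.quad i j) t x
    rw [hm]
    refine LinearMap.ext fun v => ?_
    rw [LinearMap.smul_apply, Matrix.mulVecLin_apply, Matrix.mulVecLin_apply, Matrix.smul_mulVec]

/-- the exponents of degree 2 -/
noncomputable def E2 (N : ℕ) : Finset (Fin N →₀ ℕ) := Finset.finsuppAntidiag Finset.univ 2

theorem eval_E2 {N : ℕ} (p : MvPolynomial (Fin N) ℂ) (hp : p.IsHomogeneous 2) (x : Cn N) :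
    eval x p = ∑ d ∈ E2 N, coeff d p * ∏ i, x i ^ d i := by
  rw [MvPolynomial.eval_eq']
  refine Finset.sum_subset ?_ ?_
  · intro d hd
    unfold E2
    rw [Finset.mem_finsuppAntidiag]
    refine ⟨?_, Finset.subset_univ _⟩
    have h2 := hp (mem_support_iff.1 hd)
    rw [← h2, Finsupp.weight_apply, Finsupp.sum_fintype]
    · exact Finset.sum_congr rfl fun i _ => by simp
    · intro i
      simp
  · intro d _ hd
    rw [notMem_support_iff.1 hd, zero_mul]

theorem eval_tendsto {N : ℕ} (G : ℕ → Biv N) (g₀ : Biv N) (i j : Fin N)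
    (hG : ∀ m, Tendsto (fun t => coeff m ((G t).f i j)) atTop (nhds (coeff m (g₀.f i j))))
    (x : ℕ → Cn N) (x₀ : Cn N) (hx : Tendsto x atTop (nhds x₀)) :
    Tendsto (fun t => eval (x t) ((G t).f i j)) atTop (nhds (eval x₀ (g₀.f i j))) := by
  have e1 : (fun t => eval (x t) ((G t).f i j)) =
      fun t => ∑ d ∈ E2 N, coeff d ((G t).f i j) * ∏ i, x t i ^ d i := by
    funext t
    exact eval_E2 _ ((G t).quad i j) _
  rw [e1, eval_E2 _ (g₀.quad i j)]
  refine tendsto_finset_sum _ fun d _ => ?_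
  refine (hG d).mul ?_
  refine tendsto_finset_prod _ fun k _ => ?_
  exact ((tendsto_pi_nhds.1 hx) k).pow _

theorem det_tendsto {k : ℕ} (M : ℕ → Matrix (Fin k) (Fin k) ℂ) (M₀ : Matrix (Fin k) (Fin k) ℂ)
    (h : ∀ a b, Tendsto (fun t => M t a b) atTop (nhds (M₀ a b))) :
    Tendsto (fun t => (M t).det) atTop (nhds M₀.det) := by
  have h1 : Tendsto M atTop (nhds M₀) :=
    tendsto_pi_nhds.2 fun a => tendsto_pi_nhds.2 fun b => h a b
  exact ((continuous_id.matrix_det).tendsto M₀).comp h1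

theorem eval_mnr {N r k : ℕ} (π : Fin N → Fin r → MvPolynomial (Fin N) ℂ)
    (I : Fin k → Fin N) (J : Fin k → Fin r) (x : Cn N) :
    eval x (mnr π I J) = (Matrix.of fun a b => eval x (π (I a) (J b))).det := by
  unfold mnr
  rw [RingHom.map_det]
  rfl

theorem eval_xmnr {N r ρ : ℕ} (π : Fin N → Fin r → MvPolynomial (Fin N) ℂ)
    (I : Fin (ρ + 1) → Fin N) (J : Fin ρ → Fin r) (x : Cn N) :
    eval x (xmnr π I J) = (Matrix.of fun (a : Fin (ρ + 1)) (b : Fin (ρ + 1)) =>
      (Fin.cons (x (I a)) (fun b' => eval x (π (I a) (J b'))) : Fin (ρ + 1) → ℂ) b).det := by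
  unfold xmnr
  rw [RingHom.map_det]
  congr 1
  ext a b
  refine Fin.cases ?_ (fun b' => ?_) b
  · simp
  · simp

end LMCM

open LMCM Filter Topology in
theorem specLMC : SpecLMC := by
  intro N s G g₀ hs hG hW W hNW
  -- normalized points
  have h1 : ∀ t, ∃ x : Cn N, x ∈ (W : Set (Cn N)) ∩ Metric.sphere (0 : Cn N) 1 ∧
      rk (G t).f x ≤ s := by
    intro t
    obtain ⟨y, hy, hy0, hyr⟩ := hW t W hNW
    have hn : ‖y‖ ≠ 0 := norm_ne_zero_iff.2 hy0
    have hc : ((‖y‖⁻¹ : ℝ) : ℂ) ≠ 0 := by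
      rw [Ne, Complex.ofReal_eq_zero]
      exact inv_ne_zero hn
    refine ⟨((‖y‖⁻¹ : ℝ) : ℂ) • y, ⟨W.smul_mem _ hy, ?_⟩, ?_⟩
    · rw [mem_sphere_zero_iff_norm, norm_smul, Complex.norm_real, norm_inv, norm_norm]
      exact inv_mul_cancel₀ hn
    · rw [rk_smul' _ _ hc]
      exact hyr
  choose x hx hxr using h1
  have hcomp : IsCompact ((W : Set (Cn N)) ∩ Metric.sphere (0 : Cn N) 1) :=
    (isCompact_sphere (0 : Cn N) 1).inter_left W.closed_of_finiteDimensional
  obtain ⟨x₀, hx₀, φ, hφ, hlim⟩ := hcomp.tendsto_subseq hx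
  have hx₀0 : x₀ ≠ 0 := by
    intro h
    have h2 := hx₀.2
    rw [mem_sphere_zero_iff_norm, h, norm_zero] at h2
    exact zero_ne_one h2
  have hx0 : ∀ t, x t ≠ 0 := by
    intro t h
    have h2 := (hx t).2
    rw [mem_sphere_zero_iff_norm, h, norm_zero] at h2
    exact zero_ne_one h2
  have hev : ∀ i j, Tendsto (fun t => eval (x (φ t)) ((G (φ t)).f i j)) atTop
      (nhds (eval x₀ (g₀.f i j))) := by
    intro i j
    exact eval_tendsto (fun t => G (φ t)) g₀ i j
      (fun m => (hG i j m).comp hφ.tendsto_atTop) (fun t => x (φ t)) x₀ hlim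
  refine ⟨x₀, hx₀.1, hx₀0, ?_⟩
  refine PS.specRKU N s g₀ x₀ hs hx₀0 ?_ ?_
  · intro I J
    have h3 : Tendsto (fun t => eval (x (φ t)) (mnr (G (φ t)).f I J)) atTop
        (nhds (eval x₀ (mnr g₀.f I J))) := by
      simp only [eval_mnr]
      refine det_tendsto _ _ fun a b => ?_
      simp only [Matrix.of_apply]
      exact hev _ _
    have h4 : (fun t => eval (x (φ t)) (mnr (G (φ t)).f I J)) = fun _ => (0 : ℂ) := by
      funext t
      exact (PS.specRKC N s (G (φ t)) (x (φ t)) hs (hx0 _) (hxr _)).1 I J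
    rw [h4] at h3
    exact (tendsto_nhds_unique h3 tendsto_const_nhds)
  · intro I J
    have h3 : Tendsto (fun t => eval (x (φ t)) (xmnr (G (φ t)).f I J)) atTop
        (nhds (eval x₀ (xmnr g₀.f I J))) := by
      simp only [eval_xmnr]
      refine det_tendsto _ _ fun a b => ?_
      simp only [Matrix.of_apply]
      refine Fin.cases ?_ (fun b' => ?_) b
      · simp only [Fin.cons_zero]
        exact (tendsto_pi_nhds.1 hlim) (I a)
      · simp only [Fin.cons_succ]
        exact hev _ _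
    have h4 : (fun t => eval (x (φ t)) (xmnr (G (φ t)).f I J)) = fun _ => (0 : ℂ) := by
      funext t
      exact (PS.specRKC N s (G (φ t)) (x (φ t)) hs (hx0 _) (hxr _)).2 I J
    rw [h4] at h3
    exact (tendsto_nhds_unique h3 tendsto_const_nhds)

end Pool.Agent.Lib.MPc9b009.LS
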