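import Pool.Agent.Lib.MP_c9b009_ag.LS.Spec

/-!
# MP_c9b009_ag, row LS, module LMN: a stable prime of minimal dimension
-/

set_option autoImplicit false

namespace Pool.Agent.Lib.MPc9b009.LS

open MvPolynomial Pool.Agent.Lib.MPc9b009.B5 Pool.Agent.Lib.MPc9b009.OD
  Pool.Agent.Lib.MPc9b009.PS

theorem specLMN : SpecLMN := by
  classical
  intro N k s z g h p hp hzp hst hD
  have hex : ∃ D : ℕ, ∃ P : Ideal (PR N), P.IsPrime ∧ z ≤ P ∧ Stab (th g h) P ∧ s + 2 ≤ D ∧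
      Algebra.trdeg ℂ (PR N ⧸ P) = ((D : ℕ) : Cardinal) := by
    obtain ⟨D, hD'⟩ := BSTM.nat_trdeg p
    refine ⟨D, p, hp, hzp, hst, ?_, hD'⟩
    rw [hD'] at hD
    exact_mod_cast hD
  obtain ⟨P, hP, hzP, hstP, hDP, hDP'⟩ := Nat.find_spec hex
  refine ⟨P, hP, hzP, hstP, ?_, ?_⟩
  · rw [hDP']
    exact_mod_cast hDP
  · intro Q hQ hPQ hstQ hne
    obtain ⟨E, hE⟩ := BSTM.nat_trdeg Q
    have hlt : P < Q := lt_of_le_of_ne hPQ (Ne.symm hne)
    have hm := specMONO N P Q hP hQ hlt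
    rw [hE, hDP'] at hm
    have hm' : E + 1 ≤ Nat.find hex := by exact_mod_cast hm
    have hnot : ¬ (s + 2 ≤ E) := by
      intro hsE
      exact Nat.find_min hex (by omega : E < Nat.find hex) ⟨Q, hQ, hzP.trans hPQ, hstQ, hsE, hE⟩
    rw [hE]
    have h5 : E ≤ s + 1 := by omega
    exact_mod_cast h5

end Pool.Agent.Lib.MPc9b009.LS
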