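import Pool.Agent.Lib.MP_c9b009_ag.LS.SpecB

/-!
# MP_c9b009_ag, row LS: module LPE
-/

set_option autoImplicit false

namespace Pool.Agent.Lib.MPc9b009.LS

open MvPolynomial Pool.Agent.Lib.MPc9b009.B5 Pool.Agent.Lib.MPc9b009.OD
  Pool.Agent.Lib.MPc9b009.PS

namespace LPEM

/-- a polynomial without a variable is a constant -/
theorem exists_degreeOf {N : ℕ} (f : PR N) (hf : Irreducible f) : ∃ i, 0 < degreeOf i f := by
  by_contra hcon
  push Not at hcon
  have h1 : f.vars = ∅ := by
    rw [Finset.eq_empty_iff_forall_notMem]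
    intro i hi
    exact mem_vars_iff_degreeOf_ne_zero.1 hi (Nat.le_zero.1 (hcon i))
  have h2 := vars_eq_empty_iff_eq_C.1 h1
  have h3 : f.coeff 0 ≠ 0 := by
    intro h0
    rw [h0, C_0] at h2
    exact hf.ne_zero h2
  refine hf.not_isUnit ?_
  rw [h2]
  exact h3.isUnit.map C

theorem aeval_mk {N : ℕ} {σ : Type*} (I : Ideal (PR N)) (x : σ → PR N) (p : MvPolynomial σ ℂ) :
    aeval (fun j => Ideal.Quotient.mk I (x j)) p = Ideal.Quotient.mk I (aeval x p) := by
  have h := DFunLike.congr_fun (comp_aeval x (Ideal.Quotient.mkₐ ℂ I)) p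
  exact h.symm

/-- the dimension of a hypersurface -/
theorem trdeg_hyp {N : ℕ} (f : PR N) (hf : Irreducible f) :
    ((N - 1 : ℕ) : Cardinal) ≤ Algebra.trdeg ℂ (PR N ⧸ Ideal.span {f}) := by
  classical
  obtain ⟨i, hi⟩ := exists_degreeOf f hf
  have hind : AlgebraicIndependent ℂ
      (fun j : {j : Fin N // j ≠ i} => Ideal.Quotient.mk (Ideal.span {f}) (X j.1 : PR N)) := by
    rw [algebraicIndependent_iff]
    intro p hp
    rw [aeval_mk, Ideal.Quotient.eq_zero_iff_mem, Ideal.mem_span_singleton] at hp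
    obtain ⟨r, hr⟩ := hp
    have hren : aeval (fun j : {j : Fin N // j ≠ i} => (X j.1 : PR N)) p =
        rename (Subtype.val : {j : Fin N // j ≠ i} → Fin N) p := by
      have h0 : aeval (fun j : {j : Fin N // j ≠ i} => (X j.1 : PR N)) =
          rename (Subtype.val : {j : Fin N // j ≠ i} → Fin N) := by
        apply algHom_ext
        intro j
        rw [aeval_X, rename_X]
      rw [h0]
    rw [hren] at hr
    by_contra hp0
    have h1 : rename (Subtype.val : {j : Fin N // j ≠ i} → Fin N) p ≠ 0 := by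
      intro h0
      exact hp0 (rename_injective _ Subtype.val_injective (by rw [h0, map_zero]))
    have hr0 : r ≠ 0 := by
      rintro rfl
      rw [mul_zero] at hr
      exact h1 hr
    have h2 : degreeOf i (rename (Subtype.val : {j : Fin N // j ≠ i} → Fin N) p) = 0 := by
      by_contra h3
      have h4 := vars_rename (Subtype.val : {j : Fin N // j ≠ i} → Fin N) p
        (mem_vars_iff_degreeOf_ne_zero.2 h3)
      rw [Finset.mem_image] at h4
      obtain ⟨j, -, hj⟩ := h4
      exact j.2 hj
    rw [hr, degreeOf_mul_eq hf.ne_zero hr0] at h2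
    omega
  have h := hind.cardinalMk_le_trdeg
  rw [Cardinal.mk_fintype, Fintype.card_subtype_compl, Fintype.card_fin,
    Fintype.card_subtype_eq] at h
  exact h

theorem trdeg_bot (N : ℕ) :
    ((N : ℕ) : Cardinal) ≤ Algebra.trdeg ℂ (PR N ⧸ (⊥ : Ideal (PR N))) := by
  have hind : AlgebraicIndependent ℂ
      (fun j : Fin N => Ideal.Quotient.mk (⊥ : Ideal (PR N)) (X j : PR N)) := by
    rw [algebraicIndependent_iff]
    intro p hp
    rw [aeval_mk, Ideal.Quotient.eq_zero_iff_mem, Ideal.mem_bot, aeval_X_left_apply] at hp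
    exact hp
  have h := hind.cardinalMk_le_trdeg
  rw [Cardinal.mk_fintype, Fintype.card_fin] at h
  exact h

theorem even_of_det {N : ℕ} (g : Biv N) (h : (Matrix.of g.f).det ≠ 0) : Even N := by
  by_contra hodd
  rw [Nat.not_even_iff_odd] at hodd
  have h1 : (Matrix.of g.f).transpose = -(Matrix.of g.f) := by
    ext1 i j
    rw [Matrix.transpose_apply, Matrix.neg_apply, Matrix.of_apply, Matrix.of_apply, g.skew i j]
  have h2 := Matrix.det_transpose (Matrix.of g.f)
  rw [h1, Matrix.det_neg, Fintype.card_fin, hodd.neg_one_pow, neg_one_mul] at h2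
  exact h (self_eq_neg.1 h2.symm)

theorem hom_bot {N : ℕ} : Hom (⊥ : Ideal (PR N)) := by
  intro q hq d
  rw [Ideal.mem_bot] at hq ⊢
  rw [hq, map_zero]

/-- the case `N = s + 2` -/
theorem top_case {N s : ℕ} (g : Biv N) (hs : Even s) (hN : N = s + 2) : BigI ⊥ g.f s := by
  have hnotinj : ∀ I : Fin (s + 3) → Fin N, ∃ a b, a ≠ b ∧ I a = I b := by
    intro I
    by_contra hcon
    push Not at hcon
    have hinj : Function.Injective I := by
      intro a b hab
      by_contra hne
      exact hcon a b hne hab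
    have := Fintype.card_le_of_injective I hinj
    rw [Fintype.card_fin, Fintype.card_fin] at this
    omega
  refine specBGI N s g.f ⊥ ⊥ Ideal.isPrime_bot hom_bot le_rfl ?_ ?_
  · intro x hx _
    refine specRKU N s g x hs hx ?_ ?_
    · intro I J
      obtain ⟨a, b, hab, hI⟩ := hnotinj I
      have : mnr g.f I J = 0 := by
        unfold mnr
        refine Matrix.det_zero_of_row_eq hab ?_
        funext c
        simp only [Matrix.of_apply, hI]
      rw [this, map_zero]
    · intro I J
      obtain ⟨a, b, hab, hI⟩ := hnotinj I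
      have : xmnr g.f I J = 0 := by
        unfold xmnr
        refine Matrix.det_zero_of_row_eq hab ?_
        funext c
        simp only [Matrix.of_apply, hI]
      rw [this, map_zero]
  · have := trdeg_bot N
    rw [hN] at this ⊢
    exact this

end LPEM

theorem specLPE (hGTH : SpecGTH) (hHME : SpecHME) (hGNE : SpecGNE) : SpecLPE := by
  intro N n s g F hL hs hlt
  obtain ⟨κ, hκ, hdet⟩ := hL.det
  have hpos := hL.pos
  have hF0 : ∀ i, F i ≠ 0 := fun i => (hL.irr i).ne_zero
  have hprod0 : ∏ i, F i ≠ 0 := Finset.prod_ne_zero_iff.2 fun i _ => hF0 i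
  have heven : Even N := by
    refine LPEM.even_of_det g ?_
    rw [hdet]
    exact mul_ne_zero (by rwa [Ne, C_eq_zero]) (pow_ne_zero 2 hprod0)
  by_cases hN : N = s + 2
  · exact LPEM.top_case g hs hN
  have hN4 : s + 4 ≤ N := by
    obtain ⟨a, ha⟩ := heven
    obtain ⟨b, hb⟩ := hs
    omega
  -- there is a component
  have hn : 0 < n := by
    rcases Nat.eq_zero_or_pos n with rfl | h
    · exfalso
      have h1 := hL.deg
      rw [Finset.univ_eq_empty, Finset.prod_empty] at h1
      have h2 := (isHomogeneous_one (Fin N) ℂ).inj_right h1 one_ne_zero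
      omega
    · exact h
  obtain ⟨h, hh, hCF, hhF, hhj, hSF, hSj⟩ := hHME N n g F hL
  refine hGTH N n s ⊥ (Ideal.span {∏ j, F j}) g h hs LPEM.hom_bot ?_ ?_ hCF ?_ bot_le hSF hhF
    ?_ ?_
  · intro q hq j
    rw [Ideal.mem_bot] at hq ⊢
    simp [hq]
  · intro i j l
    rw [Ideal.mem_bot]
    exact hL.jac0 i j l
  · refine CUTM.hom_span _ ?_
    intro x hx
    rw [Set.mem_singleton_iff] at hx
    rw [hx]
    exact ⟨N, hL.deg⟩
  · intro v _ hv x _ _
    obtain ⟨c, hc⟩ := hGNE N n g F hL h hh v (hv _ (Ideal.mem_span_singleton_self _))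
    have : (fun i => eval x (v i)) =
        ∑ j, eval x (c j) • (fun i => eval x (th g h i j)) := by
      funext i
      rw [hc i, map_sum, Finset.sum_apply]
      refine Finset.sum_congr rfl fun j _ => ?_
      rw [map_mul, Pi.smul_apply, smul_eq_mul, mul_comm]
    rw [this]
    exact Submodule.sum_mem _ fun j _ =>
      Submodule.smul_mem _ _ (Submodule.subset_span ⟨j, rfl⟩)
  · let i₀ : Fin n := ⟨0, hn⟩
    refine ⟨Ideal.span {F i₀}, ?_, ?_, ?_, hSj i₀, fun a q hq => hhj a i₀ q hq, ?_⟩
    · rw [Ideal.span_singleton_prime (hF0 i₀)]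
      exact (hL.irr i₀).prime
    · refine CUTM.hom_span _ ?_
      intro x hx
      rw [Set.mem_singleton_iff] at hx
      rw [hx]
      exact hL.hom i₀
    · rw [Ideal.span_singleton_le_span_singleton]
      exact Finset.dvd_prod_of_mem F (Finset.mem_univ i₀)
    · refine le_trans ?_ (LPEM.trdeg_hyp (F i₀) (hL.irr i₀))
      exact_mod_cast (by omega : s + 2 ≤ N - 1)

end Pool.Agent.Lib.MPc9b009.LS
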