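import Pool.Agent.Lib.MP_c9b009_ag.LS.Spec
import Pool.Agent.Lib.MP_c9b009_ag.OD.FRM

/-! # MP_c9b009_ag, row LS, module LSP -/

set_option autoImplicit false

namespace Pool.Agent.Lib.MPc9b009.LS

open MvPolynomial Pool.Agent.Lib.MPc9b009.B5 Pool.Agent.Lib.MPc9b009.OD
  Pool.Agent.Lib.MPc9b009.PS

namespace LSPM

theorem ev_mem {N r : ℕ} (π : Fin N → Fin r → PR N) (x : Cn N) (v : Fin N → PR N)
    (c : Fin r → PR N) (h : ∀ l, v l = ∑ j, π l j * c j) :
    (fun i => eval x (v i)) ∈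
      Submodule.span ℂ (Set.range fun j : Fin r => fun i => eval x (π i j)) := by
  have h1 : (fun i => eval x (v i)) =
      ∑ j, eval x (c j) • (fun i => eval x (π i j)) := by
    funext i
    rw [h i, map_sum, Finset.sum_apply]
    refine Finset.sum_congr rfl fun j _ => ?_
    rw [map_mul, Pi.smul_apply, smul_eq_mul, mul_comm]
  rw [h1]
  exact Submodule.sum_mem _ fun j _ => Submodule.smul_mem _ _ (Submodule.subset_span ⟨j, rfl⟩)

end LSPM

open LSPM in
/-- LSP. -/
theorem specLSP (hGTH : SpecGTH) (hHMI : SpecHMI) (hGNN : SpecGNN) (hADJ : SpecADJ) : SpecLSP := by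
  intro N n s g F hL hs hN
  obtain ⟨h, h1, h2, h3, h4, h5, h6⟩ := hHMI N n g F hL
  have hodd : Odd N := (hADJ N n g F hL).1
  have hN2 : s + 2 ≤ N - 1 := by
    obtain ⟨a, ha⟩ := hs
    obtain ⟨b, hb⟩ := hodd
    omega
  -- there is a component
  have hn : 0 < n := by
    rcases Nat.eq_zero_or_pos n with h0 | h0
    · exfalso
      subst h0
      have h7 := hL.deg
      rw [Finset.univ_eq_empty, Finset.prod_empty] at h7
      have h8 := (isHomogeneous_one (Fin N) ℂ).inj_right h7 one_ne_zero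
      omega
    · exact h0
  have hFz : Hom (Ideal.span {∏ j, F j} : Ideal (PR N)) := by
    refine CUTM.hom_span _ ?_
    intro x hx
    rw [Set.mem_singleton_iff] at hx
    rw [hx]
    exact ⟨N, hL.deg⟩
  let i0 : Fin n := ⟨0, hn⟩
  have hirr := hL.irr i0
  have hpr : (Ideal.span {F i0} : Ideal (PR N)).IsPrime := by
    rw [Ideal.span_singleton_prime hirr.ne_zero]
    exact hirr.prime
  refine hGTH N n s ⊥ (Ideal.span {∏ j, F j}) g h hs ?_ ?_ ?_ h2 hFz bot_le h5 h3 ?_ ?_
  · exact FRMM.hom_bot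
  · intro q hq j
    rw [Ideal.mem_bot] at hq ⊢
    rw [hq]
    simp
  · intro i j l
    rw [hL.jac0 i j l]
    exact Ideal.zero_mem _
  · intro v _ hv x _ _
    obtain ⟨c, hc⟩ := hGNN N n g F hL h h1 v (hv _ (Ideal.subset_span rfl))
    exact ev_mem _ x v c hc
  · refine ⟨Ideal.span {F i0}, hpr, ?_, ?_, h6 i0, ?_, ?_⟩
    · refine CUTM.hom_span _ ?_
      intro x hx
      rw [Set.mem_singleton_iff] at hx
      rw [hx]
      exact hL.hom i0
    · rw [Ideal.span_singleton_le_span_singleton]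
      exact Finset.dvd_prod_of_mem F (Finset.mem_univ i0)
    · intro a q hq
      exact h4 a i0 q hq
    · obtain ⟨m, rfl⟩ : ∃ m, N = m + 1 := ⟨N - 1, by omega⟩
      refine le_trans ?_ (FRMM.trdeg_hyper (F i0) hirr.ne_zero hirr.not_isUnit _ rfl)
      exact_mod_cast hN2

end Pool.Agent.Lib.MPc9b009.LS
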