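import Pool.Agent.Lib.MP_c9b009_ag.LS.Spec

/-!
# MP_c9b009_ag, row LS, module MNG: ideals of minors are stable
-/

set_option autoImplicit false

namespace Pool.Agent.Lib.MPc9b009.LS

open MvPolynomial Pool.Agent.Lib.MPc9b009.B5 Pool.Agent.Lib.MPc9b009.OD
  Pool.Agent.Lib.MPc9b009.PS

namespace MNGM

theorem vf_eq {N : ℕ} (v : Fin N → PR N) (q : PR N) : vf v q = JSTM.dd v q := by
  rw [JSTM.dd_apply]; rfl

/-- the derivative of a minor, modulo `I` -/
theorem der_mnr {N r n : ℕ} (I : Ideal (PR N)) (π : Fin N → Fin r → PR N)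
    (v : Fin N → PR N) (M : Fin N → Fin N → PR N) (C' : Fin r → Fin r → PR N)
    (hv : ∀ i j, vf v (π i j) - (∑ l, M i l * π l j + ∑ l, π i l * C' l j) ∈ I)
    (A : Fin n → Fin N) (J : Fin n → Fin r) :
    vf v (mnr π A J) - (∑ k, ∑ l, M (A k) l * mnr π (Function.update A k l) J
      + ∑ i, ∑ l, C' l (J i) * mnr π A (Function.update J i l)) ∈ I := by
  set B : Matrix (Fin n) (Fin n) (PR N) := Matrix.of fun a b => π (A a) (J b) with hB
  have hrow : ∀ k l, mnr π (Function.update A k l) J = ∑ i, B.adjugate i k * π l (J i) := by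
    intro k l
    rw [JSTM.adj_row]
    unfold mnr
    congr 1
    ext1 a b
    by_cases h : a = k
    · subst h
      rw [Matrix.updateRow_self, Matrix.of_apply, Function.update_self]
    · rw [Matrix.updateRow_ne h, Matrix.of_apply, Function.update_of_ne h, hB, Matrix.of_apply]
  have hcol : ∀ i l, mnr π A (Function.update J i l) = ∑ k, B.adjugate i k * π (A k) l := by
    intro i l
    rw [JSTM.adj_col]
    unfold mnr
    congr 1
    ext1 a b
    by_cases h : b = i
    · subst h
      rw [Matrix.updateCol_self, Matrix.of_apply, Function.update_self]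
    · rw [Matrix.updateCol_ne h, Matrix.of_apply, Function.update_of_ne h, hB, Matrix.of_apply]
  have h1 : vf v (mnr π A J) = ∑ i, ∑ k, B.adjugate i k * vf v (π (A k) (J i)) := by
    rw [vf_eq]
    have : mnr π A J = B.det := rfl
    rw [this, JSTM.der_det]
    refine Finset.sum_congr rfl fun i _ => Finset.sum_congr rfl fun k _ => ?_
    rw [vf_eq, hB, Matrix.of_apply]
  have h2 : ∑ k, ∑ l, M (A k) l * mnr π (Function.update A k l) J
      = ∑ i, ∑ k, B.adjugate i k * ∑ l, M (A k) l * π l (J i) := by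
    rw [Finset.sum_comm (s := Finset.univ (α := Fin n)) (t := Finset.univ (α := Fin n))]
    refine Finset.sum_congr rfl fun k _ => ?_
    simp only [hrow, Finset.mul_sum]
    rw [Finset.sum_comm]
    refine Finset.sum_congr rfl fun i _ => Finset.sum_congr rfl fun l _ => ?_
    ring
  have h3 : ∑ i, ∑ l, C' l (J i) * mnr π A (Function.update J i l)
      = ∑ i, ∑ k, B.adjugate i k * ∑ l, π (A k) l * C' l (J i) := by
    refine Finset.sum_congr rfl fun i _ => ?_
    simp only [hcol, Finset.mul_sum]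
    rw [Finset.sum_comm]
    refine Finset.sum_congr rfl fun k _ => Finset.sum_congr rfl fun l _ => ?_
    ring
  have h4 : vf v (mnr π A J) - (∑ k, ∑ l, M (A k) l * mnr π (Function.update A k l) J
      + ∑ i, ∑ l, C' l (J i) * mnr π A (Function.update J i l))
      = ∑ i, ∑ k, B.adjugate i k * (vf v (π (A k) (J i))
        - (∑ l, M (A k) l * π l (J i) + ∑ l, π (A k) l * C' l (J i))) := by
    rw [h1, h2, h3, ← Finset.sum_add_distrib, ← Finset.sum_sub_distrib]
    refine Finset.sum_congr rfl fun i _ => ?_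
    rw [← Finset.sum_add_distrib, ← Finset.sum_sub_distrib]
    refine Finset.sum_congr rfl fun k _ => ?_
    ring
  rw [h4]
  exact Ideal.sum_mem _ fun i _ => Ideal.sum_mem _ fun k _ => Ideal.mul_mem_left _ _ (hv _ _)

end MNGM

theorem specMNG : SpecMNG := by
  intro N r n I π v M C' hI hv q hq
  have hgen : ∀ z ∈ {q : PR N | ∃ (A : Fin n → Fin N) (J : Fin n → Fin r), q = mnr π A J},
      vf v z ∈ I ⊔ mnI n π := by
    rintro z ⟨A, J, rfl⟩
    have h1 := MNGM.der_mnr I π v M C' hv A J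
    have h2 : ∑ k, ∑ l, M (A k) l * mnr π (Function.update A k l) J
      + ∑ i, ∑ l, C' l (J i) * mnr π A (Function.update J i l) ∈ mnI n π := by
      refine Ideal.add_mem _ (Ideal.sum_mem _ fun k _ => Ideal.sum_mem _ fun l _ =>
        Ideal.mul_mem_left _ _ (Ideal.subset_span ⟨_, _, rfl⟩))
        (Ideal.sum_mem _ fun i _ => Ideal.sum_mem _ fun l _ =>
          Ideal.mul_mem_left _ _ (Ideal.subset_span ⟨_, _, rfl⟩))
    have h3 := Ideal.add_mem (I ⊔ mnI n π) (Ideal.mem_sup_left h1) (Ideal.mem_sup_right h2)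
    rwa [sub_add_cancel] at h3
  have hspan : ∀ z ∈ mnI n π, vf v z ∈ I ⊔ mnI n π := by
    intro z hz
    have hz' : z ∈ Ideal.span {q : PR N | ∃ (A : Fin n → Fin N) (J : Fin n → Fin r),
        q = mnr π A J} := hz
    refine Submodule.span_induction (p := fun z _ => vf v z ∈ I ⊔ mnI n π) hgen ?_ ?_ ?_ hz'
    · rw [MNGM.vf_eq, map_zero]; exact Ideal.zero_mem _
    · intro a b _ _ ha hb
      rw [MNGM.vf_eq] at ha hb ⊢
      rw [map_add]; exact Ideal.add_mem _ ha hb
    · intro a b hb hb'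
      rw [MNGM.vf_eq] at hb' ⊢
      rw [smul_eq_mul, Derivation.leibniz, smul_eq_mul, smul_eq_mul]
      exact Ideal.add_mem _ (Ideal.mul_mem_left _ _ hb')
        (Ideal.mul_mem_right _ _ (Ideal.mem_sup_right hb))
  obtain ⟨u, hu, w, hw, rfl⟩ := Submodule.mem_sup.1 hq
  rw [MNGM.vf_eq, map_add, ← MNGM.vf_eq, ← MNGM.vf_eq]
  exact Ideal.add_mem _ (Ideal.mem_sup_left (hI u hu)) (hspan w hw)

end Pool.Agent.Lib.MPc9b009.LS
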