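import Pool.Agent.Lib.MP_c9b009_ag.LS.Spec

/-!
# NCP: the normal crossing condition at primes of codimension `≤ 2`
-/

set_option autoImplicit false

namespace Pool.Agent.Lib.MPc9b009.LS

open MvPolynomial Pool.Agent.Lib.MPc9b009.B5 Pool.Agent.Lib.MPc9b009.OD
  Pool.Agent.Lib.MPc9b009.PS

namespace NCPM

/-- a polynomial outside a prime `Q` does not vanish at some zero of `Q` -/
theorem exists_zero {N : ℕ} (Q : Ideal (PR N)) (hQ : Q.IsPrime) {q : PR N} (hq : q ∉ Q) :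
    ∃ x : Cn N, (∀ f ∈ Q, eval x f = 0) ∧ eval x q ≠ 0 := by
  by_contra hcon
  push Not at hcon
  apply hq
  have h1 : q ∈ vanishingIdeal ℂ (zeroLocus ℂ Q) := by
    rw [mem_vanishingIdeal_iff]
    intro x hx
    rw [mem_zeroLocus_iff] at hx
    exact hcon x hx
  rw [IsPrime.vanishingIdeal_zeroLocus] at h1
  exact h1

end NCPM

theorem specNCP : SpecNCP := by
  classical
  intro N n F hL Q hQ hd
  have hN3 : 3 ≤ N := hL.pos
  obtain ⟨q, hq, hqQ⟩ : ∃ q ∈ ncI F, q ∉ Q := by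
    by_contra hcon
    push Not at hcon
    have hle := hL.nc Q hQ hcon
    have h2 : ((N : ℕ) : Cardinal) ≤ ((N - 3 : ℕ) : Cardinal) + 2 :=
      hd.trans (by gcongr)
    have h3 : N ≤ N - 3 + 2 := by exact_mod_cast h2
    omega
  refine ⟨?_, ?_, ?_⟩
  · intro i hi
    by_contra hcon
    push Not at hcon
    obtain ⟨x, hx, hxq⟩ := NCPM.exists_zero Q hQ hqQ
    apply hxq
    refine hq x ?_
    intro hNC
    obtain ⟨p, hp⟩ := hNC.1 i (hx _ hi)
    exact hp (hx _ (hcon p))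
  · intro i j hij hi hj
    by_contra hcon
    push Not at hcon
    obtain ⟨x, hx, hxq⟩ := NCPM.exists_zero Q hQ hqQ
    apply hxq
    refine hq x ?_
    intro hNC
    obtain ⟨p, r, hp⟩ := hNC.2.1 i j hij (hx _ hi) (hx _ hj)
    exact hp (hx _ (hcon p r))
  · intro i j l hij hjl hil hi hj hl
    obtain ⟨x, hx, hxq⟩ := NCPM.exists_zero Q hQ hqQ
    apply hxq
    refine hq x ?_
    intro hNC
    exact hNC.2.2 i j l hij hjl hil (hx _ hi) (hx _ hj) (hx _ hl)

end Pool.Agent.Lib.MPc9b009.LS
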