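import Pool.Agent.Lib.MP_c9b009_ag.LS.Spec

/-!
# MP_c9b009_ag, row LS, module REP: the points `Pt` are represented by a finitely generated algebra
-/

set_option autoImplicit false

namespace Pool.Agent.Lib.MPc9b009.LS

open MvPolynomial Pool.Agent.Lib.MPc9b009.B5 Pool.Agent.Lib.MPc9b009.OD
  Pool.Agent.Lib.MPc9b009.PS

namespace REPM

/-- the exponents `≤ k + 1` in every variable -/
noncomputable def S (N k : ℕ) : Finset (Fin N →₀ ℕ) :=
  Finset.Iic (Finsupp.equivFunOnFinite.symm fun _ => k + 1)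

lemma mem_S {N k : ℕ} {m : Fin N →₀ ℕ} : m ∈ S N k ↔ ∀ i, m i ≤ k + 1 := by
  unfold S
  rw [Finset.mem_Iic, Finsupp.le_def]
  rfl

lemma mem_S_of_degree {N k : ℕ} {m : Fin N →₀ ℕ} (h : m.degree ≤ k + 1) : m ∈ S N k := by
  rw [mem_S]
  intro i
  exact (Finsupp.le_degree i m).trans h

/-- the polynomial with given coefficients -/
noncomputable def pol {N k : ℕ} {B : Type} [CommRing B] (c : S N k → B) :
    MvPolynomial (Fin N) B := ∑ m : S N k, monomial m.1 (c m)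

lemma coeff_pol {N k : ℕ} {B : Type} [CommRing B] (c : S N k → B) (m : Fin N →₀ ℕ)
    (hm : m ∈ S N k) : coeff m (pol c) = c ⟨m, hm⟩ := by
  classical
  unfold pol
  rw [coeff_sum]
  simp only [coeff_monomial]
  rw [Finset.sum_eq_single ⟨m, hm⟩]
  · rw [if_pos rfl]
  · intro x _ hx
    rw [if_neg]
    intro h
    exact hx (Subtype.ext h)
  · intro h
    exact absurd (Finset.mem_univ _) h

lemma mem_YI {N k : ℕ} {B : Type} [CommRing B] (Q : MvPolynomial (Fin N) B) :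
    Q ∈ YI N k B ↔ ∀ m : Fin N →₀ ℕ, m.degree ≤ k → coeff m Q = 0 := by
  unfold YI
  rw [mem_pow_idealOfVars_iff']
  constructor
  · intro h m hm
    exact h m (Nat.lt_succ_of_le hm)
  · intro h m hm
    exact h m (Nat.le_of_lt_succ hm)

/-- the truncation -/
lemma pol_sub_mem {N k : ℕ} {B : Type} [CommRing B] (Q : MvPolynomial (Fin N) B) :
    pol (fun m : S N k => coeff m.1 Q) - Q ∈ YI N k B := by
  rw [mem_YI]
  intro m hm
  rw [coeff_sub, coeff_pol _ m (mem_S_of_degree (hm.trans (Nat.le_succ k))), sub_self]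

/-! ### the data without conditions -/

section dat

variable {N k : ℕ} {κ τ : Type} [Fintype κ] [DecidableEq τ]
variable {B B' : Type} [CommRing B] [Algebra ℂ B] [CommRing B'] [Algebra ℂ B']

/-- the expression of `e1` -/
noncomputable def E1 (f : κ → PR N) (blk : κ → τ) (p₀ : Cn N)
    (γ : Fin N → MvPolynomial (Fin N) B) (m : κ → κ → MvPolynomial (Fin N) B) (i : κ) :
    MvPolynomial (Fin N) B :=
  aeval γ (f i) - ∑ j, (if blk j = blk i then m i j * tr B p₀ (f j) else 0)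

/-- the expression of `e2` -/
noncomputable def E2 (f : κ → PR N) (blk : κ → τ) (p₀ : Cn N)
    (γ : Fin N → MvPolynomial (Fin N) B) (m : κ → κ → MvPolynomial (Fin N) B) (i : κ) :
    MvPolynomial (Fin N) B :=
  tr B p₀ (f i) - ∑ j, (if blk j = blk i then m i j * aeval γ (f j) else 0)

/-- the matrix of the linear parts -/
noncomputable def Lin (γ : Fin N → MvPolynomial (Fin N) B) :
    Matrix (Fin N) (Fin N) B := Matrix.of fun i j => coeff (Finsupp.single j 1) (γ i)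

/-- `φ` on the coefficients -/
noncomputable def mp (φ : B →ₐ[ℂ] B') : MvPolynomial (Fin N) B →ₐ[ℂ] MvPolynomial (Fin N) B' :=
  mapAlgHom φ

lemma coeff_mp (φ : B →ₐ[ℂ] B') (m : Fin N →₀ ℕ) (Q : MvPolynomial (Fin N) B) :
    coeff m (mp φ Q) = φ (coeff m Q) := by
  unfold mp
  rw [mapAlgHom_apply, coeff_map]
  rfl

lemma cc_mp (φ : B →ₐ[ℂ] B') (Q : MvPolynomial (Fin N) B) :
    constantCoeff (mp φ Q) = φ (constantCoeff Q) := by
  rw [constantCoeff_eq, constantCoeff_eq, coeff_mp]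

lemma mp_C (φ : B →ₐ[ℂ] B') (b : B) : mp (N := N) φ (C b) = C (φ b) := by
  unfold mp
  rw [mapAlgHom_apply, map_C]
  rfl

lemma mp_X (φ : B →ₐ[ℂ] B') (i : Fin N) : mp φ (X i) = X i := by
  unfold mp
  rw [mapAlgHom_apply, map_X]

lemma mp_pol (φ : B →ₐ[ℂ] B') (c : S N k → B) : mp φ (pol c) = pol fun m => φ (c m) := by
  unfold pol mp
  rw [map_sum]
  refine Finset.sum_congr rfl fun m _ => ?_
  rw [mapAlgHom_apply, map_monomial]
  rfl

lemma mp_aeval (φ : B →ₐ[ℂ] B') (γ : Fin N → MvPolynomial (Fin N) B) (q : PR N) :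
    mp φ (aeval γ q) = aeval (fun i => mp φ (γ i)) q := comp_aeval_apply _ _ _

lemma mp_tr (φ : B →ₐ[ℂ] B') (p₀ : Cn N) (q : PR N) : mp φ (tr B p₀ q) = tr B' p₀ q := by
  unfold tr
  rw [mp_aeval]
  have h : (fun i => mp φ (X i + C (algebraMap ℂ B (p₀ i))))
      = fun i : Fin N => X i + C (algebraMap ℂ B' (p₀ i)) := by
    funext i
    rw [map_add, mp_X, mp_C, AlgHom.commutes]
  rw [h]

lemma mp_E1 (φ : B →ₐ[ℂ] B') (f : κ → PR N) (blk : κ → τ) (p₀ : Cn N)
    (γ : Fin N → MvPolynomial (Fin N) B) (m : κ → κ → MvPolynomial (Fin N) B) (i : κ) :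
    mp φ (E1 f blk p₀ γ m i)
      = E1 f blk p₀ (fun i => mp φ (γ i)) (fun i j => mp φ (m i j)) i := by
  unfold E1
  rw [map_sub, map_sum, mp_aeval]
  congr 1
  refine Finset.sum_congr rfl fun j _ => ?_
  split_ifs
  · rw [map_mul, mp_tr]
  · rw [map_zero]

lemma mp_E2 (φ : B →ₐ[ℂ] B') (f : κ → PR N) (blk : κ → τ) (p₀ : Cn N)
    (γ : Fin N → MvPolynomial (Fin N) B) (m : κ → κ → MvPolynomial (Fin N) B) (i : κ) :
    mp φ (E2 f blk p₀ γ m i)
      = E2 f blk p₀ (fun i => mp φ (γ i)) (fun i j => mp φ (m i j)) i := by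
  unfold E2
  rw [map_sub, map_sum, mp_tr]
  congr 1
  refine Finset.sum_congr rfl fun j _ => ?_
  split_ifs
  · rw [map_mul, mp_aeval]
  · rw [map_zero]

lemma aeval_sub_mem (I : Ideal (MvPolynomial (Fin N) B)) {γ γ' : Fin N → MvPolynomial (Fin N) B}
    (h : ∀ i, γ i - γ' i ∈ I) (q : PR N) : aeval γ q - aeval γ' q ∈ I := by
  have h1 : ∀ γ : Fin N → MvPolynomial (Fin N) B, Ideal.Quotient.mk I (aeval γ q)
      = aeval (fun i => Ideal.Quotient.mkₐ ℂ I (γ i)) q := fun γ =>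
    comp_aeval_apply _ (Ideal.Quotient.mkₐ ℂ I) q
  rw [← Ideal.Quotient.mk_eq_mk_iff_sub_mem, h1, h1]
  have h2 : (fun i => Ideal.Quotient.mkₐ ℂ I (γ i)) = fun i => Ideal.Quotient.mkₐ ℂ I (γ' i) := by
    funext i
    exact (Ideal.Quotient.mk_eq_mk_iff_sub_mem _ _).2 (h i)
  rw [h2]

lemma E1_congr (I : Ideal (MvPolynomial (Fin N) B)) (f : κ → PR N) (blk : κ → τ) (p₀ : Cn N)
    {γ γ' : Fin N → MvPolynomial (Fin N) B} {m m' : κ → κ → MvPolynomial (Fin N) B}
    (h : ∀ i, γ i - γ' i ∈ I) (hm : ∀ i j, m i j - m' i j ∈ I) (i : κ) :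
    E1 f blk p₀ γ m i - E1 f blk p₀ γ' m' i ∈ I := by
  have h1 : E1 f blk p₀ γ m i - E1 f blk p₀ γ' m' i = (aeval γ (f i) - aeval γ' (f i))
      - ∑ j, (if blk j = blk i then (m i j - m' i j) * tr B p₀ (f j) else 0) := by
    unfold E1
    have h2 : ∑ j, (if blk j = blk i then (m i j - m' i j) * tr B p₀ (f j) else 0)
        = ∑ j, (if blk j = blk i then m i j * tr B p₀ (f j) else 0)
          - ∑ j, (if blk j = blk i then m' i j * tr B p₀ (f j) else 0) := by
      rw [← Finset.sum_sub_distrib]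
      refine Finset.sum_congr rfl fun j _ => ?_
      split_ifs
      · ring
      · ring
    rw [h2]
    ring
  rw [h1]
  refine Ideal.sub_mem _ (aeval_sub_mem I h _) (Ideal.sum_mem _ fun j _ => ?_)
  split_ifs
  · exact Ideal.mul_mem_right _ _ (hm i j)
  · exact Ideal.zero_mem _

lemma E2_congr (I : Ideal (MvPolynomial (Fin N) B)) (f : κ → PR N) (blk : κ → τ) (p₀ : Cn N)
    {γ γ' : Fin N → MvPolynomial (Fin N) B} {m m' : κ → κ → MvPolynomial (Fin N) B}
    (h : ∀ i, γ i - γ' i ∈ I) (hm : ∀ i j, m i j - m' i j ∈ I) (i : κ) :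
    E2 f blk p₀ γ m i - E2 f blk p₀ γ' m' i ∈ I := by
  have h1 : E2 f blk p₀ γ m i - E2 f blk p₀ γ' m' i = - ∑ j, (if blk j = blk i then
      (m i j - m' i j) * aeval γ (f j) + m' i j * (aeval γ (f j) - aeval γ' (f j)) else 0) := by
    unfold E2
    have h2 : ∑ j, (if blk j = blk i then
        (m i j - m' i j) * aeval γ (f j) + m' i j * (aeval γ (f j) - aeval γ' (f j)) else 0)
        = ∑ j, (if blk j = blk i then m i j * aeval γ (f j) else 0)
          - ∑ j, (if blk j = blk i then m' i j * aeval γ' (f j) else 0) := by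
      rw [← Finset.sum_sub_distrib]
      refine Finset.sum_congr rfl fun j _ => ?_
      split_ifs
      · ring
      · ring
    rw [h2]
    ring
  rw [h1]
  refine Ideal.neg_mem_iff _ |>.2 (Ideal.sum_mem _ fun j _ => ?_)
  split_ifs
  · exact Ideal.add_mem _ (Ideal.mul_mem_right _ _ (hm i j))
      (Ideal.mul_mem_left _ _ (aeval_sub_mem I h _))
  · exact Ideal.zero_mem _

end dat

/-! ### the generic data -/

section gen

variable {N k : ℕ} {κ τ : Type} [Fintype κ] [DecidableEq τ]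

/-- the variables -/
abbrev J (N k : ℕ) (κ : Type) : Type :=
  (Fin N × S N k) ⊕ ((κ × κ × S N k) ⊕ ((κ × κ × S N k) ⊕ Unit))

/-- the generic coordinates -/
noncomputable def Γ (N k : ℕ) (κ : Type) (i : Fin N) :
    MvPolynomial (Fin N) (MvPolynomial (J N k κ) ℂ) :=
  pol (k := k) fun m => X (Sum.inl (i, m))

/-- generic coefficients -/
noncomputable def M₁ (N k : ℕ) (κ : Type) (i j : κ) :
    MvPolynomial (Fin N) (MvPolynomial (J N k κ) ℂ) :=
  pol (k := k) fun m => X (Sum.inr (Sum.inl (i, j, m)))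

/-- generic coefficients -/
noncomputable def M₂ (N k : ℕ) (κ : Type) (i j : κ) :
    MvPolynomial (Fin N) (MvPolynomial (J N k κ) ℂ) :=
  pol (k := k) fun m => X (Sum.inr (Sum.inr (Sum.inl (i, j, m))))

/-- the equations -/
def G (k : ℕ) (P : Ideal (PR N)) (f : κ → PR N) (blk : κ → τ) (p₀ : Cn N) :
    Set (MvPolynomial (J N k κ) ℂ) :=
  {r | (∃ (i : κ) (m : Fin N →₀ ℕ), m.degree ≤ k ∧
      r = coeff m (E1 f blk p₀ (Γ N k κ) (M₁ N k κ) i)) ∨
    (∃ (i : κ) (m : Fin N →₀ ℕ), m.degree ≤ k ∧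
      r = coeff m (E2 f blk p₀ (Γ N k κ) (M₂ N k κ) i)) ∨
    (∃ q ∈ P, r = aeval (fun i => constantCoeff (Γ N k κ i)) q) ∨
    r = (Lin (Γ N k κ)).det * X (Sum.inr (Sum.inr (Sum.inr ()))) - 1}

variable {B : Type} [CommRing B] [Algebra ℂ B]

lemma Lin_mp {B' : Type} [CommRing B'] [Algebra ℂ B'] (φ : B →ₐ[ℂ] B')
    (γ : Fin N → MvPolynomial (Fin N) B) :
    (Lin fun i => mp φ (γ i)).det = φ (Lin γ).det := by
  rw [AlgHom.map_det]
  congr 1

/-- solutions of the equations are points -/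
noncomputable def ptOf (P : Ideal (PR N)) (f : κ → PR N) (blk : κ → τ) (p₀ : Cn N)
    (φ : MvPolynomial (J N k κ) ℂ →ₐ[ℂ] B) (h : ∀ r ∈ G k P f blk p₀, φ r = 0) :
    Pt N k P f blk p₀ B where
  γ i := mp φ (Γ N k κ i)
  m i j := mp φ (M₁ N k κ i j)
  m' i j := mp φ (M₂ N k κ i j)
  e1 i := by
    change E1 f blk p₀ (fun i => mp φ (Γ N k κ i)) (fun i j => mp φ (M₁ N k κ i j)) i ∈ _
    rw [← mp_E1, mem_YI]
    intro m hm
    rw [coeff_mp]
    exact h _ (Or.inl ⟨i, m, hm, rfl⟩)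
  e2 i := by
    change E2 f blk p₀ (fun i => mp φ (Γ N k κ i)) (fun i j => mp φ (M₂ N k κ i j)) i ∈ _
    rw [← mp_E2, mem_YI]
    intro m hm
    rw [coeff_mp]
    exact h _ (Or.inr (Or.inl ⟨i, m, hm, rfl⟩))
  base q hq := by
    have h1 : (fun i => constantCoeff (mp φ (Γ N k κ i)))
        = fun i => φ (constantCoeff (Γ N k κ i)) := by
      funext i
      exact cc_mp _ _
    rw [h1, ← comp_aeval_apply]
    exact h _ (Or.inr (Or.inr (Or.inl ⟨q, hq, rfl⟩)))
  inv := by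
    have h1 := h _ (Or.inr (Or.inr (Or.inr rfl)))
    rw [map_sub, map_mul, map_one, sub_eq_zero, ← Lin_mp] at h1
    exact IsUnit.of_mul_eq_one _ h1

/-- the homomorphism of a point -/
noncomputable def homOf {P : Ideal (PR N)} {f : κ → PR N} {blk : κ → τ} {p₀ : Cn N}
    (b : Pt N k P f blk p₀ B) : MvPolynomial (J N k κ) ℂ →ₐ[ℂ] B :=
  aeval (Sum.elim (fun x => coeff x.2.1 (b.γ x.1))
    (Sum.elim (fun x => coeff x.2.2.1 (b.m x.1 x.2.1))
      (Sum.elim (fun x => coeff x.2.2.1 (b.m' x.1 x.2.1))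
        (fun _ => ((b.inv.unit⁻¹ : Bˣ) : B)))))

variable {P : Ideal (PR N)} {f : κ → PR N} {blk : κ → τ} {p₀ : Cn N}

lemma homOf_Γ (b : Pt N k P f blk p₀ B) (i : Fin N) :
    mp (homOf b) (Γ N k κ i) = pol fun m : S N k => coeff m.1 (b.γ i) := by
  unfold Γ
  rw [mp_pol]
  congr 1
  funext m
  unfold homOf
  rw [aeval_X]
  rfl

lemma homOf_M₁ (b : Pt N k P f blk p₀ B) (i j : κ) :
    mp (homOf b) (M₁ N k κ i j) = pol fun m : S N k => coeff m.1 (b.m i j) := by
  unfold M₁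
  rw [mp_pol]
  congr 1
  funext m
  unfold homOf
  rw [aeval_X]
  rfl

lemma homOf_M₂ (b : Pt N k P f blk p₀ B) (i j : κ) :
    mp (homOf b) (M₂ N k κ i j) = pol fun m : S N k => coeff m.1 (b.m' i j) := by
  unfold M₂
  rw [mp_pol]
  congr 1
  funext m
  unfold homOf
  rw [aeval_X]
  rfl

lemma homOf_cc (b : Pt N k P f blk p₀ B) (i : Fin N) :
    homOf b (constantCoeff (Γ N k κ i)) = constantCoeff (b.γ i) := by
  rw [← cc_mp, homOf_Γ, constantCoeff_eq, coeff_pol _ 0 (mem_S.2 fun _ => by simp)]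

lemma homOf_det (b : Pt N k P f blk p₀ B) :
    homOf b (Lin (Γ N k κ)).det = (Lin b.γ).det := by
  rw [← Lin_mp]
  congr 1
  ext i j
  simp only [Lin, Matrix.of_apply]
  rw [homOf_Γ, coeff_pol _ _ (mem_S_of_degree (by rw [Finsupp.degree_single]; omega))]

lemma homOf_G (b : Pt N k P f blk p₀ B) : ∀ r ∈ G k P f blk p₀, homOf b r = 0 := by
  have hγ : ∀ i, mp (homOf b) (Γ N k κ i) - b.γ i ∈ YI N k B := fun i => by
    rw [homOf_Γ]
    exact pol_sub_mem _
  have hm : ∀ i j, mp (homOf b) (M₁ N k κ i j) - b.m i j ∈ YI N k B := fun i j => by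
    rw [homOf_M₁]
    exact pol_sub_mem _
  have hm' : ∀ i j, mp (homOf b) (M₂ N k κ i j) - b.m' i j ∈ YI N k B := fun i j => by
    rw [homOf_M₂]
    exact pol_sub_mem _
  rintro r (⟨i, m, hmk, rfl⟩ | ⟨i, m, hmk, rfl⟩ | ⟨q, hq, rfl⟩ | rfl)
  · rw [← coeff_mp, mp_E1]
    refine (mem_YI _).1 ?_ m hmk
    have h1 := Ideal.add_mem _ (E1_congr (YI N k B) f blk p₀ hγ hm i) (b.e1 i)
    have h2 : E1 f blk p₀ b.γ b.m i
        = aeval b.γ (f i) - ∑ j, (if blk j = blk i then b.m i j * tr B p₀ (f j) else 0) := rfl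
    rw [← h2, sub_add_cancel] at h1
    exact h1
  · rw [← coeff_mp, mp_E2]
    refine (mem_YI _).1 ?_ m hmk
    have h1 := Ideal.add_mem _ (E2_congr (YI N k B) f blk p₀ hγ hm' i) (b.e2 i)
    have h2 : E2 f blk p₀ b.γ b.m' i
        = tr B p₀ (f i) - ∑ j, (if blk j = blk i then b.m' i j * aeval b.γ (f j) else 0) := rfl
    rw [← h2, sub_add_cancel] at h1
    exact h1
  · rw [comp_aeval_apply]
    have h1 : (fun i => homOf b (constantCoeff (Γ N k κ i))) = fun i => constantCoeff (b.γ i) := by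
      funext i
      exact homOf_cc b i
    rw [h1]
    exact b.base q hq
  · rw [map_sub, map_mul, map_one, homOf_det]
    have h1 : homOf b (X (Sum.inr (Sum.inr (Sum.inr ())))) = ((b.inv.unit⁻¹ : Bˣ) : B) := by
      unfold homOf
      rw [aeval_X]
      rfl
    rw [h1, sub_eq_zero]
    exact b.inv.mul_val_inv

end gen

end REPM

open REPM in
theorem specREP : SpecREP := by
  intro N k κ τ _ _ P f blk p₀
  let I : Ideal (MvPolynomial (J N k κ) ℂ) := Ideal.span (G k P f blk p₀)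
  refine ⟨MvPolynomial (J N k κ) ℂ ⧸ I, inferInstance, inferInstance,
    ptOf P f blk p₀ (Ideal.Quotient.mkₐ ℂ I) ?_, ?_, ?_⟩
  · intro r hr
    exact Ideal.Quotient.eq_zero_iff_mem.2 (Ideal.subset_span hr)
  · infer_instance
  · intro B _ _ b
    have h : ∀ r ∈ I, homOf b r = 0 := by
      intro r hr
      have h1 : I ≤ RingHom.ker (homOf b) := Ideal.span_le.2 fun r hr => homOf_G b r hr
      exact h1 hr
    refine ⟨Ideal.Quotient.liftₐ I (homOf b) h, fun i => ?_⟩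
    have h2 : constantCoeff ((ptOf P f blk p₀ (Ideal.Quotient.mkₐ ℂ I) (fun r hr =>
        Ideal.Quotient.eq_zero_iff_mem.2 (Ideal.subset_span hr))).γ i)
        = Ideal.Quotient.mkₐ ℂ I (constantCoeff (Γ N k κ i)) := cc_mp _ _
    rw [h2]
    have h3 : Ideal.Quotient.liftₐ I (homOf b) h (Ideal.Quotient.mkₐ ℂ I (constantCoeff (Γ N k κ i)))
        = homOf b (constantCoeff (Γ N k κ i)) := rfl
    rw [h3]
    exact homOf_cc b i

end Pool.Agent.Lib.MPc9b009.LS
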