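import Pool.Agent.Lib.MP_c9b009_ag.LS.Spec
import Pool.Agent.Lib.MP_c9b009_ag.LS.REP

/-!
# MP_c9b009_ag, row LS, module PTK: a point over a finite extension of the function field
-/

set_option autoImplicit false

namespace Pool.Agent.Lib.MPc9b009.LS

open MvPolynomial Pool.Agent.Lib.MPc9b009.B5 Pool.Agent.Lib.MPc9b009.OD
  Pool.Agent.Lib.MPc9b009.PS

namespace PTKM

open REPM

/-- the image of a point -/
noncomputable def map {N k : ℕ} {κ τ : Type} [Fintype κ] [DecidableEq τ] {P : Ideal (PR N)}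
    {f : κ → PR N} {blk : κ → τ} {p₀ : Cn N} {A B : Type} [CommRing A] [Algebra ℂ A]
    [CommRing B] [Algebra ℂ B] (η : A →ₐ[ℂ] B) (a : Pt N k P f blk p₀ A) :
    Pt N k P f blk p₀ B where
  γ i := mp η (a.γ i)
  m i j := mp η (a.m i j)
  m' i j := mp η (a.m' i j)
  e1 i := by
    change E1 f blk p₀ (fun i => mp η (a.γ i)) (fun i j => mp η (a.m i j)) i ∈ _
    rw [← mp_E1, mem_YI]
    intro m hm
    rw [coeff_mp]
    have h := (mem_YI _).1 (a.e1 i) m hm
    have h2 : E1 f blk p₀ a.γ a.m i =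
        aeval a.γ (f i) - ∑ j, (if blk j = blk i then a.m i j * tr A p₀ (f j) else 0) := rfl
    rw [h2, h, map_zero]
  e2 i := by
    change E2 f blk p₀ (fun i => mp η (a.γ i)) (fun i j => mp η (a.m' i j)) i ∈ _
    rw [← mp_E2, mem_YI]
    intro m hm
    rw [coeff_mp]
    have h := (mem_YI _).1 (a.e2 i) m hm
    have h2 : E2 f blk p₀ a.γ a.m' i =
        tr A p₀ (f i) - ∑ j, (if blk j = blk i then a.m' i j * aeval a.γ (f j) else 0) := rfl
    rw [h2, h, map_zero]
  base q hq := by
    have h1 : (fun i => constantCoeff (mp η (a.γ i))) = fun i => η (constantCoeff (a.γ i)) := by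
      funext i
      exact cc_mp _ _
    rw [h1, ← comp_aeval_apply, a.base q hq, map_zero]
  inv := by
    have h1 : (Matrix.of fun i j => coeff (Finsupp.single j 1) (mp η (a.γ i))).det =
        η (Matrix.of fun i j => coeff (Finsupp.single j 1) (a.γ i)).det := Lin_mp η a.γ
    rw [h1]
    exact a.inv.map η

/-- the function field is a fraction field of `S / P` -/
theorem frac {N : ℕ} {P : Ideal (PR N)} {L : Type} [Field L] [Algebra ℂ L] {φ : PR N →ₐ[ℂ] L}
    (hG : Gen P L φ) {L' : Type} [Field L'] [Algebra ℂ L'] (χ : PR N →ₐ[ℂ] L')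
    (hχ : ∀ q, χ q = 0 ↔ q ∈ P) : ∃ σ : L →+* L', ∀ q, σ (φ q) = χ q := by
  have hP : P.IsPrime := by
    have h : P = RingHom.ker φ := by
      ext q
      exact (hG.ker q).symm
    rw [h]
    exact RingHom.ker_isPrime _
  let g₀ : PR N ⧸ P →+* L := Ideal.Quotient.lift P (φ : PR N →+* L) fun q hq => (hG.ker q).2 hq
  let g₁ : PR N ⧸ P →+* L' := Ideal.Quotient.lift P (χ : PR N →+* L') fun q hq => (hχ q).2 hq
  have hg₀ : ∀ q, g₀ (Ideal.Quotient.mk P q) = φ q := fun q => Ideal.Quotient.lift_mk _ _ _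
  have hg₁ : ∀ q, g₁ (Ideal.Quotient.mk P q) = χ q := fun q => Ideal.Quotient.lift_mk _ _ _
  have hi₀ : Function.Injective g₀ := by
    rw [injective_iff_map_eq_zero]
    intro x hx
    obtain ⟨q, rfl⟩ := Ideal.Quotient.mk_surjective x
    rw [hg₀] at hx
    exact Ideal.Quotient.eq_zero_iff_mem.2 ((hG.ker q).1 hx)
  have hi₁ : Function.Injective g₁ := by
    rw [injective_iff_map_eq_zero]
    intro x hx
    obtain ⟨q, rfl⟩ := Ideal.Quotient.mk_surjective x
    rw [hg₁] at hx
    exact Ideal.Quotient.eq_zero_iff_mem.2 ((hχ q).1 hx)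
  letI : Algebra (PR N ⧸ P) L := g₀.toAlgebra
  haveI : IsFractionRing (PR N ⧸ P) L := by
    rw [IsFractionRing, isLocalization_iff]
    refine ⟨fun y => ?_, fun z => ?_, fun {x y} h => ⟨1, by rw [hi₀ h]⟩⟩
    · rw [isUnit_iff_ne_zero]
      intro h
      have h1 : (y : PR N ⧸ P) = 0 := hi₀ (by rw [map_zero]; exact h)
      exact nonZeroDivisors.ne_zero y.2 h1
    · obtain ⟨a, b, hb, hab⟩ := hG.frac z
      have hb0 : Ideal.Quotient.mk P b ≠ 0 := by
        intro h
        exact hb ((hG.ker b).2 (Ideal.Quotient.eq_zero_iff_mem.1 h))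
      refine ⟨(Ideal.Quotient.mk P a, ⟨Ideal.Quotient.mk P b,
        mem_nonZeroDivisors_of_ne_zero hb0⟩), ?_⟩
      change z * g₀ (Ideal.Quotient.mk P b) = g₀ (Ideal.Quotient.mk P a)
      rw [hg₀, hg₀]
      exact hab
  refine ⟨IsFractionRing.lift hi₁, fun q => ?_⟩
  have h1 : algebraMap (PR N ⧸ P) L (Ideal.Quotient.mk P q) = φ q := hg₀ q
  rw [← h1, IsFractionRing.lift_algebraMap, hg₁]

end PTKM

open PTKM REPM in
theorem specPTK : SpecPTK := by
  classical
  intro N k κ τ _ _ P f blk p₀ hP L _ _ φ hG A _ _ a hft hk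
  let c : Fin N → A := fun i => constantCoeff (a.γ i)
  let ψ : PR N →ₐ[ℂ] A := aeval c
  have hk' : ∀ q, ψ q = 0 ↔ q ∈ P := hk
  let T : Submonoid A := Submonoid.map (ψ : PR N →* A) P.primeCompl
  have hT0 : (0 : A) ∉ T := by
    rintro ⟨q, hq, hq0⟩
    exact hq ((hk' q).1 hq0)
  haveI : Nontrivial (Localization T) := by
    rw [← not_subsingleton_iff_nontrivial]
    intro hs
    exact hT0 ((IsLocalization.subsingleton_iff (M := T) (S := Localization T)).1 hs)
  obtain ⟨M, hM⟩ := Ideal.exists_maximal (Localization T)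
  letI : Field (Localization T ⧸ M) := Ideal.Quotient.field M
  let η : A →ₐ[ℂ] (Localization T ⧸ M) :=
    (Ideal.Quotient.mkₐ ℂ M).comp (IsScalarTower.toAlgHom ℂ A (Localization T))
  have hη : ∀ x, η x = Ideal.Quotient.mk M (algebraMap A (Localization T) x) := fun x => rfl
  have hunit : ∀ t ∈ T, η t ≠ 0 := by
    intro t ht h
    have h1 : IsUnit (algebraMap A (Localization T) t) := IsLocalization.map_units _ (⟨t, ht⟩ : T)
    have h2 : IsUnit (η t) := by
      rw [hη]
      exact h1.map _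
    rw [h] at h2
    exact not_isUnit_zero h2
  let χ : PR N →ₐ[ℂ] (Localization T ⧸ M) := η.comp ψ
  have hχ : ∀ q, χ q = 0 ↔ q ∈ P := by
    intro q
    constructor
    · intro h
      by_contra hq
      exact hunit (ψ q) ⟨q, hq, rfl⟩ h
    · intro hq
      change η (ψ q) = 0
      rw [(hk' q).2 hq, map_zero]
  obtain ⟨σ, hσ⟩ := frac hG χ hχ
  letI : Algebra L (Localization T ⧸ M) := σ.toAlgebra
  have hσa : ∀ y : L, algebraMap L (Localization T ⧸ M) y = σ y := fun y => rfl
  haveI hst : IsScalarTower ℂ L (Localization T ⧸ M) := by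
    refine IsScalarTower.of_algebraMap_eq fun z => ?_
    rw [hσa]
    have h1 : algebraMap ℂ L z = φ (C z) := by
      rw [← algebraMap_eq, AlgHom.commutes]
    rw [h1, hσ, ← algebraMap_eq, AlgHom.commutes]
  have hfin : Algebra.FiniteType L (Localization T ⧸ M) := by
    obtain ⟨s, hs⟩ := hft.out
    refine ⟨s.image η, ?_⟩
    rw [eq_top_iff]
    intro x _
    have hA : ∀ y : A, η y ∈ Algebra.adjoin L ((s.image η : Finset _) : Set (Localization T ⧸ M)) := by
      intro y
      have hy : y ∈ Algebra.adjoin ℂ (s : Set A) := by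
        rw [hs]
        exact Algebra.mem_top
      induction hy using Algebra.adjoin_induction with
      | mem y hy =>
        exact Algebra.subset_adjoin (by
          rw [Finset.coe_image]
          exact ⟨y, hy, rfl⟩)
      | algebraMap z =>
        rw [AlgHom.commutes, IsScalarTower.algebraMap_apply ℂ L (Localization T ⧸ M)]
        exact Subalgebra.algebraMap_mem _ _
      | add y z _ _ hy hz =>
        rw [map_add]
        exact Subalgebra.add_mem _ hy hz
      | mul y z _ _ hy hz =>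
        rw [map_mul]
        exact Subalgebra.mul_mem _ hy hz
    obtain ⟨w, rfl⟩ := Ideal.Quotient.mk_surjective x
    obtain ⟨⟨y, t⟩, hyt⟩ := IsLocalization.surj T w
    obtain ⟨q, hq, hqt⟩ := t.2
    have h1 : Ideal.Quotient.mk M w * η t = η y := by
      rw [hη, hη, ← map_mul, hyt]
    have h2 : η t = σ (φ q) := by
      rw [hσ]
      change η t = η (ψ q)
      rw [← hqt]
      rfl
    have h3 : σ (φ q) ≠ 0 := by
      rw [← h2]
      exact hunit t t.2
    have h4 : Ideal.Quotient.mk M w = (φ q)⁻¹ • η y := by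
      rw [Algebra.smul_def, hσa, map_inv₀, ← h1, h2]
      field_simp
    rw [h4]
    exact Subalgebra.smul_mem _ (hA y) _
  haveI := hfin
  refine ⟨Localization T ⧸ M, inferInstance, inferInstance, inferInstance, map η a, hst, ?_,
    fun l => ?_⟩
  · exact finite_of_finite_type_of_isJacobsonRing L (Localization T ⧸ M)
  · change constantCoeff (mp η (a.γ l)) = σ (φ (X l))
    rw [cc_mp, hσ]
    change η (c l) = η (ψ (X l))
    rw [show ψ (X l) = c l from aeval_X _ _]

end Pool.Agent.Lib.MPc9b009.LS
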