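import Pool.Agent.Lib.MP_c9b009_ag.LS.SpecB

/-!
# MP_c9b009_ag, row LS, part B, module QAD

The adjugate of the matrix `g` is `F Q`, and `Q` satisfies the Plücker relations modulo every `F_i`. The proof only
uses Jacobi's identity for the minors of a matrix `Q` with `g Q = δ`, in the form `det g · det Q_s = δ^k · X`.
-/

set_option autoImplicit false

namespace Pool.Agent.Lib.MPc9b009.LS

open MvPolynomial Pool.Agent.Lib.MPc9b009.B5 Pool.Agent.Lib.MPc9b009.OD
  Pool.Agent.Lib.MPc9b009.PS

namespace QADM

/-- A matrix whose columns outside of `p` are those of the unit matrix. -/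
theorem block {S : Type*} [CommRing S] {N k : ℕ} (B : Matrix (Fin N) (Fin N) S)
    (p : Fin N → Prop) [DecidablePred p] (e : Fin k ≃ {x // p x})
    (h : ∀ x y, ¬ p y → B x y = (1 : Matrix (Fin N) (Fin N) S) x y) :
    B.det = (B.submatrix (fun i => (e i : Fin N)) (fun i => (e i : Fin N))).det := by
  have h1 := Matrix.twoBlockTriangular_det' B p (by
    intro x hx y hy
    rw [h x y hy, Matrix.one_apply, if_neg]
    intro hxy
    exact hy (hxy ▸ hx))
  have h2 : Matrix.toSquareBlockProp B (fun x => ¬ p x) = 1 := by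
    ext x y
    simp only [Matrix.toSquareBlockProp_def, Matrix.of_apply]
    rw [h _ _ y.2, Matrix.one_apply, Matrix.one_apply]
    by_cases hxy : x = y
    · rw [if_pos hxy, if_pos (congrArg Subtype.val hxy)]
    · rw [if_neg hxy, if_neg fun h => hxy (Subtype.ext h)]
  have h3 : (Matrix.toSquareBlockProp B p).submatrix e e =
      B.submatrix (fun i => (e i : Fin N)) (fun i => (e i : Fin N)) := by
    ext x y
    rfl
  rw [h1, h2, Matrix.det_one, mul_one, ← h3, Matrix.det_submatrix_equiv_self]

/-- Jacobi's identity, as a divisibility. -/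
theorem jacobi {S : Type*} [CommRing S] {N k : ℕ} (g Q : Matrix (Fin N) (Fin N) S) (δ : S)
    (h : g * Q = δ • (1 : Matrix (Fin N) (Fin N) S)) (j : Fin k → Fin N)
    (hj : Function.Injective j) :
    ∃ X : S, g.det * (Q.submatrix j j).det = δ ^ k * X := by
  classical
  set s : Finset (Fin N) := Finset.univ.image j with hs
  have hcard : s.card = k := by
    rw [hs, Finset.card_image_of_injective _ hj, Finset.card_univ, Fintype.card_fin]
  let B : Matrix (Fin N) (Fin N) S :=
    Matrix.of fun x y => if y ∈ s then Q x y else (1 : Matrix (Fin N) (Fin N) S) x y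
  let B' : Matrix (Fin N) (Fin N) S :=
    Matrix.of fun x y => if y ∈ s then (1 : Matrix (Fin N) (Fin N) S) x y else g x y
  let v : Fin N → S := fun y => if y ∈ s then δ else 1
  have hgB : g * B = Matrix.of fun x y => v y * B' x y := by
    ext x y
    simp only [Matrix.mul_apply, Matrix.of_apply, B, B', v]
    by_cases hy : y ∈ s
    · simp only [hy, if_true]
      have h1 := congrFun (congrFun h x) y
      rw [Matrix.mul_apply] at h1
      rw [h1, Matrix.smul_apply, smul_eq_mul]
    · simp only [hy, if_false]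
      rw [one_mul]
      have h1 : (g * (1 : Matrix (Fin N) (Fin N) S)) x y = g x y := by rw [mul_one]
      rw [Matrix.mul_apply] at h1
      exact h1
  have hdet : (g * B).det = (∏ y, v y) * B'.det := by
    rw [hgB, Matrix.det_mul_row]
  have hv : ∏ y, v y = δ ^ k := by
    have h1 : ∏ y, v y = ∏ y ∈ s, δ := by
      rw [← Finset.prod_subset (Finset.subset_univ s)
        (f := v) (fun y _ hy => if_neg hy)]
      exact Finset.prod_congr rfl fun y hy => if_pos hy
    rw [h1, Finset.prod_const, hcard]
  have hB : B.det = (Q.submatrix j j).det := by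
    have hex : ∀ y : {x // x ∈ s}, ∃ i, (⟨j i, by
        rw [hs]; exact Finset.mem_image_of_mem _ (Finset.mem_univ i)⟩ : {x // x ∈ s}) = y := by
      rintro ⟨y, hy⟩
      obtain ⟨i, _, hi⟩ := Finset.mem_image.1 hy
      exact ⟨i, Subtype.ext hi⟩
    let e : Fin k ≃ {x // x ∈ s} := Equiv.ofBijective
      (fun i => ⟨j i, by rw [hs]; exact Finset.mem_image_of_mem _ (Finset.mem_univ i)⟩)
      ⟨fun a b hab => hj (congrArg Subtype.val hab), hex⟩
    rw [block B (fun x => x ∈ s) e (fun x y hy => by
      simp only [B, Matrix.of_apply]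
      rw [if_neg hy])]
    refine congrArg Matrix.det ?_
    ext x y
    simp only [Matrix.submatrix_apply, Matrix.of_apply, B]
    rw [if_pos (e y).2]
    rfl
  refine ⟨B'.det, ?_⟩
  rw [← hB, ← Matrix.det_mul, hdet, hv]

/-- The determinant of a skew `4 × 4` block. -/
theorem det4 {S : Type*} [CommRing S] {N : ℕ} (Q : Fin N → Fin N → S)
    (hs : ∀ a b, Q b a = - Q a b) (h0 : ∀ a, Q a a = 0) (a b c d : Fin N) :
    ((Matrix.of Q).submatrix ![a, b, c, d] ![a, b, c, d]).det =
      (Q a b * Q c d - Q a c * Q b d + Q a d * Q b c) ^ 2 := by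
  have hM : (Matrix.of Q).submatrix ![a, b, c, d] ![a, b, c, d] =
      !![0, Q a b, Q a c, Q a d; -Q a b, 0, Q b c, Q b d; -Q a c, -Q b c, 0, Q c d;
        -Q a d, -Q b d, -Q c d, 0] := by
    ext x y
    fin_cases x <;> fin_cases y <;>
      simp [h0, ← hs]
  rw [hM]
  have h1 : Fin.succAbove (1 : Fin 4) (2 : Fin 3) = 3 := by decide
  have h2 : Fin.succAbove (2 : Fin 4) (2 : Fin 3) = 3 := by decide
  have h3 : Fin.succAbove (3 : Fin 4) (2 : Fin 3) = 2 := by decide
  simp [Matrix.det_succ_row_zero, Fin.sum_univ_succ, h1, h2, h3]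
  ring

/-- The diagonal of a skew matrix. -/
theorem diag0 {N : ℕ} (Q : Fin N → Fin N → PR N) (hs : ∀ a b, Q b a = - Q a b) (a : Fin N) :
    Q a a = 0 := by
  have h := hs a a
  have h2 : (2 : PR N) * Q a a = 0 := by
    linear_combination h
  exact (mul_eq_zero.1 h2).resolve_left two_ne_zero

/-- The Plücker expression of a skew matrix vanishes if two indices are equal. -/
theorem plu0 {S : Type*} [CommRing S] {N : ℕ} (Q : Fin N → Fin N → S)
    (hs : ∀ a b, Q b a = - Q a b) (h0 : ∀ a, Q a a = 0) (a b c d : Fin N)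
    (h : ¬ Function.Injective ![a, b, c, d]) :
    Q a b * Q c d - Q a c * Q b d + Q a d * Q b c = 0 := by
  by_cases hab : a = b
  · subst hab
    rw [h0]
    ring
  by_cases hac : a = c
  · subst hac
    rw [h0, hs a b]
    ring
  by_cases had : a = d
  · subst had
    rw [h0, hs a b, hs a c]
    ring
  by_cases hbc : b = c
  · subst hbc
    rw [h0]
    ring
  by_cases hbd : b = d
  · subst hbd
    rw [h0, hs b c]
    ring
  by_cases hcd : c = d
  · subst hcd
    rw [h0]
    ring
  exfalso
  apply h
  intro x y hxy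
  fin_cases x <;> fin_cases y <;>
    first
      | rfl
      | exact absurd hxy hab
      | exact absurd hxy hac
      | exact absurd hxy had
      | exact absurd hxy hbc
      | exact absurd hxy hbd
      | exact absurd hxy hcd
      | exact absurd hxy.symm hab
      | exact absurd hxy.symm hac
      | exact absurd hxy.symm had
      | exact absurd hxy.symm hbc
      | exact absurd hxy.symm hbd
      | exact absurd hxy.symm hcd

end QADM

theorem specQAD : SpecQAD := by
  intro N n g F hF
  obtain ⟨κ, hκ, hdet⟩ := hF.det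
  set P : PR N := ∏ j, F j with hP
  have hP0 : P ≠ 0 := Finset.prod_ne_zero_iff.2 fun i _ => (hF.irr i).ne_zero
  have hC : (C κ : PR N) ≠ 0 := by
    rw [Ne, C_eq_zero]
    exact hκ
  set G : Matrix (Fin N) (Fin N) (PR N) := Matrix.of g.f with hG
  have hdet0 : G.det ≠ 0 := by
    rw [hdet]
    exact mul_ne_zero hC (pow_ne_zero 2 hP0)
  have hGT : G.transpose = -G := by
    ext a b
    rw [Matrix.transpose_apply, Matrix.neg_apply, hG, Matrix.of_apply, Matrix.of_apply, g.skew]
  have hNpos : 3 ≤ N := hF.pos
  have hev : Even N := by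
    by_contra hodd
    rw [Nat.not_even_iff_odd] at hodd
    have h1 : G.det = -G.det := by
      conv_lhs => rw [← Matrix.det_transpose, hGT, Matrix.det_neg, Fintype.card_fin,
        hodd.neg_one_pow, neg_one_mul]
    have h2 : (2 : PR N) * G.det = 0 := by
      linear_combination h1
    exact hdet0 ((mul_eq_zero.1 h2).resolve_left two_ne_zero)
  have hAT : ∀ a b, G.adjugate b a = - G.adjugate a b := by
    intro a b
    have h1 : G.adjugate.transpose = - G.adjugate := by
      rw [Matrix.adjugate_transpose, hGT, ← neg_one_smul (PR N) G, Matrix.adjugate_smul,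
        Fintype.card_fin]
      have hodd : Odd (N - 1) := by
        obtain ⟨m, hm⟩ := hev
        exact ⟨m - 1, by omega⟩
      rw [hodd.neg_one_pow, neg_one_smul]
    have h2 := congrFun (congrFun h1 a) b
    rw [Matrix.transpose_apply, Matrix.neg_apply] at h2
    exact h2
  have hA0 : ∀ a, G.adjugate a a = 0 := QADM.diag0 _ hAT
  have hAd : ∀ a b, P ∣ G.adjugate a b := by
    intro a b
    by_cases hab : a = b
    · rw [hab, hA0]
      exact dvd_zero _
    · obtain ⟨X, hX⟩ := QADM.jacobi G G.adjugate G.det (Matrix.mul_adjugate G) ![a, b] (by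
        intro x y hxy
        fin_cases x <;> fin_cases y <;>
          first
            | rfl
            | exact absurd hxy hab
            | exact absurd hxy.symm hab)
      have h2 : (G.adjugate.submatrix ![a, b] ![a, b]).det = G.adjugate a b ^ 2 := by
        rw [Matrix.det_fin_two]
        simp only [Matrix.submatrix_apply, Matrix.cons_val_zero, Matrix.cons_val_one]
        rw [hA0, hA0, hAT a b]
        ring
      rw [h2] at hX
      have h3 : G.adjugate a b ^ 2 = G.det * X := by
        apply mul_left_cancel₀ hdet0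
        rw [hX]
        ring
      have h4 : P ^ 2 ∣ G.adjugate a b ^ 2 := by
        rw [h3, hdet]
        exact ⟨C κ * X, by ring⟩
      exact (IsIntegrallyClosed.pow_dvd_pow_iff two_ne_zero).1 h4
  choose Q hQ using hAd
  have hQs : ∀ a b, Q b a = - Q a b := by
    intro a b
    apply mul_left_cancel₀ hP0
    rw [← hQ, hAT a b, hQ a b]
    ring
  have hQ0 : ∀ a, Q a a = 0 := QADM.diag0 _ hQs
  have hgQ : ∀ a b, ∑ l, g.f a l * Q l b = if a = b then C κ * P else 0 := by
    intro a b
    have h1 := congrFun (congrFun (Matrix.mul_adjugate G) a) b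
    rw [Matrix.mul_apply, Matrix.smul_apply, Matrix.one_apply, smul_eq_mul, hdet] at h1
    apply mul_left_cancel₀ hP0
    rw [Finset.mul_sum]
    rw [show (∑ l, P * (g.f a l * Q l b)) = ∑ l, G a l * G.adjugate l b from
      Finset.sum_congr rfl fun l _ => by rw [hQ l b, hG, Matrix.of_apply]; ring, h1]
    split_ifs
    · ring
    · ring
  refine ⟨κ, Q, hκ, hQs, hgQ, ?_⟩
  intro i a b c d
  by_cases hinj : Function.Injective ![a, b, c, d]
  · obtain ⟨X, hX⟩ := QADM.jacobi G (Matrix.of Q) (C κ * P) (by
      ext x y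
      rw [Matrix.mul_apply, Matrix.smul_apply, Matrix.one_apply, smul_eq_mul]
      simp only [Matrix.of_apply]
      rw [show (∑ l, G x l * Q l y) = ∑ l, g.f x l * Q l y from rfl, hgQ x y]
      split_ifs
      · rw [mul_one]
      · rw [mul_zero]) ![a, b, c, d] hinj
    rw [QADM.det4 Q hQs hQ0, hdet] at hX
    have h3 : (Q a b * Q c d - Q a c * Q b d + Q a d * Q b c) ^ 2 = C κ ^ 3 * P ^ 2 * X := by
      apply mul_left_cancel₀ (mul_ne_zero hC (pow_ne_zero 2 hP0))
      rw [hX]
      ring
    have h4 : F i ∣ (Q a b * Q c d - Q a c * Q b d + Q a d * Q b c) ^ 2 := by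
      rw [h3]
      have h5 : F i ∣ P := Finset.dvd_prod_of_mem F (Finset.mem_univ i)
      exact dvd_mul_of_dvd_left (dvd_mul_of_dvd_right (dvd_pow h5 two_ne_zero) _) _
    exact (hF.irr i).prime.dvd_of_dvd_pow h4
  · rw [QADM.plu0 Q hQs hQ0 a b c d hinj]
    exact dvd_zero _

end Pool.Agent.Lib.MPc9b009.LS
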