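import Pool.Agent.Lib.MP_c9b009_ag.LS.Spec

/-!
# RES: logarithmic forms are generated by the `d log F_i`
-/

set_option autoImplicit false

namespace Pool.Agent.Lib.MPc9b009.LS

open MvPolynomial Pool.Agent.Lib.MPc9b009.B5 Pool.Agent.Lib.MPc9b009.OD
  Pool.Agent.Lib.MPc9b009.PS

namespace RESM

/-- membership in `(w, f)` from a congruence modulo `f` -/
theorem mem_pair {N : ℕ} {u w f c : PR N} (h : f ∣ u - c * w) : u ∈ Ideal.span {w, f} := by
  obtain ⟨d, hd⟩ := h
  rw [Ideal.mem_span_pair]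
  exact ⟨c, d, by linear_combination -hd⟩

/-- the local computation at a prime `Q` -/
theorem local_step {N n : ℕ} (F : Fin n → PR N) (α : Fin N → PR N)
    (hα : ∀ i p q, F i ∣ α p * pderiv q (F i) - α q * pderiv p (F i))
    (Q : Ideal (PR N)) (hQ : Q.IsPrime)
    (h1 : ∀ i, F i ∈ Q → ∃ p, pderiv p (F i) ∉ Q)
    (h2 : ∀ i j, i ≠ j → F i ∈ Q → F j ∈ Q →
      ∃ p q, pderiv p (F i) * pderiv q (F j) - pderiv q (F i) * pderiv p (F j) ∉ Q)
    (h3 : ∀ i j l, i ≠ j → j ≠ l → i ≠ l → F i ∈ Q → F j ∈ Q → F l ∉ Q)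
    (i : Fin n) (p₁ : Fin N) :
    ∃ b, b ∉ Q ∧ b * α p₁ ∈
      Ideal.span {(∏ j ∈ Finset.univ.erase i, F j) * pderiv p₁ (F i), F i} := by
  classical
  by_cases hi : F i ∈ Q
  swap
  · exact ⟨F i, hi, Ideal.mul_mem_right _ _ (Ideal.subset_span (by simp))⟩
  by_cases hG : (∏ j ∈ Finset.univ.erase i, F j) ∈ Q
  swap
  · obtain ⟨p₀, hp₀⟩ := h1 i hi
    refine ⟨(∏ j ∈ Finset.univ.erase i, F j) * pderiv p₀ (F i), ?_, ?_⟩
    · intro h
      rcases hQ.mem_or_mem h with h | h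
      · exact hG h
      · exact hp₀ h
    · apply mem_pair (c := α p₀)
      have h := hα i p₁ p₀
      have h' := Dvd.dvd.mul_left h (∏ j ∈ Finset.univ.erase i, F j)
      have e : (∏ j ∈ Finset.univ.erase i, F j) *
          (α p₁ * pderiv p₀ (F i) - α p₀ * pderiv p₁ (F i)) =
          (∏ j ∈ Finset.univ.erase i, F j) * pderiv p₀ (F i) * α p₁ -
            α p₀ * ((∏ j ∈ Finset.univ.erase i, F j) * pderiv p₁ (F i)) := by ring
      rw [e] at h'
      exact h'
  · rw [hQ.prod_mem_iff] at hG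
    obtain ⟨j, hj, hjQ⟩ := hG
    have hji : j ≠ i := (Finset.mem_erase.1 hj).1
    have hGe : (∏ l ∈ Finset.univ.erase i, F l) =
        F j * ∏ l ∈ (Finset.univ.erase i).erase j, F l :=
      (Finset.mul_prod_erase _ F hj).symm
    have hGij : (∏ l ∈ (Finset.univ.erase i).erase j, F l) ∉ Q := by
      intro h
      rw [hQ.prod_mem_iff] at h
      obtain ⟨l, hl, hlQ⟩ := h
      rw [Finset.mem_erase, Finset.mem_erase] at hl
      exact h3 i j l hji.symm (Ne.symm hl.1) (Ne.symm hl.2.1) hi hjQ hlQ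
    obtain ⟨p₀, q₀, hμ⟩ := h2 i j hji.symm hi hjQ
    obtain ⟨p₂, hp₂⟩ := h1 i hi
    obtain ⟨ν, hν⟩ := hα j p₀ q₀
    obtain ⟨a1, ha1⟩ := hα i p₀ p₂
    obtain ⟨a2, ha2⟩ := hα i q₀ p₂
    obtain ⟨a3, ha3⟩ := hα i p₁ p₂
    refine ⟨(pderiv p₀ (F i) * pderiv q₀ (F j) - pderiv q₀ (F i) * pderiv p₀ (F j)) *
      (∏ l ∈ (Finset.univ.erase i).erase j, F l) * pderiv p₂ (F i), ?_, ?_⟩
    · intro h
      rcases hQ.mem_or_mem h with h | h
      · rcases hQ.mem_or_mem h with h | h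
        · exact hμ h
        · exact hGij h
      · exact hp₂ h
    · apply mem_pair (c := pderiv p₂ (F i) * ν)
      rw [hGe]
      generalize (∏ l ∈ (Finset.univ.erase i).erase j, F l) = G at *
      generalize pderiv p₀ (F i) = x0 at *
      generalize pderiv q₀ (F i) = y0 at *
      generalize pderiv p₂ (F i) = x2 at *
      generalize pderiv p₁ (F i) = x1 at *
      generalize pderiv q₀ (F j) = z0 at *
      generalize pderiv p₀ (F j) = z1 at *
      -- ha1 : α p₀ * x2 - α p₂ * x0 = F i * a1, ha2 : α q₀ * x2 - α p₂ * y0 = F i * a2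
      -- ha3 : α p₁ * x2 - α p₂ * x1 = F i * a3, hν : α p₀ * z0 - α q₀ * z1 = F j * ν
      refine ⟨(x0 * z0 - y0 * z1) * G * a3 - G * x1 * z0 * a1 + G * x1 * z1 * a2, ?_⟩
      linear_combination (x0 * z0 - y0 * z1) * G * ha3 - G * x1 * z0 * ha1 + G * x1 * z1 * ha2
        + G * x1 * x2 * hν

end RESM

theorem specRES (hSQF : SpecSQF) (hS2H : SpecS2H) (hNCP : SpecNCP) : SpecRES := by
  classical
  intro N n F hL α hα
  obtain ⟨-, s2, s3, -⟩ := hSQF N n F hL
  have hpr : ∀ i, Prime (F i) := fun i => (hL.irr i).prime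
  have key : ∀ i, ∃ a : PR N, ∀ p,
      F i ∣ α p - a * (∏ j ∈ Finset.univ.erase i, F j) * pderiv p (F i) := by
    intro i
    obtain ⟨p₁, hp₁⟩ := s3 i
    have hw : ¬ F i ∣ (∏ j ∈ Finset.univ.erase i, F j) * pderiv p₁ (F i) := by
      intro h
      rcases (hpr i).dvd_or_dvd h with h | h
      · exact s2 i h
      · exact hp₁ h
    have hmem := hS2H N (F i) (hL.irr i) (hL.hom i) (α p₁)
      ((∏ j ∈ Finset.univ.erase i, F j) * pderiv p₁ (F i)) hw (by
        intro Q hQ hd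
        obtain ⟨h1, h2, h3⟩ := hNCP N n F hL Q hQ hd
        exact RESM.local_step F α hα Q hQ h1 h2 h3 i p₁)
    rw [Ideal.mem_span_pair] at hmem
    obtain ⟨a, b, hab⟩ := hmem
    refine ⟨a, fun p => ?_⟩
    obtain ⟨c, hc⟩ := hα i p p₁
    have hd : F i ∣ pderiv p₁ (F i) *
        (α p - a * (∏ j ∈ Finset.univ.erase i, F j) * pderiv p (F i)) := by
      refine ⟨c + b * pderiv p (F i), ?_⟩
      linear_combination hc - pderiv p (F i) * hab
    rcases (hpr i).dvd_or_dvd hd with h | h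
    · exact absurd h hp₁
    · exact h
  choose a ha using key
  refine ⟨a, fun p => ?_⟩
  apply Finset.prod_dvd_of_isRelPrime
  · intro i _ j _ hij
    exact (hL.irr i).isRelPrime_iff_not_dvd.2 (hL.ndv i j hij)
  · intro j _
    have e : α p - ∑ i, a i * (∏ l ∈ Finset.univ.erase i, F l) * pderiv p (F i) =
        (α p - a j * (∏ l ∈ Finset.univ.erase j, F l) * pderiv p (F j)) -
          ∑ i ∈ Finset.univ.erase j, a i * (∏ l ∈ Finset.univ.erase i, F l) * pderiv p (F i) := by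
      rw [← Finset.add_sum_erase Finset.univ _ (Finset.mem_univ j)]
      ring
    rw [e]
    refine dvd_sub (ha j p) (Finset.dvd_sum fun i hi => ?_)
    have hji : j ∈ Finset.univ.erase i :=
      Finset.mem_erase.2 ⟨(Finset.mem_erase.1 hi).1.symm, Finset.mem_univ j⟩
    exact Dvd.dvd.mul_right (Dvd.dvd.mul_left (Finset.dvd_prod_of_mem F hji) _) _

end Pool.Agent.Lib.MPc9b009.LS
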