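import Pool.Agent.Lib.MP_c9b009_ag.LS.Spec

/-!
# MP_c9b009_ag, row LS, module RNK: the rank of `π` at the generic point of `V(P)`
-/

set_option autoImplicit false

namespace Pool.Agent.Lib.MPc9b009.LS

open MvPolynomial Pool.Agent.Lib.MPc9b009.B5 Pool.Agent.Lib.MPc9b009.OD
  Pool.Agent.Lib.MPc9b009.PS

namespace RNKM

/-- linear system of parameters -/
theorem lin_sop {N d : ℕ} (P : Ideal (PR N)) (hP : P.IsPrime) (hh : Hom P)
    (hd : Algebra.trdeg ℂ (PR N ⧸ P) = ((d : ℕ) : Cardinal)) :
    ∃ l : Fin d → Fin N → ℂ,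
      AlgebraicIndependent ℂ (fun j => Ideal.Quotient.mk P (∑ k, C (l j k) * X k)) ∧
      ∀ z : PR N ⧸ P, IsIntegral (Algebra.adjoin ℂ (Set.range
        (fun j => Ideal.Quotient.mk P (∑ k, C (l j k) * X k)))) z := by
  obtain ⟨c, l, hai, hint⟩ := B5.specSOP (B5.specSEL B5.specMONO B5.specHMIN) B5.specFINI N 0 d P hP hh
    (by rw [Nat.zero_add]; exact hd) (Fin 0) inferInstance 1 (fun _ => 0) le_rfl
    (fun k => k.elim0) (by
      intro q _ _ hPq _
      rw [← hd]
      exact trdeg_le_of_surjective (Ideal.Quotient.factorₐ ℂ hPq)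
        (Ideal.Quotient.factor_surjective hPq))
  refine ⟨l, ?_, ?_⟩
  · exact hai.comp Sum.inr Sum.inr_injective
  · intro z
    have h1 : (Set.range (Sum.elim (fun j => Ideal.Quotient.mk P (∑ k, C (c j k) * (0 : PR N)))
      (fun j => Ideal.Quotient.mk P (∑ k, C (l j k) * X k)) :
        Fin 0 ⊕ Fin d → MvPolynomial (Fin N) ℂ ⧸ P)) =
        Set.range (fun j => Ideal.Quotient.mk P (∑ k, C (l j k) * X k)) := by
      rw [Set.Sum.elim_range]
      simp
    have h2 := hint z
    rw [h1] at h2
    exact h2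

/-- dual derivations of the function field, abstract version -/
theorem ders_abs {N d : ℕ} {A L : Type} [CommRing A] [IsDomain A] [Algebra ℂ A] [Field L]
    [Algebra ℂ L] (φ₀ : PR N →ₐ[ℂ] A) (hφ₀ : Function.Surjective φ₀) (ψ : A →ₐ[ℂ] L)
    (hψi : Function.Injective ψ) (hfrac : ∀ y : L, ∃ a b : A, ψ b ≠ 0 ∧ y * ψ b = ψ a)
    (z : Fin d → A) (hai : AlgebraicIndependent ℂ z)
    (hint : ∀ y : A, IsIntegral (Algebra.adjoin ℂ (Set.range z)) y) :
    ∃ dd : Fin d → Derivation ℂ L L, ∀ b c, dd b (ψ (z c)) = if b = c then 1 else 0 := by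
  classical
  let iAL : Algebra A L := ψ.toRingHom.toAlgebra
  have hAL : ∀ a : A, algebraMap A L a = ψ a := fun _ => rfl
  have iT1 : IsScalarTower ℂ A L := by
    apply IsScalarTower.of_algebraMap_eq
    intro a
    rw [hAL]
    exact (ψ.commutes a).symm
  have iFA : FaithfulSMul A L := (faithfulSMul_iff_algebraMap_injective _ _).2 hψi
  have iFr : IsFractionRing A L := by
    refine IsFractionRing.of_field A L ?_
    intro y
    obtain ⟨a, b, hb, hy⟩ := hfrac y
    refine ⟨a, b, ?_⟩
    rw [hAL, hAL, eq_div_iff hb, hy]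
  let φz : MvPolynomial (Fin d) ℂ →ₐ[ℂ] A := aeval z
  have hφz : Function.Injective φz := hai
  let iRL : Algebra (MvPolynomial (Fin d) ℂ) L := ((algebraMap A L).comp φz.toRingHom).toAlgebra
  have hRL : ∀ f, algebraMap (MvPolynomial (Fin d) ℂ) L f = algebraMap A L (φz f) := fun _ => rfl
  have hinj : Function.Injective (algebraMap (MvPolynomial (Fin d) ℂ) L) :=
    (IsFractionRing.injective A L).comp hφz
  have iFs : FaithfulSMul (MvPolynomial (Fin d) ℂ) L :=
    (faithfulSMul_iff_algebraMap_injective _ _).2 hinj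
  let iFL : Algebra (FractionRing (MvPolynomial (Fin d) ℂ)) L :=
    FractionRing.liftAlgebra (MvPolynomial (Fin d) ℂ) L
  have iT : IsScalarTower (MvPolynomial (Fin d) ℂ) (FractionRing (MvPolynomial (Fin d) ℂ)) L :=
    FractionRing.isScalarTower_liftAlgebra _ L
  have iC : IsScalarTower ℂ (MvPolynomial (Fin d) ℂ) L := by
    apply IsScalarTower.of_algebraMap_eq
    intro a
    rw [hRL]
    have h1 : φz (algebraMap ℂ (MvPolynomial (Fin d) ℂ) a) = algebraMap ℂ A a := φz.commutes a
    rw [h1, ← IsScalarTower.algebraMap_apply ℂ A L]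
  have hint' : ∀ y : A, IsIntegral (MvPolynomial (Fin d) ℂ) (algebraMap A L y) := by
    intro y
    obtain ⟨p, hp, hp'⟩ := hint y
    refine ⟨p.map (hai.aevalEquiv.symm : _ →+* _), hp.map _, ?_⟩
    rw [Polynomial.eval₂_map]
    have h1 : (algebraMap (MvPolynomial (Fin d) ℂ) L).comp
        (hai.aevalEquiv.symm : _ →+* _) = (algebraMap A L).comp
          (algebraMap (Algebra.adjoin ℂ (Set.range z)) A) := by
      ext a
      obtain ⟨a', rfl⟩ := hai.aevalEquiv.surjective a
      rw [RingHom.comp_apply, RingHom.comp_apply, hRL]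
      congr 1
      have h2 : (hai.aevalEquiv.symm : _ →+* _) (hai.aevalEquiv a') = a' :=
        hai.aevalEquiv.symm_apply_apply a'
      rw [h2]
      exact (hai.aevalEquiv_apply_coe a').symm
    rw [h1, ← Polynomial.hom_eval₂, hp', map_zero]
  have iFin : FiniteDimensional (FractionRing (MvPolynomial (Fin d) ℂ)) L :=
    B5.BSTM.fin_dim (A := A) φ₀ hφ₀ hint'
  obtain ⟨dd, hdd, -⟩ := B5.specDEX (Fin d) inferInstance inferInstance L inferInstance iRL iFL iT
    inferInstance iC iFin
  refine ⟨dd, fun b c => ?_⟩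
  rw [← hdd b c, hRL, hAL]
  congr 2
  exact (aeval_X _ _).symm

/-- dual derivations of the function field -/
theorem ders {N d : ℕ} (P : Ideal (PR N)) (hP : P.IsPrime) (L : Type) [Field L] [Algebra ℂ L]
    (φ : PR N →ₐ[ℂ] L) (hG : Gen P L φ) (z : Fin d → PR N)
    (hai : AlgebraicIndependent ℂ (fun j => Ideal.Quotient.mk P (z j)))
    (hint : ∀ y : PR N ⧸ P, IsIntegral (Algebra.adjoin ℂ (Set.range
        (fun j => Ideal.Quotient.mk P (z j)))) y) :
    ∃ dd : Fin d → Derivation ℂ L L, ∀ b c, dd b (φ (z c)) = if b = c then 1 else 0 := by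
  have : IsDomain (PR N ⧸ P) := Ideal.Quotient.isDomain P
  refine ders_abs (Ideal.Quotient.mkₐ ℂ P) (Ideal.Quotient.mkₐ_surjective ℂ P)
    (Ideal.Quotient.liftₐ P φ (fun a ha => (hG.ker a).2 ha)) ?_ ?_
    (fun j => Ideal.Quotient.mk P (z j)) hai hint
  · rw [injective_iff_map_eq_zero]
    intro a ha
    obtain ⟨q, rfl⟩ := Ideal.Quotient.mk_surjective a
    exact Ideal.Quotient.eq_zero_iff_mem.2 ((hG.ker q).1 ha)
  · intro y
    obtain ⟨a, b, hb, hy⟩ := hG.frac y
    exact ⟨Ideal.Quotient.mk P a, Ideal.Quotient.mk P b, hb, hy⟩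

end RNKM

open RNKM in
theorem specRNK : SpecRNK := by
  classical
  intro N r d P π hP hh hd L _ _ φ hG hD
  obtain ⟨l, hai, hint⟩ := lin_sop P hP hh hd
  obtain ⟨dd, hdd⟩ := ders P hP L φ hG _ hai hint
  by_contra hno
  push Not at hno
  -- the matrix
  let Q : Matrix (Fin N) (Fin r) L := Matrix.of fun i j => φ (π i j)
  have hmin : ∀ (A : Fin d → Fin N) (J : Fin d → Fin r),
      (Matrix.of fun s t => Q (A s) (J t)).det = 0 := by
    intro A J
    have h1 : (Matrix.of fun s t => Q (A s) (J t)).det = φ (mnr π A J) := by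
      unfold mnr
      rw [AlgHom.map_det]
      rfl
    rw [h1, hG.ker]
    exact hno A J
  have hrk : d ≤ Q.rank := by
    rw [Matrix.rank_eq_finrank_span_cols]
    have h1 : LinearIndependent L (fun b : Fin d => fun k : Fin N => dd b (φ (X k))) := by
      rw [Fintype.linearIndependent_iff]
      intro a ha c
      have h2 : ∀ b, ∑ k, algebraMap ℂ L (l c k) * dd b (φ (X k)) = if b = c then 1 else 0 := by
        intro b
        rw [← hdd b c, map_sum, map_sum]
        refine Finset.sum_congr rfl fun k _ => ?_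
        have h3 : φ (C (l c k) * X k) = (l c k) • φ (X k) := by
          rw [map_mul, Algebra.smul_def]
          congr 1
          exact φ.commutes _
        rw [h3, Derivation.map_smul, Algebra.smul_def]
      have h4 : ∑ k, algebraMap ℂ L (l c k) * (∑ b, a b • (fun k : Fin N => dd b (φ (X k)))) k = 0 := by
        rw [ha]
        simp
      simp only [Finset.sum_apply, Pi.smul_apply, smul_eq_mul, Finset.mul_sum] at h4
      rw [Finset.sum_comm] at h4
      rw [← h4]
      have h5 : ∀ b, ∑ k, algebraMap ℂ L (l c k) * (a b * dd b (φ (X k))) =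
          a b * (if b = c then 1 else 0) := by
        intro b
        rw [← h2 b, Finset.mul_sum]
        refine Finset.sum_congr rfl fun k _ => ?_
        ring
      simp only [h5, mul_ite, mul_one, mul_zero, Finset.sum_ite_eq', Finset.mem_univ, if_true]
    have h2 : ∀ b : Fin d, (fun k : Fin N => dd b (φ (X k))) ∈
        Submodule.span L (Set.range Q.col) := by
      intro b
      exact hD (dd b)
    let w : Fin d → Submodule.span L (Set.range Q.col) := fun b => ⟨_, h2 b⟩
    have hw : LinearIndependent L w := by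
      apply LinearIndependent.of_comp (Submodule.subtype _)
      exact h1
    have h3 := hw.fintype_card_le_finrank
    rwa [Fintype.card_fin] at h3
  rcases d with _ | k
  · have h1 := hmin (fun s => s.elim0) (fun s => s.elim0)
    rw [Matrix.det_fin_zero] at h1
    exact one_ne_zero h1
  · have h1 := (B5.specRKM L inferInstance N r k Q).1 hmin
    omega

end Pool.Agent.Lib.MPc9b009.LS
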