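import Pool.Agent.Lib.MP_c9b009_ag.LS.Spec

/-!
# MP_c9b009_ag, row LS, module S2H: a hypersurface satisfies Serre's condition `S₂`
-/

set_option autoImplicit false

namespace Pool.Agent.Lib.MPc9b009.LS

namespace S2HM

/-- divisibility can be checked prime by prime -/
theorem dvd_of_primes {A : Type*} [CommRing A] [IsDomain A] [UniqueFactorizationMonoid A] (a : A) :
    a ≠ 0 → ∀ b : A, (∀ ϖ : A, Prime ϖ → ∃ s, ¬ ϖ ∣ s ∧ a ∣ s * b) → a ∣ b := by
  induction a using UniqueFactorizationMonoid.induction_on_prime with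
  | h₁ => intro h; exact absurd rfl h
  | h₂ x hx => intro _ b _; exact hx.dvd
  | h₃ a p ha hp ih =>
    intro _ b hb
    obtain ⟨s, hs, hd⟩ := hb p hp
    have h1 : p ∣ b := (hp.dvd_or_dvd ((dvd_mul_right p a).trans hd)).resolve_left hs
    obtain ⟨c, rfl⟩ := h1
    refine mul_dvd_mul_left p (ih ha c fun ϖ hϖ => ?_)
    obtain ⟨t, ht, hd'⟩ := hb ϖ hϖ
    refine ⟨t, ht, ?_⟩
    rw [mul_left_comm] at hd'
    exact (mul_dvd_mul_iff_left hp.ne_zero).1 hd'

open Polynomial in
/-- a nonzero constant is a multiple of `w` modulo the monic prime `f` -/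
theorem exists_const {A : Type*} [CommRing A] [IsDomain A] {f : A[X]} (hf : f.Monic)
    (hp : Prime f) {w : A[X]} (hw : ¬ f ∣ w) : ∃ (a : A) (g : A[X]), a ≠ 0 ∧ f ∣ C a - w * g := by
  have hP : (Ideal.span {f}).IsPrime := (Ideal.span_singleton_prime hp.ne_zero).2 hp
  let R := A[X] ⧸ Ideal.span {f}
  have hD : IsDomain R := Ideal.Quotient.isDomain _
  let x : R := Ideal.Quotient.mk _ w
  have hx : x ≠ 0 := by
    intro h
    rw [Ideal.Quotient.eq_zero_iff_mem, Ideal.mem_span_singleton] at h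
    exact hw h
  have hint : IsIntegral A x := by
    have h1 := hf.quotient_isIntegral (I := Ideal.span {f}) (Ideal.mem_span_singleton_self f)
    exact h1 x
  have h2 : (Ideal.span {x} : Ideal R).comap (algebraMap A R) ≠ ⊥ :=
    Ideal.comap_ne_bot_of_integral_mem hx (Ideal.mem_span_singleton_self x) hint
  obtain ⟨a, ha, ha0⟩ := Submodule.exists_mem_ne_zero_of_ne_bot h2
  rw [Ideal.mem_comap, Ideal.mem_span_singleton] at ha
  obtain ⟨y, hy⟩ := ha
  obtain ⟨g, rfl⟩ := Ideal.Quotient.mk_surjective y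
  refine ⟨a, g, ha0, ?_⟩
  rw [← Ideal.mem_span_singleton, ← Ideal.Quotient.eq_zero_iff_mem, map_sub, map_mul, sub_eq_zero]
  exact hy

open Polynomial in
/-- the monic case of the theorem -/
theorem core {A : Type*} [CommRing A] [IsDomain A] [UniqueFactorizationMonoid A] {f : A[X]}
    (hf : f.Monic) (hp : Prime f) (u w : A[X]) (hw : ¬ f ∣ w)
    (hs : ∀ ϖ : A, Prime ϖ → ∃ s, ¬ ϖ ∣ s ∧ C s * u ∈ Ideal.span {w, f}) :
    u ∈ Ideal.span {w, f} := by
  obtain ⟨a, g, ha, hag⟩ := exists_const hf hp hw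
  have hdeg : 0 < f.degree := by
    by_contra hcon
    rw [not_lt] at hcon
    have h1 := eq_C_of_degree_le_zero hcon
    have h2 : f.natDegree = 0 := natDegree_eq_zero_iff_degree_le_zero.2 hcon
    have h3 := hf.coeff_natDegree
    rw [h2] at h3
    rw [h3, C_1] at h1
    exact hp.not_isUnit (h1 ▸ isUnit_one)
  set r₀ := (u * g) %ₘ f with hr₀
  have e1 : f ∣ r₀ - u * g := dvd_modByMonic_sub _ _
  have hco : ∀ j, a ∣ r₀.coeff j := by
    intro j
    refine dvd_of_primes a ha _ fun ϖ hϖ => ?_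
    obtain ⟨s, hs1, hs2⟩ := hs ϖ hϖ
    refine ⟨s, hs1, ?_⟩
    rw [Ideal.mem_span_pair] at hs2
    obtain ⟨α, β, hαβ⟩ := hs2
    set r := α %ₘ f with hr
    have e2 : f ∣ r - α := dvd_modByMonic_sub _ _
    have h1 : C s * r₀ - C a * r = 0 := by
      apply eq_zero_of_dvd_of_degree_lt (p := f)
      · obtain ⟨q1, h1⟩ := e1
        obtain ⟨q2, h2⟩ := e2
        obtain ⟨q3, h3⟩ := hag
        refine ⟨C s * q1 - C a * q2 + β * g - α * q3, ?_⟩
        have e3 : r₀ = u * g + f * q1 := by rw [← h1]; ring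
        have e4 : r = α + f * q2 := by rw [← h2]; ring
        have e5 : (C a : A[X]) = w * g + f * q3 := by rw [← h3]; ring
        have e6 : C s * u = α * w + β * f := hαβ.symm
        calc C s * r₀ - C a * r = (C s * u) * g + C s * (f * q1) - C a * α - C a * (f * q2) := by
              rw [e3, e4]; ring
          _ = (α * w + β * f) * g + C s * (f * q1) - (w * g + f * q3) * α - C a * (f * q2) := by
              rw [e6]; nth_rewrite 1 [e5]; ring
          _ = _ := by ring
      · have h5 : (C s * r₀).degree < f.degree := by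
          refine lt_of_le_of_lt ?_ (degree_modByMonic_lt (u * g) hf)
          by_cases hs0 : s = 0
          · rw [hs0, C_0, zero_mul, degree_zero]; exact bot_le
          · rw [degree_C_mul hs0]
        have h6 : (C a * r).degree < f.degree := by
          refine lt_of_le_of_lt ?_ (degree_modByMonic_lt α hf)
          rw [degree_C_mul ha]
        exact (degree_sub_le _ _).trans_lt (max_lt h5 h6)
    have h7 := congrArg (fun q => coeff q j) h1
    simp only [coeff_sub, coeff_C_mul, coeff_zero] at h7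
    exact ⟨r.coeff j, by rw [← sub_eq_zero]; exact h7⟩
  rw [← C_dvd_iff_dvd_coeff] at hco
  obtain ⟨y, hy⟩ := hco
  have h8 : f ∣ C a * (u - w * y) := by
    obtain ⟨q1, h1⟩ := e1
    obtain ⟨q3, h3⟩ := hag
    refine ⟨u * q3 - w * q1, ?_⟩
    have e3 : C a * y = u * g + f * q1 := by rw [← hy, ← h1]; ring
    have e5 : (C a : A[X]) = w * g + f * q3 := by rw [← h3]; ring
    calc C a * (u - w * y) = C a * u - w * (C a * y) := by ring
      _ = (w * g + f * q3) * u - w * (u * g + f * q1) := by rw [e3]; nth_rewrite 1 [e5]; ring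
      _ = _ := by ring
  rcases hp.dvd_or_dvd h8 with h9 | h9
  · exfalso
    have h10 := eq_zero_of_dvd_of_degree_lt h9 (by rw [degree_C ha]; exact hdeg)
    exact ha (C_eq_zero.1 h10)
  · obtain ⟨q, hq⟩ := h9
    rw [Ideal.mem_span_pair]
    exact ⟨y, q, by rw [mul_comm y w, mul_comm q f, ← hq]; ring⟩


end S2HM

open MvPolynomial Pool.Agent.Lib.MPc9b009.B5 Pool.Agent.Lib.MPc9b009.OD
  Pool.Agent.Lib.MPc9b009.PS

namespace S2HM

section coord

variable {n : ℕ}

/-- the forward change of coordinates `x_j ↦ ζ_j + c_j T` -/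
noncomputable def fw (k : Fin (n + 1)) (c : Fin (n + 1) → ℂ) :
    PR (n + 1) →ₐ[ℂ] Polynomial (PR n) :=
  aeval fun j => Polynomial.C (Fin.insertNth (α := fun _ => PR n) k 0 X j) +
    Polynomial.C (C (c j)) * Polynomial.X

/-- the images of the coordinates of the smaller ring -/
noncomputable def zz (k : Fin (n + 1)) (c : Fin (n + 1) → ℂ) (i : Fin n) : PR (n + 1) :=
  X (k.succAbove i) - C (c (k.succAbove i) * (c k)⁻¹) * X k

/-- the inverse change of coordinates -/
noncomputable def bw (k : Fin (n + 1)) (c : Fin (n + 1) → ℂ) :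
    Polynomial (PR n) →ₐ[ℂ] PR (n + 1) :=
  Polynomial.eval₂AlgHom (aeval (zz k c)) (C (c k)⁻¹ * X k) fun _ => Commute.all _ _

theorem bw_C (k : Fin (n + 1)) (c : Fin (n + 1) → ℂ) (a : PR n) :
    bw k c (Polynomial.C a) = aeval (zz k c) a := by
  simp [bw]

theorem bw_X (k : Fin (n + 1)) (c : Fin (n + 1) → ℂ) :
    bw k c Polynomial.X = C (c k)⁻¹ * X k := by
  simp [bw]

theorem fw_X_same (k : Fin (n + 1)) (c : Fin (n + 1) → ℂ) :
    fw k c (X k) = Polynomial.C (C (c k)) * Polynomial.X := by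
  simp [fw]

theorem fw_X_succ (k : Fin (n + 1)) (c : Fin (n + 1) → ℂ) (i : Fin n) :
    fw k c (X (k.succAbove i)) = Polynomial.C (X i) +
      Polynomial.C (C (c (k.succAbove i))) * Polynomial.X := by
  simp [fw]

theorem fw_C (k : Fin (n + 1)) (c : Fin (n + 1) → ℂ) (a : ℂ) :
    fw k c (C a) = Polynomial.C (C a) := by
  rw [← algebraMap_eq, AlgHom.commutes]
  rfl

theorem bw_fw {k : Fin (n + 1)} {c : Fin (n + 1) → ℂ} (hk : c k ≠ 0) (q : PR (n + 1)) :
    bw k c (fw k c q) = q := by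
  have h : (bw k c).comp (fw k c) = AlgHom.id ℂ _ := by
    refine MvPolynomial.algHom_ext fun j => ?_
    rw [AlgHom.comp_apply, AlgHom.id_apply]
    rcases Fin.eq_self_or_eq_succAbove k j with rfl | ⟨i, rfl⟩
    · rw [fw_X_same, map_mul, bw_C, bw_X, algHom_C, algebraMap_eq, ← mul_assoc, ← C_mul,
        mul_inv_cancel₀ hk, C_1, one_mul]
    · rw [fw_X_succ, map_add, map_mul, bw_C, bw_C, bw_X, algHom_C, algebraMap_eq, aeval_X, zz, C_mul]
      ring
  have h2 := DFunLike.congr_fun h q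
  exact h2

theorem fw_zz {k : Fin (n + 1)} {c : Fin (n + 1) → ℂ} (hk : c k ≠ 0) (i : Fin n) :
    fw k c (zz k c i) = Polynomial.C (X i) := by
  rw [zz, map_sub, map_mul, fw_C, fw_X_same, fw_X_succ, C_mul, Polynomial.C_mul, sub_eq_iff_eq_add,
    add_right_inj]
  have h1 : (Polynomial.C (C (c k)⁻¹) * Polynomial.C (C (c k)) : Polynomial (PR n)) = 1 := by
    rw [← Polynomial.C_mul, ← C_mul, inv_mul_cancel₀ hk, C_1, Polynomial.C_1]
  linear_combination (-(Polynomial.C (C (c (k.succAbove i))) * Polynomial.X : Polynomial (PR n))) * h1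

theorem fw_aeval {k : Fin (n + 1)} {c : Fin (n + 1) → ℂ} (hk : c k ≠ 0) (a : PR n) :
    fw k c (aeval (zz k c) a) = Polynomial.C a := by
  have h : (fw k c).comp (aeval (zz k c)) = Polynomial.CAlgHom := by
    refine MvPolynomial.algHom_ext fun i => ?_
    rw [AlgHom.comp_apply, aeval_X, fw_zz hk]
    rfl
  exact DFunLike.congr_fun h a

theorem fw_bw {k : Fin (n + 1)} {c : Fin (n + 1) → ℂ} (hk : c k ≠ 0) (q : Polynomial (PR n)) :
    fw k c (bw k c q) = q := by
  have h : (fw k c).comp (bw k c) = AlgHom.id ℂ _ := by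
    refine Polynomial.algHom_ext' ?_ ?_
    · refine MvPolynomial.algHom_ext fun i => ?_
      change fw k c (bw k c (Polynomial.C (X i))) = Polynomial.C (X i)
      rw [bw_C, fw_aeval hk]
    · rw [AlgHom.comp_apply, bw_X, map_mul, fw_C, fw_X_same, ← mul_assoc, ← Polynomial.C_mul, ← C_mul,
        inv_mul_cancel₀ hk, C_1, Polynomial.C_1, one_mul]
      rfl
  exact DFunLike.congr_fun h q

theorem prod_lead {ι A : Type*} [CommRing A] (s : Finset ι) (g : ι → Polynomial A) (m : ι → ℕ)
    (hg : ∀ i, (g i).natDegree ≤ 1) :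
    (∏ i ∈ s, g i ^ m i).natDegree ≤ ∑ i ∈ s, m i ∧
      (∏ i ∈ s, g i ^ m i).coeff (∑ i ∈ s, m i) = ∏ i ∈ s, (g i).coeff 1 ^ m i := by
  classical
  induction s using Finset.induction_on with
  | empty => simp
  | insert a s ha ih =>
    rw [Finset.prod_insert ha, Finset.sum_insert ha, Finset.prod_insert ha]
    have h1 : (g a ^ m a).natDegree ≤ m a := by
      refine Polynomial.natDegree_pow_le.trans ?_
      calc m a * (g a).natDegree ≤ m a * 1 := Nat.mul_le_mul_left _ (hg a)
        _ = m a := mul_one _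
    have h2 : (g a ^ m a).coeff (m a) = (g a).coeff 1 ^ m a := by
      have := Polynomial.coeff_pow_of_natDegree_le (m := m a) (hg a)
      rwa [mul_one] at this
    refine ⟨Polynomial.natDegree_mul_le.trans (add_le_add h1 ih.1), ?_⟩
    rw [Polynomial.coeff_mul_add_eq_of_natDegree_le h1 ih.1, h2, ih.2]

theorem fw_lead (k : Fin (n + 1)) (c : Fin (n + 1) → ℂ) {F : PR (n + 1)} {e : ℕ}
    (hF : F.IsHomogeneous e) :
    (fw k c F).natDegree ≤ e ∧ (fw k c F).coeff e = C (eval c F) := by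
  have h0 : fw k c F = ∑ d ∈ F.support, Polynomial.C (C (coeff d F)) *
      ∏ j, (Polynomial.C (Fin.insertNth (α := fun _ => PR n) k 0 X j) +
        Polynomial.C (C (c j)) * Polynomial.X) ^ d j := by
    rw [fw, aeval_def, eval₂_eq']
    rfl
  set G : Fin (n + 1) → Polynomial (PR n) := fun j =>
    Polynomial.C (Fin.insertNth (α := fun _ => PR n) k 0 X j) + Polynomial.C (C (c j)) * Polynomial.X
    with hG
  have hG1 : ∀ j, (G j).natDegree ≤ 1 := by
    intro j
    rw [hG]
    refine (Polynomial.natDegree_add_le _ _).trans (max_le ?_ ?_)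
    · rw [Polynomial.natDegree_C]; exact Nat.zero_le _
    · exact (Polynomial.natDegree_C_mul_le _ _).trans Polynomial.natDegree_X_le
  have hG2 : ∀ j, (G j).coeff 1 = C (c j) := by
    intro j
    rw [hG]
    simp [Polynomial.coeff_C]
  have hd : ∀ d ∈ F.support, ∑ j, d j = e := by
    intro d hd
    have h1 := hF (mem_support_iff.1 hd)
    rw [← h1, Finsupp.weight_apply, Finsupp.sum_fintype]
    · simp
    · intro i; simp
  have hP : ∀ d ∈ F.support, (∏ j, G j ^ d j).natDegree ≤ e ∧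
      (∏ j, G j ^ d j).coeff e = C (∏ j, c j ^ d j) := by
    intro d hdm
    have h1 := prod_lead Finset.univ G d hG1
    rw [hd d hdm] at h1
    refine ⟨h1.1, h1.2.trans ?_⟩
    rw [map_prod]
    refine Finset.prod_congr rfl fun j _ => ?_
    rw [hG2, map_pow]
  constructor
  · rw [h0]
    refine Polynomial.natDegree_sum_le_of_forall_le _ _ fun d hdm => ?_
    refine (Polynomial.natDegree_C_mul_le _ _).trans (hP d hdm).1
  · rw [h0, Polynomial.finsetSum_coeff, eval_eq', map_sum]
    refine Finset.sum_congr rfl fun d hdm => ?_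
    rw [Polynomial.coeff_C_mul, (hP d hdm).2, ← C_mul]

end coord

/-- the ideal of the `b` with `b u ∈ K` -/
def colI {N : ℕ} (K : Ideal (PR N)) (u : PR N) : Ideal (PR N) where
  carrier := {b | b * u ∈ K}
  add_mem' := by
    intro a b ha hb
    rw [Set.mem_ofPred_eq, add_mul]
    exact K.add_mem ha hb
  zero_mem' := by
    rw [Set.mem_ofPred_eq, zero_mul]
    exact K.zero_mem
  smul_mem' := by
    intro c b hb
    rw [Set.mem_ofPred_eq, smul_eq_mul, mul_assoc]
    exact K.mul_mem_left c hb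

theorem mem_colI {N : ℕ} {K : Ideal (PR N)} {u b : PR N} : b ∈ colI K u ↔ b * u ∈ K := Iff.rfl

/-- the small cases -/
theorem small {N : ℕ} (hN : N ≤ 2) (F u w : PR N)
    (h : ∀ Q : Ideal (PR N), Q.IsPrime → ((N : ℕ) : Cardinal) ≤ Algebra.trdeg ℂ (PR N ⧸ Q) + 2 →
      ∃ b, b ∉ Q ∧ b * u ∈ Ideal.span {w, F}) : u ∈ Ideal.span {w, F} := by
  by_contra hcon
  have h1 : colI (Ideal.span {w, F}) u ≠ ⊤ := by
    intro h2
    have h3 : (1 : PR N) ∈ colI (Ideal.span {w, F}) u := h2 ▸ Submodule.mem_top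
    rw [mem_colI, one_mul] at h3
    exact hcon h3
  obtain ⟨Q, hQ, hle⟩ := Ideal.exists_le_maximal _ h1
  obtain ⟨b, hb, hbu⟩ := h Q hQ.isPrime (by
    have h4 : ((N : ℕ) : Cardinal) ≤ 2 := by exact_mod_cast hN
    exact h4.trans (self_le_add_left _ _))
  exact hb (hle (mem_colI.2 hbu))

end S2HM

open S2HM in
theorem specS2H (hCOP : SpecCOP) : SpecS2H := by
  intro N F hirr hhom u w hw h
  by_cases hN2 : N ≤ 2
  · exact small hN2 F u w h
  obtain ⟨n, rfl⟩ : ∃ n, N = n + 1 := ⟨N - 1, by omega⟩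
  have hn : 2 ≤ n := by omega
  obtain ⟨e, he⟩ := hhom
  have hF0 : F ≠ 0 := hirr.ne_zero
  -- a point with `F c ≠ 0`
  obtain ⟨c, hc⟩ : ∃ c : Fin (n + 1) → ℂ, eval c F ≠ 0 := by
    by_contra hcon
    push Not at hcon
    exact hF0 (MvPolynomial.funext fun x => by rw [hcon x, map_zero])
  obtain ⟨k, hk⟩ : ∃ k, c k ≠ 0 := by
    by_contra hcon
    push Not at hcon
    have h1 : c = 0 := funext hcon
    by_cases he0 : e = 0
    · subst he0
      have h2 := he.totalDegree hF0
      rw [totalDegree_eq_zero_iff_eq_C] at h2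
      rw [h2] at hirr
      by_cases hc0 : coeff 0 F = 0
      · rw [hc0, C_0] at hirr
        exact not_irreducible_zero hirr
      · exact hirr.not_isUnit ((isUnit_iff_ne_zero.2 hc0).map C)
    · apply hc
      rw [h1, eval_zero, constantCoeff_eq]
      exact he.coeff_eq_zero (by simpa using Ne.symm he0)
  -- the monic polynomial
  set μ : ℂ := eval c F with hμ
  obtain ⟨f, hf⟩ : ∃ f, f = fw k c (C μ⁻¹ * F) := ⟨_, rfl⟩
  have hfF : fw k c F = Polynomial.C (C μ) * f := by
    rw [hf, map_mul, fw_C, ← mul_assoc, ← Polynomial.C_mul, ← C_mul, mul_inv_cancel₀ hc, C_1,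
      Polynomial.C_1, one_mul]
  have hfF' : f = Polynomial.C (C μ⁻¹) * fw k c F := by rw [hf, map_mul, fw_C]
  have hbf : bw k c f = C μ⁻¹ * F := by rw [hf, bw_fw hk]
  have hlead := fw_lead k c he
  have hmon : f.Monic := by
    refine Polynomial.monic_of_natDegree_le_of_coeff_eq_one e ?_ ?_
    · rw [hfF']
      exact (Polynomial.natDegree_C_mul_le _ _).trans hlead.1
    · rw [hfF', Polynomial.coeff_C_mul, hlead.2, ← C_mul, inv_mul_cancel₀ hc, C_1]
  have hunit : IsUnit (C μ⁻¹ : PR (n + 1)) :=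
    (isUnit_iff_ne_zero.2 (inv_ne_zero hc)).map C
  have hassoc : Associated F (C μ⁻¹ * F) := by
    obtain ⟨v, hv⟩ := hunit
    exact ⟨v, by rw [← hv, mul_comm]⟩
  have hpF : Prime F := hirr.prime
  let E : PR (n + 1) ≃ₐ[ℂ] Polynomial (PR n) :=
    AlgEquiv.ofAlgHom (fw k c) (bw k c) (AlgHom.ext fun q => fw_bw hk q)
      (AlgHom.ext fun q => bw_fw hk q)
  have hpf : Prime f := by
    rw [hf]
    exact (MulEquiv.prime_iff E).2 (hassoc.prime hpF)
  have hw' : ¬ f ∣ fw k c w := by
    rintro ⟨q, hq⟩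
    apply hw
    have h1 := congrArg (bw k c) hq
    rw [bw_fw hk, map_mul, hbf] at h1
    rw [h1]
    exact Dvd.intro_left _ rfl |>.mul_right _
  have hmap : ∀ x, x ∈ Ideal.span {w, F} → fw k c x ∈ Ideal.span {fw k c w, f} := by
    intro x hx
    rw [Ideal.mem_span_pair] at hx ⊢
    obtain ⟨a, b, rfl⟩ := hx
    refine ⟨fw k c a, fw k c b * Polynomial.C (C μ), ?_⟩
    rw [map_add, map_mul, map_mul, hfF]
    ring
  -- the hypotheses of COP
  set P : Ideal (PR (n + 1)) := Ideal.span {F} with hP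
  have hPp : P.IsPrime := (Ideal.span_singleton_prime hF0).2 hpF
  have hdeg : 0 < f.degree := by
    by_contra hcon
    rw [not_lt] at hcon
    have h1 := Polynomial.eq_C_of_degree_le_zero hcon
    have h2 : f.natDegree = 0 := Polynomial.natDegree_eq_zero_iff_degree_le_zero.2 hcon
    have h3 := hmon.coeff_natDegree
    rw [h2] at h3
    rw [h3, Polynomial.C_1] at h1
    exact hpf.not_isUnit (h1 ▸ isUnit_one)
  have hmk : ∀ a : PR n, aeval (fun b => Ideal.Quotient.mk P (zz k c b)) a =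
      Ideal.Quotient.mkₐ ℂ P (aeval (zz k c) a) := by
    intro a
    rw [comp_aeval_apply]
    rfl
  have halg : AlgebraicIndependent ℂ (fun b => Ideal.Quotient.mk P (zz k c b)) := by
    rw [algebraicIndependent_iff]
    intro p hp
    rw [hmk, Ideal.Quotient.mkₐ_eq_mk, Ideal.Quotient.eq_zero_iff_mem, hP,
      Ideal.mem_span_singleton] at hp
    have h1 : fw k c F ∣ fw k c (aeval (zz k c) p) := map_dvd (fw k c) hp
    rw [fw_aeval hk, hfF] at h1
    have h2 : f ∣ Polynomial.C p := (Dvd.intro_left _ rfl).trans h1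
    have h3 := Polynomial.eq_zero_of_dvd_of_degree_lt h2
      (lt_of_le_of_lt Polynomial.degree_C_le hdeg)
    exact Polynomial.C_eq_zero.1 h3
  have hint : ∀ y : PR (n + 1) ⧸ P, IsIntegral
      (Algebra.adjoin ℂ (Set.range fun b => Ideal.Quotient.mk P (zz k c b))) y := by
    set B := Algebra.adjoin ℂ (Set.range fun b => Ideal.Quotient.mk P (zz k c b)) with hB
    have hmem : ∀ a : PR n, ((Ideal.Quotient.mkₐ ℂ P).comp (aeval (zz k c))) a ∈ B := by
      intro a
      rw [AlgHom.comp_apply, ← hmk, hB, Algebra.adjoin_range_eq_range_aeval]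
      exact ⟨a, rfl⟩
    let φ : PR n →ₐ[ℂ] B := AlgHom.codRestrict _ B hmem
    have hφ : ∀ a, algebraMap B (PR (n + 1) ⧸ P) (φ a) = Ideal.Quotient.mk P (aeval (zz k c) a) :=
      fun a => rfl
    have hev : ∀ q : Polynomial (PR n),
        (q.map (φ : PR n →+* B)).eval₂ (algebraMap B (PR (n + 1) ⧸ P))
          (Ideal.Quotient.mk P (bw k c Polynomial.X)) = Ideal.Quotient.mk P (bw k c q) := by
      intro q
      rw [Polynomial.eval₂_map]
      induction q using Polynomial.induction_on' with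
      | add p q hp hq => rw [Polynomial.eval₂_add, hp, hq, map_add, map_add]
      | monomial m a =>
        rw [← Polynomial.C_mul_X_pow_eq_monomial, Polynomial.eval₂_mul, Polynomial.eval₂_C,
          Polynomial.eval₂_X_pow, map_mul, map_pow, map_mul, map_pow, bw_C]
        rfl
    have ht : IsIntegral B (Ideal.Quotient.mk P (bw k c Polynomial.X)) := by
      refine ⟨f.map (φ : PR n →+* B), hmon.map _, ?_⟩
      rw [hev, hbf, Ideal.Quotient.eq_zero_iff_mem]
      exact Ideal.mul_mem_left _ _ (Ideal.mem_span_singleton_self F)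
    have hall : ∀ q : Polynomial (PR n), IsIntegral B (Ideal.Quotient.mk P (bw k c q)) := by
      intro q
      induction q using Polynomial.induction_on' with
      | add p q hp hq => rw [map_add, map_add]; exact hp.add hq
      | monomial m a =>
        rw [← Polynomial.C_mul_X_pow_eq_monomial, map_mul, map_pow, map_mul, map_pow, bw_C, ← hφ]
        exact isIntegral_algebraMap.mul (ht.pow m)
    intro y
    obtain ⟨x, rfl⟩ := Ideal.Quotient.mk_surjective y
    rw [← bw_fw hk x]
    exact hall _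
  have hPJ : P ≤ colI (Ideal.span {w, F}) u := by
    rw [hP, Ideal.span_le, Set.singleton_subset_iff]
    change F * u ∈ Ideal.span {w, F}
    rw [Ideal.mem_span_pair]
    exact ⟨0, u, by ring⟩
  have hDle : Dle (colI (Ideal.span {w, F}) u) (n - 2) := by
    intro q hq hle
    by_contra hcon
    rw [not_le] at hcon
    obtain ⟨D, hD⟩ := BSTM.nat_trdeg q
    rw [hD] at hcon
    have h1 : n - 2 < D := by exact_mod_cast hcon
    obtain ⟨b, hb, hbu⟩ := h q hq (by
      rw [hD]
      have h2 : n + 1 ≤ D + 2 := by omega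
      exact_mod_cast h2)
    exact hb (hle (mem_colI.2 hbu))
  have hfin := core hmon hpf (fw k c u) (fw k c w) hw' fun ϖ hϖ => by
    obtain ⟨s, hs, hsJ⟩ := hCOP (n + 1) n P (colI (Ideal.span {w, F}) u) (zz k c) hPp halg hint hPJ
      hn hDle ϖ hϖ
    refine ⟨s, hs, ?_⟩
    have h1 := hmap _ (mem_colI.1 hsJ)
    rwa [map_mul, fw_aeval hk] at h1
  rw [Ideal.mem_span_pair] at hfin ⊢
  obtain ⟨a, b, hab⟩ := hfin
  refine ⟨bw k c a, bw k c b * C μ⁻¹, ?_⟩
  have h1 := congrArg (bw k c) hab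
  rw [map_add, map_mul, map_mul, hbf, bw_fw hk, bw_fw hk] at h1
  rw [← h1]
  ring

end Pool.Agent.Lib.MPc9b009.LS
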