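import Pool.Agent.Lib.MP_c9b009_ag.LS.Spec

/-!
# MP_c9b009_ag, row LS, module SQF: the product of the components is square free
-/

set_option autoImplicit false

namespace Pool.Agent.Lib.MPc9b009.LS

open MvPolynomial Pool.Agent.Lib.MPc9b009.B5 Pool.Agent.Lib.MPc9b009.OD
  Pool.Agent.Lib.MPc9b009.PS

namespace SQFM

/-- an irreducible form does not divide all its derivatives -/
theorem exists_pderiv {N : ℕ} {f : PR N} {e : ℕ} (hf : Irreducible f) (he : f.IsHomogeneous e) :
    ∃ p, ¬ f ∣ pderiv p f := by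
  by_contra hcon
  push Not at hcon
  have hf0 : f ≠ 0 := hf.ne_zero
  have he0 : e ≠ 0 := by
    rintro rfl
    have h1 := he.totalDegree hf0
    rw [totalDegree_eq_zero_iff_eq_C] at h1
    rw [h1] at hf
    by_cases hc : coeff 0 f = 0
    · rw [hc, C_0] at hf
      exact not_irreducible_zero hf
    · exact hf.not_isUnit ((isUnit_iff_ne_zero.2 hc).map C)
  have hz : ∀ p, pderiv p f = 0 := by
    intro p
    by_contra hne
    obtain ⟨q, hq⟩ := hcon p
    have hq0 : q ≠ 0 := by
      rintro rfl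
      rw [mul_zero] at hq
      exact hne hq
    have h1 : (pderiv p f).totalDegree = e - 1 := (he.pderiv (i := p)).totalDegree hne
    have h2 : (f * q).totalDegree = f.totalDegree + q.totalDegree := totalDegree_mul_of_isDomain hf0 hq0
    rw [← hq, h1, he.totalDegree hf0] at h2
    omega
  have h3 := he.sum_X_mul_pderiv
  simp only [hz, mul_zero, Finset.sum_const_zero] at h3
  rw [eq_comm, nsmul_eq_mul, mul_eq_zero] at h3
  rcases h3 with h3 | h3
  · exact he0 (by exact_mod_cast h3)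
  · exact hf0 h3

end SQFM

theorem specSQF : SpecSQF := by
  intro N n F H
  have hprod : ∀ i, ∏ j, F j = F i * ∏ j ∈ Finset.univ.erase i, F j := fun i =>
    (Finset.mul_prod_erase Finset.univ F (Finset.mem_univ i)).symm
  have h1 : ∀ i p, F i ∣ pderiv p (∏ j, F j) -
      (∏ j ∈ Finset.univ.erase i, F j) * pderiv p (F i) := by
    intro i p
    refine ⟨pderiv p (∏ j ∈ Finset.univ.erase i, F j), ?_⟩
    rw [hprod i, Derivation.leibniz, smul_eq_mul, smul_eq_mul]
    ring
  have h2 : ∀ i, ¬ F i ∣ ∏ j ∈ Finset.univ.erase i, F j := by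
    intro i hi
    have hp : Prime (F i) := (H.irr i).prime
    rw [hp.dvd_finsetProd_iff] at hi
    obtain ⟨j, hj, hd⟩ := hi
    exact H.ndv i j (Finset.ne_of_mem_erase hj).symm hd
  have h3 : ∀ i, ∃ p, ¬ F i ∣ pderiv p (F i) := by
    intro i
    obtain ⟨e, he⟩ := H.hom i
    exact SQFM.exists_pderiv (H.irr i) he
  refine ⟨h1, h2, h3, ?_⟩
  intro ϖ hϖ
  by_contra hcon
  push Not at hcon
  have hN : N ≠ 0 := by
    have := H.pos
    omega
  have h4 := H.deg.sum_X_mul_pderiv
  have h5 : ϖ ∣ ∏ j, F j := by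
    have h6 : ϖ ∣ N • ∏ j, F j := by
      rw [← h4]
      exact Finset.dvd_sum fun p _ => (hcon p).mul_left _
    rw [nsmul_eq_mul] at h6
    rcases hϖ.dvd_or_dvd h6 with h7 | h7
    · exfalso
      apply hϖ.not_isUnit
      refine isUnit_of_dvd_unit h7 ?_
      have h8 : ((N : ℕ) : PR N) = C (N : ℂ) := by simp
      rw [h8]
      exact (isUnit_iff_ne_zero.2 (Nat.cast_ne_zero.2 hN)).map C
    · exact h7
  rw [hϖ.dvd_finsetProd_iff] at h5
  obtain ⟨i, -, hi⟩ := h5
  have h9 : F i ∣ ϖ := (hϖ.irreducible.associated_of_dvd (H.irr i) hi).symm.dvd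
  obtain ⟨p, hp⟩ := h3 i
  have h10 : F i ∣ (∏ j ∈ Finset.univ.erase i, F j) * pderiv p (F i) := by
    have h11 := h9.trans (hcon p)
    have h12 := dvd_sub h11 (h1 i p)
    rwa [sub_sub_cancel] at h12
  rcases (H.irr i).prime.dvd_or_dvd h10 with h13 | h13
  · exact h2 i h13
  · exact hp h13

end Pool.Agent.Lib.MPc9b009.LS
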