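import Pool.Agent.Lib.MP_c9b009_ag.LS.SpecB

/-!
# MP_c9b009_ag, row LS, part B, module STE (helper54): the components are Poisson
-/

set_option autoImplicit false

namespace Pool.Agent.Lib.MPc9b009.LS

open MvPolynomial Pool.Agent.Lib.MPc9b009.B5 Pool.Agent.Lib.MPc9b009.OD
  Pool.Agent.Lib.MPc9b009.PS

namespace STEM

theorem minor_dvd {N : ℕ} {R : Type} [CommRing R] (M : Matrix (Fin N) (Fin N) R)
    (I J : Fin N → Fin N) : M.det ∣ (M.submatrix I J).det := by
  have h : M.submatrix I J = (1 : Matrix (Fin N) (Fin N) R).submatrix I id * M *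
      (1 : Matrix (Fin N) (Fin N) R).submatrix id J := by
    ext a b
    simp [Matrix.mul_apply, Matrix.one_apply]
  rw [h, Matrix.det_mul, Matrix.det_mul]
  exact (Dvd.intro_left _ rfl).mul_right _

/-- the determinant divides its image under the Hamiltonian fields -/
theorem det_dvd {N : ℕ} (g : Biv N) (hj : ∀ i j l, jac g.f i j l = 0) (j : Fin N) :
    (Matrix.of g.f).det ∣ ∑ i, g.f i j * pderiv i (Matrix.of g.f).det := by
  have h1 := (B5.specMST N N g hj).1 (Matrix.of g.f).det (Ideal.subset_span ⟨id, id, rfl⟩) j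
  rw [← Ideal.mem_span_singleton]
  refine (Ideal.span_le.2 ?_ : Ideal.span _ ≤ Ideal.span {(Matrix.of g.f).det}) h1
  rintro z ⟨I, J, rfl⟩
  rw [SetLike.mem_coe, Ideal.mem_span_singleton]
  exact minor_dvd (Matrix.of g.f) I J

end STEM

open STEM in
theorem specSTE (hSQF : SpecSQF) : SpecSTE := by
  intro N n g F hL i l
  obtain ⟨s1, s2, -, -⟩ := hSQF N n F hL.toNCF
  obtain ⟨κ, hκ, hdet⟩ := hL.det
  have hprime : ∀ j, Prime (F j) := fun j => (hL.irr j).prime
  have hF0 : (∏ j, F j) ≠ 0 := Finset.prod_ne_zero_iff.2 fun j _ => (hprime j).ne_zero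
  -- `F` divides its image under the Hamiltonian fields
  have hF : (∏ j, F j) ∣ ∑ m, g.f l m * pderiv m (∏ j, F j) := by
    obtain ⟨c, hc⟩ := det_dvd g hL.jac0 l
    rw [hdet] at hc
    refine ⟨-(C (1 / 2) * c), ?_⟩
    have h2 : ∑ m, g.f m l * pderiv m (C κ * (∏ j, F j) ^ 2) =
        C κ * (∏ j, F j) * (C 2 * ∑ m, g.f m l * pderiv m (∏ j, F j)) := by
      rw [Finset.mul_sum, Finset.mul_sum]
      refine Finset.sum_congr rfl fun m _ => ?_
      rw [pderiv_C_mul, Derivation.leibniz_pow]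
      have h3 : (C 2 : PR N) = 2 := by rw [show (2 : ℂ) = 1 + 1 by norm_num, C_add, C_1]; norm_num
      rw [h3]
      simp only [smul_eq_mul, nsmul_eq_mul, Nat.cast_ofNat, Nat.add_one_sub_one, pow_one]
      ring
    rw [h2] at hc
    have h4 : C κ * (∏ j, F j) ≠ 0 := mul_ne_zero (by simpa using hκ) hF0
    have h5 : C 2 * ∑ m, g.f m l * pderiv m (∏ j, F j) = (∏ j, F j) * c := by
      apply mul_left_cancel₀ h4
      rw [hc]
      ring
    have h6 : ∑ m, g.f l m * pderiv m (∏ j, F j) = - ∑ m, g.f m l * pderiv m (∏ j, F j) := by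
      rw [← Finset.sum_neg_distrib]
      refine Finset.sum_congr rfl fun m _ => ?_
      rw [g.skew m l]
      ring
    have h7 : (C (1 / 2) : PR N) * C 2 = 1 := by
      rw [← C_mul]
      norm_num
    rw [h6]
    have h8 : ∑ m, g.f m l * pderiv m (∏ j, F j) = C (1 / 2) * ((∏ j, F j) * c) := by
      rw [← h5, ← mul_assoc, h7, one_mul]
    rw [h8]
    ring
  have hFi : F i ∣ ∑ m, g.f l m * pderiv m (∏ j, F j) :=
    (Finset.dvd_prod_of_mem F (Finset.mem_univ i)).trans hF
  have h9 : F i ∣ (∏ j ∈ Finset.univ.erase i, F j) * ∑ m, g.f l m * pderiv m (F i) := by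
    have h10 : F i ∣ ∑ m, g.f l m * (pderiv m (∏ j, F j) -
        (∏ j ∈ Finset.univ.erase i, F j) * pderiv m (F i)) :=
      Finset.dvd_sum fun m _ => (s1 i m).mul_left _
    have h11 : (∏ j ∈ Finset.univ.erase i, F j) * ∑ m, g.f l m * pderiv m (F i) =
        ∑ m, g.f l m * pderiv m (∏ j, F j) - ∑ m, g.f l m * (pderiv m (∏ j, F j) -
        (∏ j ∈ Finset.univ.erase i, F j) * pderiv m (F i)) := by
      rw [Finset.mul_sum, ← Finset.sum_sub_distrib]
      refine Finset.sum_congr rfl fun m _ => ?_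
      ring
    rw [h11]
    exact dvd_sub hFi h10
  exact ((hprime i).dvd_or_dvd h9).resolve_left (s2 i)

end Pool.Agent.Lib.MPc9b009.LS
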