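import Pool.Agent.Lib.MP_c9b009_ag.LS.Spec

/-!
# MP_c9b009_ag, row LS, module THS: the minors of `[g | h_σ | x]` generate stable ideals
-/

set_option autoImplicit false

namespace Pool.Agent.Lib.MPc9b009.LS

open MvPolynomial Pool.Agent.Lib.MPc9b009.B5 Pool.Agent.Lib.MPc9b009.OD
  Pool.Agent.Lib.MPc9b009.PS

namespace THSM

theorem th_g {N k : ℕ} (g : Biv N) (h : Fin k → Fin N → PR N) (i b : Fin N) :
    th g h i (Fin.castAdd 1 (Fin.castAdd k b)) = g.f i b := by
  unfold th
  rw [Fin.append_left, Fin.append_left]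

theorem th_h {N k : ℕ} (g : Biv N) (h : Fin k → Fin N → PR N) (i : Fin N) (a : Fin k) :
    th g h i (Fin.castAdd 1 (Fin.natAdd N a)) = h a i := by
  unfold th
  rw [Fin.append_left, Fin.append_right]

theorem th_x {N k : ℕ} (g : Biv N) (h : Fin k → Fin N → PR N) (i : Fin N) (c : Fin 1) :
    th g h i (Fin.natAdd (N + k) c) = X i := by
  unfold th
  rw [Fin.append_right]

theorem col_cases {N k : ℕ} {p : Fin (N + k + 1) → Prop}
    (h1 : ∀ b : Fin N, p (Fin.castAdd 1 (Fin.castAdd k b)))
    (h2 : ∀ a : Fin k, p (Fin.castAdd 1 (Fin.natAdd N a)))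
    (h3 : ∀ c : Fin 1, p (Fin.natAdd (N + k) c)) : ∀ j, p j := by
  intro j
  refine Fin.addCases (motive := p) (fun j' => ?_) h3 j
  exact Fin.addCases (motive := fun j' => p (Fin.castAdd 1 j')) h1 h2 j'

theorem sum_th {N k : ℕ} (g : Biv N) (h : Fin k → Fin N → PR N) (i : Fin N)
    (F : Fin (N + k + 1) → PR N) :
    ∑ l, th g h i l * F l = ∑ b, g.f i b * F (Fin.castAdd 1 (Fin.castAdd k b))
      + ∑ a, h a i * F (Fin.castAdd 1 (Fin.natAdd N a))
      + ∑ c : Fin 1, X i * F (Fin.natAdd (N + k) c) := by
  rw [Fin.sum_univ_add, Fin.sum_univ_add]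
  simp only [th_g, th_h, th_x]

theorem app (hMNG : SpecMNG) {N m n : ℕ} (I P : Ideal (PR N)) (g : Biv N)
    (h : Fin m → Fin N → PR N) (hIP : I ≤ P)
    (v : Fin N → PR N) (hv : ∀ q ∈ P, vf v q ∈ P) (M : Fin N → Fin N → PR N)
    (Dg : Fin N → Fin N → PR N) (Dh : Fin N → Fin m → PR N) (Dx : Fin N → PR N)
    (e1 : ∀ i b, vf v (g.f i b) - (∑ l, M i l * g.f l b + ∑ l, g.f i l * Dg l b) ∈ I)
    (e2 : ∀ i a, vf v (h a i) - (∑ l, M i l * h a l + ∑ l, g.f i l * Dh l a) ∈ I)
    (e3 : ∀ i, vf v (X i) - (∑ l, M i l * X l + ∑ l, g.f i l * Dx l) ∈ I) :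
    ∀ q ∈ P ⊔ mnI n (th g h), vf v q ∈ P ⊔ mnI n (th g h) := by
  refine hMNG N (N + m + 1) n P (th g h) v M
    (Fin.append (Fin.append
      (fun l => Fin.append (Fin.append (Dg l) (Dh l)) (fun _ : Fin 1 => Dx l))
      (fun _ : Fin m => fun _ => 0)) (fun _ : Fin 1 => fun _ => 0)) hv ?_
  intro i
  refine col_cases ?_ ?_ ?_
  · intro b
    rw [sum_th]
    simp only [th_g, Fin.append_left, Fin.append_right, mul_zero, Finset.sum_const_zero,
      add_zero]
    exact hIP (e1 i b)
  · intro a
    rw [sum_th]
    simp only [th_h, Fin.append_left, Fin.append_right, mul_zero, Finset.sum_const_zero,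
      add_zero]
    exact hIP (e2 i a)
  · intro c
    rw [sum_th]
    simp only [th_x, Fin.append_left, Fin.append_right, mul_zero, Finset.sum_const_zero,
      add_zero]
    exact hIP (e3 i)

theorem vf_X {N : ℕ} (v : Fin N → PR N) (i : Fin N) : vf v (X i) = v i := by
  unfold vf
  rw [Finset.sum_eq_single i]
  · rw [pderiv_X_self, mul_one]
  · intro l _ hl
    rw [pderiv_X_of_ne (fun h => hl h.symm), mul_zero]
  · intro h
    exact absurd (Finset.mem_univ i) h

theorem euler2 {N : ℕ} (g : Biv N) (i j : Fin N) :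
    ∑ l, pderiv l (g.f i j) * X l = 2 * g.f i j := by
  have h := (g.quad i j).sum_X_mul_pderiv
  have h' : ∑ l, X l * pderiv l (g.f i j) = 2 • g.f i j := h
  rw [two_smul, ← two_mul] at h'
  rw [← h']
  exact Finset.sum_congr rfl fun l _ => mul_comm _ _

theorem euler1 {N : ℕ} (q : PR N) (hq : q.IsHomogeneous 1) :
    ∑ l, pderiv l q * X l = q := by
  have h := hq.sum_X_mul_pderiv
  have h' : ∑ l, X l * pderiv l q = 1 • q := h
  rw [one_smul] at h'
  conv_rhs => rw [← h']
  exact Finset.sum_congr rfl fun l _ => mul_comm _ _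

theorem sum_ite_l {N : ℕ} (i : Fin N) (F : Fin N → PR N) :
    ∑ l, (if i = l then (1 : PR N) else 0) * F l = F i := by
  rw [Finset.sum_eq_single i]
  · rw [if_pos rfl, one_mul]
  · intro l _ hl
    rw [if_neg (fun h => hl h.symm), zero_mul]
  · intro h
    exact absurd (Finset.mem_univ i) h

theorem sum_ite_r {N : ℕ} (j : Fin N) (c : PR N) (F : Fin N → PR N) :
    ∑ l, F l * (if l = j then c else 0) = F j * c := by
  rw [Finset.sum_eq_single j]
  · rw [if_pos rfl]
  · intro l _ hl
    rw [if_neg hl, mul_zero]
  · intro h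
    exact absurd (Finset.mem_univ j) h

end THSM

open THSM in
theorem specTHS (hMNG : SpecMNG) : SpecTHS := by
  intro N k m n I P g h σ hjac hCF hIP hSt
  have hcol : ∀ j, ∀ q ∈ P, vf (fun i => th g h i j) q ∈ P := fun j q hq => hSt q hq j
  have key : ∀ j, ∀ q ∈ P ⊔ mnI n (th g (fun a => h (σ a))),
      vf (fun i => th g h i j) q ∈ P ⊔ mnI n (th g (fun a => h (σ a))) := by
    refine col_cases ?_ ?_ ?_
    · -- a column of `g`
      intro j
      have hcj := hcol (Fin.castAdd 1 (Fin.castAdd k j))
      simp only [th_g] at hcj ⊢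
      refine app hMNG I P g (fun a => h (σ a)) hIP (fun i => g.f i j) hcj
        (fun i l => pderiv l (g.f i j)) (fun l b => pderiv l (g.f b j))
        (fun l a => - pderiv l (h (σ a) j)) (fun l => if l = j then -1 else 0) ?_ ?_ ?_
      · intro a b
        have h4 := XSTM.der_g g j a b
        rw [XSTM.der_apply] at h4
        have h5 : vf (fun i => g.f i j) (g.f a b)
            - (∑ l, pderiv l (g.f a j) * g.f l b + ∑ l, g.f a l * pderiv l (g.f b j))
            = - jac g.f j a b := h4
        rw [h5]
        exact I.neg_mem (hjac j a b)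
      · intro i a
        have h1 := hCF.poi (σ a) i j
        have h2 : vf (fun i => g.f i j) (h (σ a) i)
            - (∑ l, pderiv l (g.f i j) * h (σ a) l + ∑ l, g.f i l * - pderiv l (h (σ a) j))
            = - (vf (h (σ a)) (g.f i j)
              - ∑ l, (pderiv l (h (σ a) i) * g.f l j + pderiv l (h (σ a) j) * g.f i l)) := by
          unfold vf
          rw [Finset.sum_add_distrib]
          simp only [mul_neg, Finset.sum_neg_distrib]
          have e1 : ∑ l, g.f l j * pderiv l (h (σ a) i) = ∑ l, pderiv l (h (σ a) i) * g.f l j :=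
            Finset.sum_congr rfl fun l _ => mul_comm _ _
          have e2 : ∑ l, pderiv l (g.f i j) * h (σ a) l = ∑ l, h (σ a) l * pderiv l (g.f i j) :=
            Finset.sum_congr rfl fun l _ => mul_comm _ _
          have e3 : ∑ l, g.f i l * pderiv l (h (σ a) j) = ∑ l, pderiv l (h (σ a) j) * g.f i l :=
            Finset.sum_congr rfl fun l _ => mul_comm _ _
          rw [e1, e2, e3]
          ring
        rw [h2]
        exact I.neg_mem h1
      · intro i
        rw [vf_X, euler2, sum_ite_r]
        have : g.f i j - (2 * g.f i j + g.f i j * -1) = 0 := by ring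
        rw [this]
        exact I.zero_mem
    · -- `h_a`
      intro a
      have hca := hcol (Fin.castAdd 1 (Fin.natAdd N a))
      simp only [th_h] at hca ⊢
      refine app hMNG I P g (fun a => h (σ a)) hIP (fun i => h a i) hca
        (fun i l => pderiv l (h a i)) (fun l b => pderiv l (h a b))
        (fun _ _ => 0) (fun _ => 0) ?_ ?_ ?_
      · intro i b
        have h1 := hCF.poi a i b
        have h2 : ∑ l, pderiv l (h a i) * g.f l b + ∑ l, g.f i l * pderiv l (h a b)
            = ∑ l, (pderiv l (h a i) * g.f l b + pderiv l (h a b) * g.f i l) := by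
          rw [Finset.sum_add_distrib]
          congr 1
          exact Finset.sum_congr rfl fun l _ => mul_comm _ _
        rw [h2]
        exact h1
      · intro i b
        have h1 := hCF.com a (σ b) i
        have h2 : ∑ l, pderiv l (h a i) * h (σ b) l = vf (h (σ b)) (h a i) := by
          unfold vf
          exact Finset.sum_congr rfl fun l _ => mul_comm _ _
        simp only [mul_zero, Finset.sum_const_zero, add_zero]
        rw [h2]
        exact h1
      · intro i
        simp only [mul_zero, Finset.sum_const_zero, add_zero]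
        rw [vf_X, euler1 _ (hCF.lin a i), sub_self]
        exact I.zero_mem
    · -- the Euler field
      intro c
      have hcx := hcol (Fin.natAdd (N + k) c)
      simp only [th_x] at hcx ⊢
      refine app hMNG I P g (fun a => h (σ a)) hIP (fun i => X i) hcx
        (fun i l => if i = l then 1 else 0) (fun l b => if l = b then 1 else 0)
        (fun _ _ => 0) (fun _ => 0) ?_ ?_ ?_
      · intro i b
        rw [sum_ite_l i (fun l => g.f l b), sum_ite_r b 1 (fun l => g.f i l)]
        have h2 : vf (fun i => X i) (g.f i b) = 2 * g.f i b := by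
          rw [← euler2]
          unfold vf
          exact Finset.sum_congr rfl fun l _ => mul_comm _ _
        rw [h2]
        have : 2 * g.f i b - (g.f i b + g.f i b * 1) = 0 := by ring
        rw [this]
        exact I.zero_mem
      · intro i b
        rw [sum_ite_l i (fun l => h (σ b) l)]
        simp only [mul_zero, Finset.sum_const_zero, add_zero]
        have h2 : vf (fun i => X i) (h (σ b) i) = h (σ b) i := by
          conv_rhs => rw [← euler1 _ (hCF.lin (σ b) i)]
          unfold vf
          exact Finset.sum_congr rfl fun l _ => mul_comm _ _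
        rw [h2, sub_self]
        exact I.zero_mem
      · intro i
        rw [sum_ite_l i (fun l => X l)]
        simp only [mul_zero, Finset.sum_const_zero, add_zero]
        rw [vf_X, sub_self]
        exact I.zero_mem
  intro q hq j
  exact key j q hq

end Pool.Agent.Lib.MPc9b009.LS
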