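import Pool.Agent.Lib.MP_c9b009_ag.LS.Spec

/-!
# LS / TRC: traces of 1-forms are regular
-/

set_option autoImplicit false

namespace Pool.Agent.Lib.MPc9b009.LS

open MvPolynomial Pool.Agent.Lib.MPc9b009.B5 Pool.Agent.Lib.MPc9b009.OD
  Pool.Agent.Lib.MPc9b009.PS

namespace TRCM

theorem det_unit_rows {n : ℕ} {R : Type} [CommRing R] (i : Fin n) (v : Fin n → R) :
    ((1 : Matrix (Fin n) (Fin n) R).updateRow i v).det = v i := by
  have h1 : ((1 : Matrix (Fin n) (Fin n) R).updateRow i v).det
      = ((1 : Matrix (Fin n) (Fin n) R).updateCol i v).det := by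
    rw [← Matrix.det_transpose, ← Matrix.updateCol_transpose, Matrix.transpose_one]
  rw [h1, ← Matrix.cramer_apply, Matrix.cramer_one]
  rfl

theorem tr_one {d : ℕ} (L : Type) [Field L]
    [Algebra (PR d) L] [Algebra (FractionRing (PR d)) L]
    [IsScalarTower (PR d) (FractionRing (PR d)) L]
    [Algebra ℂ L] [IsScalarTower ℂ (PR d) L]
    [FiniteDimensional (FractionRing (PR d)) L]
    (dd : Fin d → Derivation ℂ L L)
    (hdd : ∀ b c, dd b (algebraMap (PR d) L (X c)) = if b = c then 1 else 0)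
    (a y : L) (ha : IsIntegral (PR d) a) (hy : IsIntegral (PR d) y) (i : Fin d) :
    ∃ r : PR d, Algebra.trace (FractionRing (PR d)) L (a * dd i y) = algebraMap _ _ r := by
  have hTRA : SpecTRA := specTRA (specTRH specTRV)
  obtain ⟨r, hr⟩ := hTRA (Fin d) inferInstance inferInstance L inferInstance inferInstance
    inferInstance inferInstance inferInstance inferInstance inferInstance dd a
    (fun c => if c = i then y else algebraMap (PR d) L (X c)) hdd ha
    (by
      intro c
      by_cases hc : c = i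
      · simpa [hc] using hy
      · simpa [hc] using (isIntegral_algebraMap (R := PR d) (A := L) (x := (X c : PR d))))
  refine ⟨r, ?_⟩
  rw [← hr]
  congr 2
  have hM : (Matrix.of fun c b => dd b (if c = i then y else algebraMap (PR d) L (X c)))
      = (1 : Matrix (Fin d) (Fin d) L).updateRow i (fun b => dd b y) := by
    ext c b
    rw [Matrix.of_apply, Matrix.updateRow_apply]
    by_cases hc : c = i
    · rw [if_pos hc, if_pos hc]
    · rw [if_neg hc, if_neg hc, hdd, Matrix.one_apply]
      by_cases hb : b = c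
      · rw [if_pos hb, if_pos hb.symm]
      · rw [if_neg hb, if_neg (fun h => hb h.symm)]
  rw [hM, det_unit_rows]

theorem red {d : ℕ} (t : FractionRing (PR d))
    (h : ∀ ϖ : PR d, Prime ϖ → ∃ s r : PR d, ¬ ϖ ∣ s ∧
      algebraMap (PR d) (FractionRing (PR d)) s * t = algebraMap _ _ r) :
    ∃ r : PR d, t = algebraMap _ _ r := by
  obtain ⟨a, b, hab, hmk⟩ := IsFractionRing.exists_reduced_fraction (A := PR d) t
  have hinj : Function.Injective (algebraMap (PR d) (FractionRing (PR d))) :=
    IsFractionRing.injective _ _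
  have hb0 : (b : PR d) ≠ 0 := nonZeroDivisors.coe_ne_zero b
  have hta : algebraMap (PR d) (FractionRing (PR d)) b * t = algebraMap _ _ a := by
    rw [← hmk, mul_comm]
    exact IsLocalization.mk'_spec _ _ _
  have hu : IsUnit (b : PR d) := by
    by_contra hnu
    obtain ⟨ϖ, hϖ, hdvd⟩ := WfDvdMonoid.exists_irreducible_factor hnu hb0
    have hp : Prime ϖ := UniqueFactorizationMonoid.irreducible_iff_prime.1 hϖ
    obtain ⟨s, r, hs, hsr⟩ := h ϖ hp
    have h1 : s * a = r * b := by
      apply hinj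
      rw [map_mul, map_mul, ← hta, ← hsr]
      ring
    have h2 : (b : PR d) ∣ s := by
      have h3 : (b : PR d) ∣ s * a := ⟨r, by rw [h1, mul_comm]⟩
      exact hab.symm.dvd_of_dvd_mul_right h3
    exact hs (hdvd.trans h2)
  obtain ⟨u, hu⟩ := hu
  refine ⟨a * ((u⁻¹ : (PR d)ˣ) : PR d), ?_⟩
  have h4 : algebraMap (PR d) (FractionRing (PR d)) b ≠ 0 := by
    intro h0
    exact hb0 (hinj (h0.trans (map_zero _).symm))
  apply mul_left_cancel₀ h4
  rw [hta, ← map_mul]
  congr 1
  rw [← hu]
  have h5 : (u : PR d) * ((u⁻¹ : (PR d)ˣ) : PR d) = 1 := Units.mul_inv u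
  calc a = ((u : PR d) * ((u⁻¹ : (PR d)ˣ) : PR d)) * a := by rw [h5, one_mul]
    _ = (u : PR d) * (a * ((u⁻¹ : (PR d)ˣ) : PR d)) := by ring

end TRCM

theorem specTRC : SpecTRC := by
  intro N d L iL iA iF iT iC iC' iFD dd x θ hdd hx hp j i
  apply TRCM.red
  intro ϖ hϖ
  obtain ⟨s, u, hs, hu, hsu⟩ := hp ϖ hϖ
  have h1 : ∀ l, ∃ r : PR d, Algebra.trace (FractionRing (PR d)) L (x j * u l * dd i (x l))
      = algebraMap _ _ r := fun l =>
    TRCM.tr_one L dd hdd (x j * u l) (x l) ((hx j).mul (hu l)) (hx l) i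
  choose r hr using h1
  refine ⟨s, ∑ l, r l, hs, ?_⟩
  have h2 : algebraMap (PR d) L s * (x j * θ i) = ∑ l, x j * u l * dd i (x l) := by
    calc algebraMap (PR d) L s * (x j * θ i) = x j * (algebraMap (PR d) L s * θ i) := by ring
      _ = ∑ l, x j * u l * dd i (x l) := by
        rw [hsu i, Finset.mul_sum]
        exact Finset.sum_congr rfl fun l _ => by ring
  have h3 : algebraMap (PR d) L s * (x j * θ i)
      = (algebraMap (PR d) (FractionRing (PR d)) s) • (x j * θ i) := by
    rw [Algebra.smul_def, ← IsScalarTower.algebraMap_apply]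
  rw [map_sum, ← smul_eq_mul, ← map_smul, ← h3, h2, map_sum]
  exact Finset.sum_congr rfl fun l _ => hr l

end Pool.Agent.Lib.MPc9b009.LS
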