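import Pool.Agent.Lib.MP_c9b009_ag.LS.Spec

/-!
# MP_c9b009_ag, row LS, module TRE: homogeneity of the traces

The trace of an element `w` with `E w = 0` is a multiple of a coefficient of its minimal polynomial; the
coefficients of the minimal polynomial are killed by `E`.
-/

set_option autoImplicit false

namespace Pool.Agent.Lib.MPc9b009.LS

open MvPolynomial Pool.Agent.Lib.MPc9b009.B5 Pool.Agent.Lib.MPc9b009.OD
  Pool.Agent.Lib.MPc9b009.PS

namespace TREM

/-- The coefficients of the minimal polynomial of a constant are constants. -/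
theorem coeff_const {K L : Type} [Field K] [Field L] [Algebra K L] [FiniteDimensional K L]
    (E : L →+ L) (hE : ∀ a b, E (a * b) = a * E b + b * E a) (E₀ : K → K)
    (hE₀ : ∀ a, E (algebraMap K L a) = algebraMap K L (E₀ a)) (w : L) (hw : E w = 0) (k : ℕ) :
    E (algebraMap K L ((minpoly K w).coeff k)) = 0 := by
  classical
  have hE1 : E 1 = 0 := by
    have h := hE 1 1
    rw [one_mul, one_mul] at h
    exact left_eq_add.1 h
  have hpow : ∀ n : ℕ, E (w ^ n) = 0 := by
    intro n
    induction n with
    | zero => rw [pow_zero, hE1]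
    | succ n ih => rw [pow_succ, hE, hw, ih, mul_zero, mul_zero, add_zero]
  have h0 : E₀ 0 = 0 := by
    have h := hE₀ 0
    rw [map_zero, map_zero] at h
    exact (map_eq_zero _).1 h.symm
  have h1 : E₀ 1 = 0 := by
    have h := hE₀ 1
    rw [map_one, hE1] at h
    exact (map_eq_zero _).1 h.symm
  set p := minpoly K w with hp
  have hint : IsIntegral K w := IsIntegral.of_finite K w
  have hpm : p.Monic := minpoly.monic hint
  set n := p.natDegree with hn
  let q : Polynomial K := ∑ i ∈ Finset.range n, Polynomial.C (E₀ (p.coeff i)) * Polynomial.X ^ i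
  have hq : Polynomial.aeval w q = 0 := by
    have h2 : Polynomial.aeval w p = 0 := minpoly.aeval K w
    have h3 : E (Polynomial.aeval w p) = 0 := by rw [h2, map_zero]
    rw [Polynomial.aeval_eq_sum_range, map_sum, ← hn, Finset.sum_range_succ] at h3
    have h4 : E (p.coeff n • w ^ n) = 0 := by
      rw [hn, hpm.coeff_natDegree, one_smul]
      exact hpow _
    rw [h4, add_zero] at h3
    rw [map_sum, ← h3]
    refine Finset.sum_congr rfl (fun i _ => ?_)
    rw [map_mul, Polynomial.aeval_C, map_pow, Polynomial.aeval_X, Algebra.smul_def, hE, hpow,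
      mul_zero, zero_add, hE₀, mul_comm]
  have hq0 : q = 0 := by
    by_contra hne
    have h2 := minpoly.degree_le_of_ne_zero K w hne hq
    have h3 : q.degree < (n : WithBot ℕ) := by
      refine (Polynomial.degree_sum_le _ _).trans_lt ?_
      refine (Finset.sup_lt_iff (WithBot.bot_lt_coe n)).2 (fun i hi => ?_)
      refine (Polynomial.degree_C_mul_X_pow_le _ _).trans_lt ?_
      exact WithBot.coe_lt_coe.2 (Finset.mem_range.1 hi)
    have h4 : p.degree = (n : WithBot ℕ) := Polynomial.degree_eq_natDegree hpm.ne_zero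
    rw [← hp, h4] at h2
    exact absurd (h2.trans_lt h3) (lt_irrefl _)
  have hqk : q.coeff k = if k < n then E₀ (p.coeff k) else 0 := by
    simp only [q, Polynomial.finsetSum_coeff, Polynomial.coeff_C_mul, Polynomial.coeff_X_pow,
      mul_ite, mul_one, mul_zero, Finset.sum_ite_eq, Finset.mem_range]
  rw [hE₀]
  rcases lt_trichotomy k n with h | h | h
  · rw [if_pos h, hq0, Polynomial.coeff_zero] at hqk
    rw [← hqk, map_zero]
  · rw [h, hn, hpm.coeff_natDegree, h1, map_zero]
  · rw [Polynomial.coeff_eq_zero_of_natDegree_lt h, h0, map_zero]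

/-- The trace of a constant is a constant. -/
theorem trace_const {K L : Type} [Field K] [Field L] [Algebra K L] [FiniteDimensional K L]
    (E : L →+ L) (hE : ∀ a b, E (a * b) = a * E b + b * E a) (E₀ : K → K)
    (hE₀ : ∀ a, E (algebraMap K L a) = algebraMap K L (E₀ a)) (w : L) (hw : E w = 0) :
    E (algebraMap K L (Algebra.trace K L w)) = 0 := by
  have hE1 : E 1 = 0 := by
    have h := hE 1 1
    rw [one_mul, one_mul] at h
    exact left_eq_add.1 h
  have hnat : ∀ m : ℕ, E (m : L) = 0 := by
    intro m
    have : (m : L) = m • (1 : L) := by rw [nsmul_eq_mul, mul_one]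
    rw [this, map_nsmul, hE1, smul_zero]
  have hnc : ∃ k, (minpoly K w).nextCoeff = (minpoly K w).coeff k ∨
      (minpoly K w).nextCoeff = 0 := by
    refine ⟨(minpoly K w).natDegree - 1, ?_⟩
    rw [Polynomial.nextCoeff]
    split_ifs
    · right; rfl
    · left; rfl
  have h2 : E (algebraMap K L ((minpoly K w).nextCoeff)) = 0 := by
    obtain ⟨k, h | h⟩ := hnc
    · rw [h]
      exact coeff_const E hE E₀ hE₀ w hw k
    · rw [h, map_zero, map_zero]
  rw [trace_eq_finrank_mul_minpoly_nextCoeff, map_mul, map_natCast, map_neg, hE, hnat, map_neg, h2,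
    neg_zero, mul_zero, mul_zero, add_zero]

theorem euler_coeff {d : ℕ} (r : PR d) (m : Fin d →₀ ℕ) :
    coeff m (∑ b, X b * pderiv b r) = (∑ b, (m b : ℂ)) * coeff m r := by
  induction r using MvPolynomial.induction_on' with
  | monomial s a =>
    have h1 : ∀ b : Fin d, X b * pderiv b (monomial s a) = monomial s (a * (s b : ℂ)) := by
      intro b
      rw [pderiv_monomial]
      by_cases hb : s b = 0
      · rw [hb]
        simp
      · rw [X, monomial_mul, one_mul, add_tsub_cancel_of_le
          (Finsupp.single_le_iff.2 (Nat.one_le_iff_ne_zero.2 hb))]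
    rw [Finset.sum_congr rfl (fun b _ => h1 b), coeff_sum]
    simp only [coeff_monomial]
    by_cases hs : s = m
    · subst hs
      simp only [if_true, Finset.sum_mul]
      exact Finset.sum_congr rfl (fun b _ => mul_comm _ _)
    · simp only [if_neg hs, Finset.sum_const_zero, mul_zero]
  | add p q hp hq =>
    simp only [map_add, mul_add, Finset.sum_add_distrib, coeff_add] at hp hq ⊢
    rw [hp, hq]

/-- A polynomial of degree `0` for the Euler field. -/
theorem euler_zero {d : ℕ} (r : PR d) (h : ∑ b, X b * pderiv b r = 0) : ∃ c : ℂ, r = C c := by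
  refine ⟨coeff 0 r, ?_⟩
  refine MvPolynomial.ext _ _ (fun m => ?_)
  rw [coeff_C]
  split_ifs with hm
  · rw [← hm]
  · have h1 := euler_coeff r m
    rw [h, coeff_zero] at h1
    have h2 : (∑ b, (m b : ℂ)) ≠ 0 := by
      intro h3
      apply hm
      have h4 : (∑ b, m b) = 0 := by exact_mod_cast h3
      refine (Finsupp.ext (fun b => ?_)).symm
      exact Finset.sum_eq_zero_iff.1 h4 b (Finset.mem_univ b)
    rcases mul_eq_zero.1 h1.symm with h3 | h3
    · exact absurd h3 h2
    · exact h3

end TREM

open TREM

theorem specTRE : SpecTRE := by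
  classical
  intro N d L iF iAR iAF iT iC iTC iFin E x θ hE hx hθ hsum hr j i
  let K := FractionRing (PR d)
  let φ : PR d →ₐ[ℂ] L := IsScalarTower.toAlgHom ℂ (PR d) L
  have hφ : ∀ r, algebraMap (PR d) L r = φ r := fun _ => rfl
  have hEpoly : ∀ r : PR d, E (algebraMap (PR d) L r) =
      algebraMap (PR d) L (∑ b, X b * pderiv b r) := by
    intro r
    rw [hφ, B5.BSTM.der_poly φ E r, hφ, map_sum]
    refine Finset.sum_congr rfl (fun b _ => ?_)
    rw [← hφ (X b), hE, hφ, map_mul, mul_comm]
  have hinj : Function.Injective (algebraMap (PR d) L) := by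
    rw [IsScalarTower.algebraMap_eq (PR d) K L]
    exact (algebraMap K L).injective.comp (IsFractionRing.injective (PR d) K)
  have hEK : ∀ a : K, ∃ b : K, E (algebraMap K L a) = algebraMap K L b := by
    intro a
    obtain ⟨p, q, hq, rfl⟩ := IsFractionRing.div_surjective (A := PR d) a
    have hq0 : algebraMap (PR d) L q ≠ 0 := by
      intro h
      exact (nonZeroDivisors.ne_zero hq) (hinj (h.trans (map_zero _).symm))
    refine ⟨(algebraMap (PR d) K q * algebraMap (PR d) K (∑ b, X b * pderiv b p) -
      algebraMap (PR d) K p * algebraMap (PR d) K (∑ b, X b * pderiv b q)) /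
        (algebraMap (PR d) K q) ^ 2, ?_⟩
    simp only [map_div₀, map_sub, map_mul, map_pow, ← IsScalarTower.algebraMap_apply (PR d) K L]
    rw [Derivation.leibniz_div, hEpoly, hEpoly]
    simp only [smul_eq_mul]
    field_simp
  choose E₀ hE₀ using hEK
  have hmain : ∀ j i, ∃ c : ℂ, Algebra.trace K L (x j * θ i) = algebraMap (PR d) K (C c) := by
    intro j i
    obtain ⟨r, hr⟩ := hr j i
    have h1 : E (x j * θ i) = 0 := by
      rw [Derivation.leibniz, hx, hθ, smul_eq_mul, smul_eq_mul]
      ring
    have h2 := trace_const (K := K) (E : L →+ L) (fun a b => E.leibniz a b) E₀ hE₀ (x j * θ i) h1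
    have h3 : E (algebraMap (PR d) L r) = 0 := by
      rw [IsScalarTower.algebraMap_apply (PR d) K L, ← hr]
      exact h2
    rw [hEpoly] at h3
    obtain ⟨c, hc⟩ := euler_zero r (hinj (h3.trans (map_zero _).symm))
    exact ⟨c, by rw [hr, hc]⟩
  choose c hc using hmain
  have hs : ∑ i, X i * C (c j i) = (0 : PR d) := by
    apply IsFractionRing.injective (PR d) K
    rw [map_sum, map_zero]
    have h1 : Algebra.trace K L (x j * ∑ i, algebraMap (PR d) L (X i) * θ i) = 0 := by
      rw [hsum, mul_zero, map_zero]
    rw [Finset.mul_sum, map_sum] at h1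
    rw [← h1]
    refine Finset.sum_congr rfl (fun i _ => ?_)
    rw [map_mul, ← hc, ← smul_eq_mul (algebraMap (PR d) K (X i)), ← map_smul]
    congr 1
    rw [Algebra.smul_def, ← IsScalarTower.algebraMap_apply (PR d) K L]
    ring
  have hci : c j i = 0 := by
    have h1 := congrArg (coeff (Finsupp.single i 1)) hs
    rw [coeff_sum, coeff_zero, Finset.sum_eq_single i] at h1
    · rw [mul_comm, coeff_C_mul, coeff_X, if_pos rfl, mul_one] at h1
      exact h1
    · intro b _ hb
      rw [mul_comm, coeff_C_mul, coeff_X', if_neg, mul_zero]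
      intro h
      exact hb (Finsupp.single_left_injective one_ne_zero h)
    · intro h
      exact absurd (Finset.mem_univ i) h
  rw [hc, hci, map_zero, map_zero]

end Pool.Agent.Lib.MPc9b009.LS
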