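import Pool.Agent.Lib.MP_c9b009_ag.LS.Spec

/-!
# MP_c9b009_ag, row LS, module TRL: the trace lemma
-/

set_option autoImplicit false

namespace Pool.Agent.Lib.MPc9b009.LS

open MvPolynomial Pool.Agent.Lib.MPc9b009.B5 Pool.Agent.Lib.MPc9b009.OD
  Pool.Agent.Lib.MPc9b009.PS

namespace TRLM

/-- Noether normalization, abstract form. -/
theorem noether_abs {N n : ℕ} {A L : Type} [CommRing A] [IsDomain A] [Algebra ℂ A]
    [Field L] [Algebra A L] [IsFractionRing A L] [Algebra ℂ L] [IsScalarTower ℂ A L]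
    (φ₀ : MvPolynomial (Fin N) ℂ →ₐ[ℂ] A) (hφ₀ : Function.Surjective φ₀)
    (y : Fin n → A) (hai : AlgebraicIndependent ℂ y)
    (hint1 : ∀ z : A, IsIntegral (Algebra.adjoin ℂ (Set.range y)) z) :
    ∃ (_ : Algebra (MvPolynomial (Fin n) ℂ) L)
      (_ : Algebra (FractionRing (MvPolynomial (Fin n) ℂ)) L)
      (_ : IsScalarTower (MvPolynomial (Fin n) ℂ) (FractionRing (MvPolynomial (Fin n) ℂ)) L)
      (_ : IsScalarTower ℂ (MvPolynomial (Fin n) ℂ) L)
      (_ : FiniteDimensional (FractionRing (MvPolynomial (Fin n) ℂ)) L),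
      (∀ b, algebraMap (MvPolynomial (Fin n) ℂ) L (X b) = algebraMap A L (y b)) ∧
      (∀ z : A, IsIntegral (MvPolynomial (Fin n) ℂ) (algebraMap A L z)) := by
  let φ : MvPolynomial (Fin n) ℂ →ₐ[ℂ] A := aeval y
  have hφ : Function.Injective φ := hai
  let iRL : Algebra (MvPolynomial (Fin n) ℂ) L :=
    ((algebraMap A L).comp φ.toRingHom).toAlgebra
  have hRL : ∀ f, algebraMap (MvPolynomial (Fin n) ℂ) L f
      = algebraMap A L (φ f) := fun _ => rfl
  have hinj : Function.Injective (algebraMap (MvPolynomial (Fin n) ℂ) L) :=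
    (IsFractionRing.injective A L).comp hφ
  have iFs : FaithfulSMul (MvPolynomial (Fin n) ℂ) L :=
    (faithfulSMul_iff_algebraMap_injective _ _).2 hinj
  let iFL : Algebra (FractionRing (MvPolynomial (Fin n) ℂ)) L :=
    FractionRing.liftAlgebra (MvPolynomial (Fin n) ℂ) L
  have iT : IsScalarTower (MvPolynomial (Fin n) ℂ)
      (FractionRing (MvPolynomial (Fin n) ℂ)) L :=
    FractionRing.isScalarTower_liftAlgebra _ L
  have iC : IsScalarTower ℂ (MvPolynomial (Fin n) ℂ) L := by
    apply IsScalarTower.of_algebraMap_eq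
    intro a
    rw [hRL]
    have h1 : φ (algebraMap ℂ (MvPolynomial (Fin n) ℂ) a) = algebraMap ℂ A a :=
      φ.commutes a
    rw [h1, ← IsScalarTower.algebraMap_apply ℂ A L]
  have hint' : ∀ z : A, IsIntegral (MvPolynomial (Fin n) ℂ) (algebraMap A L z) := by
    intro z
    obtain ⟨P, hPm, hP⟩ := hint1 z
    have hrange : ∀ b : Algebra.adjoin ℂ (Set.range y), ∃ f : MvPolynomial (Fin n) ℂ,
        φ f = b := by
      rintro ⟨b, hb⟩
      rw [Algebra.adjoin_range_eq_range_aeval] at hb
      exact hb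
    have h2 : φ.toRingHom.IsIntegralElem z := by
      choose g hg using hrange
      refine ⟨?_, ?_, ?_⟩
      · exact (Polynomial.X ^ P.natDegree + ∑ i ∈ Finset.range P.natDegree,
          Polynomial.C (g (P.coeff i)) * Polynomial.X ^ i)
      · apply Polynomial.monic_X_pow_add
        apply (Polynomial.degree_sum_le _ _).trans_lt
        rw [Finset.sup_lt_iff]
        · intro i hi
          refine lt_of_le_of_lt (Polynomial.degree_C_mul_X_pow_le _ _) ?_
          exact_mod_cast Finset.mem_range.1 hi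
        · exact WithBot.bot_lt_coe _
      · have h4 : Polynomial.eval₂ (algebraMap (Algebra.adjoin ℂ (Set.range y)) A) z P = 0 := hP
        rw [Polynomial.eval₂_eq_sum_range, Finset.sum_range_succ,
          Polynomial.Monic.coeff_natDegree hPm, map_one, one_mul] at h4
        rw [Polynomial.eval₂_add, Polynomial.eval₂_X_pow, Polynomial.eval₂_finsetSum, ← h4,
          add_comm]
        congr 1
        refine Finset.sum_congr rfl fun i _ => ?_
        rw [Polynomial.eval₂_mul, Polynomial.eval₂_C, Polynomial.eval₂_X_pow]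
        congr 1
        exact hg (P.coeff i)
    obtain ⟨P', hP'm, hP'⟩ := h2
    refine ⟨P', hP'm, ?_⟩
    have h5 : algebraMap (MvPolynomial (Fin n) ℂ) L =
        (algebraMap A L).comp φ.toRingHom := rfl
    rw [h5, ← Polynomial.hom_eval₂, hP', map_zero]
  have hfd : FiniteDimensional (FractionRing (MvPolynomial (Fin n) ℂ)) L :=
    BSTM.fin_dim (A := A) (L := L) φ₀ hφ₀ hint'
  refine ⟨iRL, iFL, iT, iC, hfd, ?_, ?_⟩
  · intro b
    rw [hRL]
    congr 1
    exact aeval_X y _
  · intro z
    exact hint' _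

theorem lin_hom {N : ℕ} {e : ℕ} (a : Fin N → ℂ) (p : Fin N → PR N)
    (hp : ∀ k, (p k).IsHomogeneous e) : (∑ k, C (a k) * p k).IsHomogeneous e := by
  apply IsHomogeneous.sum
  intro k _
  have := (isHomogeneous_C (Fin N) (a k)).mul (hp k)
  rwa [zero_add] at this

theorem hom_one {N : ℕ} (p : PR N) (hp : p.IsHomogeneous 1) :
    ∃ a : Fin N → ℂ, p = ∑ m, C (a m) * X m := by
  have h1 := hp.sum_X_mul_pderiv
  rw [one_smul] at h1
  refine ⟨fun m => coeff 0 (pderiv m p), ?_⟩
  conv_lhs => rw [← h1]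
  refine Finset.sum_congr rfl fun m _ => ?_
  have h2 : (pderiv m p).IsHomogeneous 0 := hp.pderiv
  have h3 : pderiv m p = C (coeff 0 (pderiv m p)) := by
    apply totalDegree_eq_zero_iff_eq_C.1
    exact Nat.le_zero.1 h2.totalDegree_le
  rw [mul_comm]
  congr 1

/-- The trace lemma after the Noether normalization. -/
theorem core {N r d : ℕ} {L : Type} [Field L] [Algebra (PR d) L]
    [Algebra (FractionRing (PR d)) L] [IsScalarTower (PR d) (FractionRing (PR d)) L]
    [Algebra ℂ L] [IsScalarTower ℂ (PR d) L] [FiniteDimensional (FractionRing (PR d)) L]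
    (hTRC : SpecTRC) (hTRE : SpecTRE) (P : Ideal (PR N))
    (φ : PR N →ₐ[ℂ] L) (hP : ∀ q ∈ P, φ q = 0) (l : Fin d → Fin N → ℂ)
    (hX : ∀ b, algebraMap (PR d) L (X b) = φ (∑ k, C (l b k) * X k))
    (hint : ∀ q, IsIntegral (PR d) (φ q))
    (π : Fin N → Fin r → PR N) (e : Fin r → ℕ) (hdeg : ∀ i j, (π i j).IsHomogeneous (e j))
    (δE : Derivation ℂ L L) (hδE : ∀ k, δE (φ (X k)) = φ (X k))
    (δ : Fin r → Derivation ℂ L L) (hδ : ∀ j k, δ j (φ (X k)) = φ (π k j))
    (hmin : ∃ (A : Fin d → Fin N) (J : Fin d → Fin r), φ (mnr π A J) ≠ 0)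
    (hcop : ∀ ϖ : PR d, Prime ϖ → ∃ s : PR d, ¬ ϖ ∣ s ∧
      aeval (fun b => ∑ k, C (l b k) * X k) s ∈ P ⊔ mnI d π)
    (θ : (Fin N → L) →ₗ[L] L) (c : Fin r → ℂ)
    (hθ : ∀ j, θ (fun i => φ (π i j)) = algebraMap ℂ L (c j))
    (hθx : θ (fun i => φ (X i)) = 0)
    (hc : ∀ j, c j ≠ 0 → e j = 1) : ∀ j, c j = 0 := by
  obtain ⟨dd, hdd, hdec⟩ := specDEX (Fin d) inferInstance inferInstance L inferInstance
    inferInstance inferInstance inferInstance inferInstance inferInstance inferInstance
  obtain ⟨th, hth⟩ : ∃ th : Fin d → L, ∀ i, th i = θ (fun l => dd i (φ (X l))) :=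
    ⟨_, fun _ => rfl⟩
  have hTh : ∀ D : Derivation ℂ L L, θ (fun l => D (φ (X l)))
      = ∑ i, D (algebraMap (PR d) L (X i)) * th i := by
    intro D
    have h1 : (fun l => D (φ (X l)))
        = ∑ i, D (algebraMap (PR d) L (X i)) • (fun l => dd i (φ (X l))) := by
      funext m
      rw [hdec D (φ (X m)), Finset.sum_apply]
      rfl
    rw [h1, map_sum]
    refine Finset.sum_congr rfl fun i _ => ?_
    rw [map_smul, smul_eq_mul, hth]
  have hcj : ∀ j, algebraMap ℂ L (c j) = ∑ i, δ j (algebraMap (PR d) L (X i)) * th i := by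
    intro j
    rw [← hTh, ← hθ j]
    congr 1
    funext i
    rw [hδ]
  -- the matrices
  have hTB : ∀ (A : Fin d → Fin N) (J : Fin d → Fin r),
      (Matrix.of fun b a => π (A a) (J b)).map φ =
      (Matrix.of fun b i => δ (J b) (algebraMap (PR d) L (X i)) : Matrix (Fin d) (Fin d) L) *
      (Matrix.of fun i a => dd i (φ (X (A a))) : Matrix (Fin d) (Fin d) L) := by
    intro A J
    ext b a
    rw [Matrix.map_apply, Matrix.of_apply, Matrix.mul_apply, ← hδ, hdec]
    rfl
  have hdet : ∀ (A : Fin d → Fin N) (J : Fin d → Fin r), φ (mnr π A J) =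
      (Matrix.of fun b i => δ (J b) (algebraMap (PR d) L (X i)) : Matrix (Fin d) (Fin d) L).det *
      (Matrix.of fun i a => dd i (φ (X (A a))) : Matrix (Fin d) (Fin d) L).det := by
    intro A J
    rw [← Matrix.det_mul, ← hTB]
    have h1 : mnr π A J = (Matrix.of fun b a => π (A a) (J b)).det := by
      unfold mnr
      rw [← Matrix.det_transpose]
      rfl
    rw [h1]
    exact RingHom.map_det φ.toRingHom _
  have hA : ∀ (A : Fin d → Fin N) (J : Fin d → Fin r), ∃ u : Fin N → PR N,
      ∀ i, φ (mnr π A J) * th i = ∑ l, φ (u l) * dd i (φ (X l)) := by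
    intro A J
    obtain ⟨T, hT⟩ : ∃ T : Matrix (Fin d) (Fin d) (PR N), T = Matrix.of fun b a => π (A a) (J b) :=
      ⟨_, rfl⟩
    obtain ⟨B, hB⟩ : ∃ B : Matrix (Fin d) (Fin d) L,
        B = Matrix.of fun b i => δ (J b) (algebraMap (PR d) L (X i)) := ⟨_, rfl⟩
    obtain ⟨K, hK⟩ : ∃ K : Matrix (Fin d) (Fin d) L,
        K = Matrix.of fun i a => dd i (φ (X (A a))) := ⟨_, rfl⟩
    have h1 := hTB A J
    have h2 := hdet A J
    rw [← hT, ← hB, ← hK] at h1
    rw [← hB, ← hK] at h2
    obtain ⟨u0, hu0⟩ : ∃ u0 : Fin d → PR N,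
        u0 = T.adjugate.mulVec (fun b => C (c (J b))) := ⟨_, rfl⟩
    refine ⟨fun l => ∑ a, if A a = l then u0 a else 0, fun i => ?_⟩
    have h3 : ∑ l, φ (∑ a, if A a = l then u0 a else 0) * dd i (φ (X l))
        = ∑ a, K i a * φ (u0 a) := by
      simp only [map_sum, Finset.sum_mul]
      rw [Finset.sum_comm]
      refine Finset.sum_congr rfl fun a _ => ?_
      rw [Finset.sum_eq_single (A a)]
      · rw [if_pos rfl, hK, Matrix.of_apply, mul_comm]
      · intro k _ hk
        rw [if_neg (Ne.symm hk), map_zero, zero_mul]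
      · intro h
        exact absurd (Finset.mem_univ _) h
    rw [h3]
    have h4 : (fun a => φ (u0 a)) = (B * K).adjugate.mulVec (B.mulVec th) := by
      have h5 : B.mulVec th = fun b => φ (C (c (J b))) := by
        funext b
        have h6 : φ (C (c (J b))) = algebraMap ℂ L (c (J b)) := φ.commutes _
        rw [h6, hcj, hB]
        rfl
      rw [h5, ← h1, hu0]
      funext a
      have h7 : (T.map φ).adjugate = T.adjugate.map φ := (RingHom.map_adjugate φ.toRingHom T).symm
      rw [h7]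
      simp only [Matrix.mulVec, dotProduct, map_sum, map_mul, Matrix.map_apply]
    have h8 : ∑ a, K i a * φ (u0 a) = (K.mulVec ((B * K).adjugate.mulVec (B.mulVec th))) i := by
      rw [← h4]
      rfl
    rw [h8, Matrix.mulVec_mulVec, Matrix.mulVec_mulVec, Matrix.adjugate_mul_distrib, ← mul_assoc,
      Matrix.mul_adjugate, mul_assoc, Matrix.adjugate_mul, h2]
    simp only [Matrix.smul_mul, Matrix.mul_smul, Matrix.one_mul, smul_smul, Matrix.smul_mulVec,
      Matrix.one_mulVec, Pi.smul_apply, smul_eq_mul]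
  have hI : ∀ y ∈ P ⊔ mnI d π, ∃ u : Fin N → PR N,
      ∀ i, φ y * th i = ∑ l, φ (u l) * dd i (φ (X l)) := by
    intro y hy
    obtain ⟨p, hp, m, hm, rfl⟩ := Submodule.mem_sup.1 hy
    have h1 : ∃ u : Fin N → PR N, ∀ i, φ m * th i = ∑ l, φ (u l) * dd i (φ (X l)) := by
      unfold mnI at hm
      refine Submodule.span_induction ?_ ?_ ?_ ?_ hm
      · rintro x ⟨A, J, rfl⟩
        exact hA A J
      · exact ⟨0, fun i => by simp⟩
      · rintro x y _ _ ⟨u, hu⟩ ⟨v, hv⟩
        refine ⟨u + v, fun i => ?_⟩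
        rw [map_add, add_mul, hu, hv, ← Finset.sum_add_distrib]
        refine Finset.sum_congr rfl fun l _ => ?_
        rw [Pi.add_apply, map_add, add_mul]
      · rintro a x _ ⟨u, hu⟩
        refine ⟨fun l => a * u l, fun i => ?_⟩
        rw [smul_eq_mul, map_mul, mul_assoc, hu, Finset.mul_sum]
        refine Finset.sum_congr rfl fun l _ => ?_
        rw [map_mul, mul_assoc]
    obtain ⟨u, hu⟩ := h1
    refine ⟨u, fun i => ?_⟩
    rw [map_add, hP p hp, zero_add, hu]
  -- traces are polynomials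
  have hs : ∀ s : PR d, algebraMap (PR d) L s
      = φ (aeval (fun b => ∑ k, C (l b k) * X k) s) := by
    intro s
    have h1 : IsScalarTower.toAlgHom ℂ (PR d) L
        = φ.comp (aeval (fun b => ∑ k, C (l b k) * X k)) := by
      apply MvPolynomial.algHom_ext
      intro b
      rw [AlgHom.comp_apply, aeval_X]
      exact hX b
    exact congrArg (fun f : PR d →ₐ[ℂ] L => f s) h1
  have htr1 := hTRC N d L inferInstance inferInstance inferInstance inferInstance inferInstance
    inferInstance inferInstance dd (fun l => φ (X l)) th hdd (fun l => hint _) (by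
      intro ϖ hϖ
      obtain ⟨s, hsd, hsm⟩ := hcop ϖ hϖ
      obtain ⟨u, hu⟩ := hI _ hsm
      refine ⟨s, fun l => φ (u l), hsd, fun l => hint _, fun i => ?_⟩
      rw [hs, hu])
  -- the Euler field
  have hE : ∀ (n : ℕ) (g : PR N), g.IsHomogeneous n → δE (φ g) = (n : L) * φ g := by
    intro n g hg
    rw [BSTM.der_poly φ δE g]
    have h1 : ∑ k, φ (pderiv k g) * δE (φ (X k)) = φ (∑ k, X k * pderiv k g) := by
      rw [map_sum]
      refine Finset.sum_congr rfl fun k _ => ?_
      rw [hδE, map_mul, mul_comm]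
    rw [h1, hg.sum_X_mul_pderiv, map_nsmul, nsmul_eq_mul]
  have hzE : ∀ b, δE (algebraMap (PR d) L (X b)) = algebraMap (PR d) L (X b) := by
    intro b
    rw [hX, hE 1 _ (lin_hom _ _ fun k => isHomogeneous_X ℂ k), Nat.cast_one, one_mul]
  have hzδ : ∀ j b, δ j (algebraMap (PR d) L (X b)) = φ (∑ k, C (l b k) * π k j) := by
    intro j b
    rw [hX, map_sum, map_sum, map_sum]
    refine Finset.sum_congr rfl fun k _ => ?_
    have h1 : φ (C (l b k)) = algebraMap ℂ L (l b k) := φ.commutes _
    rw [map_mul φ, map_mul φ, h1, ← Algebra.smul_def, ← Algebra.smul_def, Derivation.map_smul, hδ]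
  have hEδ : ∀ j b, δE (δ j (algebraMap (PR d) L (X b)))
      = (e j : L) * δ j (algebraMap (PR d) L (X b)) := by
    intro j b
    rw [hzδ]
    exact hE _ _ (lin_hom _ _ fun k => hdeg k j)
  have hψ : ∀ i, δE (th i) = - th i := by
    obtain ⟨A, J, hAJ⟩ := hmin
    obtain ⟨B, hB⟩ : ∃ B : Matrix (Fin d) (Fin d) L,
        B = Matrix.of fun b i => δ (J b) (algebraMap (PR d) L (X i)) := ⟨_, rfl⟩
    have hB0 : B.det ≠ 0 := by
      intro h0
      apply hAJ
      rw [hdet A J, ← hB, h0, zero_mul]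
    have h0 : B.mulVec (fun i => th i + δE (th i)) = 0 := by
      funext b
      have h1 := congrArg δE (hcj (J b))
      rw [Derivation.map_algebraMap, map_sum] at h1
      have h2 : ∀ i, δE (δ (J b) (algebraMap (PR d) L (X i)) * th i)
          = (e (J b) : L) * (δ (J b) (algebraMap (PR d) L (X i)) * th i)
            + δ (J b) (algebraMap (PR d) L (X i)) * δE (th i) := by
        intro i
        rw [Derivation.leibniz, hEδ, smul_eq_mul, smul_eq_mul]
        ring
      simp only [h2] at h1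
      rw [Finset.sum_add_distrib, ← Finset.mul_sum, ← hcj] at h1
      have h3 : (e (J b) : L) * algebraMap ℂ L (c (J b)) = algebraMap ℂ L (c (J b)) := by
        by_cases h4 : c (J b) = 0
        · rw [h4, map_zero, mul_zero]
        · rw [hc _ h4, Nat.cast_one, one_mul]
      rw [h3, hcj, ← Finset.sum_add_distrib] at h1
      rw [Pi.zero_apply]
      rw [h1, hB]
      simp only [Matrix.mulVec, dotProduct, Matrix.of_apply]
      refine Finset.sum_congr rfl fun i _ => ?_
      ring
    have h1 := Matrix.eq_zero_of_mulVec_eq_zero hB0 h0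
    intro i
    have h2 : th i + δE (th i) = 0 := congrFun h1 i
    exact eq_neg_of_add_eq_zero_right h2
  have hsum : ∑ i, algebraMap (PR d) L (X i) * th i = 0 := by
    have h1 := hTh δE
    simp only [hδE, hzE] at h1
    rw [← h1, hθx]
  have htr0 := hTRE N d L inferInstance inferInstance inferInstance inferInstance inferInstance
    inferInstance inferInstance δE (fun l => φ (X l)) th hzE hδE hψ hsum htr1
  -- conclusion
  have htc : ∀ (a : ℂ) (y : L), Algebra.trace (FractionRing (PR d)) L (algebraMap ℂ L a * y)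
      = algebraMap (PR d) (FractionRing (PR d)) (C a)
        * Algebra.trace (FractionRing (PR d)) L y := by
    intro a y
    have h1 : algebraMap ℂ L a = algebraMap (FractionRing (PR d)) L
        (algebraMap (PR d) (FractionRing (PR d)) (C a)) := by
      rw [← IsScalarTower.algebraMap_apply (PR d) (FractionRing (PR d)) L,
        IsScalarTower.algebraMap_apply ℂ (PR d) L]
      rfl
    rw [h1, ← Algebra.smul_def, map_smul, smul_eq_mul]
  intro j
  by_contra hcj0
  have he := hc j hcj0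
  have hlin : ∀ i, ∃ a : Fin N → ℂ, ∑ k, C (l i k) * π k j = ∑ m, C (a m) * X m := by
    intro i
    apply hom_one
    rw [← he]
    exact lin_hom _ _ fun k => hdeg k j
  choose a ha using hlin
  have h1 := congrArg (Algebra.trace (FractionRing (PR d)) L) (hcj j)
  have h2 : Algebra.trace (FractionRing (PR d)) L
      (∑ i, δ j (algebraMap (PR d) L (X i)) * th i) = 0 := by
    rw [map_sum]
    apply Finset.sum_eq_zero
    intro i _
    rw [hzδ, ha, map_sum, Finset.sum_mul, map_sum]
    apply Finset.sum_eq_zero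
    intro m _
    have h3 : φ (C (a i m)) = algebraMap ℂ L (a i m) := φ.commutes _
    rw [map_mul φ, h3, mul_assoc, htc, htr0, mul_zero]
  rw [h2, ← mul_one (algebraMap ℂ L (c j)), htc] at h1
  have h4 : Algebra.trace (FractionRing (PR d)) L 1
      = (Module.finrank (FractionRing (PR d)) L : FractionRing (PR d)) := by
    have h := Algebra.trace_algebraMap (R := FractionRing (PR d)) (S := L) 1
    rw [map_one] at h
    rw [h, nsmul_eq_mul, mul_one]
  have hpos : 0 < Module.finrank (FractionRing (PR d)) L := Module.finrank_pos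
  have hch : CharZero (FractionRing (PR d)) :=
    charZero_of_injective_algebraMap (IsFractionRing.injective (PR d) (FractionRing (PR d)))
  rw [h4] at h1
  rcases mul_eq_zero.1 h1 with h5 | h5
  · have h6 := (map_eq_zero_iff _ (IsFractionRing.injective (PR d) (FractionRing (PR d)))).1 h5
    apply hcj0
    exact C_injective (Fin d) ℂ (by rw [h6, C_0])
  · have h6 : Module.finrank (FractionRing (PR d)) L = 0 := by exact_mod_cast h5
    omega

/-- A vector field which preserves `P` induces a derivation of the function field. -/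
theorem ext_vfL {N : ℕ} (p : Ideal (PR N)) (hp : p.IsPrime) {L : Type} [Field L] [Algebra ℂ L]
    [Algebra (PR N ⧸ p) L] [IsFractionRing (PR N ⧸ p) L] [IsScalarTower ℂ (PR N ⧸ p) L]
    (w : Fin N → PR N) (hw : ∀ g ∈ p, ∑ i, w i * pderiv i g ∈ p) :
    ∃ D : Derivation ℂ L L, ∀ k, D (algebraMap (PR N ⧸ p) L (Ideal.Quotient.mk p (X k)))
        = algebraMap (PR N ⧸ p) L (Ideal.Quotient.mk p (w k)) := by
  have hdom : IsDomain (PR N ⧸ p) := Ideal.Quotient.isDomain p
  let d0 : Derivation ℂ (PR N) (PR N) := mkDerivation ℂ w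
  have h0 : ∀ g, d0 g = ∑ i, w i * pderiv i g := by
    intro g
    have h := BSTM.der_poly (AlgHom.id ℂ (PR N)) d0 g
    simp only [AlgHom.id_apply] at h
    rw [h]
    refine Finset.sum_congr rfl fun k _ => ?_
    rw [mkDerivation_X, mul_comm]
  let d1 : Derivation ℂ (PR N ⧸ p) (PR N ⧸ p) :=
    Derivation.liftOfSurjective (f := Ideal.Quotient.mkₐ ℂ p) (Ideal.Quotient.mkₐ_surjective ℂ p)
      (d := d0) (by
        intro x hx
        rw [Ideal.Quotient.mkₐ_eq_mk, Ideal.Quotient.eq_zero_iff_mem] at hx ⊢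
        rw [h0]
        exact hw x hx)
  obtain ⟨D, hD⟩ := BSTM.ext_frac (K := L) d1
  refine ⟨D, fun k => ?_⟩
  rw [hD]
  congr 1
  change d1 (Ideal.Quotient.mkₐ ℂ p (X k)) = _
  rw [Derivation.liftOfSurjective_apply, mkDerivation_X, Ideal.Quotient.mkₐ_eq_mk]

theorem euler_stab {N : ℕ} (p : Ideal (PR N)) (hh : Hom p) (g : PR N) (hg : g ∈ p) :
    ∑ i, X i * pderiv i g ∈ p := by
  have h1 : ∑ i, X i * pderiv i g = ∑ n ∈ Finset.range (g.totalDegree + 1),
      C (n : ℂ) * homogeneousComponent n g := by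
    conv_lhs => rw [← sum_homogeneousComponent g]
    simp only [map_sum, Finset.mul_sum]
    rw [Finset.sum_comm]
    refine Finset.sum_congr rfl fun n _ => ?_
    rw [(homogeneousComponent_isHomogeneous n g).sum_X_mul_pderiv]
    simp
  rw [h1]
  exact Submodule.sum_mem _ fun n _ => Ideal.mul_mem_left _ _ (hh g hg n)

end TRLM

open TRLM

theorem specTRL (hCOP : SpecCOP) (hTRC : SpecTRC) (hTRE : SpecTRE) : SpecTRL := by
  intro N r d P π e hP hh htd hd2 hdeg hst hDle L iF iC φ hGen θ c hθ hθx hc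
  have hSOP := specSOP (specSEL specMONO specHMIN) specFINI
  obtain ⟨c', l, hai, hint⟩ := hSOP N 0 d P hP hh (by rw [htd, Nat.zero_add]) Empty
    inferInstance 1 (fun k => k.elim) le_rfl (fun k => k.elim) (by
      intro q hq hhq hpq _
      rw [← htd]
      exact trdeg_le_of_surjective (Ideal.Quotient.factorₐ ℂ hpq)
        (Ideal.Quotient.factor_surjective hpq))
  have hdom : IsDomain (PR N ⧸ P) := Ideal.Quotient.isDomain P
  have hai' : AlgebraicIndependent ℂ (fun j : Fin d =>
      Ideal.Quotient.mk P (∑ k, C (l j k) * X k)) := hai.comp Sum.inr Sum.inr_injective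
  have hint1 : ∀ z : PR N ⧸ P, IsIntegral (Algebra.adjoin ℂ
      (Set.range (fun j : Fin d => Ideal.Quotient.mk P (∑ k, C (l j k) * X k)))) z := by
    intro z
    have h1 := hint z
    rw [Set.Sum.elim_range, Set.range_eq_empty, Set.empty_union] at h1
    exact h1
  -- the function field
  have hφP : ∀ q ∈ P, φ q = 0 := fun q hq => (hGen.ker q).2 hq
  let φ₁ : (PR N ⧸ P) →ₐ[ℂ] L := Ideal.Quotient.liftₐ P φ hφP
  let iAL : Algebra (PR N ⧸ P) L := φ₁.toRingHom.toAlgebra
  have hAL : ∀ q : PR N, algebraMap (PR N ⧸ P) L (Ideal.Quotient.mk P q) = φ q := fun q => rfl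
  have iT : IsScalarTower ℂ (PR N ⧸ P) L :=
    @IsScalarTower.of_algebraMap_eq ℂ (PR N ⧸ P) L _ _ _ _ iAL iC
      (fun a => (φ₁.commutes a).symm)
  have hinj : Function.Injective (algebraMap (PR N ⧸ P) L) := by
    rw [injective_iff_map_eq_zero]
    intro y hy
    obtain ⟨q, rfl⟩ := Ideal.Quotient.mk_surjective y
    rw [hAL] at hy
    exact Ideal.Quotient.eq_zero_iff_mem.2 ((hGen.ker q).1 hy)
  have iFs : FaithfulSMul (PR N ⧸ P) L := (faithfulSMul_iff_algebraMap_injective _ _).2 hinj
  have iFR : IsFractionRing (PR N ⧸ P) L := by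
    apply IsFractionRing.of_field
    intro z
    obtain ⟨a, b, hb, hab⟩ := hGen.frac z
    refine ⟨Ideal.Quotient.mk P a, Ideal.Quotient.mk P b, ?_⟩
    rw [hAL, hAL, eq_div_iff hb, hab]
  obtain ⟨iRL, iFL, iT1, iC1, iFD, hX, hint2⟩ := noether_abs (L := L) (Ideal.Quotient.mkₐ ℂ P)
    (Ideal.Quotient.mkₐ_surjective ℂ P) _ hai' hint1
  obtain ⟨δE, hδE⟩ := ext_vfL (L := L) P hP (fun i => X i) (euler_stab P hh)
  have hδ : ∀ j : Fin r, ∃ D : Derivation ℂ L L, ∀ k, D (φ (X k)) = φ (π k j) := by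
    intro j
    exact ext_vfL (L := L) P hP (fun i => π i j) (fun g hg => hst g hg j)
  choose δ hδ using hδ
  refine core hTRC hTRE P φ hφP l (fun b => hX b) (fun q => hint2 (Ideal.Quotient.mk P q)) π e hdeg δE hδE δ hδ ?_ ?_
    θ c hθ hθx hc
  · by_contra hno
    push Not at hno
    have h1 : P ⊔ mnI d π ≤ P := by
      refine sup_le le_rfl ?_
      unfold mnI
      rw [Ideal.span_le]
      rintro q ⟨A, J, rfl⟩
      exact (hGen.ker _).1 (hno A J)
    have h2 := hDle P hP h1
    rw [htd] at h2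
    have h3 : d ≤ d - 2 := by exact_mod_cast h2
    omega
  · intro ϖ hϖ
    exact hCOP N d P (P ⊔ mnI d π) (fun b => ∑ k, C (l b k) * X k) hP hai' hint1 le_sup_left hd2
      hDle ϖ hϖ

end Pool.Agent.Lib.MPc9b009.LS
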