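import Pool.Agent.Lib.MP_c9b009_ag.LS.ADJ
import Pool.Agent.Lib.MP_c9b009_ag.LS.ALE
import Pool.Agent.Lib.MP_c9b009_ag.LS.ALF
import Pool.Agent.Lib.MP_c9b009_ag.LS.ARE
import Pool.Agent.Lib.MP_c9b009_ag.LS.CMX
import Pool.Agent.Lib.MP_c9b009_ag.LS.COP
import Pool.Agent.Lib.MP_c9b009_ag.LS.DIF
import Pool.Agent.Lib.MP_c9b009_ag.LS.DSC
import Pool.Agent.Lib.MP_c9b009_ag.LS.DUA
import Pool.Agent.Lib.MP_c9b009_ag.LS.EQT
import Pool.Agent.Lib.MP_c9b009_ag.LS.EUH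
import Pool.Agent.Lib.MP_c9b009_ag.LS.EXD
import Pool.Agent.Lib.MP_c9b009_ag.LS.GNE
import Pool.Agent.Lib.MP_c9b009_ag.LS.GNN
import Pool.Agent.Lib.MP_c9b009_ag.LS.GTA
import Pool.Agent.Lib.MP_c9b009_ag.LS.GTB
import Pool.Agent.Lib.MP_c9b009_ag.LS.GTC
import Pool.Agent.Lib.MP_c9b009_ag.LS.GTH
import Pool.Agent.Lib.MP_c9b009_ag.LS.HME
import Pool.Agent.Lib.MP_c9b009_ag.LS.HMI
import Pool.Agent.Lib.MP_c9b009_ag.LS.JET
import Pool.Agent.Lib.MP_c9b009_ag.LS.KER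
import Pool.Agent.Lib.MP_c9b009_ag.LS.LMA
import Pool.Agent.Lib.MP_c9b009_ag.LS.LMB
import Pool.Agent.Lib.MP_c9b009_ag.LS.LMC
import Pool.Agent.Lib.MP_c9b009_ag.LS.LMN
import Pool.Agent.Lib.MP_c9b009_ag.LS.LPE
import Pool.Agent.Lib.MP_c9b009_ag.LS.LSP
import Pool.Agent.Lib.MP_c9b009_ag.LS.MNG
import Pool.Agent.Lib.MP_c9b009_ag.LS.NCP
import Pool.Agent.Lib.MP_c9b009_ag.LS.PTK
import Pool.Agent.Lib.MP_c9b009_ag.LS.QAD
import Pool.Agent.Lib.MP_c9b009_ag.LS.REP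
import Pool.Agent.Lib.MP_c9b009_ag.LS.RES
import Pool.Agent.Lib.MP_c9b009_ag.LS.RNK
import Pool.Agent.Lib.MP_c9b009_ag.LS.S2H
import Pool.Agent.Lib.MP_c9b009_ag.LS.SQF
import Pool.Agent.Lib.MP_c9b009_ag.LS.STE
import Pool.Agent.Lib.MP_c9b009_ag.LS.THS
import Pool.Agent.Lib.MP_c9b009_ag.LS.TRC
import Pool.Agent.Lib.MP_c9b009_ag.LS.TRE
import Pool.Agent.Lib.MP_c9b009_ag.LS.TRL

/-!
# MP_c9b009_ag, row LS: the assembly
-/

set_option autoImplicit false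

namespace Pool.Agent.Lib.MPc9b009.LS

open MvPolynomial Pool.Agent.Lib.MPc9b009.B5 Pool.Agent.Lib.MPc9b009.OD
  Pool.Agent.Lib.MPc9b009.PS

theorem hKER : SpecKER := specKER specREP specDUA

theorem hEQT : SpecEQT :=
  specEQT hKER specPTK specEXD (specDIF specJET) specARE specDSC

theorem hTRL : SpecTRL := specTRL specCOP specTRC specTRE

theorem hTHS : SpecTHS := specTHS specMNG

theorem hGTA : SpecGTA := specGTA hEQT specRNK specEUH

theorem hGTB : SpecGTB := specGTB hTRL hTHS specEUH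

theorem hGTC : SpecGTC := specGTC (specCMX hTHS specEUH) specEUH

/-- THEOREM GT -/
theorem hGTH : SpecGTH := specGTH specLMN hGTA hGTB hGTC specEUH

theorem hRES : SpecRES := specRES specSQF (specS2H specCOP) specNCP

theorem hADJ : SpecADJ := specADJ specSQF

theorem hGNN : SpecGNN := specGNN (specALF specSQF hADJ) hRES

theorem hLSP : SpecLSP := specLSP hGTH (specHMI specSQF) hGNN hADJ

theorem hSTE : SpecSTE := specSTE specSQF

theorem hGNE : SpecGNE := specGNE (specALE specSQF hSTE specQAD) hRES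

theorem hLPE : SpecLPE := specLPE hGTH (specHME specSQF hSTE) hGNE

/-- All limits of log symplectic structures. -/
theorem LS_holds (N s : ℕ) (G : ℕ → Biv N) (g₀ : Biv N) (hs : Even s) (hN : s + 1 < N)
    (hG : ∀ t, ∃ (n : ℕ) (F : Fin n → PR N), LogS (G t) F ∨ LogE (G t) F)
    (hlim : ∀ i j m, Filter.Tendsto (fun t => coeff m ((G t).f i j)) Filter.atTop
      (nhds (coeff m (g₀.f i j)))) : BigI ⊥ g₀.f s := by
  apply specLMB N s g₀
  apply specLMC N s G g₀ hs hlim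
  intro t
  obtain ⟨n, F, h | h⟩ := hG t
  · exact specLMA N s (G t) hs h.jac0 (hLSP N n s (G t) F h hs hN)
  · exact specLMA N s (G t) hs h.jac0 (hLPE N n s (G t) F h hs hN)

end Pool.Agent.Lib.MPc9b009.LS
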