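import Pool.Agent.Lib.MP_c9b009_ag.LS.Spec

/-!
# MP_c9b009_ag, row LS, module KER: the isomorphism class of the germ is dense
-/

set_option autoImplicit false

namespace Pool.Agent.Lib.MPc9b009.LS

open MvPolynomial Pool.Agent.Lib.MPc9b009.B5 Pool.Agent.Lib.MPc9b009.OD
  Pool.Agent.Lib.MPc9b009.PS

namespace KERM

/-- Taylor expansion of first order -/
lemma taylor {N : ℕ} {B : Type} [CommRing B] [Algebra ℂ B] {ε : B} (hε : ε * ε = 0)
    (x y : Fin N → B) (q : PR N) :
    aeval (fun i => x i + ε * y i) q = aeval x q + ε * ∑ l, y l * aeval x (pderiv l q) := by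
  classical
  induction q using MvPolynomial.induction_on with
  | C a =>
    simp
  | add p q hp hq =>
    rw [map_add, hp, hq, map_add]
    have h : ∑ l, y l * aeval x (pderiv l (p + q)) =
        ∑ l, y l * aeval x (pderiv l p) + ∑ l, y l * aeval x (pderiv l q) := by
      rw [← Finset.sum_add_distrib]
      refine Finset.sum_congr rfl fun l _ => ?_
      rw [map_add, map_add]
      ring
    rw [h]
    ring
  | mul_X p n hp =>
    rw [map_mul, hp, map_mul, aeval_X, aeval_X]
    have h : ∑ l, y l * aeval x (pderiv l (p * X n)) =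
        (∑ l, y l * aeval x (pderiv l p)) * x n + aeval x p * y n := by
      have h1 : ∀ l, y l * aeval x (pderiv l (p * X n)) =
          y l * aeval x (pderiv l p) * x n + (if l = n then aeval x p * y n else 0) := by
        intro l
        rw [pderiv_mul, map_add, map_mul, map_mul, aeval_X]
        by_cases hl : l = n
        · subst hl
          rw [pderiv_X_self, map_one, if_pos rfl]
          ring
        · rw [pderiv_X_of_ne (Ne.symm hl), map_zero, if_neg hl]
          ring
      rw [Finset.sum_congr rfl fun l _ => h1 l, Finset.sum_add_distrib, ← Finset.sum_mul,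
        Finset.sum_ite_eq' Finset.univ n fun _ => aeval x p * y n, if_pos (Finset.mem_univ _)]
    rw [h]
    linear_combination (y n * ∑ l, y l * aeval x (pderiv l p)) * hε

/-- the trivial point -/
noncomputable def triv {N k : ℕ} {κ τ : Type} [Fintype κ] [DecidableEq τ] (P : Ideal (PR N))
    (f : κ → PR N) (blk : κ → τ) (p₀ : Cn N) (hp : p₀ ∈ Zer P) : Pt N k P f blk p₀ ℂ := by
  classical
  exact
    { γ := fun i => X i + C (algebraMap ℂ ℂ (p₀ i))
      m := fun i j => if j = i then 1 else 0
      m' := fun i j => if j = i then 1 else 0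
      e1 := fun i => by
        have h : ∑ j, (if blk j = blk i then (if j = i then (1 : MvPolynomial (Fin N) ℂ) else 0)
            * tr ℂ p₀ (f j) else 0) = tr ℂ p₀ (f i) := by
          rw [Finset.sum_eq_single i]
          · rw [if_pos rfl, if_pos rfl, one_mul]
          · intro j _ hj
            rw [if_neg hj, zero_mul, ite_self]
          · intro hi
            exact absurd (Finset.mem_univ _) hi
        rw [h]
        have h2 : aeval (fun i => X i + C (algebraMap ℂ ℂ (p₀ i))) (f i) = tr ℂ p₀ (f i) := rfl
        rw [h2, sub_self]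
        exact Ideal.zero_mem _
      e2 := fun i => by
        have h : ∑ j, (if blk j = blk i then (if j = i then (1 : MvPolynomial (Fin N) ℂ) else 0)
            * aeval (fun i => X i + C (algebraMap ℂ ℂ (p₀ i))) (f j) else 0) =
            tr ℂ p₀ (f i) := by
          rw [Finset.sum_eq_single i]
          · rw [if_pos rfl, if_pos rfl, one_mul]
            rfl
          · intro j _ hj
            rw [if_neg hj, zero_mul, ite_self]
          · intro hi
            exact absurd (Finset.mem_univ _) hi
        rw [h, sub_self]
        exact Ideal.zero_mem _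
      base := fun q hq => by
        have h : (fun i => constantCoeff (X i + C (algebraMap ℂ ℂ (p₀ i)) :
            MvPolynomial (Fin N) ℂ)) = p₀ := by
          funext i
          simp
        rw [h, aeval_eq_eval]
        exact hp q hq
      inv := by
        have h : (Matrix.of fun i j => coeff (Finsupp.single j 1)
            (X i + C (algebraMap ℂ ℂ (p₀ i)) : MvPolynomial (Fin N) ℂ)) = 1 := by
          ext i j
          rw [Matrix.of_apply, coeff_add, coeff_X', coeff_C, Matrix.one_apply]
          have h1 : (0 : Fin N →₀ ℕ) ≠ Finsupp.single j 1 := by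
            intro h
            have := DFunLike.congr_fun h j
            simp at this
          rw [if_neg h1, add_zero]
          by_cases hij : i = j
          · subst hij
            rw [if_pos rfl, if_pos rfl]
          · rw [if_neg hij, if_neg]
            intro h2
            exact hij (Finsupp.single_left_injective one_ne_zero h2)
        rw [h, Matrix.det_one]
        exact isUnit_one }

lemma triv_cc {N k : ℕ} {κ τ : Type} [Fintype κ] [DecidableEq τ] (P : Ideal (PR N))
    (f : κ → PR N) (blk : κ → τ) (p₀ : Cn N) (hp : p₀ ∈ Zer P) (i : Fin N) :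
    constantCoeff ((triv (k := k) P f blk p₀ hp).γ i) = p₀ i := by
  have h : (triv (k := k) P f blk p₀ hp).γ i = X i + C (algebraMap ℂ ℂ (p₀ i)) := rfl
  rw [h]
  simp

end KERM

open KERM in
theorem specKER (hR : SpecREP) (hD : SpecDUA) : SpecKER := by
  intro N k r κ τ _ _ P f blk p₀ π hP hS hadm hp hmin
  obtain ⟨A, _, _, a, hft, hu⟩ := hR N k κ τ inferInstance inferInstance P f blk p₀
  refine ⟨A, inferInstance, inferInstance, a, hft, fun q => ⟨fun hq => ?_, a.base q⟩⟩
  let c : Fin N → A := fun i => constantCoeff (a.γ i)
  let J : Ideal (PR N) := RingHom.ker (aeval c : PR N →ₐ[ℂ] A)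
  have hPJ : P ≤ J := fun z hz => a.base z hz
  have hJS : Stab π J := by
    intro z hz j
    have hz' : aeval c z = 0 := hz
    obtain ⟨B', _, _, ι, ε, b', hε, hinj, hb⟩ := hD N k κ τ inferInstance inferInstance P f blk p₀
      (fun i => π i j) (fun y hy => hS y hy j) (hadm j) A inferInstance inferInstance a
    obtain ⟨ψ, hψ⟩ := hu B' inferInstance inferInstance b'
    have h1 : ψ (aeval c z) = aeval (fun i => ψ (c i)) z := comp_aeval_apply _ _ _
    have h2 : (fun i => ψ (c i)) = fun i => ι (c i) + ε * ι (aeval c (π i j)) := by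
      funext i
      rw [← hb i]
      exact hψ i
    rw [h2, taylor hε] at h1
    have h3 : aeval (fun i => ι (c i)) z = ι (aeval c z) := (comp_aeval_apply _ _ _).symm
    have h4 : ∑ l, ι (aeval c (π l j)) * aeval (fun i => ι (c i)) (pderiv l z) =
        ι (aeval c (∑ l, π l j * pderiv l z)) := by
      rw [map_sum, map_sum]
      refine Finset.sum_congr rfl fun l _ => ?_
      rw [map_mul, map_mul]
      congr 1
      exact (comp_aeval_apply _ _ _).symm
    rw [h3, h4, hz', map_zero] at h1
    exact (hinj _ _ h1.symm).2
  have hJp : J ≤ RingHom.ker (eval p₀) := by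
    intro z hz
    have hz' : aeval c z = 0 := hz
    obtain ⟨ψ, hψ⟩ := hu ℂ inferInstance inferInstance (triv P f blk p₀ hp)
    have h1 : ψ (aeval c z) = aeval (fun i => ψ (c i)) z := comp_aeval_apply _ _ _
    have h2 : (fun i => ψ (c i)) = p₀ := by
      funext i
      rw [← triv_cc (k := k) P f blk p₀ hp i]
      exact hψ i
    rw [h2, hz', map_zero, aeval_eq_eval] at h1
    exact h1.symm
  haveI : (RingHom.ker (eval p₀ : PR N →+* ℂ)).IsPrime := RingHom.ker_isPrime _
  obtain ⟨Q, hQ, hQp⟩ := Ideal.exists_minimalPrimes_le hJp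
  have hQS : Stab π Q := Pool.Agent.Lib.MPc9b009.B5.specDMIN N r π J hJS Q hQ
  have hQP : Q = P := hmin Q hQ.1.1 (hPJ.trans hQ.1.2) hQS fun z hz => hQp hz
  rw [← hQP]
  exact hQ.1.2 hq

end Pool.Agent.Lib.MPc9b009.LS
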