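import Pool.Agent.Lib.MP_c9b009_ag.LS.Spec

/-!
# MP_c9b009_ag, row LS, module ADJ: the adjugate of a log symplectic structure
-/

set_option autoImplicit false

namespace Pool.Agent.Lib.MPc9b009.LS

open MvPolynomial Pool.Agent.Lib.MPc9b009.B5 Pool.Agent.Lib.MPc9b009.OD
  Pool.Agent.Lib.MPc9b009.PS

namespace ADJM

/-- an injective map `Fin m → Fin (m+1)` factors through `succAbove` -/
theorem inj_factor {m : ℕ} (I : Fin m → Fin (m + 1)) (hI : Function.Injective I) :
    ∃ (i₀ : Fin (m + 1)) (σ : Equiv.Perm (Fin m)), ∀ s, I s = i₀.succAbove (σ s) := by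
  have h1 : ¬ Function.Surjective I := by
    intro h
    have h2 := Fintype.card_le_of_surjective I h
    rw [Fintype.card_fin, Fintype.card_fin] at h2
    omega
  obtain ⟨i₀, hi₀⟩ := not_forall.1 h1
  have h2 : ∀ s, ∃ z, i₀.succAbove z = I s := fun s =>
    Fin.exists_succAbove_eq (fun h => hi₀ ⟨s, h⟩)
  choose τ hτ using h2
  have h3 : Function.Injective τ := fun a b hab => hI (by rw [← hτ, ← hτ, hab])
  have h4 : Function.Bijective τ := Finite.injective_iff_bijective.1 h3
  exact ⟨i₀, Equiv.ofBijective τ h4, fun s => (hτ s).symm⟩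

theorem rank_of_adj {K : Type} [Field K] {m : ℕ} (B : Matrix (Fin (m + 2)) (Fin (m + 2)) K)
    (h : B.adjugate = 0) : B.rank ≤ m := by
  refine (specRKM K inferInstance (m + 2) (m + 2) m B).1 ?_
  intro I J
  by_cases hI : Function.Injective I
  · by_cases hJ : Function.Injective J
    · obtain ⟨i₀, σ, hσ⟩ := inj_factor I hI
      obtain ⟨j₀, τ, hτ⟩ := inj_factor J hJ
      have e : (Matrix.of fun s t => B (I s) (J t)) =
          ((B.submatrix i₀.succAbove j₀.succAbove).submatrix σ id).submatrix id τ := by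
        ext s t
        simp only [Matrix.of_apply, Matrix.submatrix_apply, id_eq]
        rw [hσ, hτ]
      have h1 : (B.submatrix i₀.succAbove j₀.succAbove).det = 0 := by
        have h2 : B.adjugate j₀ i₀ = 0 := by rw [h]; rfl
        rw [Matrix.adjugate_fin_succ_eq_det_submatrix] at h2
        rcases mul_eq_zero.1 h2 with h3 | h3
        · exact absurd h3 (pow_ne_zero _ (neg_ne_zero.2 one_ne_zero))
        · exact h3
      rw [e, Matrix.det_permute', Matrix.det_permute, h1, mul_zero, mul_zero]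
    · obtain ⟨a, b, hab, hne⟩ : ∃ a b, J a = J b ∧ a ≠ b := by
        by_contra hc
        apply hJ
        intro a b hab
        by_contra hne
        exact hc ⟨a, b, hab, hne⟩
      refine Matrix.det_zero_of_column_eq hne fun k => ?_
      simp only [Matrix.of_apply]
      rw [hab]
  · obtain ⟨a, b, hab, hne⟩ : ∃ a b, I a = I b ∧ a ≠ b := by
      by_contra hc
      apply hI
      intro a b hab
      by_contra hne
      exact hc ⟨a, b, hab, hne⟩
    refine Matrix.det_zero_of_row_eq hne ?_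
    funext k
    simp only [Matrix.of_apply]
    rw [hab]

/-- proportionality in a kernel of dimension at most one -/
theorem prop_ker {K : Type} [Field K] {m : ℕ} (B : Matrix (Fin (m + 2)) (Fin (m + 2)) K)
    (h : B.adjugate ≠ 0) (D c : Fin (m + 2) → K) (hD0 : D ≠ 0) (hD : B.mulVec D = 0)
    (hc : B.mulVec c = 0) : ∃ l : K, ∀ p, c p = l * D p := by
  have h1 : ¬ B.rank ≤ m := by
    intro h2
    apply h
    ext i j
    rw [Matrix.adjugate_fin_succ_eq_det_submatrix]
    have h3 := (specRKM K inferInstance (m + 2) (m + 2) m B).2 h2 j.succAbove i.succAbove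
    have h4 : B.submatrix j.succAbove i.succAbove =
        Matrix.of fun s t => B (j.succAbove s) (i.succAbove t) := rfl
    rw [h4, h3, mul_zero]
    rfl
  have h2 := LinearMap.finrank_range_add_finrank_ker B.mulVecLin
  have h3 : Module.finrank K (LinearMap.range B.mulVecLin) = B.rank := rfl
  rw [h3, Module.finrank_fin_fun] at h2
  have h4 : Module.finrank K (LinearMap.ker B.mulVecLin) ≤ 1 := by omega
  obtain ⟨v, hv⟩ := finrank_le_one_iff.1 h4
  obtain ⟨c0, hc0⟩ := hv ⟨D, by rw [LinearMap.mem_ker, Matrix.mulVecLin_apply]; exact hD⟩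
  obtain ⟨c1, hc1⟩ := hv ⟨c, by rw [LinearMap.mem_ker, Matrix.mulVecLin_apply]; exact hc⟩
  have e0 : ∀ p, c0 * (v : Fin (m + 2) → K) p = D p := fun p =>
    congrFun (congrArg Subtype.val hc0) p
  have e1 : ∀ p, c1 * (v : Fin (m + 2) → K) p = c p := fun p =>
    congrFun (congrArg Subtype.val hc1) p
  have hc00 : c0 ≠ 0 := by
    intro h5
    apply hD0
    funext p
    rw [← e0 p, h5, zero_mul]
    rfl
  refine ⟨c1 / c0, fun p => ?_⟩
  rw [← e0 p, ← e1 p, div_mul_eq_mul_div, eq_div_iff hc00]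
  ring

/-- the adjugate of a skew-symmetric matrix of odd order is symmetric -/
theorem adj_symm {R : Type} [CommRing R] {m : ℕ} (hm : Odd (m + 2))
    (A : Matrix (Fin (m + 2)) (Fin (m + 2)) R) (hA : A.transpose = -A) (p q : Fin (m + 2)) :
    A.adjugate p q = A.adjugate q p := by
  have h1 : A.adjugate.transpose = A.adjugate := by
    rw [Matrix.adjugate_transpose, hA]
    have h2 : -A = (-1 : R) • A := by rw [neg_smul, one_smul]
    rw [h2, Matrix.adjugate_smul, Fintype.card_fin]
    have h3 : Even (m + 2 - 1) := by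
      obtain ⟨k, hk⟩ := hm
      exact ⟨k, by omega⟩
    rw [h3.neg_one_pow, one_smul]
  calc A.adjugate p q = A.adjugate.transpose q p := rfl
    _ = A.adjugate q p := by rw [h1]

end ADJM

open ADJM in
theorem specADJ (hSQF : SpecSQF) : SpecADJ := by
  intro N n g F hL
  obtain ⟨-, -, -, h4⟩ := hSQF N n F hL.toNCF
  have hcas := hL.cas
  have hdeg := hL.deg
  obtain ⟨x, hx⟩ := hL.rnk
  have hpos := hL.pos
  obtain ⟨Φ, hΦ⟩ : ∃ Φ : PR N, Φ = ∏ j, F j := ⟨_, rfl⟩
  rw [← hΦ] at h4 hcas hdeg ⊢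
  obtain ⟨m, rfl⟩ : ∃ m, N = m + 2 := ⟨N - 2, by omega⟩
  -- parity
  have hskew : (mat g.f x).transpose = - mat g.f x := by
    ext i j
    simp only [mat, Matrix.transpose_apply, Matrix.neg_apply, Matrix.of_apply]
    rw [g.skew i j, map_neg]
  have hodd : Odd (m + 2) := by
    by_contra hne
    rw [Nat.not_odd_iff_even] at hne
    obtain ⟨k, hk⟩ := hne
    have h1 : (mat g.f x).rank ≤ 2 * (k - 1) :=
      specSKE ℂ inferInstance inferInstance (m + 2) (k - 1) (mat g.f x) hskew (by omega)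
    omega
  refine ⟨hodd, ?_⟩
  obtain ⟨A, hA⟩ : ∃ A : Matrix (Fin (m + 2)) (Fin (m + 2)) (PR (m + 2)), A = Matrix.of g.f :=
    ⟨_, rfl⟩
  rw [← hA]
  have hAskew : A.transpose = -A := by
    rw [hA]
    ext1 i j
    simp only [Matrix.transpose_apply, Matrix.neg_apply, Matrix.of_apply]
    exact g.skew i j
  have hadj : A.adjugate ≠ 0 := by
    intro h0
    have h1 := RingHom.map_adjugate (eval x) A
    rw [h0, map_zero] at h1
    have h2 : (eval x).mapMatrix A = mat g.f x := by rw [hA]; rfl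
    rw [h2] at h1
    have h3 := rank_of_adj (mat g.f x) h1.symm
    omega
  -- a nonzero derivative
  have hX : ¬ IsUnit (X 0 : PR (m + 2)) := by
    intro h
    have h1 := h.map (eval (0 : Fin (m + 2) → ℂ))
    rw [eval_X] at h1
    exact not_isUnit_zero h1
  obtain ⟨ϖ₀, hϖ₀, -⟩ := WfDvdMonoid.exists_irreducible_factor hX (X_ne_zero 0)
  obtain ⟨p0, hp0⟩ := h4 ϖ₀ (UniqueFactorizationMonoid.irreducible_iff_prime.1 hϖ₀)
  have hd0 : pderiv p0 Φ ≠ 0 := by
    intro h
    rw [h] at hp0
    exact hp0 (dvd_zero _)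
  have hAD : A.mulVec (fun p => pderiv p Φ) = 0 := by
    funext a
    have h1 := hcas a
    unfold ham at h1
    rw [hA]
    exact h1
  have hD0 : (fun p => pderiv p Φ) ≠ (0 : Fin (m + 2) → PR (m + 2)) := by
    intro h
    exact hd0 (congrFun h p0)
  have hdet : A.det = 0 := Matrix.exists_mulVec_eq_zero_iff.1 ⟨_, hD0, hAD⟩
  have hAadj : A * A.adjugate = 0 := by rw [Matrix.mul_adjugate, hdet, zero_smul]
  -- the fraction field
  obtain ⟨K, _, _, _⟩ : ∃ (K : Type) (_ : Field K) (_ : Algebra (PR (m + 2)) K),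
      IsFractionRing (PR (m + 2)) K := ⟨FractionRing (PR (m + 2)), inferInstance, inferInstance,
        inferInstance⟩
  obtain ⟨φ, hφ⟩ : ∃ φ : PR (m + 2) →+* K, φ = algebraMap (PR (m + 2)) K := ⟨_, rfl⟩
  have hinj : Function.Injective φ := by
    rw [hφ]
    exact IsFractionRing.injective (PR (m + 2)) K
  have hBadj : (φ.mapMatrix A).adjugate ≠ 0 := by
    intro h
    apply hadj
    rw [← RingHom.map_adjugate] at h
    ext1 p q
    apply hinj
    have h1 := congrFun (congrFun h p) q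
    rw [Matrix.zero_apply, map_zero]
    exact h1
  have hBD : (φ.mapMatrix A).mulVec (fun p => φ (pderiv p Φ)) = 0 := by
    funext a
    have h1 := congrArg φ (congrFun hAD a)
    rw [Pi.zero_apply, map_zero] at h1
    rw [Pi.zero_apply, ← h1]
    simp only [Matrix.mulVec, dotProduct, map_sum, map_mul]
    rfl
  have hBD0 : (fun p => φ (pderiv p Φ)) ≠ 0 := by
    intro h
    apply hd0
    apply hinj
    rw [map_zero]
    exact congrFun h p0
  have hcol : ∀ q, ∃ l : K, ∀ p, φ (A.adjugate p q) = l * φ (pderiv p Φ) := by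
    intro q
    refine prop_ker (φ.mapMatrix A) hBadj _ (fun p => φ (A.adjugate p q)) hBD0 hBD ?_
    funext a
    have h1 := congrArg φ (congrFun (congrFun hAadj a) q)
    rw [Matrix.zero_apply, map_zero, Matrix.mul_apply] at h1
    rw [Pi.zero_apply, ← h1]
    simp only [Matrix.mulVec, dotProduct, map_sum, map_mul]
    rfl
  choose l hl using hcol
  have hφ0 : φ (pderiv p0 Φ) ≠ 0 := by
    intro h
    apply hd0
    apply hinj
    rw [h, map_zero]
  have hlq : ∀ q, l q = l p0 / φ (pderiv p0 Φ) * φ (pderiv q Φ) := by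
    intro q
    have h1 : l q * φ (pderiv p0 Φ) = l p0 * φ (pderiv q Φ) := by
      rw [← hl q p0, ← hl p0 q, adj_symm hodd A hAskew p0 q]
    rw [div_mul_eq_mul_div, eq_div_iff hφ0]
    exact h1
  -- reduced fraction
  obtain ⟨a, b, hab, hk⟩ := IsFractionRing.exists_reduced_fraction (A := PR (m + 2))
    (l p0 / φ (pderiv p0 Φ))
  have hb0 : (b : PR (m + 2)) ≠ 0 := nonZeroDivisors.ne_zero b.2
  have hφb : φ (b : PR (m + 2)) ≠ 0 := by
    intro h
    apply hb0
    apply hinj
    rw [h, map_zero]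
  have hk' : l p0 / φ (pderiv p0 Φ) = φ a / φ (b : PR (m + 2)) := by
    rw [← hk, IsFractionRing.mk'_eq_div, hφ]
  have hmul : ∀ p q, (b : PR (m + 2)) * A.adjugate p q = a * pderiv p Φ * pderiv q Φ := by
    intro p q
    apply hinj
    rw [map_mul, map_mul, map_mul, hl q p, hlq q, hk']
    field_simp
  have hbu : IsUnit (b : PR (m + 2)) := by
    by_contra hnu
    obtain ⟨ϖ, hϖ, hdvd⟩ := WfDvdMonoid.exists_irreducible_factor hnu hb0
    have hϖp : Prime ϖ := UniqueFactorizationMonoid.irreducible_iff_prime.1 hϖ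
    obtain ⟨p, hp⟩ := h4 ϖ hϖp
    have h1 : ϖ ∣ a * pderiv p Φ * pderiv p Φ := by
      rw [← hmul p p]
      exact hdvd.mul_right _
    rcases hϖp.dvd_or_dvd h1 with h2 | h2
    · rcases hϖp.dvd_or_dvd h2 with h3 | h3
      · exact hϖ.not_isUnit (hab h3 hdvd)
      · exact hp h3
    · exact hp h2
  obtain ⟨b', hb'⟩ := hbu.exists_right_inv
  obtain ⟨k, hkdef⟩ : ∃ k : PR (m + 2), k = b' * a := ⟨_, rfl⟩
  have hadjk : ∀ p q, A.adjugate p q = k * pderiv p Φ * pderiv q Φ := by
    intro p q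
    calc A.adjugate p q = ((b : PR (m + 2)) * b') * A.adjugate p q := by rw [hb', one_mul]
      _ = b' * ((b : PR (m + 2)) * A.adjugate p q) := by ring
      _ = b' * (a * pderiv p Φ * pderiv q Φ) := by rw [hmul]
      _ = k * pderiv p Φ * pderiv q Φ := by rw [hkdef]; ring
  have hk0 : k ≠ 0 := by
    intro h
    apply hadj
    ext1 p q
    rw [hadjk, h, zero_mul, zero_mul]
    rfl
  -- degrees
  have hdd : (pderiv p0 Φ * pderiv p0 Φ).IsHomogeneous (2 * (m + 1)) := by
    have h1 : (pderiv p0 Φ).IsHomogeneous (m + 2 - 1) := hdeg.pderiv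
    have h2 := h1.mul h1
    have h3 : m + 2 - 1 + (m + 2 - 1) = 2 * (m + 1) := by omega
    rw [h3] at h2
    exact h2
  have hdd0 : pderiv p0 Φ * pderiv p0 Φ ≠ 0 := mul_ne_zero hd0 hd0
  have hadjh : (A.adjugate p0 p0).IsHomogeneous (2 * (m + 1)) := by
    rw [Matrix.adjugate_fin_succ_eq_det_submatrix]
    have h1 : ((-1 : PR (m + 2)) ^ ((p0 : ℕ) + (p0 : ℕ))) = 1 :=
      Even.neg_one_pow ⟨(p0 : ℕ), rfl⟩
    rw [h1, one_mul]
    have h2 := CUTM.det_hom (A.submatrix p0.succAbove p0.succAbove) (fun i j => by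
      rw [Matrix.submatrix_apply, hA, Matrix.of_apply]
      exact g.quad _ _)
    have h3 : ∑ _i : Fin (m + 1), 2 = 2 * (m + 1) := by
      rw [Finset.sum_const, Finset.card_univ, Fintype.card_fin, smul_eq_mul, mul_comm]
    rw [h3] at h2
    exact h2
  have hkd : k.totalDegree = 0 := by
    have h1 := totalDegree_mul_of_isDomain hk0 hdd0
    have h2 : k * (pderiv p0 Φ * pderiv p0 Φ) = A.adjugate p0 p0 := by
      rw [hadjk]
      ring
    rw [h2, hdd.totalDegree hdd0, hadjh.totalDegree (by rw [← h2]; exact mul_ne_zero hk0 hdd0)]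
      at h1
    omega
  obtain ⟨κ, hκ⟩ : ∃ κ : ℂ, κ = coeff 0 k := ⟨_, rfl⟩
  have hkC : k = C κ := by
    rw [hκ]
    exact totalDegree_eq_zero_iff_eq_C.1 hkd
  refine ⟨κ, ?_, fun p q => ?_⟩
  · intro h
    apply hk0
    rw [hkC, h, map_zero]
  · rw [hadjk, hkC]

end Pool.Agent.Lib.MPc9b009.LS
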