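import Pool.Agent.Lib.MP_c9b009_ag.PS.All

/-!
# MP_c9b009_ag, row LS: log symplectic structures. Definitions

THEOREM LS. `S = ℂ[x_1, .., x_N]`, `X = ℙ^(N-1)`, `N` odd, `g` a quadratic Poisson structure on `ℂ^N` of rank
`N - 1` with a Casimir `F = F_1 ⋯ F_n` of degree `N` (the unimodular lift of a generically symplectic Poisson
structure on `X`; `D = {F = 0}` is its degeneracy divisor), the `F_i` irreducible, not proportional, and `D`
a normal crossing divisor with smooth components outside a closed subset of codimension `≥ 3`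
(`LogS g F`). Then for ALL even `s < N - 1` the locus `X_{≤ s}` has an irreducible component of dimension
`≥ s + 1`; the same for every limit of such structures.

THEOREM GT (general). `X = Proj (S / I)` any projective Poisson variety (as in theorem PS), `h_1, .., h_k`
commuting linear Poisson derivations, `z ⊇ I` a stable ideal (a Poisson subscheme `D ⊆ X`) such that every
derivation `v` with `v I ⊆ I`, `v z ⊆ z` has at every point of `D` outside of `X_{≤ s}` a value in the span of
the Hamiltonian vectors, the `h_a` and the Euler vector (`Tang I z g h s`). If `D` contains a stable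
irreducible subvariety of dimension `> s` (`s` even) then `X_{≤ s}` has a component of dimension `≥ s + 1`.

IDEA. Suppose not. Let `P ⊇ z` be a stable prime of minimal dimension `D(P) = d ≥ s + 2`. HOMOGENEITY: the
`k`-jets of the germs of `(X, D)` at the points of `V(P)` are all isomorphic at the generic point (the
closure of an isomorphism class is stable). So every derivation of the function field of `V(P)` is the
value of a vector field which preserves `I` and `z`; so by `Tang` the tangent space of `V(P)` at the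
generic point is spanned by the Hamiltonian vectors, the `h_a` and `x`. TRACE LEMMA: the `h_a` can be
omitted (a 1-form with constant nonzero value on a global linear vector field which is regular outside a
set of codimension `≥ 2` does not exist, by the trace to `ℂ^d`). Then theorem PS applies to `V(P)`.

Notation of all the docstrings. `D(p)` = transcendence degree of `S / p`. `X_a = {x_a, .} = ∑_l g_al ∂_l`
(`OD.ham g a`). `x̄_l` = the image of `x_l` in the function field `L` of `V(P)`.
-/

set_option autoImplicit false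

namespace Pool.Agent.Lib.MPc9b009.LS

open MvPolynomial Pool.Agent.Lib.MPc9b009.B5 Pool.Agent.Lib.MPc9b009.OD
  Pool.Agent.Lib.MPc9b009.PS

/-- the polynomial ring `S` -/
abbrev PR (N : ℕ) : Type := MvPolynomial (Fin N) ℂ

/-- the vector field `∑ v_l ∂_l` applied to `q` -/
noncomputable def vf {N : ℕ} (v : Fin N → PR N) (q : PR N) : PR N := ∑ l, v l * pderiv l q

/-- the matrix `[g | h_1 .. h_k | x]` -/
noncomputable def th {N k : ℕ} (g : Biv N) (h : Fin k → Fin N → PR N) :
    Fin N → Fin (N + k + 1) → PR N :=
  fun i => Fin.append (Fin.append (g.f i) (fun a => h a i)) (fun _ : Fin 1 => X i)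

/-- `h_1, .., h_k` are commuting linear Poisson derivations modulo `I` -/
structure CF {N k : ℕ} (I : Ideal (PR N)) (g : Biv N) (h : Fin k → Fin N → PR N) : Prop where
  lin : ∀ a i, (h a i).IsHomogeneous 1
  sta : ∀ a, ∀ q ∈ I, vf (h a) q ∈ I
  poi : ∀ a i j, vf (h a) (g.f i j) -
    ∑ l, (pderiv l (h a i) * g.f l j + pderiv l (h a j) * g.f i l) ∈ I
  com : ∀ a b i, vf (h a) (h b i) - vf (h b) (h a i) ∈ I

/-- Every vector field which preserves `I` and `z` has, at every zero of `z` where the rank is `> s`, a value
in the span of the Hamiltonian vectors, the `h_a` and the Euler vector. -/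
def Tang {N k : ℕ} (I z : Ideal (PR N)) (g : Biv N) (h : Fin k → Fin N → PR N) (s : ℕ) : Prop :=
  ∀ v : Fin N → PR N, (∀ q ∈ I, vf v q ∈ I) → (∀ q ∈ z, vf v q ∈ z) →
    ∀ x : Cn N, x ∈ Zer z → s < rk g.f x →
      (fun i => eval x (v i)) ∈
        Submodule.span ℂ (Set.range fun j : Fin (N + k + 1) => fun i => eval x (th g h i j))

/-- the ideal of the `n`-minors of `π` -/
noncomputable def mnI {N r : ℕ} (n : ℕ) (π : Fin N → Fin r → PR N) : Ideal (PR N) :=
  Ideal.span {q | ∃ (A : Fin n → Fin N) (J : Fin n → Fin r), q = mnr π A J}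

/-- `φ : S → L` is the generic point of `V(P)` -/
structure Gen {N : ℕ} (P : Ideal (PR N)) (L : Type) [Field L] [Algebra ℂ L] (φ : PR N →ₐ[ℂ] L) :
    Prop where
  ker : ∀ q, φ q = 0 ↔ q ∈ P
  frac : ∀ y : L, ∃ a b : PR N, φ b ≠ 0 ∧ y * φ b = φ a

/-! ### germs -/

/-- the ideal `(y_1, .., y_N)^(k+1)` -/
noncomputable def YI (N k : ℕ) (B : Type) [CommRing B] : Ideal (MvPolynomial (Fin N) B) :=
  MvPolynomial.idealOfVars (Fin N) B ^ (k + 1)

/-- the germ of `q` at `p₀`: the polynomial `q (p₀ + y)` -/
noncomputable def tr {N : ℕ} (B : Type) [CommRing B] [Algebra ℂ B] (p₀ : Cn N) :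
    PR N →ₐ[ℂ] MvPolynomial (Fin N) B :=
  aeval (fun i => X i + C (algebraMap ℂ B (p₀ i)))

/-- A `B`-valued point: a change of coordinates `γ` up to order `k`, from the germ at `p₀` to the germ at
`γ(0) ∈ V(P)`, which maps the ideals generated by the blocks of the family `f` into each other. -/
structure Pt (N k : ℕ) {κ τ : Type} [Fintype κ] [DecidableEq τ] (P : Ideal (PR N)) (f : κ → PR N)
    (blk : κ → τ) (p₀ : Cn N) (B : Type) [CommRing B] [Algebra ℂ B] where
  /-- the change of coordinates -/
  γ : Fin N → MvPolynomial (Fin N) B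
  /-- coefficients -/
  m : κ → κ → MvPolynomial (Fin N) B
  /-- coefficients -/
  m' : κ → κ → MvPolynomial (Fin N) B
  e1 : ∀ i, aeval γ (f i) - ∑ j, (if blk j = blk i then m i j * tr B p₀ (f j) else 0) ∈ YI N k B
  e2 : ∀ i, tr B p₀ (f i) - ∑ j, (if blk j = blk i then m' i j * aeval γ (f j) else 0) ∈ YI N k B
  base : ∀ q ∈ P, aeval (fun i => constantCoeff (γ i)) q = 0
  inv : IsUnit (Matrix.of fun i j => coeff (Finsupp.single j 1) (γ i)).det

/-- the ideal of the block of `i` -/
noncomputable def bi {N : ℕ} {κ τ : Type} (f : κ → PR N) (blk : κ → τ) (i : κ) : Ideal (PR N) :=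
  Ideal.span (f '' {j | blk j = blk i})

/-- the vector fields which preserve the block ideals -/
def adm {N : ℕ} {κ τ : Type} (f : κ → PR N) (blk : κ → τ) : Set (Fin N → PR N) :=
  {v | ∀ i, vf v (f i) ∈ bi f blk i}

/-- `v` preserves the block ideals at the `E`-valued point `c` up to order `k` -/
def apx {N : ℕ} {κ τ : Type} (f : κ → PR N) (blk : κ → τ) (E : Type) [Field E] [Algebra ℂ E]
    (c : Fin N → E) (k : ℕ) (v : Fin N → MvPolynomial (Fin N) E) : Prop :=
  ∀ i, ∑ l, v l * MvPolynomial.map (algebraMap ℂ E) (pderiv l (f i)) ∈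
    Ideal.span ((fun j => MvPolynomial.map (algebraMap ℂ E) (f j)) '' {j | blk j = blk i}) ⊔
      Ideal.span (Set.range fun l => X l - C (c l)) ^ (k + 1)

/-! ### log symplectic structures on `ℙ^(N-1)` -/

/-- at `x` the divisor `∏ F_i = 0` is a normal crossing divisor with at most two smooth branches,
which belong to different components -/
def NCx {N n : ℕ} (F : Fin n → PR N) (x : Cn N) : Prop :=
  (∀ i, eval x (F i) = 0 → ∃ p, eval x (pderiv p (F i)) ≠ 0) ∧
  (∀ i j, i ≠ j → eval x (F i) = 0 → eval x (F j) = 0 →
    ∃ p q, eval x (pderiv p (F i) * pderiv q (F j) - pderiv q (F i) * pderiv p (F j)) ≠ 0) ∧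
  (∀ i j l, i ≠ j → j ≠ l → i ≠ l → eval x (F i) = 0 → eval x (F j) = 0 → eval x (F l) ≠ 0)

/-- the ideal of all polynomials which vanish at all the points where `NCx` fails -/
def ncI {N n : ℕ} (F : Fin n → PR N) : Ideal (PR N) where
  carrier := {q | ∀ x : Cn N, ¬ NCx F x → eval x q = 0}
  add_mem' := by
    intro a b ha hb x hx
    rw [map_add, ha x hx, hb x hx, add_zero]
  zero_mem' := by
    intro x _
    exact map_zero _
  smul_mem' := by
    intro c q hq x hx
    rw [smul_eq_mul, map_mul, hq x hx, mul_zero]

/-- `D = {F = 0}`, `F = ∏ F_i` of degree `N` with different irreducible factors, is a normal crossing divisor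
with smooth components outside codimension `≥ 3` in `ℙ^(N-1)`, `N ≥ 3`. -/
structure NCF {N n : ℕ} (F : Fin n → PR N) : Prop where
  pos : 3 ≤ N
  irr : ∀ i, Irreducible (F i)
  hom : ∀ i, ∃ e, (F i).IsHomogeneous e
  ndv : ∀ i j, i ≠ j → ¬ F i ∣ F j
  deg : (∏ i, F i).IsHomogeneous N
  nc : Dle (ncI F) (N - 3)

/-- `g` is a quadratic Poisson structure of rank `N - 1` (`N` odd) with the Casimir `F = ∏ F_i` of degree `N`, and
`F = 0` is a normal crossing divisor with smooth components outside codimension `≥ 3` in `ℙ^(N-1)`. -/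
structure LogS {N n : ℕ} (g : Biv N) (F : Fin n → PR N) : Prop extends NCF F where
  jac0 : ∀ i j l, jac g.f i j l = 0
  cas : ∀ a, ham g a (∏ i, F i) = 0
  rnk : ∃ x : Cn N, (mat g.f x).rank + 1 = N

/-- `g` is a quadratic Poisson structure of rank `N` (`N` even) with Pfaffian `F = ∏ F_i` (up to a constant),
and `F = 0` is a normal crossing divisor with smooth components outside codimension `≥ 3`. -/
structure LogE {N n : ℕ} (g : Biv N) (F : Fin n → PR N) : Prop extends NCF F where
  jac0 : ∀ i j l, jac g.f i j l = 0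
  det : ∃ κ : ℂ, κ ≠ 0 ∧ (Matrix.of g.f).det = C κ * (∏ i, F i) ^ 2

end Pool.Agent.Lib.MPc9b009.LS
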