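import Pool.Agent.Lib.MP_c9b009_ag.LS.Defs

/-!
# MP_c9b009_ag, row LS: statements of the modules, with proofs

One file `LS/<NAME>.lean` per module, `import Pool.Agent.Lib.MP_c9b009_ag.LS.Spec`, namespace
`Pool.Agent.Lib.MPc9b009.LS`, auxiliary lemmas in the sub-namespace `<NAME>M`, theorem
`spec<NAME> (h : SpecYYY) .. : Spec<NAME>` (arguments: the modules named in the docstring after USES, in
that order). Everything of the rows B5, OD, PS is proved and can be used directly (`PS/All.lean` is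
imported): `specSEL specMONO specHMIN`, `specSOP (specSEL specMONO specHMIN) specFINI`, `specDEX`,
`specDIM`, `specDMIN`, `specSKE`, `specRKM`, `specFINI`, `specMONO`, `specHMIN`, `specTRA ..` (see
`B5/All.lean` for the arguments), `PS.hTHI`, `PS.specRKU`, `PS.specRKC`, `PS.specDRP`,
`PS.specCRI PS.specRKU PS.specBGI`, `CUTM.trdeg_line`, `CUTM.psi`, `CUTM.hom_span`, `DET0M.der_det`,
`BSTM.mono`, `BSTM.nat_trdeg`, `BSTM.der_poly`, `BSTM.ext_vf`. Names clash between `B5`, `OD` and `PS`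
(`specCUT`, `SpecCUT` ..): write the namespace.
-/

set_option autoImplicit false

namespace Pool.Agent.Lib.MPc9b009.LS

open MvPolynomial Pool.Agent.Lib.MPc9b009.B5 Pool.Agent.Lib.MPc9b009.OD
  Pool.Agent.Lib.MPc9b009.PS

/-! ## Group E: homogeneity -/

/-- JET (~150 lines). A formal change of coordinates is bijective on `k`-jets. PROOF. `c_l = γ_l(0)`, `A` the
linear part, `ψ = aeval γ : E[x] → E[y]`, `𝔶 = (y)` (`idealOfVars`), `𝔫 = (x_l - c_l)`. `ψ(𝔫) ⊆ 𝔶` as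
`ψ(x_l - c_l) = γ_l - c_l`. (1) `𝔶 ⊆ ψ(𝔫) + 𝔶²`: `y_j - ∑_l (A⁻¹)_jl (γ_l - c_l) ∈ 𝔶²`; hence for a monomial of
degree `n` (product of `n` variables) `𝔶ⁿ ⊆ ψ(𝔫ⁿ) + 𝔶ⁿ⁺¹`, and by induction `E[y] = ψ(E[x]) + 𝔶ⁿ` for all `n`.
(2) `ψ` induces a surjective linear map `E[x]/𝔫^(k+1) → E[y]/𝔶^(k+1)`; both spaces are finite-dimensional
(spanned by the monomials of degree `≤ k`, `mem_pow_idealOfVars_iff'`) of the same dimension (the translation
`x_l ↦ y_l + c_l` is an isomorphism `E[x] → E[y]` which maps `𝔫` onto `𝔶`), so it is injective. -/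
def SpecJET : Prop := ∀ (N k : ℕ) (E : Type) (_ : Field E) (γ : Fin N → MvPolynomial (Fin N) E),
  IsUnit (Matrix.of fun i j => coeff (Finsupp.single j 1) (γ i)).det →
  (∀ Q : MvPolynomial (Fin N) E, ∃ U : MvPolynomial (Fin N) E,
    aeval γ U - Q ∈ YI N k E) ∧
  (∀ U : MvPolynomial (Fin N) E, aeval γ U ∈ YI N k E →
    U ∈ Ideal.span (Set.range fun l => X l - C (constantCoeff (γ l))) ^ (k + 1))

/-- REP (~250 lines). The functor `Pt` is represented (as far as the base point is concerned) by a finitely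
generated algebra. PROOF. `Ix = Fin N → Fin (k+2)` (exponents), `pol c = ∑_(m : Ix) C (c m) ∏ y_i^(m i)` for
`c : Ix → B`. Variables `J = (Fin N × Ix) ⊕ (κ × κ × Ix) ⊕ (κ × κ × Ix) ⊕ Unit`, `R = ℂ[J]`, generic data
`Γ_i, M_ij, M'_ij` = `pol` of the variables, `e` = the last variable. `𝔥 ⊆ R` is generated by: the
coefficients at all exponents of degree `≤ k` of the expressions of `e1`, `e2` for the generic data, the
elements `aeval (Γ(0)) q`, `q ∈ P`, and `det (linear part of Γ) e - 1`. `A = R / 𝔥` (finite type), `a` = the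
images (`MvPolynomial.map`). A polynomial is in `YI` iff its coefficients of degree `≤ k` vanish
(`mem_pow_idealOfVars_iff'`); `map` commutes with `aeval`, `coeff`, `tr`, products, determinants. UNIVERSAL
PROPERTY: `b` over `B`. Define `ψ₀ : R → B` on the variables by the coefficients of `b.γ i`, `b.m i j`,
`b.m' i j` and the inverse of the determinant. The polynomial `pol` of the coefficients of `Q` is congruent to
`Q` modulo `YI` (the difference only has monomials with an exponent `≥ k+2`), with the same constant term and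
the same linear coefficients; `aeval` respects congruences modulo an ideal. So `ψ₀` kills `𝔥`. -/
def SpecREP : Prop := ∀ (N k : ℕ) (κ τ : Type) (_ : Fintype κ) (_ : DecidableEq τ)
  (P : Ideal (PR N)) (f : κ → PR N) (blk : κ → τ) (p₀ : Cn N),
  ∃ (A : Type) (_ : CommRing A) (_ : Algebra ℂ A) (a : Pt N k P f blk p₀ A),
    Algebra.FiniteType ℂ A ∧
    ∀ (B : Type) (_ : CommRing B) (_ : Algebra ℂ B) (b : Pt N k P f blk p₀ B),
      ∃ ψ : A →ₐ[ℂ] B, ∀ i, ψ (constantCoeff (a.γ i)) = constantCoeff (b.γ i)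

/-- DUA (~200 lines). A vector field which preserves `P` and the block ideals moves the points. PROOF.
`B' = B[ε]` (`DualNumber B` = `TrivSqZeroExt B B`, or `B[X]/(X²)`), `ι` the inclusion. For `Q ∈ B[y]` write
`Q` also for its image in `B'[y]`, and `ε` for `C ε`. `vf v (f i) = ∑_j c_ij f_j` with `c_ij = 0` unless
`blk j = blk i` (`v ∈ adm`; `κ` is finite: `Ideal.mem_span_image`..). Let `w_l = aeval γ (v l)`, `c_ij(γ) = aeval
γ c_ij`. Put `γ'_l = γ_l + ε w_l`, `m'new`: `m_ij + ε ∑_(l ~ i) c_il(γ) m_lj` (sum over the block of `i`),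
`m'_ij - ε ∑_(l ~ i) m'_il c_lj(γ)`. TAYLOR: `aeval γ' q = aeval γ q + ε ∑_l w_l aeval γ (∂_l q) =
aeval γ q + ε aeval γ (vf v q)` (`ε² = 0`; induction on `q`, or: both sides are algebra homomorphisms in `q`).
e1: the `ε`-part is `aeval γ (vf v f_i) - ∑_j ∑_l c_il(γ) m_lj tr f_j = ∑_l c_il(γ) (aeval γ f_l - ∑_j m_lj tr f_j)
∈ YI`. e2: `tr f_i - ∑_j (m'_ij - ε ∑_l m'_il c_lj(γ)) (f_j(γ) + ε ∑_n c_jn(γ) f_n(γ))`, the `ε`-parts cancel.
base: `q(γ(0)) + ε (vf v q)(γ(0)) = 0`. inv: the determinant is `det + ε (..)`, a unit (`ε` nilpotent: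
`IsNilpotent` plus unit is a unit, `IsUnit` iff the image modulo `ε` is). -/
def SpecDUA : Prop := ∀ (N k : ℕ) (κ τ : Type) (_ : Fintype κ) (_ : DecidableEq τ)
  (P : Ideal (PR N)) (f : κ → PR N) (blk : κ → τ) (p₀ : Cn N) (v : Fin N → PR N),
  (∀ q ∈ P, vf v q ∈ P) → v ∈ adm f blk →
  ∀ (B : Type) (_ : CommRing B) (_ : Algebra ℂ B) (b : Pt N k P f blk p₀ B),
  ∃ (B' : Type) (_ : CommRing B') (_ : Algebra ℂ B') (ι : B →ₐ[ℂ] B') (ε : B')
    (b' : Pt N k P f blk p₀ B'), ε * ε = 0 ∧ (∀ s t : B, ι s + ε * ι t = 0 → s = 0 ∧ t = 0) ∧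
    ∀ i, constantCoeff (b'.γ i) = ι (constantCoeff (b.γ i)) +
      ε * ι (aeval (fun l => constantCoeff (b.γ l)) (v i))

/-- KER (~150 lines), USES REP, DUA. The isomorphism class of the germ at `p₀` is dense in `V(P)`. PROOF.
`A`, `a` of REP, `c_i = constantCoeff (a.γ i)`, `J` = the kernel of `aeval c : S → A`. `P ≤ J` (`a.base`). `J`
is stable under every column `v` of `π`: let `q ∈ J`; DUA gives `B'`, `b'`, REP gives `ψ : A → B'` with
`ψ(c_i) = ι c_i + ε ι (v_i(c))`, so `0 = ψ(q(c)) = q(ψ(c)) = ι (q(c)) + ε ι ((vf v q)(c))` (Taylor), hence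
`(vf v q)(c) = 0`. `J ≤ ker (eval p₀)`: the trivial point over `ℂ` (`γ_i = y_i + p₀_i`, `m = m' = 1`;
`aeval γ = tr ℂ p₀`) and REP give `ψ : A → ℂ` with `ψ(c_i) = p₀_i`. Let `Q ≤ ker (eval p₀)` be a minimal prime
of `J` (`Ideal.exists_minimalPrimes_le`). `Stab π Q` by `specDMIN`, `p₀ ∈ Zer Q`, so `Q = P`, `J ≤ P`. -/
def SpecKER : Prop := ∀ (N k r : ℕ) (κ τ : Type) (_ : Fintype κ) (_ : DecidableEq τ)
  (P : Ideal (PR N)) (f : κ → PR N) (blk : κ → τ) (p₀ : Cn N) (π : Fin N → Fin r → PR N),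
  P.IsPrime → Stab π P → (∀ j, (fun i => π i j) ∈ adm f blk) → p₀ ∈ Zer P →
  (∀ Q : Ideal (PR N), Q.IsPrime → P ≤ Q → Stab π Q → p₀ ∈ Zer Q → Q = P) →
  ∃ (A : Type) (_ : CommRing A) (_ : Algebra ℂ A) (a : Pt N k P f blk p₀ A),
    Algebra.FiniteType ℂ A ∧
    ∀ q : PR N, aeval (fun i => constantCoeff (a.γ i)) q = 0 ↔ q ∈ P

/-- PTK (~200 lines). A point over a finite extension of the function field. PROOF. `ψ = aeval c : S → A`
(`c_i = constantCoeff (a.γ i)`), kernel `P`. `T` = the submonoid `ψ(S ∖ P)` of `A`; `0 ∉ T`, so `A_T =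
Localization T` is not trivial; let `𝔐` be a maximal ideal and `L' = A_T / 𝔐`. The map `S → L'` has kernel `P`
(elements outside of `P` become units). Hence a homomorphism `L → L'`, `φ(a)/φ(b) ↦ a/b` (by `Gen.frac`;
e.g. `L` is a fraction field of `S / P`: `IsFractionRing.lift`). `L'` is generated as an `L`-algebra by the
images of the generators of `A` (the elements of `T` are in the image of `L`), so it is of finite type,
hence finite over `L` (Zariski's lemma: `finite_of_finite_type_of_isJacobsonRing`). `b` = the image of `a` under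
`A → L'` (`MvPolynomial.map` preserves all the clauses of `Pt`). -/
def SpecPTK : Prop := ∀ (N k : ℕ) (κ τ : Type) (_ : Fintype κ) (_ : DecidableEq τ)
  (P : Ideal (PR N)) (f : κ → PR N) (blk : κ → τ) (p₀ : Cn N), P.IsPrime →
  ∀ (L : Type) (_ : Field L) (_ : Algebra ℂ L) (φ : PR N →ₐ[ℂ] L), Gen P L φ →
  ∀ (A : Type) (_ : CommRing A) (_ : Algebra ℂ A) (a : Pt N k P f blk p₀ A),
  Algebra.FiniteType ℂ A →
  (∀ q : PR N, aeval (fun i => constantCoeff (a.γ i)) q = 0 ↔ q ∈ P) →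
  ∃ (L' : Type) (_ : Field L') (_ : Algebra ℂ L') (_ : Algebra L L')
    (b : Pt N k P f blk p₀ L'), IsScalarTower ℂ L L' ∧ FiniteDimensional L L' ∧
    ∀ l, constantCoeff (b.γ l) = algebraMap L L' (φ (X l))

/-- EXD (~60 lines). Derivations extend to finite extensions in characteristic 0. PROOF. Mathlib:
`differentialFiniteDimensional` / `differentialAlgebraFiniteDimensional` (`FieldTheory/Differential/Basic`) for
`F = L` with the `Differential` structure given by `D` (restricted to `ℤ`); the extension kills `ℂ`, so it is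
`ℂ`-linear. -/
def SpecEXD : Prop := ∀ (L L' : Type) (_ : Field L) (_ : Field L') (_ : Algebra ℂ L)
  (_ : Algebra ℂ L') (_ : Algebra L L'), IsScalarTower ℂ L L' → FiniteDimensional L L' →
  ∀ D : Derivation ℂ L L, ∃ D' : Derivation ℂ L' L',
    ∀ y, D' (algebraMap L L' y) = algebraMap L L' (D y)

/-- DIF (~200 lines), USES JET. Differentiate the isomorphism. PROOF. `c_l = constantCoeff (b.γ l)`. `D̂ : E[y] →
E[y]` = `D` on the coefficients (a derivation over `ℂ`, `D̂ y_l = 0`, `D̂ (C e) = C (D e)`; it preserves `YI` by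
`mem_pow_idealOfVars_iff'`). `w_l = D̂ γ_l`, `constantCoeff w_l = D c_l`. For `q ∈ S`: `D̂ (aeval γ q) = ∑_l
aeval γ (∂_l q) w_l` (the coefficients of `q` are in `ℂ`), `D̂ (tr q) = 0`. Apply `D̂` to `e1` and substitute
`e2`: `∑_l aeval γ (∂_l f_i) w_l ≡ ∑_(j ~ i) D̂(m_ij) tr f_j ≡ ∑_(j ~ i) D̂(m_ij) ∑_(n ~ j) m'_jn f_n(γ) =
∑_(n ~ i) C_in f_n(γ)` modulo `YI`. By JET (1) there are `v_l, c_in ∈ E[x]` with `ψ v_l ≡ w_l`, `ψ c_in ≡ C_in`
(`ψ = aeval γ`, `ψ (map q) = aeval γ q` for `q ∈ S`). So `ψ (∑ v_l map(∂_l f_i) - ∑ c_in map f_n) ∈ YI`, and by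
JET (2) the element is in `𝔫^(k+1)`. `eval c (v_l) = constantCoeff (ψ v_l) = constantCoeff w_l = D c_l`. -/
def SpecDIF : Prop := ∀ (N k : ℕ) (κ τ : Type) (_ : Fintype κ) (_ : DecidableEq τ)
  (P : Ideal (PR N)) (f : κ → PR N) (blk : κ → τ) (p₀ : Cn N)
  (E : Type) (_ : Field E) (_ : Algebra ℂ E) (b : Pt N k P f blk p₀ E) (D : Derivation ℂ E E),
  ∃ v : Fin N → MvPolynomial (Fin N) E, apx f blk E (fun l => constantCoeff (b.γ l)) k v ∧
    ∀ l, eval (fun l => constantCoeff (b.γ l)) (v l) = D (constantCoeff (b.γ l))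

/-- ARE (~250 lines). Artin-Rees: approximate solutions have the values of exact ones. PROOF. `R = E[x]`
(noetherian), `𝔞_i` = the ideal of the block of `i` in `R`, `𝔫 = (x_l - c_l)`, `W = κ → R`, `U = {w | w_i ∈ 𝔞_i}`,
`Φ : R^N → W`, `Φ(v)_i = ∑ v_l map(∂_l f_i)`, `T` = the image of `Φ` in `W / U`. Artin-Rees
(`Ideal.exists_pow_inf_eq_pow_smul`): there is `k` with `𝔫^(k+1) (W/U) ⊓ T ≤ 𝔫 T`. If `apx .. k v` then
`Φ(v) ∈ U + 𝔫^(k+1) W`, so `Φ(v) ≡ Φ(v'')` modulo `U` with `v'' ∈ 𝔫 R^N`; `u = v - v''` has `u(c) = v(c)` and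
`Φ(u) ∈ U`. Let `(e_α)` be a basis of `E` over `ℂ`; `u_l = ∑_α e_α u_(l,α)` (finite sum, `u_(l,α) ∈ S`,
coefficientwise). `∑_l u_l map(∂_l f_i) = ∑_α e_α (∑_l u_(l,α) ∂_l f_i)` is in `𝔞_i = ⊕ e_α (block ideal)`
(apply the coordinate functional `E → ℂ` coefficientwise: it is `S`-linear and maps `𝔞_i` into the block
ideal), so `u_α ∈ adm` and `v(c) = u(c) = ∑_α e_α u_α(c)`. -/
def SpecARE : Prop := ∀ (N : ℕ) (κ τ : Type) (_ : Fintype κ) (f : κ → PR N) (blk : κ → τ)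
  (E : Type) (_ : Field E) (_ : Algebra ℂ E) (c : Fin N → E),
  ∃ k : ℕ, ∀ v : Fin N → MvPolynomial (Fin N) E, apx f blk E c k v →
    (fun l => eval c (v l)) ∈
      Submodule.span E {w : Fin N → E | ∃ u ∈ adm f blk, w = fun l => aeval c (u l)}

/-- DSC (~120 lines). Descent of approximate solutions. PROOF. Choose an `E`-linear `λ : E' → E` with
`λ 1 = 1`. Applied to the coefficients it gives `λ̂ : E'[x] → E[x]`, linear over `E[x]`; it maps the ideal
generated in `E'[x]` by elements `a_s ∈ E[x]` into the ideal generated by them in `E[x]` (block ideals and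
`𝔫^(k+1)`; the power of the extended ideal is the extension of the power: `Ideal.map_pow`). `v_l = λ̂ (v'_l)`;
`eval c (λ̂ Q) = λ (eval c Q)`. -/
def SpecDSC : Prop := ∀ (N k : ℕ) (κ τ : Type) (_ : Fintype κ) (f : κ → PR N) (blk : κ → τ)
  (E E' : Type) (_ : Field E) (_ : Field E') (_ : Algebra ℂ E) (_ : Algebra ℂ E')
  (_ : Algebra E E'), IsScalarTower ℂ E E' → ∀ (c d : Fin N → E)
  (v' : Fin N → MvPolynomial (Fin N) E'),
  apx f blk E' (fun l => algebraMap E E' (c l)) k v' →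
  (∀ l, eval (fun l => algebraMap E E' (c l)) (v' l) = algebraMap E E' (d l)) →
  ∃ v : Fin N → MvPolynomial (Fin N) E, apx f blk E c k v ∧ ∀ l, eval c (v l) = d l

/-- EQT (~120 lines), USES KER, PTK, EXD, DIF, ARE, DSC. HOMOGENEITY PRINCIPLE. PROOF. `c_l = φ(x_l)`. `k` from
ARE for `E = L`, `c`. KER and PTK give `L'` and `b : Pt .. L'` with `γ(0) = c`. `D'` extends `D` (EXD). DIF for
`D'`, DSC with `d_l = D(c_l)`: an approximate solution over `L` with the value `D(c)`. ARE. (`aeval c = φ`.) -/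
def SpecEQT : Prop := ∀ (N r : ℕ) (κ τ : Type) (_ : Fintype κ) (_ : DecidableEq τ)
  (P : Ideal (PR N)) (f : κ → PR N) (blk : κ → τ) (p₀ : Cn N) (π : Fin N → Fin r → PR N),
  P.IsPrime → Stab π P → (∀ j, (fun i => π i j) ∈ adm f blk) → p₀ ∈ Zer P →
  (∀ Q : Ideal (PR N), Q.IsPrime → P ≤ Q → Stab π Q → p₀ ∈ Zer Q → Q = P) →
  ∀ (L : Type) (_ : Field L) (_ : Algebra ℂ L) (φ : PR N →ₐ[ℂ] L), Gen P L φ →
  ∀ D : Derivation ℂ L L, (fun l => D (φ (X l))) ∈
    Submodule.span L {w : Fin N → L | ∃ u ∈ adm f blk, w = fun l => φ (u l)}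

/-- RNK (~150 lines). If the tangent vectors of `V(P)` at the generic point are in the column space of `π`
then `π` has rank `≥ d = D(P)`. PROOF. `specSOP` (`M = 0`, `m = d`, `g` = the variables, `d := 1`; or `M = d`): `d`
linear forms `z_b = ∑_j l_bj x_j`, algebraically independent modulo `P`, `S / P` integral over `ℂ[z]`. So `L` is a
finite extension of `ℂ(z)` (instances as in the proof of `specBST` in `B5/Bst.lean`), `specDEX` gives
derivations `dd_b` of `L` with `dd_b(z_c) = δ_bc`. The vectors `w_b = (dd_b φ(x_l))_l`, `b < d`, are independent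
(`∑_j l_cj (w_b)_j = δ_bc`) and lie in the column space of `φ(π)`: the rank of `φ(π)` is `≥ d`, by `specRKM` some
`d`-minor is `≠ 0` (`d = 0`: the empty minor is `1 ∉ P`), and `φ(mnr π A J)` is this minor. -/
def SpecRNK : Prop := ∀ (N r d : ℕ) (P : Ideal (PR N)) (π : Fin N → Fin r → PR N), P.IsPrime →
  Hom P → Algebra.trdeg ℂ (PR N ⧸ P) = ((d : ℕ) : Cardinal) →
  ∀ (L : Type) (_ : Field L) (_ : Algebra ℂ L) (φ : PR N →ₐ[ℂ] L), Gen P L φ →
  (∀ D : Derivation ℂ L L, (fun l => D (φ (X l))) ∈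
    Submodule.span L (Set.range fun j : Fin r => fun i => φ (π i j))) →
  ∃ (A : Fin d → Fin N) (J : Fin d → Fin r), mnr π A J ∉ P

/-! ## Group T: the trace lemma -/

/-- COP (~150 lines). Ideals of codimension `≥ 2` contract to ideals without common divisor. PROOF. Suppose
`ϖ ∣ s` for all `s` with `z(s) := aeval z s ∈ J`. `S / P` is integral over `A = ℂ[z] ≅ PR d`; lying over
(`Ideal.exists_ideal_over_prime_of_isIntegral` or similar, for the ideal `J / P` and the prime `(ϖ)` which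
contains its contraction): a prime `q ≥ J` of `S` with `{s | z(s) ∈ q} = (ϖ)`. So `PR d / (ϖ)` embeds into `S / q`
and `D(q) ≥ trdeg (PR d / (ϖ)) ≥ d - 1`: let `x_i` be a variable which occurs in `ϖ` (`ϖ` is not a constant); the
other `d - 1` variables are algebraically independent modulo `ϖ` (a nonzero multiple of `ϖ` has positive degree
in `x_i`: `degreeOf_mul_eq`). But `D(q) ≤ d - 2`. -/
def SpecCOP : Prop := ∀ (N d : ℕ) (P J : Ideal (PR N)) (z : Fin d → PR N), P.IsPrime →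
  AlgebraicIndependent ℂ (fun b => Ideal.Quotient.mk P (z b)) →
  (∀ y : PR N ⧸ P, IsIntegral
    (Algebra.adjoin ℂ (Set.range fun b => Ideal.Quotient.mk P (z b))) y) →
  P ≤ J → 2 ≤ d → Dle J (d - 2) →
  ∀ ϖ : PR d, Prime ϖ → ∃ s : PR d, ¬ ϖ ∣ s ∧ aeval z s ∈ J

/-- TRC (~120 lines). Traces of 1-forms are regular. PROOF. By `specTRA` (all hypotheses are theorems, see
`B5/All.lean`) for `x_b = X_b` (`b ≠ i`), `x_i = y`: `tr (a · det (dd_b x_c)) ∈ A` and the determinant is `dd_i y`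
(all other rows are unit rows). So `tr (a dd_i(y)) ∈ A` for integral `a, y`. Let `t = tr (x_j θ_i) ∈ Frac A`. For every
prime `ϖ` there is `s`, `ϖ ∤ s`, with `s t = ∑_l tr (x_j u_l dd_i(x_l)) ∈ A`. Write `t = r₀ / s₀` without common
factor (UFD); a prime `ϖ ∣ s₀` would divide `s` (`s₀ ∣ s r₀`). So `s₀` is a unit. -/
def SpecTRC : Prop := ∀ (N d : ℕ) (L : Type) (_ : Field L)
  (_ : Algebra (PR d) L) (_ : Algebra (FractionRing (PR d)) L)
  (_ : IsScalarTower (PR d) (FractionRing (PR d)) L)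
  (_ : Algebra ℂ L) (_ : IsScalarTower ℂ (PR d) L)
  (_ : FiniteDimensional (FractionRing (PR d)) L)
  (dd : Fin d → Derivation ℂ L L) (x : Fin N → L) (θ : Fin d → L),
  (∀ b c, dd b (algebraMap (PR d) L (X c)) = if b = c then 1 else 0) →
  (∀ l, IsIntegral (PR d) (x l)) →
  (∀ ϖ : PR d, Prime ϖ → ∃ (s : PR d) (u : Fin N → L), ¬ ϖ ∣ s ∧
    (∀ l, IsIntegral (PR d) (u l)) ∧
    ∀ i, algebraMap (PR d) L s * θ i = ∑ l, u l * dd i (x l)) →
  ∀ (j : Fin N) (i : Fin d), ∃ r : PR d,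
    Algebra.trace (FractionRing (PR d)) L (x j * θ i) = algebraMap _ _ r

/-- TRE (~180 lines). Homogeneity of the traces. PROOF. `F₀ = Frac (PR d)`. `E` maps `F₀` into itself
(`E z_b = z_b`), call this `E₀`. `tr (E y) = E₀ (tr y)`: let `b_i` be a basis of `L / F₀`, `E b_i = ∑ m_ij b_j`, `Y` the
matrix of the multiplication by `y`; the Leibniz rule gives for the matrix of `E y`: `E₀(Y) + [.,.]` (a
commutator of `Y` and `m`), whose trace is `tr E₀(Y) = E₀ (tr Y)`. Let `t = tr (x_j θ_i) = algebraMap r`. `E(x_j θ_i) =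
x_j θ_i - x_j θ_i = 0`, so `E₀(r) = ∑ z_b ∂_b r = 0` and `r` is a constant `ρ_ij ∈ ℂ` (Euler: homogeneous
components). `∑_i z_i tr (x_j θ_i) = tr (x_j ∑ z_i θ_i) = 0` gives `∑_i ρ_ij z_i = 0`, so `ρ_ij = 0`. -/
def SpecTRE : Prop := ∀ (N d : ℕ) (L : Type) (_ : Field L)
  (_ : Algebra (PR d) L) (_ : Algebra (FractionRing (PR d)) L)
  (_ : IsScalarTower (PR d) (FractionRing (PR d)) L)
  (_ : Algebra ℂ L) (_ : IsScalarTower ℂ (PR d) L)
  (_ : FiniteDimensional (FractionRing (PR d)) L)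
  (E : Derivation ℂ L L) (x : Fin N → L) (θ : Fin d → L),
  (∀ b, E (algebraMap (PR d) L (X b)) = algebraMap (PR d) L (X b)) →
  (∀ l, E (x l) = x l) → (∀ i, E (θ i) = - θ i) →
  ∑ i, algebraMap (PR d) L (X i) * θ i = 0 →
  (∀ (j : Fin N) (i : Fin d), ∃ r : PR d,
    Algebra.trace (FractionRing (PR d)) L (x j * θ i) = algebraMap _ _ r) →
  ∀ (j : Fin N) (i : Fin d), Algebra.trace (FractionRing (PR d)) L (x j * θ i) = 0

/-- TRL (~350 lines), USES COP, TRC, TRE. TRACE LEMMA. PROOF. `z_b` (`b < d`) linear forms as in RNK, `L` finite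
over `ℂ(z)`, `∂_b := dd_b` of `specDEX`; `D y = ∑_b D(z_b) ∂_b y` for all derivations `D` of `L`. For a derivation `D`
put `Θ(D) = θ((D x̄_l)_l)`; `θ_i = Θ(∂_i)`, so `Θ(D) = ∑ D(z_i) θ_i`. The columns of `π` define derivations `Δ_j` of `L`
(`Stab π P`, `BSTM.ext_vf`), `Δ_j x̄_l = φ(π_lj)`, `Θ(Δ_j) = c_j`. The space `𝒯 = {(D x̄_l)_l}` has dimension `d`
(basis `(∂_b x̄)`), contains the columns `φ(π_·j)` and `x̄` (Euler derivation `E`, `Hom P`).
(A) Let `A, J` be such that the minor `M = φ(mnr π A J)` is `≠ 0`. The columns `J` are a basis of `𝒯`, and for `w ∈ 𝒯`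
Cramer's rule gives `M w = ∑_b (adj T · w_A)_b col_(J b)`, `T_ab = φ(π_(A a)(J b))`; so `M θ(w) = ∑_a u_a w_(A a)`,
`u_a = ∑_b c_(J b) (adj T)_(b a) ∈ φ(S)`. In particular `M θ_i = ∑_a u_a ∂_i x̄_(A a)`. For `M = 0` take `u = 0`. So for
every `y ∈ P ⊔ mnI d π` there are `u_l ∈ φ(S)` with `φ(y) θ_i = ∑_l u_l ∂_i x̄_l` for all `i`.
(B) COP with `J := P ⊔ mnI d π`: for every prime `ϖ ∈ PR d` there is `s`, `ϖ ∤ s`, with `aeval z s ∈ P ⊔ mnI d π`. So TRC
applies: `tr (x̄_j θ_i) ∈ ℂ[z]`.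
(C) `E θ_i = - θ_i`: the map `D ↦ E(Θ(D)) - Θ([E, D])` is `L`-linear in `D` and vanishes for `D = Δ_j` (`[E, Δ_j] =
(e_j - 1) Δ_j`: check on `x̄_l`; so the value is `0 - (e_j - 1) c_j = 0` by the hypothesis on `c`), and the `Δ_j` span
the derivations of `L` (some `d`-minor of `π` is not in `P` because `D(P) = d > d - 2`). So it vanishes for
`D = ∂_i`: `E θ_i = Θ([E, ∂_i]) = - Θ(∂_i)` (check `[E, ∂_i] = - ∂_i` on `z_b`). `∑ z_i θ_i = Θ(E) = θ(x̄) = 0`.
TRE: `tr (x̄_j θ_i) = 0` for all `i, j`.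
(D) Let `e_j = 1`: `Δ_j(z_i) = ∑_l l_il φ(π_lj)` is a linear combination of the `x̄_m` with constant coefficients,
so `c_j = Θ(Δ_j) = ∑_i Δ_j(z_i) θ_i` has trace `0`; but `tr (c_j) = [L : ℂ(z)] c_j`. -/
def SpecTRL : Prop := ∀ (N r d : ℕ) (P : Ideal (PR N)) (π : Fin N → Fin r → PR N)
  (e : Fin r → ℕ), P.IsPrime → Hom P → Algebra.trdeg ℂ (PR N ⧸ P) = ((d : ℕ) : Cardinal) →
  2 ≤ d → (∀ i j, (π i j).IsHomogeneous (e j)) → Stab π P → Dle (P ⊔ mnI d π) (d - 2) →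
  ∀ (L : Type) (_ : Field L) (_ : Algebra ℂ L) (φ : PR N →ₐ[ℂ] L), Gen P L φ →
  ∀ (θ : (Fin N → L) →ₗ[L] L) (c : Fin r → ℂ),
  (∀ j, θ (fun i => φ (π i j)) = algebraMap ℂ L (c j)) → θ (fun i => φ (X i)) = 0 →
  (∀ j, c j ≠ 0 → e j = 1) → ∀ j, c j = 0

/-! ## Group S: stable ideals -/

/-- EUH (~80 lines). Stable under the Euler field = homogeneous. PROOF. `vf X q = ∑_e e q_e` for the homogeneous
components `q_e`. If `I` is stable, `q ∈ I`: `∑_e e^j q_e ∈ I` for all `j`; Vandermonde (or induction: remove the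
components one after the other with `(E - e)`). Conversely `∑ e q_e ∈ I`. -/
def SpecEUH : Prop := ∀ (N : ℕ) (I : Ideal (PR N)),
  (∀ q ∈ I, vf (fun l => X l) q ∈ I) ↔ Hom I

/-- MNG (~120 lines). If `v(π) = M π + π C` modulo `I` then the ideal `I + (n-minors of π)` is stable under `v`.
PROOF. As in PS/JST, PS/XST: the derivative of a minor is the sum over the rows of the determinants with one
row differentiated. The `M`-part of row `a`: `∑_l M_(A a, l) · (minor with A a replaced by l)`. The `C`-part,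
summed over the rows, is the sum over the columns `b` of `∑_l C_(l, J b) · (minor with J b replaced by l)`. -/
def SpecMNG : Prop := ∀ (N r n : ℕ) (I : Ideal (PR N)) (π : Fin N → Fin r → PR N)
  (v : Fin N → PR N) (M : Fin N → Fin N → PR N) (C' : Fin r → Fin r → PR N),
  (∀ q ∈ I, vf v q ∈ I) →
  (∀ i j, vf v (π i j) - (∑ l, M i l * π l j + ∑ l, π i l * C' l j) ∈ I) →
  ∀ q ∈ I ⊔ mnI n π, vf v q ∈ I ⊔ mnI n π

/-- THS (~250 lines), USES MNG. The minors of `[g | h_σ | x]` generate stable ideals. PROOF. `Π = th g (h ∘ σ)`,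
work modulo `P ⊇ I`. (1) `v = x` (Euler): `v(Π_ij) = e_j Π_ij` (`e = 2, 1, 1`): `M = 0`, `C` diagonal. (2) `v = h_a`: let
`M_il = ∂_l h_ai` (constants). `h_a(g_ij) = ∑_l (M_il g_lj + M_jl g_il)` (`poi`): `M`-part plus a combination of the
columns of `g`; `h_a(h_bi) = h_b(h_ai) = ∑_l h_bl ∂_l h_ai = (M h_b)_i` (`com`); `h_a(x_i) = h_ai = (M x)_i` (Euler,
`lin`). (3) `v = (g_lj)_l`, `j` fixed: `v(q) = ∑_l g_lj ∂_l q = - X_j q`. Let `M_al = ∂_l g_aj`. Jacobi (`jac g.f a b j ∈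
I`): `v(g_ab) = ∑_l (M_al g_lb + M_bl g_al)` up to signs to be checked as in PS/XST (there: `D g_ab =
∑_l (M_al g_lb + M_bl g_al)`, `D x_a = g_aj = (M x)_a - g_aj`). For `h_b`: `v(h_bi) = h_b(g_ij) - ..`: by `poi`,
`h_b(g_ij) = ∑_l (∂_l h_bi g_lj + ∂_l h_bj g_il)`, and `v(h_bi) = ∑_l g_lj ∂_l h_bi`, so `v(h_bi) = h_b(g_ij) -
∑_l ∂_l h_bj g_il = ∑_l h_bl ∂_l g_ij - ∑_l ∂_l h_bj g_il = (M h_b)_i -` (combination of the columns of `g`). In all
cases MNG (for `I := P`) applies. `Stab` is the statement for all the columns of `th g h`. -/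
def SpecTHS : Prop := ∀ (N k m n : ℕ) (I P : Ideal (PR N)) (g : Biv N)
  (h : Fin k → Fin N → PR N) (σ : Fin m → Fin k), (∀ i j l, jac g.f i j l ∈ I) →
  CF I g h → I ≤ P → Stab (th g h) P →
  Stab (th g h) (P ⊔ mnI n (th g (fun a => h (σ a))))

/-- CMX (~150 lines), USES THS, EUH. The components of `X_{≤ s}` are stable under the `h_a`. PROOF. As PS/CMP. `K = I ⊔
mnI (s+3) (th g ∅)`, `∅ : Fin 0 → _`, i.e. the `(s+3)`-minors of `[g | x]` (a minor with two columns `x` is `0`; the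
minors with one column `x` are `± xmnr`, those without it `mnr g.f`; an empty family `h ∘ σ` for `σ : Fin 0 → Fin k`
is equal to `∅` by `funext`). `K` is stable under all columns of `th g h` (THS with `P := I`; `Stab (th g h) I` by
`Stab g.f I`, `sta`, `Hom I` and EUH). By RKU, RKC: `{x ∈ V(K), x ≠ 0} = {x ∈ V(I), x ≠ 0, rk ≤ s}`, so `K ≤ vanI`. Let
`P` be a minimal prime of `vanI`, `q ≤ P` a minimal prime of `K`. For `h' ∈ vanI` and all `i`, `X_i h'` vanishes on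
`V(K)`, so it is in the radical of `K`, in `q`. If some `X_i ∉ q` then `vanI ≤ q`, `P = q`. If all `X_i ∈ q` then `q` is
maximal and `P = q`. So `P` is a minimal prime of `K`: `specDMIN`. -/
def SpecCMX : Prop := ∀ (N k s : ℕ) (I : Ideal (PR N)) (g : Biv N) (h : Fin k → Fin N → PR N),
  Even s → Hom I → Stab g.f I → (∀ i j l, jac g.f i j l ∈ I) → CF I g h →
  ∀ P ∈ (vanI I g.f s).minimalPrimes, Stab (th g h) P

/-! ## Group G: the general theorem -/

/-- LMN (~80 lines). A stable prime of minimal dimension. PROOF. `D` has values `≤ N` (`BSTM.nat_trdeg`), choose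
`P` with `StP` and minimal `D(P)` (`Nat.find`). If `Q > P` is stable then `D(Q) + 1 ≤ D(P)` (`specMONO`), so `StP Q`
fails, i.e. not `s + 2 ≤ D(Q)`. -/
def SpecLMN : Prop := ∀ (N k s : ℕ) (z : Ideal (PR N)) (g : Biv N) (h : Fin k → Fin N → PR N)
  (p : Ideal (PR N)), p.IsPrime → z ≤ p → Stab (th g h) p →
  ((s + 2 : ℕ) : Cardinal) ≤ Algebra.trdeg ℂ (PR N ⧸ p) →
  ∃ P : Ideal (PR N), P.IsPrime ∧ z ≤ P ∧ Stab (th g h) P ∧
    ((s + 2 : ℕ) : Cardinal) ≤ Algebra.trdeg ℂ (PR N ⧸ P) ∧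
    ∀ Q : Ideal (PR N), Q.IsPrime → P ≤ Q → Stab (th g h) Q → Q ≠ P →
      Algebra.trdeg ℂ (PR N ⧸ Q) ≤ ((s + 1 : ℕ) : Cardinal)

/-- GTA (~250 lines), USES EQT, RNK, EUH. PROOF. `Hom P` by EUH. (1) If all `(s+3)`-minors of `g` were in `P` then
`BigI I g.f s` (`PS.specCRI ..`). So the rank of `φ(g)` over `L` is `≥ s + 3`, even, `≥ s + 4` (`specSKE`, `specRKM`): an
`(s+4)`-minor `μ ∉ P`, and `s + 4 ≤ d` (`specDIM`). (2) `p₀ ∈ V(P)` with `μ(p₀) ≠ 0` (Nullstellensatz). If `Q ≥ P` is a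
stable prime with `p₀ ∈ Zer Q` then `μ ∉ Q`, `D(Q) ≥ s + 4` (`specDIM` for `g.f`), so `Q = P`. (3) `κ = κ_I ⊕ κ_z` finite
index sets of generators of `I` and `z` (noetherian), `blk = Sum.isLeft`: the block ideals are `I` and `z`; the
columns of `th g h` are in `adm` (`I`, `z` are stable; Euler: EUH for `Hom I`, `Hom z`). EQT, with `L =
FractionRing (S / P)`: every `(D x̄_l)` is in the `L`-span of the `φ(u)`, `u ∈ adm`, i.e. `u I ⊆ I`, `u z ⊆ z`.
(4) For such `u` the vector `φ(u)` is in the column space of `φ(th g h)`: let `ρ` be the rank of `φ(th g h)`;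
otherwise the matrix `[th g h | u]` has rank `ρ + 1` over `L` and a `(ρ+1)`-minor `ν ∉ P` (`specRKM`); take `x ∈ V(P)`
with `ν(x) μ(x) ≠ 0`. The `(ρ+1)`-minors of `th g h` are in `P` and vanish at `x`, so `u(x)` is not in the column
space at `x`. But `x ∈ Zer z`, `rank g(x) ≥ s + 4`, so `rk g.f x ≥ s + 2 > s` (the map `ξ ↦ g(x) ξ mod x` on a
hyperplane: the rank drops at most by 2), against `Tang`. (5) RNK. -/
def SpecGTA : Prop := ∀ (N k s d : ℕ) (I z P : Ideal (PR N)) (g : Biv N)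
  (h : Fin k → Fin N → PR N), Even s → Hom I → Stab g.f I → (∀ i j l, jac g.f i j l ∈ I) →
  CF I g h → Hom z → I ≤ z → Stab g.f z → (∀ a, ∀ q ∈ z, vf (h a) q ∈ z) → Tang I z g h s →
  P.IsPrime → z ≤ P → Stab (th g h) P →
  Algebra.trdeg ℂ (PR N ⧸ P) = ((d : ℕ) : Cardinal) → s + 2 ≤ d →
  (∀ Q : Ideal (PR N), Q.IsPrime → P ≤ Q → Stab (th g h) Q → Q ≠ P →
    Algebra.trdeg ℂ (PR N ⧸ Q) ≤ ((s + 1 : ℕ) : Cardinal)) → ¬ BigI I g.f s →
  s + 4 ≤ d ∧ (∃ A J : Fin (s + 4) → Fin N, mnr g.f A J ∉ P) ∧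
    ∃ (A : Fin d → Fin N) (J : Fin d → Fin (N + k + 1)), mnr (th g h) A J ∉ P

/-- GTB (~250 lines), USES TRL, THS, EUH. The fields `h_a` can be omitted. PROOF. `L = FractionRing (S / P)`. Let `W` be
the `L`-span of the columns of `φ(g)` and of `x̄`, `ρ₀ = dim W`; the columns of `φ(th g h)` have rank `≥ d`, and `≤ d`
(`specDIM`). If `ρ₀ = d` we are done (`specRKM`). Otherwise choose `h_(σ 0), .., h_(σ (m-1))`, `m = d - ρ₀ ≥ 1`, whose
images form a basis of (column space) / `W`. `Π = th g (h ∘ σ)` has rank `d`, some `d`-minor is not in `P`. `𝔪 = P ⊔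
mnI d Π` is stable (THS). `Dle 𝔪 (d - 2)`: a prime `q ≥ 𝔪` contains a minimal prime `q₀` of `𝔪`, stable (`specDMIN`),
`q₀ ≠ P`, so `D(q) ≤ D(q₀) ≤ s + 1 ≤ d - 2` (`BSTM.mono`). Let `θ : L^N → L` be linear, `θ = 0` on `W`, `θ(h_(σ 0)) = 1`,
`θ(h_(σ b)) = 0` for `b ≥ 1`. TRL with `e = 2` on the columns of `g`, `1` on the others, `c` = the value (`1` for `h_(σ 0)`,
`0` for all others): `c = 0`, a contradiction. (`Stab Π P` follows from `Stab (th g h) P`: every column of `Π` is a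
column of `th g h`; `Hom P` by EUH.) -/
def SpecGTB : Prop := ∀ (N k s d : ℕ) (I P : Ideal (PR N)) (g : Biv N)
  (h : Fin k → Fin N → PR N), (∀ i j l, jac g.f i j l ∈ I) →
  CF I g h → I ≤ P → P.IsPrime → Stab (th g h) P →
  Algebra.trdeg ℂ (PR N ⧸ P) = ((d : ℕ) : Cardinal) → s + 4 ≤ d →
  (∀ Q : Ideal (PR N), Q.IsPrime → P ≤ Q → Stab (th g h) Q → Q ≠ P →
    Algebra.trdeg ℂ (PR N ⧸ Q) ≤ ((s + 1 : ℕ) : Cardinal)) →
  (∃ (A : Fin d → Fin N) (J : Fin d → Fin (N + k + 1)), mnr (th g h) A J ∉ P) →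
  ∃ (A : Fin d → Fin N) (J : Fin d → Fin (N + 0 + 1)),
    mnr (th g (fun a : Fin 0 => a.elim0)) A J ∉ P

/-- GTC (~250 lines), USES CMX, EUH. The contradiction with theorem PS. PROOF. `r̂` = the rank of `φ(g)` over the
function field `L` of `V(P)`, even (`specSKE`), `r̂ ≥ s + 4`, `d - 1 ≤ r̂ ≤ d` (one more column `x̄`; `specDIM`). CASE A:
`r̂ = d`, `d` even, `s' = d - 4 ≥ s`. CASE B: `r̂ = d - 1`, `s' = d - 3 = r̂ - 2 ≥ s + 2`, even. In both cases
`s' + 2 ≤ d ≤ s' + 4`. `PS.hTHI` for `I := P`, `s'`, `p := P` gives `BigI P g.f s'`: a minimal prime `q` of `vanI P g.f s'` with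
`D(q) ≥ s' + 2 ≥ s + 2`. `q` is a prime `≥ P`, stable under `th g h` (CMX for `I := P`; `CF P g h` follows from `CF I g h` and
`Stab (th g h) P`, `Hom P` by EUH). `q ≠ P`: otherwise `vanI P g.f s' ≤ P`; by `PS.specRKC` the `(s'+3)`-minors of `g` and
the `xmnr` with `ρ = s' + 2` are in `vanI`, hence in `P`, so `r̂ ≤ s' + 2` and the rank of `[x̄ | φ(g)]` is `≤ s' + 2` (a nonzero
`(s'+3)`-minor of `[x | g]` contains the column `x` or is a minor of `g`). In case A `r̂ = s' + 4`; in case B the rank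
of `[x̄ | φ(g)]` is `d = s' + 3` (hypothesis). So `D(q) ≤ s + 1` by the hypothesis on `P`, a contradiction. -/
def SpecGTC : Prop := ∀ (N k s d : ℕ) (I P : Ideal (PR N)) (g : Biv N)
  (h : Fin k → Fin N → PR N), Even s → (∀ i j l, jac g.f i j l ∈ I) →
  CF I g h → I ≤ P → P.IsPrime → Stab (th g h) P →
  Algebra.trdeg ℂ (PR N ⧸ P) = ((d : ℕ) : Cardinal) → s + 4 ≤ d →
  (∀ Q : Ideal (PR N), Q.IsPrime → P ≤ Q → Stab (th g h) Q → Q ≠ P →
    Algebra.trdeg ℂ (PR N ⧸ Q) ≤ ((s + 1 : ℕ) : Cardinal)) →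
  (∃ A J : Fin (s + 4) → Fin N, mnr g.f A J ∉ P) →
  (∃ (A : Fin d → Fin N) (J : Fin d → Fin (N + 0 + 1)),
    mnr (th g (fun a : Fin 0 => a.elim0)) A J ∉ P) → False

/-- GTH (~60 lines), USES LMN, GTA, GTB, GTC, EUH. THEOREM GT. PROOF. `Stab (th g h) p` from the hypotheses on `p` (EUH
for `Hom p`). LMN, and then GTA, GTB, GTC if `BigI` fails. -/
def SpecGTH : Prop := ∀ (N k s : ℕ) (I z : Ideal (PR N)) (g : Biv N)
  (h : Fin k → Fin N → PR N), Even s → Hom I → Stab g.f I → (∀ i j l, jac g.f i j l ∈ I) →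
  CF I g h → Hom z → I ≤ z → Stab g.f z → (∀ a, ∀ q ∈ z, vf (h a) q ∈ z) → Tang I z g h s →
  (∃ p : Ideal (PR N), p.IsPrime ∧ Hom p ∧ z ≤ p ∧ Stab g.f p ∧
    (∀ a, ∀ q ∈ p, vf (h a) q ∈ p) ∧
    ((s + 2 : ℕ) : Cardinal) ≤ Algebra.trdeg ℂ (PR N ⧸ p)) → BigI I g.f s

/-! ## Group N: log symplectic structures on `ℙ^(N-1)` -/

/-- SQF (~150 lines). PROOF. `F = ∏ F_i`, `G_i = ∏_(j ≠ i) F_j`, the `F_i` are primes (UFD), pairwise not associated
(`ndv`). (1) `∂_p F = G_i ∂_p F_i + F_i ∂_p G_i`. (2) `F_i ∤ G_i`. (3) `F_i ∤ ∂_p F_i` for some `p`: otherwise `∂_p F_i = 0`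
for all `p` (degree in every variable, `degreeOf` or total degree: `F_i` homogeneous, `∂_p F_i` has smaller degree)
and `F_i` is constant, a unit. (4) Let `ϖ` be prime with `ϖ ∣ ∂_p F` for all `p`. Euler: `ϖ ∣ N F`, `N ≠ 0`, so `ϖ` is
associated to some `F_i`, and `F_i ∣ G_i ∂_p F_i` for all `p`, against (2), (3). (`N ≥ 3`: `pos`.) -/
def SpecSQF : Prop := ∀ (N n : ℕ) (F : Fin n → PR N), NCF F →
  (∀ i p, F i ∣ pderiv p (∏ j, F j) - (∏ j ∈ Finset.univ.erase i, F j) * pderiv p (F i)) ∧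
  (∀ i, ¬ F i ∣ ∏ j ∈ Finset.univ.erase i, F j) ∧
  (∀ i, ∃ p, ¬ F i ∣ pderiv p (F i)) ∧
  (∀ ϖ : PR N, Prime ϖ → ∃ p, ¬ ϖ ∣ pderiv p (∏ j, F j))

/-- ADJ (~200 lines), USES SQF. `adj g = κ ∇F ∇Fᵀ`. PROOF. `N` is odd (`N - 1` = rank of a skew matrix, `specSKE`). Over
`K₀ = Frac S` the rank of `g` is `N - 1` (`≥` by `rnk`; `g ∇F = 0`, `∇F ≠ 0`), the kernel is the line of `∇F`. `g · adj g =
det g = 0`, so the columns of `adj g` are multiples of `∇F`: `(adj g)_pq = μ_q ∂_p F`. `adj g` is symmetric (`adj (gᵀ) =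
(adj g)ᵀ`, `adj (-g) = (-1)^(N-1) adj g`), so `μ_q = κ ∂_q F`, `κ ∈ K₀`. A prime `ϖ` in the denominator of `κ` would divide
all `(∂_p F)²`, against SQF (4). So `κ ∈ S`; `κ ≠ 0` (some `(N-1)`-minor of `g` is not `0`); degrees: the entries of `adj g`
are forms of degree `2 (N - 1)`, `∂_p F ∂_q F` too, so `κ ∈ ℂ`. -/
def SpecADJ : Prop := ∀ (N n : ℕ) (g : Biv N) (F : Fin n → PR N), LogS g F →
  Odd N ∧ ∃ κ : ℂ, κ ≠ 0 ∧ ∀ p q, (Matrix.of g.f).adjugate p q =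
    C κ * pderiv p (∏ j, F j) * pderiv q (∏ j, F j)

/-- ALF (~250 lines), USES SQF, ADJ. PROOF. `F = ∏ F_i`, `x · ∇F = N F`. Let `K₀ = Frac S`. `g : K₀^N → K₀^N` has image
`{w | w · ∇F = 0}` (contained in it by skewness and `g ∇F = 0`; both have dimension `N - 1`). So there is `ξ₀` with
`g ξ₀ = v`; `ξ = ξ₀ - (x · ξ₀)/(N F) ∇F` satisfies `g ξ = v`, `x · ξ = 0`. CLAIM `α := F ξ ∈ S^N`. Fix `i` with `∂_i F ≠ 0`.
`ξ' = ξ - (ξ_i / ∂_i F) ∇F` has `ξ'_i = 0`, `g ξ' = v`; with `g_(i)` = `g` without row and column `i`: `g_(i) ξ'_(i) =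
v_(i)`, so `det g_(i) · ξ' ∈ S^N`, `det g_(i) = (adj g)_ii = κ (∂_i F)²` (`Matrix.adjugate_fin_succ_eq_det_submatrix`). `x ·
ξ' = - (ξ_i / ∂_i F) N F`, so `ξ = ξ' - (x · ξ')/(N F) ∇F` and `κ N (∂_i F)² F ξ ∈ S^N`; for `∂_i F = 0` this is trivial. A
prime `ϖ` in the denominator of `F ξ_p` (UFD) would divide all `(∂_i F)²`, against SQF (4). SECOND PART: modulo the
prime `F_i`: `g α = F v ≡ 0`, `g ∇F = 0`, `∇F ≡ G_i ∇F_i ≢ 0`, and the rank of `g` over `Frac (S / F_i)` is `N - 1` (some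
entry `κ (∂_p F)²` of `adj g` is not divisible by `F_i`: SQF (4)). So `α` and `∇F_i` are proportional modulo `F_i`. -/
def SpecALF : Prop := ∀ (N n : ℕ) (g : Biv N) (F : Fin n → PR N), LogS g F →
  ∀ v : Fin N → PR N, vf v (∏ j, F j) = 0 →
  ∃ α : Fin N → PR N, (∀ a, ∑ b, g.f a b * α b = (∏ j, F j) * v a) ∧
    ∀ i p q, F i ∣ α p * pderiv q (F i) - α q * pderiv p (F i)

/-- S2H (~250 lines), USES COP. A hypersurface satisfies Serre's condition `S₂`. PROOF. `P = (F)`, `D(P) = N - 1 =: d`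
(`N ≥ 2` or trivial; for `N ≤ 2` see the end). `specSOP`: `d` linear forms `z_b`, algebraically independent modulo `P`,
`S / P` integral over `A = ℂ[z]`. The `z_b` are linearly independent; complete them by a linear form `ℓ` to a
coordinate system, `S = A[ℓ]`; `ℓ` is integral over `A` modulo `F`, so a monic polynomial in `ℓ` is divisible by `F`,
and `F` is monic in `ℓ` up to a constant, of degree `e`: `R = S / P` is free over `A` with the basis `1, ℓ, .., ℓ^(e-1)`.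
(Alternatively: choose coordinates by hand, `F(c) ≠ 0`, and use `MvPolynomial.finSuccEquiv`.) In `Frac R =
⊕ Frac(A) ℓ^j` write `u / w = ∑ a_j ℓ^j`. Let `C = {b ∈ S | b u ∈ (w, F)} ⊇ P`, an ideal. For `s ∈ A` with `s ∈ C` we have
`s u / w ∈ R`, so `s a_j ∈ A`. `Dle C (N - 3)`, i.e. `(d - 2)`: a prime `Q ≥ C` has not `N ≤ D(Q) + 2` by hypothesis. By COP
for every prime `ϖ ∈ A` there is `s ∈ C ∩ A` with `ϖ ∤ s`, so `a_j ∈ A` (UFD). Hence `u / w ∈ R`, `u ∈ (w, F)`. For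
`N ≤ 2` (`d < 2`) the hypothesis is satisfied for all maximal ideals `Q` (`D(Q) = 0`), so `C = S`. -/
def SpecS2H : Prop := ∀ (N : ℕ) (F : PR N), Irreducible F → (∃ e, F.IsHomogeneous e) →
  ∀ u w : PR N, ¬ F ∣ w →
  (∀ Q : Ideal (PR N), Q.IsPrime → ((N : ℕ) : Cardinal) ≤ Algebra.trdeg ℂ (PR N ⧸ Q) + 2 →
    ∃ b, b ∉ Q ∧ b * u ∈ Ideal.span {w, F}) →
  u ∈ Ideal.span {w, F}

/-- NCP (~80 lines). The normal crossing condition at primes of codimension `≤ 2`. PROOF. `ncI F` is not contained in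
`Q`: otherwise `D(Q) ≤ N - 3` by `Dle`, so (as natural numbers) `N ≤ D(Q) + 2` gives `N ≤ (N - 3) + 2`, impossible
for `N ≥ 3` (`pos`). So let `q ∈ ncI F`, `q ∉ Q`. If `F_i ∈ Q` and
all `∂_p F_i ∈ Q` then `NCx` fails at every `x ∈ V(Q)`, so `q` vanishes on `V(Q)`, `q ∈ Q` (Nullstellensatz). In the same
way for (2) and (3). -/
def SpecNCP : Prop := ∀ (N n : ℕ) (F : Fin n → PR N), NCF F →
  ∀ Q : Ideal (PR N), Q.IsPrime → ((N : ℕ) : Cardinal) ≤ Algebra.trdeg ℂ (PR N ⧸ Q) + 2 →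
  (∀ i, F i ∈ Q → ∃ p, pderiv p (F i) ∉ Q) ∧
  (∀ i j, i ≠ j → F i ∈ Q → F j ∈ Q →
    ∃ p q, pderiv p (F i) * pderiv q (F j) - pderiv q (F i) * pderiv p (F j) ∉ Q) ∧
  (∀ i j l, i ≠ j → j ≠ l → i ≠ l → F i ∈ Q → F j ∈ Q → F l ∉ Q)

/-- RES (~250 lines), USES SQF, S2H, NCP. Logarithmic forms are generated by the `d log F_i`. PROOF. `G_i =
∏_(j ≠ i) F_j`. (1) For every `i` there is `a_i` with `F_i ∣ α_p - a_i G_i ∂_p F_i` for all `p`. Let `p₁` with
`F_i ∤ ∂_(p₁) F_i` (SQF), `w = G_i ∂_(p₁) F_i`, `u = α_(p₁)`. Hypothesis of S2H for a prime `Q` of codimension `≤ 2`: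
if `F_i ∉ Q`: `b = F_i`. If `F_i ∈ Q`, `G_i ∉ Q`: `p₀` with `∂_(p₀) F_i ∉ Q` (NCP), `b = G_i ∂_(p₀) F_i`:
`b α_(p₁) ≡ G_i α_(p₀) ∂_(p₁) F_i = α_(p₀) w` modulo `F_i`. If `F_i, G_i ∈ Q`: exactly one `F_j ∈ Q`, `j ≠ i` (NCP (3)),
`G_i = F_j G_ij`, `G_ij ∉ Q` (product of the others); `μ = ∂_(p₀) F_i ∂_(q₀) F_j - ∂_(q₀) F_i ∂_(p₀) F_j ∉ Q` (NCP (2)),
`∂_(p₂) F_i ∉ Q` (NCP (1)). Modulo `F_i`: `∂_(p₂) F_i · (α_(p₀) ∂_(q₀) F_j - α_(q₀) ∂_(p₀) F_j) ≡ α_(p₂) μ`, and the left side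
is divisible by `F_j`: `α_(p₂) μ ≡ F_j ν`. Take `b = μ G_ij ∂_(p₂) F_i ∉ Q`: `b α_(p₁) ≡ μ G_ij α_(p₂) ∂_(p₁) F_i ≡ G_ij F_j ν
∂_(p₁) F_i = ν w`. So `α_(p₁) ≡ a_i G_i ∂_(p₁) F_i`, and for all `p`: `∂_(p₁) F_i α_p ≡ α_(p₁) ∂_p F_i ≡ ∂_(p₁) F_i · a_i G_i
∂_p F_i`, cancel the prime-to-`F_i` factor. (2) `β_p = α_p - ∑_i a_i G_i ∂_p F_i` is divisible by every `F_j` (`F_j ∣ G_i` for
`i ≠ j`), hence by `F` (pairwise not associated primes). -/
def SpecRES : Prop := ∀ (N n : ℕ) (F : Fin n → PR N), NCF F →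
  ∀ α : Fin N → PR N, (∀ i p q, F i ∣ α p * pderiv q (F i) - α q * pderiv p (F i)) →
  ∃ a : Fin n → PR N, ∀ p, (∏ j, F j) ∣
    α p - ∑ i, a i * (∏ j ∈ Finset.univ.erase i, F j) * pderiv p (F i)

/-- HMI (~250 lines), USES SQF. The fields `h_i = {., F_i} / F_i`. PROOF. `{a, b} = ∑ g_lm ∂_l a ∂_m b`, `{F, x_l} = 0`,
`F = F_i G_i`: `G_i {F_i, x_l} + F_i {G_i, x_l} = 0`, so `F_i ∣ {x_l, F_i}` (SQF (2)): `h_il := {x_l, F_i} / F_i`, a form
of degree `(2 + deg F_i - 1) - deg F_i = 1` (quotient of homogeneous polynomials; also true if it is `0`).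
`δ_i(a) := vf (h i) a = {a, F_i} / F_i`. Stability of `(F_j)`, `(F)` under the Hamiltonian fields and the `δ_i`: `F_j ∣ {F_j,
x_l}`, so `F_j ∣ {F_j, F_i}`; also `F_i` divides it; for `i ≠ j` `F_i F_j ∣ {F_j, F_i}`: `δ_i F_j ∈ (F_j)`; Leibniz for `F`.
POISSON (`I = ⊥`): `δ_i({a, b}) = {δ_i a, b} + {a, δ_i b}` (multiply by `F_i²`: Jacobi; the terms with `{F_i, a}{F_i, b}`
cancel); for `a = x_i, b = x_j` this is `poi` (`δ x_i = h_i` is linear: `{h_ai, x_j} = ∑_l ∂_l h_ai g_lj`). COMMUTE: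
`{F_i, F_j} = c_ij F_i F_j` with `c_ij ∈ ℂ` (degrees), and `F_i F_j (δ_i δ_j - δ_j δ_i)(a) =` Jacobi `= 0` because
`{c_ij, a} = 0`. The Jacobi identity for general polynomials follows from `jac0` (see `OD/POI`.. or
`MP_c9b009_ag/Poisson.lean`, or: both sides are derivations in each argument). -/
def SpecHMI : Prop := ∀ (N n : ℕ) (g : Biv N) (F : Fin n → PR N), LogS g F →
  ∃ h : Fin n → Fin N → PR N, (∀ i l, F i * h i l = ∑ m, g.f l m * pderiv m (F i)) ∧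
    CF ⊥ g h ∧ (∀ i, ∀ q ∈ Ideal.span {∏ j, F j}, vf (h i) q ∈ Ideal.span {∏ j, F j}) ∧
    (∀ i j, ∀ q ∈ Ideal.span {F j}, vf (h i) q ∈ Ideal.span {F j}) ∧
    Stab g.f (Ideal.span {∏ j, F j}) ∧ ∀ j, Stab g.f (Ideal.span {F j})

/-- GNN (~120 lines), USES ALF, RES. The vector fields which preserve `F` are combinations of the Hamiltonian
fields, the `h_i` and the Euler field. PROOF. `vf v F = c F`; `v' = v - (c / N) x` has `vf v' F = 0`. ALF for `v'`, RES: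
`α_p = ∑_i a_i G_i ∂_p F_i + F ζ_p`. `F v'_l = ∑_p g_lp α_p = ∑_i a_i G_i F_i h_il + F ∑_p g_lp ζ_p`, and `G_i F_i = F`;
cancel `F`. -/
def SpecGNN : Prop := ∀ (N n : ℕ) (g : Biv N) (F : Fin n → PR N), LogS g F →
  ∀ h : Fin n → Fin N → PR N, (∀ i l, F i * h i l = ∑ m, g.f l m * pderiv m (F i)) →
  ∀ v : Fin N → PR N, vf v (∏ j, F j) ∈ Ideal.span {∏ j, F j} →
  ∃ c : Fin (N + n + 1) → PR N, ∀ l, v l = ∑ j, th g h l j * c j

/-- LSP (~120 lines), USES GTH, HMI, GNN, ADJ. PROOF. `N` is odd (ADJ), `s + 1 < N`, so `s + 2 ≤ N - 1`. GTH with `I = ⊥`, `z =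
(F)`, `h` of HMI; `Tang`: GNN and evaluation at `x`. `p = (F_0)` (`n ≥ 1` because `F` has degree `N ≥ 1`): prime,
homogeneous (`hom`), `D(p) = N - 1` (`≥ N - 1`: as in COP; e.g. `N - 1` variables are independent modulo `F_0`). -/
def SpecLSP : Prop := ∀ (N n s : ℕ) (g : Biv N) (F : Fin n → PR N), LogS g F → Even s →
  s + 1 < N → BigI ⊥ g.f s

/-! ## Group L: limits -/

/-- LMA (~150 lines). A component of dimension `≥ s + 1` meets every linear subspace of codimension `s + 1`. PROOF.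
`P` a minimal prime of `vanI` with `D(P) ≥ s + 2`, homogeneous (`PS.specCMP ..`, or `specHMIN` and the homogeneity of
`vanI`: `rk (t x) = rk x`). `W` is contained in the common kernel of `m ≤ s + 1` linear forms `lin c_i` and equal to it
(`finrank W ≥ N - (s+1)`; dual annihilator). Suppose `V(P) ∩ W ⊆ {0}`. By the Nullstellensatz every prime `q ≥ P + (lin
c_i)` contains all variables, `D(q) = 0`; `specFINI`: `S / P` is integral over `ℂ[lin c_i]`, so `D(P) ≤ s + 1`, a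
contradiction. So there is `x ≠ 0` in `V(P) ∩ W`. `rk x ≤ s`: `rk ≤ s` is equivalent (for `x ≠ 0`) to the vanishing of
the `(s+3)`-minors of `g` and of the `xmnr` (RKU, RKC), and these polynomials are in `vanI ≤ P`. -/
def SpecLMA : Prop := ∀ (N s : ℕ) (g : Biv N), Even s → (∀ i j l, jac g.f i j l = 0) →
  BigI ⊥ g.f s → ∀ W : Submodule ℂ (Cn N), N ≤ Module.finrank ℂ W + (s + 1) →
  ∃ x ∈ W, x ≠ 0 ∧ rk g.f x ≤ s

/-- LMB (~150 lines). The converse. PROOF. `J = vanI ⊥ g.f s` is homogeneous: `rk g.f (t x) = rk g.f x` for `t ≠ 0` (`g(t x) =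
t² g(x)`), so `q ∈ J` implies `q(t ·) ∈ J` for all `t ≠ 0`, and the components are in `J` (Vandermonde). If `BigI` fails
then `Dle J (s + 1)` (a prime over `J` contains a minimal prime, `BSTM.mono`). Apply `PS.specDRP` `s + 1` times (each
time choose `c` outside of finitely many proper subspaces, possible over `ℂ`: `Subspace.biUnion_ne_univ..`): `c_0,
.., c_s` with `Dle (J + (lin c_i)) 0`. `W = ⋂ hyp c_i` has `finrank ≥ N - (s+1)`; by hypothesis there is `x ≠ 0` in `W` with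
`rk ≤ s`; `x` is a zero of `J + (lin c_i)`, whose ideal of the line `ℂ x` has `D = 1` (as in PS/ITR, case `j = 0`). -/
def SpecLMB : Prop := ∀ (N s : ℕ) (g : Biv N),
  (∀ W : Submodule ℂ (Cn N), N ≤ Module.finrank ℂ W + (s + 1) →
    ∃ x ∈ W, x ≠ 0 ∧ rk g.f x ≤ s) → BigI ⊥ g.f s

/-- LMC (~150 lines). Limits. PROOF. Fix `W` (it is closed). Choose `x_t ∈ W`, `‖x_t‖ = 1` (scale: `rk` does not change),
`rk (G t).f x_t ≤ s`; a subsequence converges to `x ∈ W`, `‖x‖ = 1`. By `PS.specRKC` the minors `mnr (G t).f`, `xmnr (G t).f`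
vanish at `x_t`. The numbers `eval x_t ((G t).f i j)` converge to `eval x (g₀.f i j)` (finitely many coefficients: the
polynomials are homogeneous of degree 2, sum over the monomials of degree 2). So the minors of `g₀` vanish at `x`
(`eval x (mnr ..)` is a determinant of values, continuous), and `PS.specRKU` gives `rk g₀.f x ≤ s`. -/
def SpecLMC : Prop := ∀ (N s : ℕ) (G : ℕ → Biv N) (g₀ : Biv N), Even s →
  (∀ i j m, Filter.Tendsto (fun t => coeff m ((G t).f i j)) Filter.atTop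
    (nhds (coeff m (g₀.f i j)))) →
  (∀ t, ∀ W : Submodule ℂ (Cn N), N ≤ Module.finrank ℂ W + (s + 1) →
    ∃ x ∈ W, x ≠ 0 ∧ rk (G t).f x ≤ s) →
  ∀ W : Submodule ℂ (Cn N), N ≤ Module.finrank ℂ W + (s + 1) →
    ∃ x ∈ W, x ≠ 0 ∧ rk g₀.f x ≤ s

end Pool.Agent.Lib.MPc9b009.LS
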