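import Pool.Agent.Lib.MP_c9b009_ag.LS.Spec

/-!
# MP_c9b009_ag, row LS, part B: the case `N` even

`g` a quadratic Poisson structure on `ℂ^N`, `N` even, with `det g = κ F²` (`LogE g F`): log symplectic on the cone.
The conclusion is the same: for all even `s < N - 1` the locus `X_{≤ s}` of the induced Poisson structure on
`ℙ^(N-1)` has a component of dimension `≥ s + 1`. Form of the modules as in `LS/Spec.lean` (import
`Pool.Agent.Lib.MP_c9b009_ag.LS.SpecB`).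
-/

set_option autoImplicit false

namespace Pool.Agent.Lib.MPc9b009.LS

open MvPolynomial Pool.Agent.Lib.MPc9b009.B5 Pool.Agent.Lib.MPc9b009.OD
  Pool.Agent.Lib.MPc9b009.PS

/-- STE (~120 lines), USES SQF. The components are Poisson. PROOF. `{a, b} = ∑ g_lm ∂_l a ∂_m b`, `F = ∏ F_i`, `G_i =
∏_(j ≠ i) F_j`. By `specMST` (B5) for `k = N` the ideal of the `N`-minors, which is generated by `det g = κ F²` (a minor
with repeated rows or columns is `0`, the others are `± det g`), is stable: `∑_i g_ij ∂_i (F²) = 2 F ∑_i g_ij ∂_i F` is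
divisible by `F²`, so `F ∣ ∑_i g_ij ∂_i F`. Leibniz: `F_i ∣ G_i ∑_l g_lj ∂_l F_i` (all other terms contain `F_i`), so
`F_i ∣ ∑_l g_lj ∂_l F_i` (SQF (2)). -/
def SpecSTE : Prop := ∀ (N n : ℕ) (g : Biv N) (F : Fin n → PR N), LogE g F →
  ∀ i l, F i ∣ ∑ m, g.f l m * pderiv m (F i)

/-- QAD (~250 lines). The adjugate is `F` times a matrix `Q` of rank 2 modulo every `F_i`. PROOF. Let `A = adj g`, `g A =
det g = κ F²`. Fix `i`, `K_i = Frac (S / F_i)`. `det g ≡ 0` modulo `F_i`, so the rank of `g` over `K_i` is `≤ N - 1`, and even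
(`specSKE`): `≤ N - 2`, so all entries of `A` are `≡ 0` modulo `F_i`. The `F_i` are pairwise not associated primes:
`F ∣ A_ab`, `A = F Q`, `g Q = κ F`. `Q` is skew: `A = adj g` is skew for `N` even (`adj (gᵀ) = (adj g)ᵀ`, `adj (-g) =
(-1)^(N-1) adj g`). CLAIM: the rank `ρ` of `g` over `K_i` is `N - 2`. Suppose `ρ ≤ N - 4` (even). Work in the localization
`O` of `S` at `(F_i)`, a discrete valuation ring with the uniformizer `F_i`: choose an invertible `U` over `O` such that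
the first `N - ρ ≥ 4` rows of `U g` are divisible by `F_i` (a basis of the left kernel modulo `F_i`, completed); then
also the columns of `U g Uᵀ`, and `det (U g Uᵀ)` is divisible by `F_i^(N - ρ)` (take `F_i` out of `N - ρ` rows), `N - ρ ≥ 4`,
but `det g = κ F²` is divisible by `F_i` exactly twice. THE LAST STATEMENT: over `K_i` `g Q = 0`, so the rank of `Q` is
`≤ 2`; a skew matrix of rank `≤ 2` over a field satisfies `Q_ab Q_cd - Q_ac Q_bd + Q_ad Q_bc = 0` (the Pfaffian of a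
`4 × 4` block, whose square is the `4 × 4` minor; a short direct proof: if `Q ≠ 0`, say `Q_pq ≠ 0`, every row is a
combination of the rows `p` and `q`, `Q = (row_p ∧ row_q)/Q_pq`). -/
def SpecQAD : Prop := ∀ (N n : ℕ) (g : Biv N) (F : Fin n → PR N), LogE g F →
  ∃ (κ : ℂ) (Q : Fin N → Fin N → PR N), κ ≠ 0 ∧ (∀ a b, Q b a = - Q a b) ∧
    (∀ a b, ∑ l, g.f a l * Q l b = if a = b then C κ * ∏ j, F j else 0) ∧
    ∀ i a b c d, F i ∣ Q a b * Q c d - Q a c * Q b d + Q a d * Q b c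

/-- ALE (~200 lines), USES SQF, STE, QAD. PROOF. `v(F) ∈ (F)` gives `v(F_i) ∈ (F_i)` for all `i` (Leibniz, SQF (2)). Put
`α_p = ∑_l Q_pl v_l`: `∑_b g_ab α_b = κ F v_a`. Fix `i`, work modulo `F_i` (over `K_i = Frac (S / F_i)`). `h_l = (∑_m g_lm
∂_m F_i) / F_i` (STE); `∑_l Q_pl h_l F_i = ∑_m (∑_l Q_pl g_lm) ∂_m F_i = κ F ∂_p F_i` up to sign (`Q g = κ F` too: `Q`, `g`
skew, transpose), so `∑_l Q_pl h_l = κ G_i ∂_p F_i`: `∇F_i` is `Q` applied to `h / (κ G_i)`. The Plücker relations of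
QAD contracted with `h_b`, `v_d` (indices `a, c` free): `(Qh)_a (Qv)_c - Q_ac (h·Qv) + (Qv)_a (Qh)_c·(-1) .. ≡ 0`, precisely
`∑_(b,d) h_b v_d (Q_ab Q_cd - Q_ac Q_bd + Q_ad Q_bc) = (Qh)_a (Qv)_c - Q_ac (h · Qv) - (Qv)_a (Qh)_c` (`∑_b Q_bc h_b = -
(Qh)_c`). `h · Qv = - v · Qh ≡ - κ G_i v · ∇F_i = - κ G_i v(F_i) ≡ 0`. So `(Qh)_a (Qv)_c ≡ (Qv)_a (Qh)_c`, i.e. `κ G_i (∂_a
F_i α_c - α_a ∂_c F_i) ≡ 0` modulo `F_i`; cancel `G_i` (SQF (2)). -/
def SpecALE : Prop := ∀ (N n : ℕ) (g : Biv N) (F : Fin n → PR N), LogE g F →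
  ∀ v : Fin N → PR N, vf v (∏ j, F j) ∈ Ideal.span {∏ j, F j} →
  ∃ (κ : ℂ) (α : Fin N → PR N), κ ≠ 0 ∧ (∀ a, ∑ b, g.f a b * α b = C κ * (∏ j, F j) * v a) ∧
    ∀ i p q, F i ∣ α p * pderiv q (F i) - α q * pderiv p (F i)

/-- HME (~200 lines), USES SQF, STE. As HMI. PROOF. COPY of `LS/HMI.lean`: there `F_i ∣ {x_l, F_i}` follows from the
Casimir `F`, here it is STE; everything else is the same (wait for that file, or write the common part
yourself). -/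
def SpecHME : Prop := ∀ (N n : ℕ) (g : Biv N) (F : Fin n → PR N), LogE g F →
  ∃ h : Fin n → Fin N → PR N, (∀ i l, F i * h i l = ∑ m, g.f l m * pderiv m (F i)) ∧
    CF ⊥ g h ∧ (∀ i, ∀ q ∈ Ideal.span {∏ j, F j}, vf (h i) q ∈ Ideal.span {∏ j, F j}) ∧
    (∀ i j, ∀ q ∈ Ideal.span {F j}, vf (h i) q ∈ Ideal.span {F j}) ∧
    Stab g.f (Ideal.span {∏ j, F j}) ∧ ∀ j, Stab g.f (Ideal.span {F j})

/-- GNE (~100 lines), USES ALE, RES. As GNN. PROOF. ALE for `v`, RES: `α_p = ∑_i a_i G_i ∂_p F_i + F ζ_p`. `κ F v_l = ∑_p g_lp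
α_p = ∑_i a_i G_i F_i h_il + F ∑_p g_lp ζ_p = F (..)`; cancel `F`, divide by `κ`. (The coefficient of the column `x` is
`0`.) -/
def SpecGNE : Prop := ∀ (N n : ℕ) (g : Biv N) (F : Fin n → PR N), LogE g F →
  ∀ h : Fin n → Fin N → PR N, (∀ i l, F i * h i l = ∑ m, g.f l m * pderiv m (F i)) →
  ∀ v : Fin N → PR N, vf v (∏ j, F j) ∈ Ideal.span {∏ j, F j} →
  ∃ c : Fin (N + n + 1) → PR N, ∀ l, v l = ∑ j, th g h l j * c j

/-- LPE (~150 lines), USES GTH, HME, GNE. As LSP. PROOF. `N` is even (`det g = 0` for `N` odd), `s + 1 < N`, so `s ≤ N - 2`.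
If `s = N - 2`: all points have `rk ≤ N - 2` (`rk` is even and `≤ N - 1`: e.g. `rk g.f x ≤ rank g(x) ≤ N`, and if the rank is
`N` then `x` is in the range and `rk = N - 2`; otherwise `rk ≤ rank ≤ N - 2`), so `vanI ⊥ g.f s = ⊥` (`PS.specBGI` with
`q = ⊥`, `D(⊥) = N`). If `s ≤ N - 4`: GTH with `I = ⊥`, `z = (F)`, `p = (F_0)`, `D(p) = N - 1 ≥ s + 2`, as in LSP. -/
def SpecLPE : Prop := ∀ (N n s : ℕ) (g : Biv N) (F : Fin n → PR N), LogE g F → Even s →
  s + 1 < N → BigI ⊥ g.f s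

end Pool.Agent.Lib.MPc9b009.LS
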